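import Pool.Agent.Lib.P7b.LPDefs

/-! MP_7b5a71: nearby segments.

`near_car`: `w = (1 - t) s'.1 + t s'.2`, take `z = (1 - t) s.1 + t s.2`.
`exists_path_dist`: `face R x` is open and connected, hence path connected (`IsOpen.isConnected_iff_isPathConnected`, `x ∉ un R`); the range `K` of the path is compact and disjoint from the closed
set `un R`, so there is a positive distance.
`face_of_path`: `K` connected, off `un R'`, contains `x` and `w`.
`cross_of_sides`: let `u = s.2 - s.1 ≠ 0`, `m ∈ car s` at distance `≥ 2 r` from `s.1` and `s.2`, `w₀ ∉` the line of `s`, `dist w₀ m < r`, `w₁ = 2 m - w₀`.  For `s'` sufficiently close to `s` the segment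
`[w₀, w₁]` meets `car s'`.  (Signed area `im (conj (s'.2 - s'.1) * (z - s'.1))` is continuous in `s'` and has opposite signs at `w₀`, `w₁` for `s' = s`; so for `s'` near `s` the segment meets the line of `s'`
at a point of the ball `ball m r`; its projection parameter on `s'` is in `(0, 1)` because it is so, with a margin, for `s`.)  The threshold `η` depends on `s, m, w₀, r` only. -/

namespace P7b

open Complex

theorem near_car {s s' : Sg} {η : ℝ} (h1 : dist s'.1 s.1 < η) (h2 : dist s'.2 s.2 < η) {w : ℂ}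
    (hw : w ∈ car s') : ∃ z ∈ car s, dist w z < η := by
  obtain ⟨a, b, ha, hb, hab, rfl⟩ := hw
  refine ⟨a • s.1 + b • s.2, ⟨a, b, ha, hb, hab, rfl⟩, ?_⟩
  have e : (a • s'.1 + b • s'.2) - (a • s.1 + b • s.2) = a • (s'.1 - s.1) + b • (s'.2 - s.2) := by
    simp only [Complex.real_smul]; ring
  rw [dist_eq_norm, e]
  rw [dist_eq_norm] at h1 h2
  have h3 : ‖a • (s'.1 - s.1) + b • (s'.2 - s.2)‖ ≤ a * ‖s'.1 - s.1‖ + b * ‖s'.2 - s.2‖ := by
    refine (norm_add_le _ _).trans ?_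
    rw [norm_smul, norm_smul, Real.norm_of_nonneg ha, Real.norm_of_nonneg hb]
  refine lt_of_le_of_lt h3 ?_
  rcases ha.eq_or_lt with h0 | h0
  · have hb1 : b = 1 := by linarith
    rw [← h0, hb1]; linarith
  · have h4 : a * η + b * η = η := by rw [← add_mul, hab, one_mul]
    have h5 := mul_lt_mul_of_pos_left h1 h0
    have h6 := mul_le_mul_of_nonneg_left h2.le hb
    linarith

theorem exists_path_dist (R : Finset Sg) {x w : ℂ} (hx : x ∉ un R) (hw : w ∈ face R x) :
    ∃ K : Set ℂ, IsCompact K ∧ IsConnected K ∧ x ∈ K ∧ w ∈ K ∧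
      ∃ κ > 0, ∀ z ∈ K, ∀ y ∈ un R, κ ≤ dist z y := by
  have hcl : IsClosed (un R) := by
    unfold un
    refine R.finite_toSet.isClosed_biUnion fun s _ => ?_
    have : IsCompact (car s) := by
      unfold car
      rw [segment_eq_image]
      exact isCompact_Icc.image (by fun_prop)
    exact this.isClosed
  have hx' : x ∈ (un R)ᶜ := hx
  have hop : IsOpen (face R x) := hcl.isOpen_compl.connectedComponentIn
  have hcon : IsConnected (face R x) := isConnected_connectedComponentIn_iff.2 hx'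
  have hpc : IsPathConnected (face R x) := hop.isConnected_iff_isPathConnected.1 hcon
  have hj : JoinedIn (face R x) x w := hpc.joinedIn x (mem_connectedComponentIn hx') w hw
  set γ := hj.somePath with hγ
  have hsub : Set.range γ ⊆ face R x := by
    rintro _ ⟨t, rfl⟩
    exact hj.somePath_mem t
  have hcomp : IsCompact (Set.range γ) := isCompact_range γ.continuous
  refine ⟨Set.range γ, hcomp, ⟨⟨x, 0, γ.source⟩, (isConnected_range γ.continuous).2⟩,
    ⟨0, γ.source⟩, ⟨1, γ.target⟩, ?_⟩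
  have hdis : Disjoint (Set.range γ) (un R) := by
    refine Set.disjoint_left.2 fun z hz hz' => ?_
    exact (connectedComponentIn_subset _ _ (hsub hz)) hz'
  obtain ⟨δ, hδ, hD⟩ := hdis.exists_thickenings hcomp hcl
  refine ⟨δ, hδ, fun z hz y hy => ?_⟩
  by_contra h
  rw [not_le] at h
  exact Set.disjoint_left.1 hD (Metric.self_subset_thickening hδ _ hz)
    (Metric.mem_thickening_iff.2 ⟨y, hy, h⟩)

theorem face_of_path (R' : Finset Sg) {x w : ℂ} {K : Set ℂ} (hK : IsConnected K) (hx : x ∈ K)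
    (hw : w ∈ K) (hd : ∀ z ∈ K, z ∉ un R') : w ∈ face R' x := by
  exact hK.isPreconnected.subset_connectedComponentIn hx (fun z hz => hd z hz) hw

theorem cross_of_sides {s : Sg} (hs : s.1 ≠ s.2) {m w₀ : ℂ} {r : ℝ} (hr : 0 < r) (hm : m ∈ car s)
    (h1 : 2 * r ≤ dist m s.1) (h2 : 2 * r ≤ dist m s.2) (hw : dist w₀ m < r)
    (hl : ∀ t : ℝ, w₀ ≠ s.1 + (t : ℂ) * (s.2 - s.1)) :
    ∃ η > 0, ∀ s' : Sg, dist s'.1 s.1 < η → dist s'.2 s.2 < η →
      ∃ y ∈ segment ℝ w₀ (2 * m - w₀), y ∈ car s' := by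
  classical
  set F : Sg → ℂ → ℝ := fun s' z => ((starRingEnd ℂ) (s'.2 - s'.1) * (z - s'.1)).im with hF
  set G : Sg → ℂ → ℝ := fun s' z => ((starRingEnd ℂ) (s'.2 - s'.1) * (z - s'.1)).re with hG
  set u : ℂ := s.2 - s.1 with hu
  have hu0 : u ≠ 0 := sub_ne_zero.2 hs.symm
  have hun : 0 < ‖u‖ := norm_pos_iff.2 hu0
  obtain ⟨a, b, ha, hb, hab, hmeq⟩ := hm
  have hm' : m - s.1 = (b : ℂ) * u := by
    rw [← hmeq, hu]
    simp only [Complex.real_smul]
    have : (a : ℂ) = 1 - b := by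
      have h9 := congrArg (fun x : ℝ => (x : ℂ)) hab
      push_cast at h9
      linear_combination h9
    rw [this]; ring
  have hm2 : m - s.2 = -((a : ℂ) * u) := by
    rw [← hmeq, hu]
    simp only [Complex.real_smul]
    have : (b : ℂ) = 1 - a := by
      have h9 := congrArg (fun x : ℝ => (x : ℂ)) hab
      push_cast at h9
      linear_combination h9
    rw [this]; ring
  have hb2 : 2 * r ≤ b * ‖u‖ := by
    rw [dist_eq_norm, hm', norm_mul, Complex.norm_real, Real.norm_of_nonneg hb] at h1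
    exact h1
  have ha2 : 2 * r ≤ a * ‖u‖ := by
    rw [dist_eq_norm, hm2, norm_neg, norm_mul, Complex.norm_real, Real.norm_of_nonneg ha] at h2
    exact h2
  have hcu : (starRingEnd ℂ) u * u = ((‖u‖ ^ 2 : ℝ) : ℂ) := by
    rw [mul_comm, Complex.mul_conj, Complex.normSq_eq_norm_sq]
  -- values at `s`
  have hGs : ∀ z ∈ Metric.closedBall m r, 0 < G s z ∧ 0 < ‖s.2 - s.1‖ ^ 2 - G s z := by
    intro z hz
    have hz' : ‖z - m‖ ≤ r := by
      rw [← dist_eq_norm]; exact Metric.mem_closedBall.1 hz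
    have e1 : G s z = b * ‖u‖ ^ 2 + ((starRingEnd ℂ) u * (z - m)).re := by
      have : (starRingEnd ℂ) u * (z - s.1) = ((b * ‖u‖ ^ 2 : ℝ) : ℂ) +
          (starRingEnd ℂ) u * (z - m) := by
        have h3 : z - s.1 = (z - m) + (b : ℂ) * u := by rw [← hm']; ring
        rw [h3, mul_add, show (starRingEnd ℂ) u * ((b : ℂ) * u) =
          (b : ℂ) * ((starRingEnd ℂ) u * u) by ring, hcu]
        push_cast; ring
      simp only [hG, ← hu]
      rw [this, Complex.add_re, Complex.ofReal_re]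
    have e2 : |((starRingEnd ℂ) u * (z - m)).re| ≤ ‖u‖ * r := by
      refine (Complex.abs_re_le_norm _).trans ?_
      rw [norm_mul, Complex.norm_conj]
      exact mul_le_mul_of_nonneg_left hz' hun.le
    have e3 := abs_le.1 e2
    have h3 : 0 < ‖u‖ * r := mul_pos hun hr
    have h4 : 2 * r * ‖u‖ ≤ b * ‖u‖ * ‖u‖ := mul_le_mul_of_nonneg_right hb2 hun.le
    have h5 : 2 * r * ‖u‖ ≤ a * ‖u‖ * ‖u‖ := mul_le_mul_of_nonneg_right ha2 hun.le
    have h6 : a = 1 - b := by linarith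
    rw [h6] at h5
    rw [← hu, e1]
    constructor
    · nlinarith [e3.1]
    · nlinarith [e3.2]
  have hF0 : F s w₀ ≠ 0 := by
    intro h0
    have hre : (starRingEnd ℂ) u * (w₀ - s.1) =
        ((((starRingEnd ℂ) u * (w₀ - s.1)).re : ℝ) : ℂ) := by
      apply Complex.ext
      · simp
      · rw [Complex.ofReal_im]; exact h0
    apply hl (((starRingEnd ℂ) u * (w₀ - s.1)).re / ‖u‖ ^ 2)
    have h3 : (‖u‖ : ℂ) ≠ 0 := by exact_mod_cast hun.ne'
    have h4 : (starRingEnd ℂ) u * u * (w₀ - s.1) =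
        ((((starRingEnd ℂ) u * (w₀ - s.1)).re : ℝ) : ℂ) * u := by
      rw [← hre]; ring
    rw [hcu] at h4
    have h5 : w₀ - s.1 = ((((starRingEnd ℂ) u * (w₀ - s.1)).re : ℝ) : ℂ) * u / (‖u‖ : ℂ) ^ 2 := by
      rw [eq_div_iff (pow_ne_zero 2 h3), ← h4]; push_cast; ring
    calc w₀ = s.1 + (w₀ - s.1) := by ring
      _ = s.1 + ((((starRingEnd ℂ) u * (w₀ - s.1)).re : ℝ) : ℂ) * u / (‖u‖ : ℂ) ^ 2 := by rw [← h5]
      _ = _ := by push_cast; ring
  have hF1 : F s (2 * m - w₀) = -F s w₀ := by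
    have h3 : F s m = 0 := by
      simp only [hF, ← hu]
      rw [hm', show (starRingEnd ℂ) u * ((b : ℂ) * u) = (b : ℂ) * ((starRingEnd ℂ) u * u) by ring,
        hcu, ← Complex.ofReal_mul, Complex.ofReal_im]
    have h4 : (starRingEnd ℂ) u * (2 * m - w₀ - s.1) =
        2 * ((starRingEnd ℂ) u * (m - s.1)) - (starRingEnd ℂ) u * (w₀ - s.1) := by ring
    simp only [hF, ← hu] at h3 ⊢
    rw [h4, Complex.sub_im, Complex.mul_im, h3]
    simp
  have hcont : Continuous (fun q : Sg × ℂ => (starRingEnd ℂ) (q.1.2 - q.1.1) * (q.2 - q.1.1)) :=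
    (Complex.continuous_conj.comp (by fun_prop)).mul (by fun_prop)
  have hcF : Continuous (fun q : Sg × ℂ => F q.1 q.2) := Complex.continuous_im.comp hcont
  have hcG : Continuous (fun q : Sg × ℂ => G q.1 q.2) := Complex.continuous_re.comp hcont
  have hcN : Continuous (fun q : Sg × ℂ => ‖q.1.2 - q.1.1‖ ^ 2 - G q.1 q.2) := by
    refine Continuous.sub ?_ hcG
    fun_prop
  have ev1 : ∀ᶠ s' in nhds s, ∀ z ∈ Metric.closedBall m r,
      0 < G s' z ∧ 0 < ‖s'.2 - s'.1‖ ^ 2 - G s' z := by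
    refine (isCompact_closedBall m r).eventually_forall_of_forall_eventually fun z hz => ?_
    exact (hcG.continuousAt.eventually (lt_mem_nhds (hGs z hz).1)).and
      (hcN.continuousAt.eventually (lt_mem_nhds (hGs z hz).2))
  have ev2 : ∀ᶠ s' in nhds s, F s' w₀ * F s' (2 * m - w₀) < 0 := by
    have h3 : Continuous (fun s' : Sg => F s' w₀ * F s' (2 * m - w₀)) :=
      (hcF.comp (Continuous.prodMk_left w₀)).mul (hcF.comp (Continuous.prodMk_left (2 * m - w₀)))
    refine h3.continuousAt.eventually (gt_mem_nhds ?_)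
    show F s w₀ * F s (2 * m - w₀) < 0
    rw [hF1]
    have := mul_self_pos.2 hF0
    linarith
  obtain ⟨η, hη, hball⟩ := Metric.eventually_nhds_iff_ball.1 (ev1.and ev2)
  refine ⟨η, hη, fun s' hd1 hd2 => ?_⟩
  obtain ⟨hG', hF'⟩ := hball s' (by
    rw [Metric.mem_ball, Prod.dist_eq]; exact max_lt hd1 hd2)
  set w₁ : ℂ := 2 * m - w₀ with hw₁
  have hcτ : Continuous (fun τ : ℝ => F s' (w₀ + (τ : ℂ) * (w₁ - w₀))) := by
    refine hcF.comp (Continuous.prodMk continuous_const ?_)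
    fun_prop
  have h0mem : (0 : ℝ) ∈ Set.uIcc (F s' (w₀ + ((0 : ℝ) : ℂ) * (w₁ - w₀)))
      (F s' (w₀ + ((1 : ℝ) : ℂ) * (w₁ - w₀))) := by
    have e0 : w₀ + ((0 : ℝ) : ℂ) * (w₁ - w₀) = w₀ := by simp
    have e1 : w₀ + ((1 : ℝ) : ℂ) * (w₁ - w₀) = w₁ := by simp
    rw [e0, e1, Set.mem_uIcc]
    rcases mul_neg_iff.1 hF' with ⟨h3, h4⟩ | ⟨h3, h4⟩
    · exact Or.inr ⟨h4.le, h3.le⟩
    · exact Or.inl ⟨h3.le, h4.le⟩
  obtain ⟨τ, hτ, hzero⟩ := intermediate_value_uIcc (a := (0 : ℝ)) (b := 1)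
    (f := fun τ : ℝ => F s' (w₀ + (τ : ℂ) * (w₁ - w₀))) hcτ.continuousOn h0mem
  rw [Set.uIcc_of_le zero_le_one] at hτ
  set y : ℂ := w₀ + (τ : ℂ) * (w₁ - w₀) with hy
  have hym : y ∈ Metric.closedBall m r := by
    rw [Metric.mem_closedBall, dist_eq_norm]
    have e1 : y - m = ((1 - 2 * τ : ℝ) : ℂ) * (w₀ - m) := by
      rw [hy, hw₁]; push_cast; ring
    rw [e1, norm_mul, Complex.norm_real, Real.norm_eq_abs]
    have h3 : |1 - 2 * τ| ≤ 1 := abs_le.2 ⟨by linarith [hτ.2], by linarith [hτ.1]⟩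
    rw [dist_eq_norm] at hw
    calc |1 - 2 * τ| * ‖w₀ - m‖ ≤ 1 * ‖w₀ - m‖ :=
          mul_le_mul_of_nonneg_right h3 (norm_nonneg _)
      _ ≤ r := by linarith
  refine ⟨y, ⟨1 - τ, τ, by linarith [hτ.2], hτ.1, by ring, ?_⟩, ?_⟩
  · rw [hy]; simp only [Complex.real_smul]; push_cast; ring
  · obtain ⟨hg1, hg2⟩ := hG' y hym
    set v : ℂ := s'.2 - s'.1 with hv
    have hcv : (starRingEnd ℂ) v * v = ((‖v‖ ^ 2 : ℝ) : ℂ) := by
      rw [mul_comm, Complex.mul_conj, Complex.normSq_eq_norm_sq]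
    have hvpos : 0 < ‖v‖ ^ 2 := by linarith
    have hreal : (starRingEnd ℂ) v * (y - s'.1) = ((G s' y : ℝ) : ℂ) := by
      apply Complex.ext
      · rw [Complex.ofReal_re]
      · rw [Complex.ofReal_im]; exact hzero
    have h3 : ((‖v‖ ^ 2 : ℝ) : ℂ) ≠ 0 := by exact_mod_cast hvpos.ne'
    have h4 : y - s'.1 = ((G s' y / ‖v‖ ^ 2 : ℝ) : ℂ) * v := by
      have h5 : (starRingEnd ℂ) v * v * (y - s'.1) = ((G s' y : ℝ) : ℂ) * v := by
        rw [← hreal]; ring
      rw [hcv] at h5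
      rw [Complex.ofReal_div]
      field_simp
      rw [← h5]
      ring
    refine ⟨1 - G s' y / ‖v‖ ^ 2, G s' y / ‖v‖ ^ 2, ?_, by positivity, by ring, ?_⟩
    · rw [sub_nonneg, div_le_one hvpos]; linarith
    · simp only [Complex.real_smul]
      have h6 : y = s'.1 + ((G s' y / ‖v‖ ^ 2 : ℝ) : ℂ) * v := by rw [← h4]; ring
      conv_rhs => rw [h6]
      rw [hv]; push_cast; ring

end P7b
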