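import Pool.Agent.Lib.P7b.Pocket

/-! MP_7b5a71: the pocket on a segment `b` different from the segment `a` of `u`.

`P = In u m c`, `v = nxt^m u`.
* `in_str`: for `d` on `b ≠ a`, not a tip, with `seg (nxt d) ≠ a`: `P (str d) ↔ P d` (`in_nxt` for `d`, `in_rev` for `nxt d`, and `in_nxt` for
  `rev (nxt d)`, whose `nxt` is `str d` on `b`).
* `in_const`: if `b` does not cross `a` then `P` is constant on `b`: along each direction by `chain` and `in_str` (if some dart `d'` of
  `b`, not a tip, had `seg (nxt d') = a`, then `d'' = rev (nxt d')` would be a non-tip dart of `a` with `seg (nxt d'') = b`, so `b ∈ cr a`), and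
  `in_rev` relates the two directions.
* `in_half`: `b` crosses `a` at the head of `e` (`e` on the side of `u`, not a tip, `f = nxt e` on `b`).  For `d` on `b` in the direction of
  `f`: if `pos f ≤ pos d` then `P d ↔ pos u ≤ pos e < pos v` (go from `f` to `d` by `chain`; `P f` is `in_front`; no dart `d'` met before `d` has
  `seg (nxt d') = a` because of `cross_uniq` on `b`: the dart `f' = rev (nxt (rev (str e)))` (`str f' = f` by `str_right`, so `pos f' + 1 = pos f`) has the
  same direction as `f` and `seg (nxt f') = a`; `nxt f' = rev e`, compare the proof of `seg_right`).  If `pos d < pos f`, i.e. `pos d ≤ pos f'`, then `¬ P d`: `¬ P f'`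
  by `in_back` and `in_rev`; go backwards.
* `exists_cross`: if `P p` and `¬ P q` for two darts `p, q` of `b` (any directions) then `b` crosses `a` in the range: by `in_const` `b ∈ cr a`, so
  there is such an `e` on the side of `u` (if the dart given by `b ∈ cr a` has the opposite direction, `e' = rev (str d)` has the right one and the same
  crossing segment, `seg_right`), and if `e` is not in the range then `¬ P p` by `in_half` (and `in_rev`). -/

namespace P7b

namespace PreMap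

variable {M : PreMap}

namespace PkSegAux

/-- seg, dir, pos of the iterates of `str` -/
private theorem iter (h : M.Ax) (d : M.D) : ∀ k : ℕ, (∀ i < k, ¬ M.tip (M.str^[i] d)) →
    M.seg (M.str^[k] d) = M.seg d ∧ M.dir (M.str^[k] d) = M.dir d ∧
      M.pos (M.str^[k] d) = M.pos d + k := by
  intro k
  induction k with
  | zero => intro _; simp
  | succ k ih =>
    intro hk
    obtain ⟨h1, h2, h3⟩ := ih fun i hi => hk i (Nat.lt_succ_of_lt hi)
    have ht := hk k (Nat.lt_succ_self k)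
    rw [Function.iterate_succ_apply']
    refine ⟨?_, ?_, ?_⟩
    · rw [h.str_seg _ ht, h1]
    · rw [h.str_dir _ ht, h2]
    · rw [h.str_pos _ ht, h3]; ring

private theorem in_str' (h : M.Ax) {u : M.D} {m : ℕ} {c} (hc : M.Col u m c) (d : M.D)
    (hs : M.seg d ≠ M.seg u) (ht : ¬ M.tip d) (hn : M.seg (M.nxt d) ≠ M.seg u) :
    (M.In u m c (M.str d) ↔ M.In u m c d) := by
  have h1 := h.in_nxt hc d hs hn
  have h2 := h.in_rev hc (M.nxt d) hn
  have h3 : (M.In u m c (M.nxt (M.rev (M.nxt d))) ↔ M.In u m c (M.rev (M.nxt d))) := by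
    apply h.in_nxt hc
    · rw [h.seg_rev]; exact hn
    · have := h.str_seg d ht
      unfold str at this
      rw [this]; exact hs
  unfold str
  exact h3.trans (h2.trans h1)

/-- walking along a segment different from `seg u` without crossing it -/
private theorem walk (h : M.Ax) {u : M.D} {m : ℕ} {c} (hc : M.Col u m c) (d : M.D)
    (hs : M.seg d ≠ M.seg u) : ∀ k : ℕ, (∀ i < k, ¬ M.tip (M.str^[i] d)) →
    (∀ i < k, M.seg (M.nxt (M.str^[i] d)) ≠ M.seg u) →
    (M.In u m c (M.str^[k] d) ↔ M.In u m c d) := by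
  intro k
  induction k with
  | zero => intro _ _; simp
  | succ k ih =>
    intro hk hn
    have h1 := ih (fun i hi => hk i (Nat.lt_succ_of_lt hi)) (fun i hi => hn i (Nat.lt_succ_of_lt hi))
    rw [Function.iterate_succ_apply']
    have h2 := iter h d k fun i hi => hk i (Nat.lt_succ_of_lt hi)
    have h3 := in_str' h hc (M.str^[k] d) (by rw [h2.1]; exact hs) (hk k (Nat.lt_succ_self k))
      (hn k (Nat.lt_succ_self k))
    exact h3.trans h1

/-- the dart before `nxt e` on its side -/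
private theorem before (h : M.Ax) (e : M.D) (ht : ¬ M.tip e) :
    ∃ f', f' = M.rev (M.nxt (M.rev (M.str e))) ∧ ¬ M.tip f' ∧ M.seg f' = M.seg (M.nxt e) ∧
      M.dir f' = M.dir (M.nxt e) ∧ M.pos (M.nxt e) = M.pos f' + 1 ∧ M.seg (M.nxt f') = M.seg e := by
  refine ⟨_, rfl, ?_, ?_, ?_, ?_, ?_⟩
  · rw [h.tip_rev_nxt, h.tip_rev_str]; exact ht
  · rw [h.seg_rev, h.seg_right e ht]
  · rw [h.dir_rev, h.dir_right e ht, Bool.not_not]
  · have h1 : ¬ M.tip (M.rev (M.nxt (M.rev (M.str e)))) := by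
      rw [h.tip_rev_nxt, h.tip_rev_str]; exact ht
    have h2 := h.str_pos _ h1
    rw [h.str_right e ht] at h2
    exact h2
  · have h3 := h.str_rev e ht
    unfold str at h3 ⊢
    rw [h3, h.seg_rev]

private theorem const_dir (h : M.Ax) {u : M.D} {m : ℕ} {c} (hc : M.Col u m c) (d e : M.D)
    (hs : M.seg d ≠ M.seg u) (he : M.seg e = M.seg d) (hd : M.dir e = M.dir d)
    (hp : M.pos d ≤ M.pos e)
    (hA : ∀ d', M.seg d' = M.seg d → ¬ M.tip d' → M.seg (M.nxt d') ≠ M.seg u) :
    (M.In u m c e ↔ M.In u m c d) := by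
  obtain ⟨h1, h2⟩ := h.chain d e he.symm hd.symm hp
  have h3 := walk h hc d hs (M.pos e - M.pos d) h1 (by
    intro i hi
    apply hA
    · exact (iter h d i fun j hj => h1 j (lt_trans hj hi)).1
    · exact h1 i hi)
  rw [h2] at h3
  exact h3

private theorem mem_cr (s g : M.S) :
    g ∈ M.cr s ↔ ∃ d : M.D, M.seg d = s ∧ ¬ M.tip d ∧ M.seg (M.nxt d) = g := by
  simp only [cr, Finset.mem_filter, Finset.mem_univ, true_and]

private theorem bool_ne {a b : Bool} (h : a ≠ b) : (!a) = b := by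
  cases a <;> cases b <;> simp_all

end PkSegAux

open PkSegAux

theorem Ax.in_str (h : M.Ax) {u : M.D} {m : ℕ} {c} (hc : M.Col u m c) (d : M.D)
    (hs : M.seg d ≠ M.seg u) (ht : ¬ M.tip d) (hn : M.seg (M.nxt d) ≠ M.seg u) :
    (M.In u m c (M.str d) ↔ M.In u m c d) :=
  in_str' h hc d hs ht hn

theorem Ax.in_const (h : M.Ax) {u : M.D} {m : ℕ} {c} (hc : M.Col u m c) (d e : M.D)
    (hs : M.seg d ≠ M.seg u) (he : M.seg e = M.seg d) (hn : M.seg d ∉ M.cr (M.seg u)) :
    (M.In u m c d ↔ M.In u m c e) := by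
  have hA : ∀ d', M.seg d' = M.seg d → ¬ M.tip d' → M.seg (M.nxt d') ≠ M.seg u := by
    intro d' h1 h2 h3
    apply hn
    rw [mem_cr]
    refine ⟨M.rev (M.nxt d'), ?_, ?_, ?_⟩
    · rw [h.seg_rev, h3]
    · rw [h.tip_rev_nxt]; exact h2
    · rw [h.seg_nxt_rev_nxt d' h2, h1]
  have key : ∀ e, M.seg e = M.seg d → M.dir e = M.dir d → (M.In u m c d ↔ M.In u m c e) := by
    intro e he hd
    rcases le_total (M.pos d) (M.pos e) with hp | hp
    · exact (const_dir h hc d e hs he hd hp hA).symm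
    · exact const_dir h hc e d (by rw [he]; exact hs) he.symm hd.symm hp (by rw [he]; exact hA)
  by_cases hd : M.dir e = M.dir d
  · exact key e he hd
  · have h1 := key (M.rev e) (by rw [h.seg_rev, he]) (by rw [h.dir_rev]; exact bool_ne hd)
    rw [h.in_rev hc e (by rw [he]; exact hs)] at h1
    exact h1

theorem Ax.in_half_front (h : M.Ax) {u : M.D} {m : ℕ} {c} (hc : M.Col u m c) (e d : M.D)
    (hs : M.seg e = M.seg u) (hd : M.dir e = M.dir u) (ht : ¬ M.tip e)
    (hsd : M.seg d = M.seg (M.nxt e)) (hdd : M.dir d = M.dir (M.nxt e))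
    (hp : M.pos (M.nxt e) ≤ M.pos d) :
    (M.In u m c d ↔ M.pos u ≤ M.pos e ∧ M.pos e < M.pos ((M.nxt^[m]) u)) := by
  have hb : M.seg (M.nxt e) ≠ M.seg u := by rw [← hs]; exact h.nxt_seg e ht
  obtain ⟨f', _, hf1, hf2, hf3, hf4, hf5⟩ := before h e ht
  obtain ⟨h1, h2⟩ := h.chain (M.nxt e) d hsd.symm hdd.symm hp
  have h3 := walk h hc (M.nxt e) hb (M.pos d - M.pos (M.nxt e)) h1 (by
    intro i hi h4
    obtain ⟨g1, g2, g3⟩ := iter h (M.nxt e) i fun j hj => h1 j (lt_trans hj hi)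
    have h5 := h.cross_uniq (M.str^[i] (M.nxt e)) f' (h1 i hi) hf1 (by rw [g1, hf2])
      (by rw [g2, hf3]) (by rw [h4, hf5, hs])
    rw [h5] at g3
    omega)
  rw [h2] at h3
  exact h3.trans (h.in_front hc e hs hd ht)

theorem Ax.in_half_back (h : M.Ax) {u : M.D} {m : ℕ} {c} (hc : M.Col u m c) (e d : M.D)
    (hs : M.seg e = M.seg u) (hd : M.dir e = M.dir u) (ht : ¬ M.tip e)
    (hsd : M.seg d = M.seg (M.nxt e)) (hdd : M.dir d = M.dir (M.nxt e))
    (hp : M.pos d < M.pos (M.nxt e)) : ¬ M.In u m c d := by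
  have hb : M.seg (M.nxt e) ≠ M.seg u := by rw [← hs]; exact h.nxt_seg e ht
  obtain ⟨f', hf0, hf1, hf2, hf3, hf4, hf5⟩ := before h e ht
  obtain ⟨h1, h2⟩ := h.chain d f' (by rw [hsd, hf2]) (by rw [hdd, hf3]) (by omega)
  have h3 := walk h hc d (by rw [hsd]; exact hb) (M.pos f' - M.pos d) h1 (by
    intro i hi h4
    obtain ⟨g1, g2, g3⟩ := iter h d i fun j hj => h1 j (lt_trans hj hi)
    have h5 := h.cross_uniq (M.str^[i] d) f' (h1 i hi) hf1 (by rw [g1, hf2, hsd])
      (by rw [g2, hf3, hdd]) (by rw [h4, hf5, hs])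
    rw [h5] at g3
    omega)
  rw [h2] at h3
  rw [← h3, hf0, h.in_rev hc _ (by rw [h.seg_right e ht]; exact hb)]
  exact h.in_back hc e hs hd ht

/-- If the segment `b ≠ seg u` has a dart in the pocket and a dart outside then it crosses `seg u` between `u`
and `v`. -/
theorem Ax.exists_cross (h : M.Ax) {u : M.D} {m : ℕ} {c} (hc : M.Col u m c) (p q : M.D)
    (hs : M.seg p ≠ M.seg u) (hpq : M.seg q = M.seg p) (hp : M.In u m c p) (hq : ¬ M.In u m c q) :
    ∃ e, M.seg e = M.seg u ∧ M.dir e = M.dir u ∧ ¬ M.tip e ∧ M.seg (M.nxt e) = M.seg p ∧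
      M.pos u ≤ M.pos e ∧ M.pos e < M.pos ((M.nxt^[m]) u) := by
  have hcr : M.seg p ∈ M.cr (M.seg u) := by
    by_contra hn
    exact hq ((h.in_const hc p q hs hpq hn).1 hp)
  rw [mem_cr] at hcr
  obtain ⟨d0, hd1, hd2, hd3⟩ := hcr
  obtain ⟨e, he1, he2, he3, he4⟩ : ∃ e, M.seg e = M.seg u ∧ M.dir e = M.dir u ∧ ¬ M.tip e ∧
      M.seg (M.nxt e) = M.seg p := by
    by_cases hdir : M.dir d0 = M.dir u
    · exact ⟨d0, hd1, hdir, hd2, hd3⟩
    · refine ⟨M.rev (M.str d0), ?_, ?_, ?_, ?_⟩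
      · rw [h.seg_rev, h.str_seg d0 hd2, hd1]
      · rw [h.dir_rev, h.str_dir d0 hd2]; exact bool_ne hdir
      · rw [h.tip_rev_str]; exact hd2
      · rw [h.seg_right d0 hd2, hd3]
  have key : ∀ p', M.seg p' = M.seg p → M.dir p' = M.dir (M.nxt e) → M.In u m c p' →
      M.pos u ≤ M.pos e ∧ M.pos e < M.pos ((M.nxt^[m]) u) := by
    intro p' h1 h2 h3
    rcases lt_or_ge (M.pos p') (M.pos (M.nxt e)) with h4 | h4
    · exact absurd h3 (h.in_half_back hc e p' he1 he2 he3 (by rw [h1, he4]) h2 h4)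
    · exact (h.in_half_front hc e p' he1 he2 he3 (by rw [h1, he4]) h2 h4).1 h3
  have hr : M.pos u ≤ M.pos e ∧ M.pos e < M.pos ((M.nxt^[m]) u) := by
    by_cases hdir : M.dir p = M.dir (M.nxt e)
    · exact key p rfl hdir hp
    · exact key (M.rev p) (h.seg_rev p) (by rw [h.dir_rev]; exact bool_ne hdir)
        ((h.in_rev hc p hs).2 hp)
  exact ⟨e, he1, he2, he3, he4, hr.1, hr.2⟩

end PreMap

end P7b
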