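import Pool.Agent.Lib.P7b.WordBound

/-! MP_7b5a71: patterns in words given by a function on indices.

For `j ≤ N` a sublist of `sub ((List.range N).map f) i j` is the image of a strictly increasing
list of indices in `[i, j)`. -/

namespace P7b

open List

variable {β : Type*}

namespace WordIdxAux

theorem sub_map (f : ℕ → β) (L : List ℕ) (i j : ℕ) :
    sub (L.map f) i j = (sub L i j).map f := by
  simp [sub, List.map_drop, List.map_take]

theorem mem_sub_range {N i j x : ℕ} (h : x ∈ sub (List.range N) i j) :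
    i ≤ x ∧ x < j := by
  unfold sub at h
  obtain ⟨k, hk, hx⟩ := List.mem_iff_getElem.1 h
  rw [List.getElem_take, List.getElem_drop, List.getElem_range] at hx
  have h2 : k < j - i := by
    have := List.length_take_le (j - i) ((List.range N).drop i)
    omega
  omega

theorem sub_range_pairwise (N i j : ℕ) : (sub (List.range N) i j).Pairwise (· < ·) := by
  have h : sub (List.range N) i j <+ List.range N :=
    (List.take_sublist _ _).trans (List.drop_sublist _ _)
  exact List.Pairwise.sublist h List.pairwise_lt_range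

theorem exists_idx (f : ℕ → β) {N i j : ℕ} {m : List β}
    (h : m <+ sub ((List.range N).map f) i j) :
    ∃ L : List ℕ, m = L.map f ∧ L.Pairwise (· < ·) ∧ ∀ x ∈ L, i ≤ x ∧ x < j := by
  rw [sub_map] at h
  obtain ⟨L, hL, rfl⟩ := List.sublist_map_iff.1 h
  exact ⟨L, rfl, List.Pairwise.sublist hL (sub_range_pairwise N i j),
    fun x hx => mem_sub_range (hL.subset hx)⟩

theorem sub_all (l : List β) : sub l 0 l.length = l := by
  simp [sub]

end WordIdxAux

open WordIdxAux

theorem sub4_idx (f : ℕ → β) {N i j : ℕ} (hj : j ≤ N) {a b : β}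
    (h : [a, b, a, b] <+ sub ((List.range N).map f) i j) :
    ∃ p q r s, i ≤ p ∧ p < q ∧ q < r ∧ r < s ∧ s < j ∧ f p = a ∧ f q = b ∧ f r = a ∧ f s = b := by
  obtain ⟨L, h1, h2, h3⟩ := exists_idx f h
  rcases L with _ | ⟨p, _ | ⟨q, _ | ⟨r, _ | ⟨s, _ | ⟨t, L⟩⟩⟩⟩⟩ <;>
    simp only [List.map_cons, List.map_nil, List.cons.injEq, and_true, reduceCtorEq,
      and_false] at h1
  · simp only [List.pairwise_cons, List.mem_cons, List.not_mem_nil, or_false, forall_eq_or_imp,
      forall_eq] at h2 h3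
    refine ⟨p, q, r, s, h3.1.1, h2.1.1, h2.2.1.1, h2.2.2.1, ?_, h1.1.symm, h1.2.1.symm,
      h1.2.2.1.symm, h1.2.2.2.symm⟩
    exact h3.2.2.2.2

theorem sub5_idx (f : ℕ → β) {N : ℕ} {a b : β} (h : [a, b, a, b, a] <+ (List.range N).map f) :
    ∃ p q r s t, p < q ∧ q < r ∧ r < s ∧ s < t ∧ t < N ∧
      f p = a ∧ f q = b ∧ f r = a ∧ f s = b ∧ f t = a := by
  have h' : [a, b, a, b, a] <+ sub ((List.range N).map f) 0 N := by
    have := sub_all ((List.range N).map f)
    rw [List.length_map, List.length_range] at this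
    rw [this]
    exact h
  obtain ⟨L, h1, h2, h3⟩ := exists_idx f h'
  rcases L with _ | ⟨p, _ | ⟨q, _ | ⟨r, _ | ⟨s, _ | ⟨t, _ | ⟨t', L⟩⟩⟩⟩⟩⟩ <;>
    simp only [List.map_cons, List.map_nil, List.cons.injEq, and_true, reduceCtorEq,
      and_false] at h1
  · simp only [List.pairwise_cons, List.mem_cons, List.not_mem_nil, or_false, forall_eq_or_imp,
      forall_eq] at h2 h3
    exact ⟨p, q, r, s, t, h2.1.1, h2.2.1.1, h2.2.2.1.1, h2.2.2.2.1, h3.2.2.2.2.2, h1.1.symm,
      h1.2.1.symm, h1.2.2.1.symm, h1.2.2.2.1.symm, h1.2.2.2.2.symm⟩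

theorem mem_sub_idx (f : ℕ → β) {N i j : ℕ} (hj : j ≤ N) {a : β}
    (h : a ∈ sub ((List.range N).map f) i j) : ∃ p, i ≤ p ∧ p < j ∧ f p = a := by
  obtain ⟨L, h1, -, h3⟩ := exists_idx f (List.singleton_sublist.2 h)
  match L, h1, h3 with
  | [p], h1, h3 =>
    simp only [List.map_cons, List.map_nil, List.cons.injEq, and_true] at h1
    have := h3 p (by simp)
    exact ⟨p, this.1, this.2, h1.symm⟩

theorem noRep_map_range (f : ℕ → β) (N : ℕ) (h : ∀ i, i + 1 < N → f i ≠ f (i + 1)) :
    NoRep ((List.range N).map f) := by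
  unfold NoRep
  rw [List.isChain_iff_getElem]
  intro i hi
  rw [List.length_map, List.length_range] at hi
  rw [List.getElem_map, List.getElem_map, List.getElem_range, List.getElem_range]
  exact h i hi

end P7b
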