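import Pool.Agent.Lib.P7b.Idx
import Pool.Agent.Lib.P7b.PkSeg
import Pool.Agent.Lib.P7b.WordIdx

/-! MP_7b5a71: the boundary word has no `a b a b a`.

Suppose indices `p < q < r < s < t` with symbols `a, b, a, b, a`, `a ≠ b`.  The segments of `a` and `b` are different (`sym_between` for `p < q < r`).  Positions:
`pos (O p) < pos (O r) < pos (O t)` (`sym_pos`).  Pocket of `O p, O r` (`col_idx`): `O q` is in it, `O s` is not (`in_arc`, `lft_iter`, `mem_arc_idx`), so by `exists_cross` the segment of `b`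
crosses the side of `a` at some `e₁` with `pos (O p) ≤ pos e₁ < pos (O r)`.  Pocket of `O r, O t`: `O s` in, `O q` not: `e₂` with `pos (O r) ≤ pos e₂ < pos (O t)`.  By `cross_uniq`
`e₁ = e₂`, contradiction. -/

namespace P7b

namespace PreMap

variable {M : PreMap}

/-- the boundary word -/
noncomputable def word (M : PreMap) (d₀ : M.D) : List (M.S × Bool × Bool) :=
  (List.range (M.per d₀)).map (M.sym d₀)

theorem Ax.word_noRep (h : M.Ax) (d₀ : M.D) : NoRep (M.word d₀) := by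
  unfold word
  exact noRep_map_range (M.sym d₀) (M.per d₀) (fun i _ => h.sym_succ_ne d₀ i)

namespace FreeAux

theorem O_iter (d₀ : M.D) {i j : ℕ} (hij : i < j) :
    (M.nxt^[j - i]) (M.O d₀ i) = M.O d₀ j := by
  unfold O
  rw [← Function.iterate_add_apply]
  congr 2
  omega

theorem lft_O (h : M.Ax) (d₀ : M.D) (i : ℕ) : M.lft (M.O d₀ i) = M.lft d₀ := by
  unfold O
  induction i with
  | zero => rfl
  | succ n ih => rw [Function.iterate_succ_apply', h.lft_nxt, ih]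

theorem sym_seg (d₀ : M.D) {i j : ℕ} (hs : M.sym d₀ i = M.sym d₀ j) :
    M.seg (M.O d₀ i) = M.seg (M.O d₀ j) := congrArg Prod.fst hs

theorem sym_dir (d₀ : M.D) {i j : ℕ} (hs : M.sym d₀ i = M.sym d₀ j) :
    M.dir (M.O d₀ i) = M.dir (M.O d₀ j) := congrArg (fun x => x.2.1) hs

/-- one pocket: indices `i < k < j`, symbols of `i, j` equal, `l` outside, segment of `k, l` equal -/
theorem pocket (h : M.Ax) (d₀ : M.D) {i k j l : ℕ} (hik : i < k) (hkj : k < j)
    (hj : j < M.per d₀) (hl : l < M.per d₀) (hs : M.sym d₀ i = M.sym d₀ j)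
    (hne : M.sym d₀ k ≠ M.sym d₀ i) (hkl : M.sym d₀ l = M.sym d₀ k) (hout : l < i ∨ j < l) :
    ∃ e, M.seg e = M.seg (M.O d₀ i) ∧ M.dir e = M.dir (M.O d₀ i) ∧ ¬ M.tip e ∧
      M.seg (M.nxt e) = M.seg (M.O d₀ k) ∧
      M.pos (M.O d₀ i) ≤ M.pos e ∧ M.pos e < M.pos (M.O d₀ j) := by
  have hij : i < j := hik.trans hkj
  obtain ⟨c, hc⟩ := h.col_idx d₀ hij hj hs
  have hseg : M.seg (M.O d₀ k) ≠ M.seg (M.O d₀ i) := by
    intro he
    exact hne (h.sym_between d₀ hik hkj hj hs he)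
  have h1 : M.In (M.O d₀ i) (j - i) c (M.O d₀ k) := by
    rw [h.in_arc hc _ (by rw [lft_O h, lft_O h]), mem_arc_idx d₀ hij hj (hkj.trans hj)]
    exact ⟨hik, hkj⟩
  have h2 : ¬ M.In (M.O d₀ i) (j - i) c (M.O d₀ l) := by
    rw [h.in_arc hc _ (by rw [lft_O h, lft_O h]), mem_arc_idx d₀ hij hj hl]
    omega
  obtain ⟨e, h3, h4, h5, h6, h7, h8⟩ :=
    h.exists_cross hc (M.O d₀ k) (M.O d₀ l) hseg (sym_seg d₀ hkl) h1 h2
  rw [O_iter d₀ hij] at h8
  exact ⟨e, h3, h4, h5, h6, h7, h8⟩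

end FreeAux

theorem Ax.word_free5 (h : M.Ax) (d₀ : M.D) : Free5 (M.word d₀) := by
  intro a b hab hsub
  unfold word at hsub
  obtain ⟨p, q, r, s, t, hpq, hqr, hrs, hst, htN, fp, fq, fr, fs, ft⟩ := sub5_idx (M.sym d₀) hsub
  have hba : b ≠ a := fun e => hab e.symm
  obtain ⟨e₁, a1, a2, a3, a4, a5, a6⟩ := FreeAux.pocket h d₀ (i := p) (k := q) (j := r) (l := s)
    hpq hqr (by omega) (by omega) (by rw [fp, fr]) (by rw [fq, fp]; exact hba) (by rw [fs, fq])
    (Or.inr hrs)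
  obtain ⟨e₂, b1, b2, b3, b4, b5, b6⟩ := FreeAux.pocket h d₀ (i := r) (k := s) (j := t) (l := q)
    hrs hst (by omega) (by omega) (by rw [fr, ft]) (by rw [fs, fr]; exact hba) (by rw [fs, fq])
    (Or.inl hqr)
  have hsr : M.sym d₀ p = M.sym d₀ r := by rw [fp, fr]
  have hqs : M.sym d₀ q = M.sym d₀ s := by rw [fq, fs]
  have he : e₁ = e₂ := by
    apply h.cross_uniq e₁ e₂ a3 b3
    · rw [a1, b1, FreeAux.sym_seg d₀ hsr]
    · rw [a2, b2, FreeAux.sym_dir d₀ hsr]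
    · rw [a4, b4, FreeAux.sym_seg d₀ hqs]
  subst he
  omega

end PreMap

end P7b
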