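import Pool.Agent.Lib.P7b.PkSeg

/-! MP_7b5a71: how a pocket meets a side, and tips in pockets.

`side_cut`: `y, y'` on the same side of a segment `≠ seg u`, `pos y < pos y'`, exactly one of them in the pocket.  `exists_cross` gives `e` in the
range; `f = nxt e` is on the segment of `y`.
* If `dir f = dir y`: `In z ↔ pos f ≤ pos z` for `z` on the side (`in_half_front`, `in_half_back`).  Let `x = rev (nxt (rev (str e)))`: `str x = f` (`str_right`), so `x`
  is on the side of `y`, not a tip (`tip_rev_nxt`, `tip_rev_str`), `pos x + 1 = pos f`, and `seg (nxt x) = seg u` (`nxt x = rev e`: the rotation identity behind `str_right`, or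
  `seg_nxt_rev_nxt` for the dart `rev (str e)`).  So `In z ↔ pos x < pos z`, `¬ In y`.
* If `dir f ≠ dir y`: `In z ↔ In (rev z) ↔ pos f ≤ pos (rev z) ↔ pos z ≤ pos (rev f)` (`in_rev`, `pos_add_rev`).  Let `x = rev f`: not a tip (`tip_rev_nxt`),
  `seg (nxt x) = seg e = seg u` (`seg_nxt_rev_nxt`).  So `In z ↔ pos z ≤ pos x`, `In y`.

`tip_in`: `d` in the pocket, `seg d ≠ seg u`.  If `seg d ∉ cr (seg u)` take any tip (`exists_tip`) and `in_const`.  Otherwise take `e` on the side of `u` crossing `seg d` (as in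
`exists_cross`), `f = nxt e`; since `In d` the crossing is in the range (`in_half_*`, `in_rev`), and the tip `t` with `pos f ≤ pos t` in the direction of `f` is in the
pocket by `in_half_front`. -/

namespace P7b

namespace PreMap

variable {M : PreMap}

theorem Ax.side_cut (h : M.Ax) {u : M.D} {m : ℕ} {c} (hc : M.Col u m c) (y y' : M.D)
    (hs : M.seg y ≠ M.seg u) (hy : M.seg y' = M.seg y) (hyd : M.dir y' = M.dir y)
    (hp : M.pos y < M.pos y') :
    (M.In u m c y → ¬ M.In u m c y' → ∃ x, M.seg x = M.seg y ∧ M.dir x = M.dir y ∧ ¬ M.tip x ∧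
      M.seg (M.nxt x) = M.seg u ∧ M.pos y ≤ M.pos x ∧ M.pos x < M.pos y' ∧
      ∀ z, M.seg z = M.seg y → M.dir z = M.dir y → (M.In u m c z ↔ M.pos z ≤ M.pos x)) ∧
    (¬ M.In u m c y → M.In u m c y' → ∃ x, M.seg x = M.seg y ∧ M.dir x = M.dir y ∧ ¬ M.tip x ∧
      M.seg (M.nxt x) = M.seg u ∧ M.pos y ≤ M.pos x ∧ M.pos x < M.pos y' ∧
      ∀ z, M.seg z = M.seg y → M.dir z = M.dir y → (M.In u m c z ↔ M.pos x < M.pos z)) := by
  -- from a crossing in the range, the description of the whole side
  have key : ∀ e, M.seg e = M.seg u → M.dir e = M.dir u → ¬ M.tip e →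
      M.seg (M.nxt e) = M.seg y → (M.pos u ≤ M.pos e ∧ M.pos e < M.pos ((M.nxt^[m]) u)) →
      ∃ x, M.seg x = M.seg y ∧ M.dir x = M.dir y ∧ ¬ M.tip x ∧ M.seg (M.nxt x) = M.seg u ∧
        ((∀ z, M.seg z = M.seg y → M.dir z = M.dir y → (M.In u m c z ↔ M.pos z ≤ M.pos x)) ∨
         (∀ z, M.seg z = M.seg y → M.dir z = M.dir y → (M.In u m c z ↔ M.pos x < M.pos z))) := by
    intro e he hed het hey hr
    by_cases hdir : M.dir (M.nxt e) = M.dir y
    · have ht : ¬ M.tip (M.rev (M.str e)) := fun hh => het ((h.tip_rev_str e).1 hh)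
      have htx : ¬ M.tip (M.rev (M.nxt (M.rev (M.str e)))) :=
        fun hh => ht ((h.tip_rev_nxt _).1 hh)
      have hstr := h.str_right e het
      have hss := h.str_seg _ htx
      have hsd := h.str_dir _ htx
      have hsp := h.str_pos _ htx
      rw [hstr] at hss hsd hsp
      refine ⟨M.rev (M.nxt (M.rev (M.str e))), ?_, ?_, htx, ?_, Or.inr ?_⟩
      · rw [← hss, hey]
      · rw [← hsd, hdir]
      · rw [h.seg_nxt_rev_nxt _ ht, h.seg_rev, h.str_seg e het, he]
      · intro z hz hzd
        have hz1 : M.seg z = M.seg (M.nxt e) := by rw [hz, hey]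
        have hz2 : M.dir z = M.dir (M.nxt e) := by rw [hzd, hdir]
        constructor
        · intro hin
          by_contra hlt
          have hlt' : M.pos z < M.pos (M.nxt e) := by omega
          exact h.in_half_back hc e z he hed het hz1 hz2 hlt' hin
        · intro hlt
          have hle : M.pos (M.nxt e) ≤ M.pos z := by omega
          exact (h.in_half_front hc e z he hed het hz1 hz2 hle).2 hr
    · have htx : ¬ M.tip (M.rev (M.nxt e)) := fun hh => het ((h.tip_rev_nxt _).1 hh)
      have hxs : M.seg (M.rev (M.nxt e)) = M.seg y := by rw [h.seg_rev, hey]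
      have hxd : M.dir (M.rev (M.nxt e)) = M.dir y := by
        rw [h.dir_rev]
        revert hdir
        cases M.dir (M.nxt e) <;> cases M.dir y <;> simp
      refine ⟨M.rev (M.nxt e), hxs, hxd, htx, ?_, Or.inl ?_⟩
      · rw [h.seg_nxt_rev_nxt e het, he]
      · intro z hz hzd
        have hzu : M.seg z ≠ M.seg u := by rw [hz]; exact hs
        have hz1 : M.seg (M.rev z) = M.seg (M.nxt e) := by rw [h.seg_rev, hz, hey]
        have hz2 : M.dir (M.rev z) = M.dir (M.nxt e) := by
          rw [h.dir_rev, hzd]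
          revert hdir
          cases M.dir (M.nxt e) <;> cases M.dir y <;> simp
        have hsum := h.pos_add_rev z (M.rev (M.nxt e)) (by rw [hz, hxs]) (by rw [hzd, hxd])
        rw [h.rev_rev] at hsum
        rw [← h.in_rev hc z hzu]
        constructor
        · intro hin
          by_contra hlt
          have hlt' : M.pos (M.rev z) < M.pos (M.nxt e) := by omega
          exact h.in_half_back hc e _ he hed het hz1 hz2 hlt' hin
        · intro hle
          have hle' : M.pos (M.nxt e) ≤ M.pos (M.rev z) := by omega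
          exact (h.in_half_front hc e _ he hed het hz1 hz2 hle').2 hr
  constructor
  · intro hin hnin
    obtain ⟨e, he, hed, het, hey, h1, h2⟩ := h.exists_cross hc y y' hs hy hin hnin
    obtain ⟨x, hx1, hx2, hx3, hx4, hx5 | hx5⟩ := key e he hed het hey ⟨h1, h2⟩
    · refine ⟨x, hx1, hx2, hx3, hx4, (hx5 y rfl rfl).1 hin, ?_, hx5⟩
      by_contra hlt
      exact hnin ((hx5 y' hy hyd).2 (by omega))
    · exfalso
      have := (hx5 y rfl rfl).1 hin
      exact hnin ((hx5 y' hy hyd).2 (by omega))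
  · intro hnin hin
    obtain ⟨e, he, hed, het, hey, h1, h2⟩ := h.exists_cross hc y' y (by rw [hy]; exact hs) hy.symm
      hin hnin
    rw [hy] at hey
    obtain ⟨x, hx1, hx2, hx3, hx4, hx5 | hx5⟩ := key e he hed het hey ⟨h1, h2⟩
    · exfalso
      have := (hx5 y' hy hyd).1 hin
      exact hnin ((hx5 y rfl rfl).2 (by omega))
    · refine ⟨x, hx1, hx2, hx3, hx4, ?_, (hx5 y' hy hyd).1 hin, hx5⟩
      by_contra hlt
      exact hnin ((hx5 y rfl rfl).2 (by omega))

theorem Ax.tip_in (h : M.Ax) {u : M.D} {m : ℕ} {c} (hc : M.Col u m c) (d : M.D)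
    (hs : M.seg d ≠ M.seg u) (hd : M.In u m c d) :
    ∃ t, M.seg t = M.seg d ∧ M.tip t ∧ M.In u m c t := by
  obtain ⟨t, ht1, ht2, ht3, ht4⟩ := h.exists_tip d
  by_cases hin : M.In u m c t
  · exact ⟨t, ht1, ht3, hin⟩
  · obtain ⟨e, he, hed, het, hey, h1, h2⟩ := h.exists_cross hc d t hs ht1 hd hin
    obtain ⟨t', hs1, hs2, hs3, hs4⟩ := h.exists_tip (M.nxt e)
    refine ⟨t', by rw [hs1, hey], hs3, ?_⟩
    exact (h.in_half_front hc e t' he hed het hs1 hs2 hs4).2 ⟨h1, h2⟩

end PreMap

end P7b
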