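import Pool.Agent.Lib.P7b.Tips
import Pool.Agent.Lib.P7b.SideCut
import Pool.Agent.Lib.P7b.Free

/-! MP_7b5a71: the key lemma: a both-active symbol has both its tips, and one tip of every segment crossing it, in the pockets of the
block.

Let `σ ∈ both (sub (word d₀) i j)`, `s = σ.1`.  By `sub4_idx` there are indices in `[i, j)`
`p₁ < q₁ < p₂ < q₂` with symbols `β, σ, β, σ` (`β ≠ σ`) and `q₃ < p₃ < q₄ < p₄` with symbols `σ, γ, σ, γ` (`γ ≠ σ`).  Write `y_k = O q_k` (all on the side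
`(σ.1, σ.2.1)`).
* Pocket `P_b` of `O p₁, O p₂` (`col_idx`): `y₁` is in it, `y₂` not (`in_arc`, `lft_iter`, `mem_arc_idx`), `pos y₁ < pos y₂` (`sym_pos`), the segments of `β` and `σ` differ
  (`sym_between`).  `side_cut`: `x₁` on the side, `seg (nxt x₁) = seg β`, `pos y₁ ≤ pos x₁`, and `z ∈ P_b ↔ pos z ≤ pos x₁` on the side.
* Pocket `P_c` of `O p₃, O p₄`: `y₄` is in it, `y₃` not; `x₂` on the side, `seg (nxt x₂) = seg γ`, `pos x₂ < pos y₄`, `z ∈ P_c ↔ pos x₂ < pos z`.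
* (K3) `seg β ∈ cr s`.
* (K1) The tip `t` of `s` in the direction of the side: `¬ tip x₂` so `pos x₂ < pos (str x₂) ≤ pos t` (`tip_last`) and `t ∈ P_c`.  The tip `t'` in the opposite direction: `rev t'` is on
  the side and `pos (rev t') ≤ pos x₁` (`pos_add_rev`, `tip_last` for `rev x₁`), so `rev t' ∈ P_b`, `t' ∈ P_b` (`in_rev`).
* (K2) `g ∈ cr s`: there is `z` on the side, not a tip, with `seg (nxt z) = g` (if the dart `d` given has the opposite direction take `rev (str d)`, `seg_right`).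
  - `pos z < pos x₁`: `z ∈ P_b`, `g ≠ seg β` (`cross_uniq`: else `z = x₁`), `nxt z ∈ P_b` (`in_nxt`), so by `tip_in` a tip of `g` is in `P_b`.
  - `pos x₂ < pos z`: same with `P_c`.
  - otherwise `pos y₁ ≤ pos x₁ ≤ pos z ≤ pos x₂ < pos y₄`: then `q₁ < q₄` (`sym_pos`), take the pocket of `y₁, y₄`: `nxt z` is in it by `in_front`, and `tip_in`. -/

namespace P7b

namespace PreMap

variable {M : PreMap}

namespace BothAux

theorem O_iter (d₀ : M.D) {i j : ℕ} (hij : i < j) :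
    (M.nxt^[j - i]) (M.O d₀ i) = M.O d₀ j := by
  unfold O
  rw [← Function.iterate_add_apply]
  congr 2
  omega

theorem lft_O (h : M.Ax) (d₀ : M.D) (i : ℕ) : M.lft (M.O d₀ i) = M.lft d₀ := by
  unfold O
  induction i with
  | zero => rfl
  | succ n ih => rw [Function.iterate_succ_apply', h.lft_nxt, ih]

theorem mem_cr' (s g : M.S) :
    g ∈ M.cr s ↔ ∃ d : M.D, M.seg d = s ∧ ¬ M.tip d ∧ M.seg (M.nxt d) = g := by
  classical
  unfold cr
  simp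

theorem mem_both' {l : List (M.S × Bool × Bool)} {σ : M.S × Bool × Bool} (h : σ ∈ both l) :
    LAct l σ ∧ RAct l σ := by
  classical
  unfold both at h
  simp only [Finset.mem_filter] at h
  exact h.2

theorem bool_ne {a b : Bool} (h : a ≠ b) : (!a) = b := by
  cases a <;> cases b <;> simp_all

/-- the complete information on an active symbol -/
theorem info (h : M.Ax) (d₀ : M.D) {i j : ℕ} (hj : j ≤ M.per d₀)
    {σ : M.S × Bool × Bool} (hσ : σ ∈ both (sub (M.word d₀) i j)) :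
    (∃ p q c x, i ≤ p ∧ p < q ∧ q < j ∧ M.sym d₀ p = M.sym d₀ q ∧
      M.Col (M.O d₀ p) (q - p) c ∧ σ.1 ≠ M.seg (M.O d₀ p) ∧
      M.seg x = σ.1 ∧ M.dir x = σ.2.1 ∧ ¬ M.tip x ∧ M.seg (M.nxt x) = M.seg (M.O d₀ p) ∧
      (∀ z, M.seg z = σ.1 → M.dir z = σ.2.1 → (M.In (M.O d₀ p) (q - p) c z ↔
        M.pos z ≤ M.pos x)) ∧
      ∃ k, i ≤ k ∧ k < j ∧ M.sym d₀ k = σ ∧ M.pos (M.O d₀ k) ≤ M.pos x) ∧
    (∃ p q c x, i ≤ p ∧ p < q ∧ q < j ∧ M.sym d₀ p = M.sym d₀ q ∧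
      M.Col (M.O d₀ p) (q - p) c ∧ σ.1 ≠ M.seg (M.O d₀ p) ∧
      M.seg x = σ.1 ∧ M.dir x = σ.2.1 ∧ ¬ M.tip x ∧ M.seg (M.nxt x) = M.seg (M.O d₀ p) ∧
      (∀ z, M.seg z = σ.1 → M.dir z = σ.2.1 → (M.In (M.O d₀ p) (q - p) c z ↔
        M.pos x < M.pos z)) ∧
      ∃ k, i ≤ k ∧ k < j ∧ M.sym d₀ k = σ ∧ M.pos x < M.pos (M.O d₀ k)) := by
  have hσ' : LAct (sub (M.word d₀) i j) σ ∧ RAct (sub (M.word d₀) i j) σ := mem_both' hσ
  obtain ⟨⟨β, hβ, hL⟩, ⟨γ, hγ, hR⟩⟩ := hσ'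
  have hseg : ∀ k, M.sym d₀ k = σ → M.seg (M.O d₀ k) = σ.1 ∧ M.dir (M.O d₀ k) = σ.2.1 := by
    intro k hk
    rw [← hk]
    exact ⟨rfl, rfl⟩
  constructor
  · obtain ⟨p, q, r, s, hip, hpq, hqr, hrs, hsj, fp, fq, fr, fs⟩ := sub4_idx (M.sym d₀) hj hL
    have hpr : p < r := hpq.trans hqr
    have hrN : r < M.per d₀ := by omega
    have hsym : M.sym d₀ p = M.sym d₀ r := by rw [fp, fr]
    obtain ⟨c, hc⟩ := h.col_idx d₀ hpr hrN hsym
    have hne : M.seg (M.O d₀ q) ≠ M.seg (M.O d₀ p) := by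
      intro he
      have := h.sym_between d₀ hpq hqr hrN hsym he
      rw [fq, fp] at this
      exact hβ this.symm
    have h1 : M.In (M.O d₀ p) (r - p) c (M.O d₀ q) := by
      rw [h.in_arc hc _ (by rw [lft_O h, lft_O h]), mem_arc_idx d₀ hpr hrN (by omega)]
      exact ⟨hpq, hqr⟩
    have h2 : ¬ M.In (M.O d₀ p) (r - p) c (M.O d₀ s) := by
      rw [h.in_arc hc _ (by rw [lft_O h, lft_O h]), mem_arc_idx d₀ hpr hrN (by omega)]
      omega
    have hpos : M.pos (M.O d₀ q) < M.pos (M.O d₀ s) :=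
      h.sym_pos d₀ (hqr.trans hrs) (by omega) (by rw [fq, fs])
    obtain ⟨x, x1, x2, x3, x4, x5, x6, x7⟩ := (h.side_cut hc (M.O d₀ q) (M.O d₀ s) hne
      (by rw [(hseg q fq).1, (hseg s fs).1]) (by rw [(hseg q fq).2, (hseg s fs).2]) hpos).1 h1 h2
    refine ⟨p, r, c, x, hip, hpr, by omega, hsym, hc, ?_, ?_, ?_, x3, x4, ?_, q, by omega,
      by omega, fq, x5⟩
    · rw [← (hseg q fq).1]; exact hne
    · rw [x1, (hseg q fq).1]
    · rw [x2, (hseg q fq).2]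
    · intro z hz1 hz2
      exact x7 z (by rw [hz1, (hseg q fq).1]) (by rw [hz2, (hseg q fq).2])
  · obtain ⟨s, p, q, r, his, hsp, hpq, hqr, hrj, fs, fp, fq, fr⟩ := sub4_idx (M.sym d₀) hj hR
    have hpr : p < r := hpq.trans hqr
    have hrN : r < M.per d₀ := by omega
    have hsym : M.sym d₀ p = M.sym d₀ r := by rw [fp, fr]
    obtain ⟨c, hc⟩ := h.col_idx d₀ hpr hrN hsym
    have hne : M.seg (M.O d₀ q) ≠ M.seg (M.O d₀ p) := by
      intro he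
      have := h.sym_between d₀ hpq hqr hrN hsym he
      rw [fq, fp] at this
      exact hγ this.symm
    have hne' : M.seg (M.O d₀ s) ≠ M.seg (M.O d₀ p) := by
      rw [(hseg s fs).1, ← (hseg q fq).1]; exact hne
    have h1 : M.In (M.O d₀ p) (r - p) c (M.O d₀ q) := by
      rw [h.in_arc hc _ (by rw [lft_O h, lft_O h]), mem_arc_idx d₀ hpr hrN (by omega)]
      exact ⟨hpq, hqr⟩
    have h2 : ¬ M.In (M.O d₀ p) (r - p) c (M.O d₀ s) := by
      rw [h.in_arc hc _ (by rw [lft_O h, lft_O h]), mem_arc_idx d₀ hpr hrN (by omega)]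
      omega
    have hpos : M.pos (M.O d₀ s) < M.pos (M.O d₀ q) :=
      h.sym_pos d₀ (hsp.trans hpq) (by omega) (by rw [fq, fs])
    obtain ⟨x, x1, x2, x3, x4, x5, x6, x7⟩ := (h.side_cut hc (M.O d₀ s) (M.O d₀ q) hne'
      (by rw [(hseg q fq).1, (hseg s fs).1]) (by rw [(hseg q fq).2, (hseg s fs).2]) hpos).2 h2 h1
    refine ⟨p, r, c, x, by omega, hpr, by omega, hsym, hc, ?_, ?_, ?_, x3, x4, ?_, q, by omega,
      by omega, fq, x6⟩
    · rw [← (hseg q fq).1]; exact hne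
    · rw [x1, (hseg s fs).1]
    · rw [x2, (hseg s fs).2]
    · intro z hz1 hz2
      exact x7 z (by rw [hz1, (hseg s fs).1]) (by rw [hz2, (hseg s fs).2])

end BothAux

theorem Ax.both_tips (h : M.Ax) (d₀ : M.D) {i j : ℕ} (hij : i < j) (hj : j ≤ M.per d₀)
    {σ : M.S × Bool × Bool} (hσ : σ ∈ both (sub (M.word d₀) i j)) (b : Bool) :
    (σ.1, b) ∈ M.Tp d₀ i j := by
  obtain ⟨⟨p₁, q₁, c₁, x₁, a1, a2, a3, a4, a5, a6, a7, a8, a9, a10, a11, -⟩,
    ⟨p₂, q₂, c₂, x₂, b1, b2, b3, b4, b5, b6, b7, b8, b9, b10, b11, -⟩⟩ := BothAux.info h d₀ hj hσ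
  rw [mem_Tp]
  by_cases hb : σ.2.1 = b
  · obtain ⟨t, t1, t2, t3, t4⟩ := h.exists_tip x₂
    refine ⟨p₂, q₂, b1, b2, b3, by omega, b4, t, by rw [t1, b7], by rw [t2, b8, hb], t3, c₂, b5, ?_⟩
    rw [b11 t (by rw [t1, b7]) (by rw [t2, b8])]
    rcases t4.lt_or_eq with h1 | h1
    · exact h1
    · have := h.pos_inj x₂ t t1.symm t2.symm h1
      rw [← this] at t3
      exact absurd t3 b9
  · obtain ⟨t, t1, t2, t3, t4⟩ := h.exists_tip (M.rev x₁)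
    rw [h.seg_rev] at t1
    rw [h.dir_rev] at t2
    have hseg : M.seg t ≠ M.seg (M.O d₀ p₁) := by rw [t1, a7]; exact a6
    refine ⟨p₁, q₁, a1, a2, a3, by omega, a4, t, by rw [t1, a7], ?_, t3, c₁, a5, ?_⟩
    · rw [t2, a8]; exact BothAux.bool_ne hb
    · rw [← h.in_rev a5 t hseg, a11 (M.rev t) (by rw [h.seg_rev, t1, a7])
        (by rw [h.dir_rev, t2, Bool.not_not, a8])]
      have h1 := h.pos_add_rev x₁ (M.rev t) (by rw [h.seg_rev, t1])
        (by rw [h.dir_rev, t2, Bool.not_not])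
      rw [h.rev_rev] at h1
      omega

theorem Ax.both_cross (h : M.Ax) (d₀ : M.D) {i j : ℕ} (hij : i < j) (hj : j ≤ M.per d₀)
    {σ : M.S × Bool × Bool} (hσ : σ ∈ both (sub (M.word d₀) i j)) (g : M.S) (hg : g ∈ M.cr σ.1) :
    ∃ b, (g, b) ∈ M.Tp d₀ i j := by
  obtain ⟨⟨p₁, q₁, c₁, x₁, a1, a2, a3, a4, a5, a6, a7, a8, a9, a10, a11, k₁, ka1, ka2, ka3, ka4⟩,
    ⟨p₂, q₂, c₂, x₂, b1, b2, b3, b4, b5, b6, b7, b8, b9, b10, b11, k₂, kb1, kb2, kb3, kb4⟩⟩ :=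
    BothAux.info h d₀ hj hσ
  obtain ⟨z, z1, z2, z3, z4⟩ : ∃ z, M.seg z = σ.1 ∧ M.dir z = σ.2.1 ∧ ¬ M.tip z ∧
      M.seg (M.nxt z) = g := by
    obtain ⟨d, d1, d2, d3⟩ := (BothAux.mem_cr' σ.1 g).1 hg
    by_cases hd : M.dir d = σ.2.1
    · exact ⟨d, d1, hd, d2, d3⟩
    · refine ⟨M.rev (M.str d), ?_, ?_, ?_, ?_⟩
      · rw [h.seg_rev, h.str_seg d d2, d1]
      · rw [h.dir_rev, h.str_dir d d2]; exact BothAux.bool_ne hd
      · rw [h.tip_rev_str]; exact d2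
      · rw [h.seg_right d d2, d3]
  have fin : ∀ p q c, i ≤ p → p < q → q < j → M.sym d₀ p = M.sym d₀ q →
      M.Col (M.O d₀ p) (q - p) c → g ≠ M.seg (M.O d₀ p) →
      M.In (M.O d₀ p) (q - p) c (M.nxt z) → ∃ b, (g, b) ∈ M.Tp d₀ i j := by
    intro p q c e1 e2 e3 e4 e5 e6 e7
    obtain ⟨t, t1, t2, t3⟩ := h.tip_in e5 (M.nxt z) (by rw [z4]; exact e6) e7
    refine ⟨M.dir t, ?_⟩
    rw [mem_Tp]
    exact ⟨p, q, e1, e2, e3, by omega, e4, t, by rw [t1, z4], rfl, t2, c, e5, t3⟩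
  rcases lt_or_ge (M.pos z) (M.pos x₁) with hz1 | hz1
  · have hgne : g ≠ M.seg (M.O d₀ p₁) := by
      intro hge
      have := h.cross_uniq z x₁ z3 a9 (by rw [z1, a7]) (by rw [z2, a8]) (by rw [z4, a10, hge])
      rw [this] at hz1
      exact lt_irrefl _ hz1
    refine fin p₁ q₁ c₁ a1 a2 a3 a4 a5 hgne ?_
    rw [h.in_nxt a5 z (by rw [z1]; exact a6) (by rw [z4]; exact hgne), a11 z z1 z2]
    exact hz1.le
  · rcases lt_or_ge (M.pos x₂) (M.pos z) with hz2 | hz2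
    · have hgne : g ≠ M.seg (M.O d₀ p₂) := by
        intro hge
        have := h.cross_uniq z x₂ z3 b9 (by rw [z1, b7]) (by rw [z2, b8]) (by rw [z4, b10, hge])
        rw [this] at hz2
        exact lt_irrefl _ hz2
      refine fin p₂ q₂ c₂ b1 b2 b3 b4 b5 hgne ?_
      rw [h.in_nxt b5 z (by rw [z1]; exact b6) (by rw [z4]; exact hgne), b11 z z1 z2]
      exact hz2
    · have hsym : M.sym d₀ k₁ = M.sym d₀ k₂ := by rw [ka3, kb3]
      have hlt : k₁ < k₂ := by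
        by_contra hcon
        rcases (not_lt.1 hcon).lt_or_eq with h1 | h1
        · have := h.sym_pos d₀ h1 (by omega) hsym.symm
          omega
        · rw [h1] at kb4
          omega
      obtain ⟨c, hc⟩ := h.col_idx d₀ hlt (by omega) hsym
      have hs1 : M.seg (M.O d₀ k₁) = σ.1 := by rw [← ka3]; rfl
      have hs2 : M.dir (M.O d₀ k₁) = σ.2.1 := by rw [← ka3]; rfl
      refine fin k₁ k₂ c ka1 hlt kb2 hsym hc ?_ ?_
      · rw [← z4, hs1, ← z1]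
        exact h.nxt_seg z z3
      · rw [h.in_front hc z (by rw [z1, hs1]) (by rw [z2, hs2]) z3, BothAux.O_iter d₀ hlt]
        omega

theorem Ax.both_nonempty (h : M.Ax) (d₀ : M.D) {i j : ℕ} (hij : i < j) (hj : j ≤ M.per d₀)
    {σ : M.S × Bool × Bool} (hσ : σ ∈ both (sub (M.word d₀) i j)) : (M.cr σ.1).Nonempty := by
  obtain ⟨⟨p₁, q₁, c₁, x₁, a1, a2, a3, a4, a5, a6, a7, a8, a9, a10, a11, -⟩, -⟩ :=
    BothAux.info h d₀ hj hσ
  refine ⟨M.seg (M.O d₀ p₁), ?_⟩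
  exact (BothAux.mem_cr' _ _).2 ⟨x₁, a7, a9, a10⟩

end PreMap

end P7b
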