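import Pool.Agent.Lib.P7b.Map

/-! MP_7b5a71: boundary components (orbits of `nxt`), indices, walks.

`D` is finite and `nxt` a permutation, so every dart is periodic, `0 < per u`, and `nxt^[i] u`, `i < per u`, are distinct. -/

namespace P7b

namespace PreMap

variable {M : PreMap}

private theorem mem_per (u : M.D) : u ∈ Function.periodicPts M.nxt :=
  M.nxt.injective.mem_periodicPts u

theorem per_pos (u : M.D) : 0 < M.per u :=
  Function.minimalPeriod_pos_of_mem_periodicPts (mem_per u)

theorem iter_per (u : M.D) : (M.nxt^[M.per u]) u = u :=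
  Function.isPeriodicPt_minimalPeriod M.nxt u

theorem iter_inj (u : M.D) {i j : ℕ} (hi : i < M.per u) (hj : j < M.per u)
    (h : (M.nxt^[i]) u = (M.nxt^[j]) u) : i = j :=
  Function.iterate_injOn_Iio_minimalPeriod hi hj h

theorem per_iter (u : M.D) (i : ℕ) : M.per ((M.nxt^[i]) u) = M.per u :=
  Function.minimalPeriod_apply_iterate (mem_per u) i

theorem Ax.lft_iter (h : M.Ax) (u : M.D) (i : ℕ) : M.lft ((M.nxt^[i]) u) = M.lft u := by
  induction i with
  | zero => rfl
  | succ i ih => rw [Function.iterate_succ_apply', h.lft_nxt, ih]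

theorem mem_arc (u d : M.D) (m : ℕ) : d ∈ M.arc u m ↔ ∃ i, 0 < i ∧ i < m ∧ d = (M.nxt^[i]) u := by
  unfold arc
  rw [Finset.mem_image]
  constructor
  · rintro ⟨i, hi, rfl⟩
    rw [Finset.mem_Ioo] at hi
    exact ⟨i, hi.1, hi.2, rfl⟩
  · rintro ⟨i, h1, h2, rfl⟩
    exact ⟨i, Finset.mem_Ioo.mpr ⟨h1, h2⟩, rfl⟩

theorem not_mem_arc_left (u : M.D) {m : ℕ} (hm : m < M.per u) : u ∉ M.arc u m := by
  rw [mem_arc]
  rintro ⟨i, h1, h2, h3⟩
  have := iter_inj u (i := 0) (j := i) (per_pos u) (by omega) h3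
  omega

theorem not_mem_arc_right (u : M.D) {m : ℕ} (hm : m < M.per u) : (M.nxt^[m]) u ∉ M.arc u m := by
  rw [mem_arc]
  rintro ⟨i, h1, h2, h3⟩
  have := iter_inj u (i := m) (j := i) hm (by omega) h3
  omega

/-- the arc is invariant under `nxt` except at its two ends -/
theorem arc_nxt (u : M.D) {m : ℕ} (hm : m < M.per u) (d : M.D) (h1 : d ≠ u)
    (h2 : M.nxt d ≠ (M.nxt^[m]) u) : (M.nxt d ∈ M.arc u m ↔ d ∈ M.arc u m) := by
  rw [mem_arc, mem_arc]
  constructor
  · rintro ⟨i, hi, him, he⟩
    obtain ⟨j, rfl⟩ : ∃ j, i = j + 1 := ⟨i - 1, by omega⟩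
    rw [Function.iterate_succ_apply'] at he
    have hd := M.nxt.injective he
    refine ⟨j, ?_, by omega, hd⟩
    rcases Nat.eq_zero_or_pos j with h0 | h0
    · subst h0
      exact absurd hd h1
    · exact h0
  · rintro ⟨i, hi, him, he⟩
    refine ⟨i + 1, by omega, ?_, by rw [Function.iterate_succ_apply', he]⟩
    rcases Nat.lt_or_ge (i + 1) m with h0 | h0
    · exact h0
    · exfalso
      have : i + 1 = m := by omega
      apply h2
      rw [← this, Function.iterate_succ_apply', he]

theorem nxt_mem_arc (u : M.D) {m : ℕ} (hm : 1 < m) : M.nxt u ∈ M.arc u m := by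
  rw [mem_arc]
  exact ⟨1, one_pos, hm, rfl⟩

private theorem walk_aux (h : M.Ax) (n : ℕ) : ∀ u : M.D,
    IsWalk M.org M.rev (M.org u) ((List.range n).map (fun i => (M.nxt^[i]) u))
      (M.org ((M.nxt^[n]) u)) := by
  induction n with
  | zero => intro u; exact IsWalk.nil _
  | succ n ih =>
    intro u
    rw [List.range_succ_eq_map, List.map_cons, List.map_map]
    have h1 := ih (M.nxt u)
    rw [h.org_nxt] at h1
    exact IsWalk.cons u _ _ h1

/-- the boundary walk from `nxt u` to the dart before `nxt^m u` -/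
theorem Ax.walk_arc (h : M.Ax) (u : M.D) (m : ℕ) (hm : 0 < m) :
    IsWalk M.org M.rev (M.org (M.rev u))
      ((List.range (m - 1)).map (fun i => (M.nxt^[i + 1]) u)) (M.org ((M.nxt^[m]) u)) := by
  obtain ⟨k, rfl⟩ : ∃ k, m = k + 1 := ⟨m - 1, by omega⟩
  have h1 := walk_aux h k (M.nxt u)
  rw [h.org_nxt] at h1
  exact h1

private theorem nodup_aux (u : M.D) (n k : ℕ) (hk : n + k ≤ M.per u) :
    ((List.range n).map (fun i => (M.nxt^[i + k]) u)).Nodup := by
  apply List.Nodup.map_on _ List.nodup_range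
  intro a ha b hb hab
  rw [List.mem_range] at ha hb
  have := iter_inj u (i := a + k) (j := b + k) (by omega) (by omega) hab
  omega

/-- number of occurrences in the boundary walk -/
theorem count_arc (u d : M.D) {m : ℕ} (hm : m < M.per u) :
    ((List.range (m - 1)).map (fun i => (M.nxt^[i + 1]) u)).count d
      = if d ∈ M.arc u m then 1 else 0 := by
  rw [(nodup_aux u (m - 1) 1 (by omega)).count]
  have hiff : d ∈ (List.range (m - 1)).map (fun i => (M.nxt^[i + 1]) u) ↔ d ∈ M.arc u m := by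
    rw [mem_arc, List.mem_map]
    constructor
    · rintro ⟨i, hi, rfl⟩
      rw [List.mem_range] at hi
      exact ⟨i + 1, by omega, by omega, rfl⟩
    · rintro ⟨i, h1, h2, rfl⟩
      exact ⟨i - 1, List.mem_range.mpr (by omega), by rw [Nat.sub_add_cancel h1]⟩
  by_cases hd : d ∈ M.arc u m
  · rw [if_pos hd, if_pos (hiff.mpr hd)]
  · rw [if_neg hd, if_neg (fun h => hd (hiff.mp h))]

/-- the whole boundary component as a closed walk -/
theorem Ax.walk_orbit (h : M.Ax) (u : M.D) :
    IsWalk M.org M.rev (M.org u) ((List.range (M.per u)).map (fun i => (M.nxt^[i]) u)) (M.org u) := by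
  have h1 := walk_aux h (M.per u) u
  rwa [iter_per] at h1

open Classical in
theorem count_orbit (u d : M.D) :
    ((List.range (M.per u)).map (fun i => (M.nxt^[i]) u)).count d
      = if ∃ i, d = (M.nxt^[i]) u then 1 else 0 := by
  have h0 := nodup_aux u (M.per u) 0 (by omega)
  simp only [Nat.add_zero] at h0
  rw [h0.count]
  have hiff : d ∈ (List.range (M.per u)).map (fun i => (M.nxt^[i]) u) ↔
      ∃ i, d = (M.nxt^[i]) u := by
    rw [List.mem_map]
    constructor
    · rintro ⟨i, hi, rfl⟩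
      exact ⟨i, rfl⟩
    · rintro ⟨i, rfl⟩
      exact ⟨i % M.per u, List.mem_range.mpr (Nat.mod_lt _ (per_pos u)),
        Function.iterate_mod_minimalPeriod_eq⟩
  by_cases hd : ∃ i, d = (M.nxt^[i]) u
  · rw [if_pos hd, if_pos (hiff.mpr hd)]
  · rw [if_neg hd, if_neg (fun h => hd (hiff.mp h))]

theorem IsWalk.append {D V : Type} {org : D → V} {rev : D → D} {a b c : V} {l l' : List D}
    (h : IsWalk org rev a l b) (h' : IsWalk org rev b l' c) : IsWalk org rev a (l ++ l') c := by
  induction h with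
  | nil v => exact h'
  | cons d l w _ ih => exact IsWalk.cons d _ _ (ih h')

end PreMap

end P7b
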