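import Pool.Agent.Lib.P7b.MapBasic
import Pool.Agent.Lib.P7b.Orb

/-! MP_7b5a71: existence of the colouring of a pocket.

Proof.  Let `v = nxt^m u`, `k = pos v - pos u > 0`; by `chain`, `v = str^[k] u` and `s_j = str^[j] u` (`0 ≤ j < k`) are not tips.
The list `l = [nxt u, ..., nxt^{m-1} u] ++ [rev s_{k-1}, ..., rev s_1]` is a closed walk at `org (rev u)`: the first part is a walk to
`org v` (`walk_arc`), and `org v = org (str s_{k-1}) = org (rev s_{k-1})` (`org_str`), `org (rev (rev s_{j+1})) = org (s_{j+1}) = org (rev s_j)`,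
ending at `org (rev (rev s_1)) = org s_1 = org (rev u)`.  Take `c` from `planar` and add the constant `c (lft u)` (char 2).
`l.count d = [d ∈ arc u m] + [d = rev s_j for some 0 < j < k]` (`count_arc`; the `s_j` are distinct because `pos s_j = pos u + j`), and
`d = rev s_j` for some `0 < j < k` iff `Btw u v (rev d)` (by `pos_inj`, `chain`).  `Btw u v d` and `Btw u v (rev d)` exclude each other
(`dir_rev`). -/

namespace P7b

namespace PreMap

variable {M : PreMap}

/-- the walk back along the segment -/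
private def back (M : PreMap) (u : M.D) : ℕ → List M.D
  | 0 => []
  | n + 1 => M.rev (M.str^[n + 1] u) :: back M u n

private theorem walk_back (h : M.Ax) (u : M.D) (n : ℕ) :
    IsWalk M.org M.rev (M.org (M.str^[n + 1] u)) (back M u n) (M.org (M.rev u)) := by
  induction n with
  | zero =>
    have e : M.org (M.str^[0 + 1] u) = M.org (M.rev u) := h.org_str u
    rw [e]
    exact IsWalk.nil _
  | succ n ih =>
    have e : M.org (M.str^[n + 1 + 1] u) = M.org (M.rev (M.str^[n + 1] u)) := by
      rw [Function.iterate_succ_apply', h.org_str]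
    rw [e]
    refine IsWalk.cons _ _ _ ?_
    rw [h.rev_rev]
    exact ih

private theorem mem_back (u d : M.D) (n : ℕ) :
    d ∈ back M u n ↔ ∃ j, 0 < j ∧ j ≤ n ∧ d = M.rev (M.str^[j] u) := by
  induction n with
  | zero =>
    constructor
    · intro hd
      exact absurd hd (by simp [back])
    · rintro ⟨j, h1, h2, _⟩
      omega
  | succ n ih =>
    rw [show back M u (n + 1) = M.rev (M.str^[n + 1] u) :: back M u n from rfl, List.mem_cons, ih]
    constructor
    · rintro (rfl | ⟨j, h1, h2, rfl⟩)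
      · exact ⟨n + 1, by omega, le_rfl, rfl⟩
      · exact ⟨j, h1, by omega, rfl⟩
    · rintro ⟨j, h1, h2, rfl⟩
      rcases Nat.lt_or_ge n j with h3 | h3
      · left
        have : j = n + 1 := by omega
        rw [this]
      · right
        exact ⟨j, h1, h3, rfl⟩

private theorem iter_props (h : M.Ax) (u : M.D) (k : ℕ) (hk : ∀ i < k, ¬ M.tip (M.str^[i] u)) :
    ∀ j ≤ k, M.seg (M.str^[j] u) = M.seg u ∧ M.dir (M.str^[j] u) = M.dir u ∧
      M.pos (M.str^[j] u) = M.pos u + j := by
  intro j
  induction j with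
  | zero => intro _; exact ⟨rfl, rfl, rfl⟩
  | succ j ih =>
    intro hj
    obtain ⟨h1, h2, h3⟩ := ih (by omega)
    have ht := hk j (by omega)
    rw [Function.iterate_succ_apply']
    refine ⟨(h.str_seg _ ht).trans h1, (h.str_dir _ ht).trans h2, ?_⟩
    rw [h.str_pos _ ht, h3]
    omega

private theorem nodup_back (h : M.Ax) (u : M.D) (k : ℕ) (hk : ∀ i < k, ¬ M.tip (M.str^[i] u)) :
    ∀ n ≤ k, (back M u n).Nodup := by
  intro n
  induction n with
  | zero => intro _; exact List.nodup_nil
  | succ n ih =>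
    intro hn
    rw [show back M u (n + 1) = M.rev (M.str^[n + 1] u) :: back M u n from rfl, List.nodup_cons]
    refine ⟨?_, ih (by omega)⟩
    rw [mem_back]
    rintro ⟨j, h1, h2, h3⟩
    have h4 : M.str^[n + 1] u = M.str^[j] u := by
      rw [← h.rev_rev (M.str^[n + 1] u), h3, h.rev_rev]
    have h5 := (iter_props h u k hk (n + 1) hn).2.2
    have h6 := (iter_props h u k hk j (by omega)).2.2
    rw [h4, h6] at h5
    omega

private theorem ind_or {p q : Prop} (hpq : ¬ (p ∧ q)) : ind (p ∨ q) = ind p + ind q := by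
  by_cases hp : p
  · have hq : ¬ q := fun hq => hpq ⟨hp, hq⟩
    rw [ind_true (Or.inl hp), ind_true hp, ind_false hq, add_zero]
  · by_cases hq : q
    · rw [ind_true (Or.inr hq), ind_false hp, ind_true hq, zero_add]
    · rw [ind_false (by tauto), ind_false hp, ind_false hq, add_zero]

theorem Ax.exists_col (h : M.Ax) (u : M.D) (m : ℕ) (hm0 : 0 < m) (hm : m < M.per u)
    (hs : M.seg ((M.nxt^[m]) u) = M.seg u) (hd : M.dir ((M.nxt^[m]) u) = M.dir u)
    (hp : M.pos u < M.pos ((M.nxt^[m]) u)) : ∃ c, M.Col u m c := by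
  classical
  obtain ⟨v, hv⟩ : ∃ v, v = (M.nxt^[m]) u := ⟨_, rfl⟩
  rw [← hv] at hs hd hp
  obtain ⟨n, hn⟩ : ∃ n, M.pos v - M.pos u = n + 1 := ⟨M.pos v - M.pos u - 1, by omega⟩
  have hch := h.chain u v hs.symm hd.symm hp.le
  rw [hn] at hch
  obtain ⟨hnt, hsv⟩ := hch
  have hw1 := h.walk_arc u m hm0
  rw [← hv, ← hsv] at hw1
  have hw := PreMap.IsWalk.append hw1 (walk_back h u n)
  obtain ⟨c, hc⟩ := h.planar _ _ hw
  -- the count
  have hbtw : ∀ d, d ∈ back M u n ↔ M.Btw u v (M.rev d) := by
    intro d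
    rw [mem_back]
    constructor
    · rintro ⟨j, h1, h2, rfl⟩
      rw [h.rev_rev]
      obtain ⟨p1, p2, p3⟩ := iter_props h u (n + 1) hnt j (by omega)
      exact ⟨p1, p2, by omega, by omega⟩
    · rintro ⟨h1, h2, h3, h4⟩
      have h5 := (h.chain u (M.rev d) h1.symm h2.symm h3.le).2
      refine ⟨M.pos (M.rev d) - M.pos u, by omega, by omega, ?_⟩
      rw [h5, h.rev_rev]
  have hcount : ∀ d, (((List.range (m - 1)).map (fun i => (M.nxt^[i + 1]) u) ++ back M u n).count d
      : ZMod 2) = ind (d ∈ M.arc u m) + ind (M.Btw u v (M.rev d)) := by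
    intro d
    rw [List.count_append, count_arc u d hm, (nodup_back h u (n + 1) hnt n (by omega)).count]
    push_cast
    congr 1
    · by_cases hda : d ∈ M.arc u m
      · rw [if_pos hda, ind_true hda]
      · rw [if_neg hda, ind_false hda]
    · by_cases hdb : d ∈ back M u n
      · rw [if_pos hdb, ind_true ((hbtw d).1 hdb)]
      · rw [if_neg hdb, ind_false (fun h' => hdb ((hbtw d).2 h'))]
  refine ⟨fun r => c r + c (M.lft u), ?_⟩
  have h2 : ∀ x : ZMod 2, x + x = 0 := fun x => CharTwo.add_self_eq_zero x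
  refine ⟨hm0, hm, by rw [← hv]; exact hs, by rw [← hv]; exact hd, by rw [← hv]; exact hp, h2 _, ?_⟩
  intro d
  rw [← hv]
  have h3 := hc d
  rw [hcount d, hcount (M.rev d), h.rev_rev] at h3
  have hex : ¬ (M.Btw u v d ∧ M.Btw u v (M.rev d)) := by
    rintro ⟨h4, h5⟩
    have h6 := h.dir_rev d
    rw [h5.2.1, h4.2.1] at h6
    cases hdu : M.dir u <;> rw [hdu] at h6 <;> exact absurd h6 (by decide)
  rw [ind_or hex]
  calc c (M.lft d) + c (M.lft u) + (c (M.lft (M.rev d)) + c (M.lft u))
      = (c (M.lft d) + c (M.lft (M.rev d))) + (c (M.lft u) + c (M.lft u)) := by ring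
    _ = _ := by
        rw [h2, add_zero, h3]
        ring

end PreMap

end P7b
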