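import Pool.Agent.Lib.P7b.DSDefs

/-! MP_7b5a71: words without `a b a b` have linear length.

Proof (strong induction on the number `n` of letters; `l = []` is trivial).  Some letter occurs exactly
once: take two equal letters `l_i = l_j = a`, `i < j`, with `j - i` minimal (if there are none the word has no
duplicates and length `= n`); then `j - i ≥ 2` and a letter `b = l_{i+1}` between them occurs only once in
between (by minimality), and neither before (`b a b a` would be a sublist) nor after (`a b a b`).  Delete this
occurrence of `b`, and one more letter if its two neighbours are equal: the new word has `n - 1` letters, no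
adjacent repetition, is a sublist, hence length `≤ 2 (n - 1)`; so `l.length ≤ 2 n`. -/

namespace P7b

open List

variable {α : Type*} [DecidableEq α]

private theorem ds2_split (l : List α) : ¬ l.Nodup → ∃ p a m s, l = p ++ a :: (m ++ a :: s) ∧ (a :: m).Nodup := by
  induction l with
  | nil => intro h; exact absurd List.nodup_nil h
  | cons x t ih =>
    intro h
    by_cases ht : t.Nodup
    · have hx : x ∈ t := by
        by_contra hx
        exact h (List.nodup_cons.2 ⟨hx, ht⟩)
      obtain ⟨m, s, hms, hxm⟩ : ∃ m s, t = m ++ x :: s ∧ x ∉ m := by
        obtain ⟨m, s, hms, hxm⟩ := List.eq_append_cons_of_mem hx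
        exact ⟨m, s, hms, hxm⟩
      refine ⟨[], x, m, s, by simp [hms], ?_⟩
      rw [hms] at ht
      exact List.nodup_cons.2 ⟨hxm, (List.nodup_append.1 ht).1⟩
    · obtain ⟨p, a, m, s, h1, h2⟩ := ih ht
      exact ⟨x :: p, a, m, s, by simp [h1], h2⟩

private theorem ds2_aux (n : ℕ) : ∀ l : List α, l.length ≤ n → NoRep l → Free4 l → l.length ≤ 2 * l.toFinset.card := by
  induction n with
  | zero =>
    intro l hl _ _
    omega
  | succ n ih =>
    intro l hl h h4
    by_cases hnd : l.Nodup
    · rw [List.toFinset_card_of_nodup hnd]; omega
    · obtain ⟨p, a, m, s, hl1, hm⟩ := ds2_split l hnd
      have ham : a ∉ m := (List.nodup_cons.1 hm).1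
      have hmm : m.Nodup := (List.nodup_cons.1 hm).2
      cases m with
      | nil =>
        exfalso
        rw [hl1] at h
        unfold NoRep at h
        simp at h
      | cons b m' =>
        have hab : a ≠ b := fun hh => ham (by simp [hh])
        have hbm : b ∉ m' := (List.nodup_cons.1 hmm).1
        have hbp : b ∉ p := by
          intro hb
          apply h4 b a hab.symm
          rw [hl1]
          have h1 : [b] <+ p := List.singleton_sublist.2 hb
          have h2 : [a, b, a] <+ a :: (b :: m' ++ a :: s) := by
            refine List.Sublist.cons_cons a ?_
            simp only [List.cons_append]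
            refine List.Sublist.cons_cons b ?_
            exact List.singleton_sublist.2 (by simp)
          exact h1.append h2
        have hbs : b ∉ s := by
          intro hb
          apply h4 a b hab
          rw [hl1]
          have h2 : [a, b, a, b] <+ a :: (b :: m' ++ a :: s) := by
            refine List.Sublist.cons_cons a ?_
            simp only [List.cons_append]
            refine List.Sublist.cons_cons b ?_
            have h3 : [a, b] <+ a :: s := List.Sublist.cons_cons a (List.singleton_sublist.2 hb)
            exact h3.trans (List.sublist_append_right m' (a :: s))
          exact h2.trans (List.sublist_append_right p _)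
        obtain ⟨c, r, hcr⟩ : ∃ c r, m' ++ a :: s = c :: r := by
          cases m' with
          | nil => exact ⟨a, s, rfl⟩
          | cons c m'' => exact ⟨c, m'' ++ a :: s, rfl⟩
        have hbcr : b ∉ c :: r := by
          rw [← hcr]
          simp only [List.mem_append, List.mem_cons, not_or]
          exact ⟨hbm, hab.symm, hbs⟩
        have hl2 : l = p ++ a :: b :: c :: r := by
          rw [hl1]; simp only [List.cons_append, hcr]
        have key : ∀ l' : List α, l' <+ l → NoRep l' → b ∉ l' → l.length ≤ l'.length + 2 →
            l'.length < l.length → l.length ≤ 2 * l.toFinset.card := by
          intro l' hsub hnr hbl hlen hlt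
          have h5 := ih l' (by omega) hnr (h4.mono hsub)
          have h6 : l'.toFinset ⊆ l.toFinset.erase b := by
            intro x hx
            rw [List.mem_toFinset] at hx
            rw [Finset.mem_erase, List.mem_toFinset]
            exact ⟨fun hh => hbl (hh ▸ hx), hsub.subset hx⟩
          have hbl' : b ∈ l.toFinset := by
            rw [List.mem_toFinset, hl2]; simp
          have h7 := Finset.card_le_card h6
          rw [Finset.card_erase_of_mem hbl'] at h7
          have h8 : 0 < l.toFinset.card := Finset.card_pos.2 ⟨b, hbl'⟩
          omega
        by_cases hca : c = a
        · subst hca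
          refine key (p ++ c :: r) ?_ ?_ ?_ ?_ ?_
          · rw [hl2]
            exact (List.Sublist.refl p).append (List.Sublist.cons_cons c ((List.Sublist.refl r).cons c |>.cons b))
          · rw [hl2] at h
            unfold NoRep at h ⊢
            rw [List.isChain_append] at h ⊢
            refine ⟨h.1, ?_, ?_⟩
            · have := h.2.1
              simp only [List.isChain_cons_cons] at this
              exact this.2.2
            · intro x hx y hy
              exact h.2.2 x hx y (by simpa using hy)
          · simp only [List.mem_append, not_or]
            exact ⟨hbp, hbcr⟩
          · rw [hl2]; simp only [List.length_append, List.length_cons]; omega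
          · rw [hl2]; simp only [List.length_append, List.length_cons]; omega
        · refine key (p ++ a :: c :: r) ?_ ?_ ?_ ?_ ?_
          · rw [hl2]
            exact (List.Sublist.refl p).append (List.Sublist.cons_cons a ((List.Sublist.refl (c :: r)).cons b))
          · rw [hl2] at h
            unfold NoRep at h ⊢
            rw [List.isChain_append] at h ⊢
            refine ⟨h.1, ?_, ?_⟩
            · have := h.2.1
              simp only [List.isChain_cons_cons] at this ⊢
              exact ⟨fun hh => hca hh.symm, this.2.2⟩
            · intro x hx y hy
              exact h.2.2 x hx y (by simpa using hy)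
          · simp only [List.mem_append, List.mem_cons, not_or]
            refine ⟨hbp, hab.symm, ?_⟩
            simpa [List.mem_cons, not_or] using hbcr
          · rw [hl2]; simp only [List.length_append, List.length_cons]; omega
          · rw [hl2]; simp only [List.length_append, List.length_cons]; omega

theorem ds2 (l : List α) (h : NoRep l) (h4 : Free4 l) : l.length ≤ 2 * l.toFinset.card := by
  exact ds2_aux l.length l le_rfl h h4

end P7b
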