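import Pool.Agent.Lib.P7b.DSDefs

/-! MP_7b5a71: words without `a b a b a` on `n` letters have length `≤ n (3 + 2 log n)`.

Proof: by induction on `n = l.toFinset.card` show `l.length ≤ n (1 + 2 H_{n-1})` (`H` harmonic numbers, e.g.
`harmonic` of Mathlib, `H_{n-1} ≤ 1 + log n`).  `n ≤ 1`: length `≤ 1`.  For `n ≥ 2` let `a` be a letter with the
smallest number of occurrences `c ≤ l.length / n` (pigeonhole).  Delete all occurrences of `a`; then adjacent
repetitions `b b` can only come from `b a b`; if this `a` is neither the first nor the last occurrence of `a` in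
`l` then `a b a b a` is a sublist, contradiction.  So there are at most two adjacent repetitions: delete one more
letter for each of them.  The new word has `n - 1` letters, no adjacent repetition, is a sublist, so
`l.length - l.length / n - 2 ≤ (n - 1)(1 + 2 H_{n-2})`, i.e.
`l.length ≤ n (1 + 2 H_{n-2}) + 2 n / (n - 1) = n (1 + 2 H_{n-1})`. -/

namespace P7b

open List

variable {α : Type*} [DecidableEq α]

namespace DS3Aux

/-- joining two words without repetitions costs at most one letter -/
theorem join {p q : List α} (hp : NoRep p) (hq : NoRep q) :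
    ∃ m : List α, m <+ p ++ q ∧ NoRep m ∧ p.length + q.length ≤ m.length + 1 := by
  by_cases hpq : ∀ x ∈ p.getLast?, ∀ y ∈ q.head?, x ≠ y
  · exact ⟨p ++ q, List.Sublist.refl _, List.IsChain.append hp hq hpq, by simp⟩
  · push Not at hpq
    obtain ⟨x, hx, y, hy, hxy⟩ := hpq
    cases q with
    | nil => simp at hy
    | cons z t =>
      simp only [List.head?_cons, Option.mem_def, Option.some.injEq] at hy
      subst hy
      refine ⟨p ++ t, (List.Sublist.refl p).append (List.sublist_cons_self z t), ?_, by
        simp only [List.length_append, List.length_cons]; omega⟩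
      refine List.IsChain.append hp hq.tail ?_
      intro x' hx' y' hy'
      have hx2 : x' = x := by
        rw [Option.mem_def] at hx hx'
        rw [hx] at hx'
        exact (Option.some.inj hx').symm
      rw [hx2, hxy]
      cases t with
      | nil => simp at hy'
      | cons u t' =>
        simp only [List.head?_cons, Option.mem_def, Option.some.injEq] at hy'
        subst hy'
        exact (List.isChain_cons_cons.mp hq).1

/-- deleting the letter `a` keeps a word without repetitions if it has no `b a b` -/
theorem noRep_filter (a : α) : ∀ r : List α, NoRep r →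
    (∀ b, b ≠ a → ¬ ([b, a, b] <+ r)) → NoRep (r.filter (fun x => x ≠ a))
  | [], _, _ => by simp [NoRep]
  | x :: t, hr, hn => by
    have ih : NoRep (t.filter (fun x => x ≠ a)) :=
      noRep_filter a t hr.tail (fun b hb hs => hn b hb (hs.cons x))
    by_cases hxa : x = a
    · rw [List.filter_cons_of_neg (by simpa using hxa)]
      exact ih
    · rw [List.filter_cons_of_pos (by simpa using hxa)]
      refine List.isChain_cons.mpr ⟨?_, ih⟩
      intro y hy hxy
      subst hxy
      obtain ⟨u, hu⟩ : ∃ u, t.filter (fun x => x ≠ a) = x :: u := by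
        cases hf : t.filter (fun x => x ≠ a) with
        | nil => rw [hf] at hy; simp at hy
        | cons z u =>
          rw [hf] at hy
          simp only [List.head?_cons, Option.mem_def, Option.some.injEq] at hy
          exact ⟨u, by rw [hy]⟩
      rw [List.filter_eq_cons_iff] at hu
      obtain ⟨l₁, l₂, ht, h1, -, -⟩ := hu
      cases l₁ with
      | nil =>
        rw [ht, List.nil_append] at hr
        exact (List.isChain_cons_cons.mp hr).1 rfl
      | cons c l₃ =>
        have hc : c = a := by
          have := h1 c List.mem_cons_self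
          simpa using this
        refine hn x hxa ?_
        rw [ht, hc]
        refine List.Sublist.cons_cons x ?_
        rw [List.cons_append]
        refine List.Sublist.cons_cons a ?_
        refine List.Sublist.trans ?_ (List.sublist_append_right l₃ (x :: l₂))
        exact List.Sublist.cons_cons x (List.nil_sublist _)

theorem filter_self {a : α} {p : List α} (h : a ∉ p) : p.filter (fun x => x ≠ a) = p := by
  rw [List.filter_eq_self]
  intro x hx
  have : x ≠ a := fun e => h (e ▸ hx)
  simpa using this

/-- the main step: deletion of a letter costs at most two further letters -/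
theorem del {l : List α} (h : NoRep l) (h5 : Free5 l) (a : α) :
    ∃ m : List α, m <+ l.filter (fun x => x ≠ a) ∧ NoRep m ∧
      (l.filter (fun x => x ≠ a)).length ≤ m.length + 2 := by
  by_cases ha : a ∈ l
  swap
  · rw [filter_self ha]
    exact ⟨l, List.Sublist.refl _, h, by omega⟩
  obtain ⟨p, q, hl, hp⟩ := List.eq_append_cons_of_mem ha
  have hlp : NoRep p := by rw [hl] at h; exact List.IsChain.left_of_append h
  have hlq : NoRep q := by
    rw [hl] at h
    exact (List.IsChain.right_of_append h).tail
  by_cases hq : a ∈ q
  swap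
  · have hf : l.filter (fun x => x ≠ a) = p ++ q := by
      rw [hl, List.filter_append, List.filter_cons_of_neg (by simp), filter_self hp,
        filter_self hq]
    rw [hf]
    obtain ⟨m, h1, h2, h3⟩ := join hlp hlq
    exact ⟨m, h1, h2, by rw [List.length_append]; omega⟩
  obtain ⟨s', r', hq', hs'⟩ := List.eq_append_cons_of_mem (List.mem_reverse.mpr hq)
  obtain ⟨r, s, hqs, hs⟩ : ∃ r s, q = r ++ a :: s ∧ a ∉ s := by
    refine ⟨r'.reverse, s'.reverse, ?_, by simpa using hs'⟩
    have := congrArg List.reverse hq'
    rw [List.reverse_reverse] at this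
    rw [this]
    simp
  have hlr : NoRep r := by rw [hqs] at hlq; exact List.IsChain.left_of_append hlq
  have hls : NoRep s := by
    rw [hqs] at hlq
    exact (List.IsChain.right_of_append hlq).tail
  have hr' : NoRep (r.filter (fun x => x ≠ a)) := by
    refine noRep_filter a r hlr ?_
    intro b hb hsub
    refine h5 a b (Ne.symm hb) ?_
    rw [hl, hqs]
    have e1 : [a, b, a, b, a] = [] ++ (a :: ([b, a, b] ++ [a])) := rfl
    rw [e1]
    refine List.Sublist.append (List.nil_sublist p) ?_
    refine List.Sublist.cons_cons a ?_
    exact List.Sublist.append hsub (List.Sublist.cons_cons a (List.nil_sublist s))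
  have hf : l.filter (fun x => x ≠ a) = p ++ (r.filter (fun x => x ≠ a) ++ s) := by
    rw [hl, List.filter_append, List.filter_cons_of_neg (by simp), filter_self hp, hqs,
      List.filter_append, List.filter_cons_of_neg (by simp), filter_self hs]
  rw [hf]
  obtain ⟨m₁, h1, h2, h3⟩ := join hr' hls
  obtain ⟨m, h4, h6, h7⟩ := join hlp h2
  refine ⟨m, h4.trans ((List.Sublist.refl p).append h1), h6, ?_⟩
  rw [List.length_append, List.length_append]
  omega

theorem length_filter (l : List α) (a : α) :
    (l.filter (fun x => x ≠ a)).length + l.count a = l.length := by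
  induction l with
  | nil => simp
  | cons x t ih =>
    by_cases hx : x = a
    · rw [List.filter_cons_of_neg (by simpa using hx), hx, List.count_cons_self,
        List.length_cons]
      omega
    · rw [List.filter_cons_of_pos (by simpa using hx), List.count_cons_of_ne hx,
        List.length_cons, List.length_cons]
      omega

/-- a letter with few occurrences -/
theorem rare (l : List α) (hne : l ≠ []) :
    ∃ a ∈ l, l.toFinset.card * l.count a ≤ l.length := by
  have hne' : l.toFinset.Nonempty := List.toFinset_nonempty_iff _ |>.mpr hne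
  obtain ⟨a, ha, hmin⟩ := Finset.exists_min_image l.toFinset (fun x => l.count x) hne'
  refine ⟨a, List.mem_toFinset.mp ha, ?_⟩
  calc l.toFinset.card * l.count a = ∑ _x ∈ l.toFinset, l.count a := by
        rw [Finset.sum_const, smul_eq_mul]
    _ ≤ ∑ x ∈ l.toFinset, l.count x := Finset.sum_le_sum (fun x hx => hmin x hx)
    _ = l.length := List.sum_toFinset_count_eq_length l

theorem main : ∀ (m : ℕ) (l : List α), NoRep l → Free5 l → l.toFinset.card ≤ m + 1 →
    (l.length : ℝ) ≤ ((m : ℝ) + 1) * (1 + 2 * (harmonic m : ℝ))
  | 0, l, h, _, hc => by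
    have h1 : l.length ≤ 1 := by
      rcases l with _ | ⟨x, _ | ⟨y, t⟩⟩
      · simp
      · simp
      · exfalso
        have hxy : x ≠ y := (List.isChain_cons_cons.mp h).1
        have h2 : ({x, y} : Finset α) ⊆ (x :: y :: t).toFinset := by
          intro z hz
          simp only [Finset.mem_insert, Finset.mem_singleton] at hz
          rcases hz with rfl | rfl <;> simp
        have h3 := Finset.card_le_card h2
        rw [Finset.card_pair hxy] at h3
        omega
    have h1' : (l.length : ℝ) ≤ 1 := by exact_mod_cast h1
    simp only [harmonic_zero, Nat.cast_zero, Rat.cast_zero]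
    linarith
  | m + 1, l, h, h5, hc => by
    have hH : (0 : ℝ) ≤ (harmonic m : ℝ) := by
      have : (0 : ℚ) ≤ harmonic m := by
        unfold harmonic
        exact Finset.sum_nonneg (fun i _ => by positivity)
      exact_mod_cast this
    have hHs : (harmonic (m + 1) : ℝ) = (harmonic m : ℝ) + ((m : ℝ) + 1)⁻¹ := by
      rw [harmonic_succ]
      push_cast
      ring
    have hm0 : (0 : ℝ) ≤ (m : ℝ) := Nat.cast_nonneg m
    by_cases hcc : l.toFinset.card ≤ m + 1
    · refine (main m l h h5 hcc).trans ?_
      rw [hHs]
      have h2 : (0 : ℝ) ≤ ((m : ℝ) + 1)⁻¹ := by positivity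
      have h3 : ((m : ℝ) + 1) ≤ (((m + 1 : ℕ) : ℝ) + 1) := by push_cast; linarith
      have h4 : 1 + 2 * (harmonic m : ℝ) ≤ 1 + 2 * ((harmonic m : ℝ) + ((m : ℝ) + 1)⁻¹) := by
        linarith
      exact mul_le_mul h3 h4 (by linarith) (by linarith)
    · have hcard : l.toFinset.card = m + 2 := by omega
      have hne : l ≠ [] := by
        rintro rfl
        simp at hcard
      obtain ⟨a, ha, hrare⟩ := rare l hne
      obtain ⟨m', h1, h2, h3⟩ := del h h5 a
      have hsub : m' <+ l := h1.trans List.filter_sublist
      have hcard' : m'.toFinset.card ≤ m + 1 := by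
        have hs : m'.toFinset ⊆ l.toFinset.erase a := by
          intro x hx
          have hx' : x ∈ l.filter (fun x => x ≠ a) := h1.subset (List.mem_toFinset.mp hx)
          rw [List.mem_filter] at hx'
          rw [Finset.mem_erase, List.mem_toFinset]
          exact ⟨by simpa using hx'.2, hx'.1⟩
        have := Finset.card_le_card hs
        rw [Finset.card_erase_of_mem (List.mem_toFinset.mpr ha)] at this
        omega
      have hIH := main m m' h2 (h5.mono hsub) hcard'
      have hlen := length_filter l a
      rw [hcard] at hrare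
      have e1 : ((m : ℝ) + 2) * (l.count a : ℝ) ≤ (l.length : ℝ) := by exact_mod_cast hrare
      have e2 : (l.length : ℝ) ≤ (m'.length : ℝ) + 2 + (l.count a : ℝ) := by
        have : l.length ≤ m'.length + 2 + l.count a := by omega
        exact_mod_cast this
      set L : ℝ := (l.length : ℝ)
      set c : ℝ := (l.count a : ℝ)
      set H : ℝ := (harmonic m : ℝ)
      rw [hHs]
      have hm1 : (0 : ℝ) < (m : ℝ) + 1 := by linarith
      have e3 : L * ((m : ℝ) + 1) ≤ ((m : ℝ) + 2) * (((m : ℝ) + 1) * (1 + 2 * H) + 2) := by
        have e4 : L ≤ ((m : ℝ) + 1) * (1 + 2 * H) + 2 + c := by linarith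
        nlinarith [mul_le_mul_of_nonneg_left e4 (by linarith : (0 : ℝ) ≤ (m : ℝ) + 2)]
      have e5 : (((m + 1 : ℕ) : ℝ) + 1) * (1 + 2 * (H + ((m : ℝ) + 1)⁻¹)) * ((m : ℝ) + 1) =
          ((m : ℝ) + 2) * (((m : ℝ) + 1) * (1 + 2 * H) + 2) := by
        push_cast
        field_simp
        ring
      have e6 : L * ((m : ℝ) + 1) ≤
          (((m + 1 : ℕ) : ℝ) + 1) * (1 + 2 * (H + ((m : ℝ) + 1)⁻¹)) * ((m : ℝ) + 1) := by
        rw [e5]; exact e3
      exact le_of_mul_le_mul_right e6 hm1

end DS3Aux

theorem ds3 (l : List α) (h : NoRep l) (h5 : Free5 l) : (l.length : ℝ) ≤ dsB l.toFinset.card := by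
  by_cases hne : l = []
  · subst hne
    simp [dsB]
  have hpos : 0 < l.toFinset.card := Finset.card_pos.mpr (List.toFinset_nonempty_iff _ |>.mpr hne)
  obtain ⟨m, hm⟩ : ∃ m, l.toFinset.card = m + 1 := ⟨l.toFinset.card - 1, by omega⟩
  have h1 := DS3Aux.main m l h h5 hm.le
  rw [hm]
  unfold dsB
  refine h1.trans ?_
  have h2 : (harmonic m : ℝ) ≤ 1 + Real.log m := harmonic_le_one_add_log m
  have h3 : Real.log m ≤ Real.log ((m + 1 : ℕ) : ℝ) := by
    rcases Nat.eq_zero_or_pos m with h0 | h0
    · subst h0
      simp
    · exact Real.log_le_log (by exact_mod_cast h0) (by push_cast; linarith)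
  have hm0 : (0 : ℝ) ≤ (m : ℝ) := Nat.cast_nonneg m
  have h4 : 1 + 2 * (harmonic m : ℝ) ≤ 3 + 2 * Real.log ((m + 1 : ℕ) : ℝ) := by linarith
  have h5' : ((m : ℝ) + 1) = ((m + 1 : ℕ) : ℝ) := by push_cast; ring
  rw [← h5'] at h4 ⊢
  exact mul_le_mul_of_nonneg_left h4 (by linarith)

end P7b
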