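import Pool.Agent.Lib.P7b.DSDefs

/-! MP_7b5a71: merging two words without `a b a b a`.

Proof: induction-friendly version.  Call an initial part `l'` of `l` and let `A`, `B` be the numbers of runs of `l'|p`,
`l'|¬p` (= lengths of `dd (l'.filter p)`, `dd (l'.filter (!p))`).  Cut `l` greedily in maximal factors in which all letters
with `p` are equal and all letters with `¬p` are equal.  Such a factor reads `a b a b ...` (no adjacent
repetition), so it has at most 4 letters because `a b a b a` is not a sublist.  At the beginning of each factor a
new run of `l|p` or of `l|¬p` starts, so there are at most `A + B` factors.  (Possible formal version: recursion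
on the list from the left with the state (last letter with `p`, last letter without `p`, number of letters since
the last change); or strong induction on the length removing the first maximal factor, using that the
compressed restriction loses at least one letter.) -/

namespace P7b

open List

variable {α : Type*} [DecidableEq α]

namespace DSMergeAux

theorem dd_mono (q : α → Bool) (f l' : List α) :
    (dd (l'.filter q)).length ≤ (dd ((f ++ l').filter q)).length := by
  refine List.IsChain.length_le_length_destutter_ne ?_ (dd_noRep _)
  refine (dd_sublist _).trans ?_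
  rw [List.filter_append]
  exact List.sublist_append_right _ _

theorem dd_succ (q : α → Bool) (f l'' : List α) (a c : α) (ha : a ∈ f) (hqa : q a = true)
    (hqc : q c = true) (hac : a ≠ c) :
    (dd ((c :: l'').filter q)).length + 1 ≤ (dd ((f ++ c :: l'').filter q)).length := by
  have hc : (c :: l'').filter q = c :: l''.filter q := by simp [hqc]
  have h1 : (a :: dd ((c :: l'').filter q)).length
      ≤ (dd ((f ++ c :: l'').filter q)).length := by
    refine List.IsChain.length_le_length_destutter_ne ?_ ?_
    · rw [List.filter_append]
      refine List.Sublist.trans (l₂ := [a] ++ (c :: l'').filter q) ?_ ?_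
      · exact List.Sublist.cons_cons a (dd_sublist _)
      · refine List.Sublist.append ?_ (List.Sublist.refl _)
        rw [List.singleton_sublist]
        exact List.mem_filter.2 ⟨ha, hqa⟩
    · rw [hc]
      exact List.isChain_cons_destutter'_of_rel (· ≠ ·) _ hac
  simpa using h1

theorem split (p : α → Bool) (l : List α) : ∀ f0 : List α, f0 ≠ [] →
    (∀ x ∈ f0, ∀ y ∈ f0, p x = p y → x = y) →
    ∃ f l', f0 ++ l = f ++ l' ∧ f ≠ [] ∧ (∀ x ∈ f, ∀ y ∈ f, p x = p y → x = y) ∧
      (l' = [] ∨ ∃ c l'', l' = c :: l'' ∧ ∃ a ∈ f, p a = p c ∧ a ≠ c) := by
  induction l with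
  | nil => exact fun f0 h0 hQ => ⟨f0, [], rfl, h0, hQ, Or.inl rfl⟩
  | cons c l ih =>
    intro f0 h0 hQ
    by_cases hex : ∃ a ∈ f0, p a = p c ∧ a ≠ c
    · exact ⟨f0, c :: l, rfl, h0, hQ, Or.inr ⟨c, l, rfl, hex⟩⟩
    · have hex' : ∀ a ∈ f0, p a = p c → a = c := by
        intro a ha hp
        by_contra hne
        exact hex ⟨a, ha, hp, hne⟩
      obtain ⟨f, l', h1, h2, h3, h4⟩ := ih (f0 ++ [c]) (by simp) (by
        intro x hx y hy hxy
        rw [List.mem_append, List.mem_singleton] at hx hy
        rcases hx with hx | hx
        · rcases hy with hy | hy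
          · exact hQ x hx y hy hxy
          · rw [hy]; exact hex' x hx (by rw [hxy, hy])
        · rcases hy with hy | hy
          · rw [hx]; exact (hex' y hy (by rw [← hxy, hx])).symm
          · rw [hx, hy])
      exact ⟨f, l', by rw [← h1]; simp, h2, h3, h4⟩

theorem short (p : α → Bool) (f : List α) (h : NoRep f) (h5 : Free5 f)
    (hQ : ∀ x ∈ f, ∀ y ∈ f, p x = p y → x = y) : f.length ≤ 4 := by
  by_contra hlen
  rcases f with _ | ⟨x0, f⟩; · simp at hlen
  rcases f with _ | ⟨x1, f⟩; · simp at hlen
  rcases f with _ | ⟨x2, f⟩; · simp at hlen
  rcases f with _ | ⟨x3, f⟩; · simp at hlen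
  rcases f with _ | ⟨x4, f⟩; · simp at hlen
  unfold NoRep at h
  simp only [List.isChain_cons_cons] at h
  obtain ⟨h01, h12, h23, h34, -⟩ := h
  have e01 : p x0 ≠ p x1 := fun e => h01 (hQ x0 (by simp) x1 (by simp) e)
  have e12 : p x1 ≠ p x2 := fun e => h12 (hQ x1 (by simp) x2 (by simp) e)
  have e23 : p x2 ≠ p x3 := fun e => h23 (hQ x2 (by simp) x3 (by simp) e)
  have e34 : p x3 ≠ p x4 := fun e => h34 (hQ x3 (by simp) x4 (by simp) e)
  have e02 : x0 = x2 := hQ x0 (by simp) x2 (by simp) (by
    revert e01 e12; cases p x0 <;> cases p x1 <;> cases p x2 <;> simp)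
  have e13 : x1 = x3 := hQ x1 (by simp) x3 (by simp) (by
    revert e23 e12; cases p x1 <;> cases p x2 <;> cases p x3 <;> simp)
  have e24 : x2 = x4 := hQ x2 (by simp) x4 (by simp) (by
    revert e23 e34; cases p x2 <;> cases p x3 <;> cases p x4 <;> simp)
  apply h5 x0 x1 h01
  have : x4 = x0 := by rw [← e24, ← e02]
  rw [this, ← e13, ← e02]
  exact List.Sublist.cons_cons _ (List.Sublist.cons_cons _ (List.Sublist.cons_cons _
    (List.Sublist.cons_cons _ (List.Sublist.cons_cons _ (List.nil_sublist _)))))

theorem dd_pos (l : List α) (h : l ≠ []) : 1 ≤ (dd l).length := by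
  rcases l with _ | ⟨a, l⟩
  · exact absurd rfl h
  · rw [dd, List.destutter_cons']
    exact List.length_pos_of_ne_nil (List.destutter'_ne_nil _ _)

theorem main (p : α → Bool) : ∀ (n : ℕ) (l : List α), l.length = n → NoRep l → Free5 l →
    l.length ≤ 4 * ((dd (l.filter p)).length + (dd (l.filter (fun a => !p a))).length) := by
  intro n
  induction n using Nat.strong_induction_on with
  | _ n ih =>
    intro l hn h h5
    rcases l with _ | ⟨x, t⟩
    · simp
    · obtain ⟨f, l', h1, h2, h3, h4⟩ := split p t [x] (by simp) (by
        intro y hy z hz _
        rw [List.mem_singleton] at hy hz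
        rw [hy, hz])
      have h1' : x :: t = f ++ l' := by rw [← h1]; rfl
      rw [h1'] at hn h h5 ⊢
      have hf4 : f.length ≤ 4 := short p f (h.left_of_append)
        (h5.mono (List.sublist_append_left _ _)) h3
      have hfpos : 0 < f.length := List.length_pos_of_ne_nil h2
      rcases h4 with rfl | ⟨c, l'', rfl, a, ha, hpa, hac⟩
      · rw [List.append_nil]
        have : 1 ≤ (dd (f.filter p)).length + (dd (f.filter (fun a => !p a))).length := by
          obtain ⟨y, hy⟩ := List.exists_mem_of_ne_nil f h2
          by_cases hpy : p y = true
          · have := dd_pos (f.filter p) (List.ne_nil_of_mem (List.mem_filter.2 ⟨hy, hpy⟩))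
            omega
          · have := dd_pos (f.filter (fun a => !p a)) (List.ne_nil_of_mem
              (List.mem_filter.2 ⟨hy, by simpa using hpy⟩))
            omega
        omega
      · have hlt : (c :: l'').length < n := by
          rw [← hn, List.length_append]; omega
        have hrec := ih _ hlt (c :: l'') rfl h.right_of_append
          (h5.mono (List.sublist_append_right _ _))
        have hm1 := dd_mono p f (c :: l'')
        have hm2 := dd_mono (fun a => !p a) f (c :: l'')
        rw [List.length_append]
        by_cases hpc : p c = true
        · have := dd_succ p f l'' a c ha (by rw [hpa, hpc]) hpc hac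
          omega
        · have hpc' : p c = false := by simpa using hpc
          have := dd_succ (fun a => !p a) f l'' a c ha (by simp [hpa, hpc']) (by simp [hpc']) hac
          omega

end DSMergeAux

/-- Split the letters of an `ababa`-free word in two classes: its length is at most four times the
sum of the compressed lengths of the two restrictions.  (Scan the word; the pair (current run of
class 1, current run of class 2) changes at most `ℓ₁ + ℓ₂` times, and while it is constant `(a, b)`
the word reads a part of `a b a b a ...`, hence at most 4 letters.) -/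
theorem length_le_merge (l : List α) (h : NoRep l) (h5 : Free5 l) (p : α → Bool) :
    l.length ≤ 4 * ((dd (l.filter p)).length + (dd (l.filter (fun a => !p a))).length) :=
  DSMergeAux.main p l.length l rfl h h5

end P7b
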