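import Pool.Agent.Lib.P7b.DSDedup
import Pool.Agent.Lib.P7b.DS2
import Pool.Agent.Lib.P7b.DS3
import Pool.Agent.Lib.P7b.DSMerge

/-! MP_7b5a71: the length of a word in terms of its both-active letters.

Proof.  Let `p s` = `s` is not left active in `l`.  `l₁ = dd (l.filter p)` has no `a b a b`: such a pattern makes
its second letter left active in `l`.  So `l₁.length ≤ 2 n` (`ds2`, the letters of `l₁` are letters of `l`).  Let
`m = dd (l.filter (¬p))`; it is `Free5` and `NoRep`, so by `length_le_merge` for `m` and `q s` = `s` is not right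
active in `l`: `m.length ≤ 4 (|dd (m.filter q)| + |dd (m.filter (¬q))|)`; `dd (m.filter q)` has no `a b a b` (its first
letter would be right active), so its length is `≤ 2 n`; the letters of `dd (m.filter (¬q))` are in `both l`, so by
`ds3` its length is `≤ dsB (both l).card` (`dsB` is monotone).  Finally `length_le_merge` for `l` and `p`:
`l.length ≤ 4 (2 n + 4 (2 n + dsB T)) = 40 n + 16 dsB T`. -/

namespace P7b

open List

variable {α : Type*} [DecidableEq α]

namespace DSBlockAux

theorem dsB_mono {m n : ℕ} (h : m ≤ n) : dsB m ≤ dsB n := by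
  rcases Nat.eq_zero_or_pos m with hm | hm
  · subst hm
    rcases Nat.eq_zero_or_pos n with hn | hn
    · subst hn
      exact le_rfl
    · have h1 : (0 : ℝ) ≤ Real.log n := Real.log_nonneg (by exact_mod_cast hn)
      simp only [dsB, Nat.cast_zero, zero_mul]
      positivity
  · have hm' : (0 : ℝ) < m := by exact_mod_cast hm
    have hmn : (m : ℝ) ≤ n := by exact_mod_cast h
    have h1 : Real.log m ≤ Real.log n := Real.log_le_log hm' hmn
    have h2 : (0 : ℝ) ≤ Real.log m := Real.log_nonneg (by exact_mod_cast hm)
    unfold dsB
    apply mul_le_mul hmn (by linarith) (by linarith) (by linarith)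

theorem card_sub {l m : List α} (h : m <+ l) : m.toFinset.card ≤ l.toFinset.card := by
  apply Finset.card_le_card
  intro x hx
  rw [List.mem_toFinset] at hx ⊢
  exact h.subset hx

theorem filter_mem_of_sub {l : List α} {p : α → Bool} {w : List α} (h : w <+ dd (l.filter p))
    {x : α} (hx : x ∈ w) : p x = true := by
  have h1 := (h.trans (dd_sublist _)).subset hx
  exact (List.mem_filter.1 h1).2

end DSBlockAux

open DSBlockAux

/-- Letters that are not left active avoid `a b a b`, letters that are not right active too; so only
the both-active ones can contribute more than linearly. -/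
theorem block_bound (l : List α) (h : NoRep l) (h5 : Free5 l) :
    (l.length : ℝ) ≤ 40 * l.toFinset.card + 16 * dsB (both l).card := by
  classical
  set p : α → Bool := fun s => decide (¬ LAct l s) with hp
  set q : α → Bool := fun s => decide (¬ RAct l s) with hq
  set l₁ := dd (l.filter p) with hl₁
  set m := dd (l.filter (fun x => !p x)) with hm
  have s₁ : l₁ <+ l := (dd_sublist _).trans List.filter_sublist
  have sm : m <+ l := (dd_sublist _).trans List.filter_sublist
  have f₁ : Free4 l₁ := by
    intro a b hab hs
    have hb : p b = true := filter_mem_of_sub hs (by simp)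
    have : LAct l b := ⟨a, hab, hs.trans s₁⟩
    simp [hp, this] at hb
  have e₁ : l₁.length ≤ 2 * l.toFinset.card :=
    (ds2 l₁ (dd_noRep _) f₁).trans (Nat.mul_le_mul_left 2 (card_sub s₁))
  set m₁ := dd (m.filter q) with hm₁
  set m₂ := dd (m.filter (fun x => !q x)) with hm₂
  have t₁ : m₁ <+ m := (dd_sublist _).trans List.filter_sublist
  have t₂ : m₂ <+ m := (dd_sublist _).trans List.filter_sublist
  have g₁ : Free4 m₁ := by
    intro a b hab hs
    have ha : q a = true := filter_mem_of_sub hs (by simp)
    have : RAct l a := ⟨b, hab.symm, hs.trans (t₁.trans sm)⟩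
    simp [hq, this] at ha
  have e₂ : m₁.length ≤ 2 * l.toFinset.card :=
    (ds2 m₁ (dd_noRep _) g₁).trans (Nat.mul_le_mul_left 2 (card_sub (t₁.trans sm)))
  have hc : m₂.toFinset.card ≤ (both l).card := by
    apply Finset.card_le_card
    intro x hx
    rw [List.mem_toFinset] at hx
    have x1 : x ∈ m := t₂.subset hx
    have x2 : (!q x) = true :=
      filter_mem_of_sub (p := fun y => !q y) (l := m) (w := m₂) (List.Sublist.refl _) hx
    have x3 : (!p x) = true :=
      filter_mem_of_sub (p := fun y => !p y) (l := l) (w := m) (List.Sublist.refl _) x1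
    unfold both
    simp only [Finset.mem_filter, List.mem_toFinset]
    refine ⟨sm.subset x1, ?_, ?_⟩
    · by_contra hh
      simp [hp, hh] at x3
    · by_contra hh
      simp [hq, hh] at x2
  have e₃ : (m₂.length : ℝ) ≤ dsB (both l).card :=
    (ds3 m₂ (dd_noRep _) (h5.mono (t₂.trans sm))).trans (dsB_mono hc)
  have k₁ : l.length ≤ 4 * (l₁.length + m.length) := length_le_merge l h h5 p
  have k₂ : m.length ≤ 4 * (m₁.length + m₂.length) :=
    length_le_merge m (dd_noRep _) (h5.mono sm) q
  have e₁' : (l₁.length : ℝ) ≤ 2 * l.toFinset.card := by exact_mod_cast e₁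
  have e₂' : (m₁.length : ℝ) ≤ 2 * l.toFinset.card := by exact_mod_cast e₂
  have k₁' : (l.length : ℝ) ≤ 4 * (l₁.length + m.length) := by exact_mod_cast k₁
  have k₂' : (m.length : ℝ) ≤ 4 * (m₁.length + m₂.length) := by exact_mod_cast k₂
  linarith

end P7b
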