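import Pool.Agent.Lib.P7b.DSDefs

/-! MP_7b5a71: removing adjacent repetitions (`dd l = l.destutter (· ≠ ·)`).

Proofs: inductions on the list with `dd (a :: a :: l) = dd (a :: l)` and
`dd (a :: b :: l) = a :: dd (b :: l)` for `a ≠ b`. -/

namespace P7b

open List

variable {α : Type*} [DecidableEq α]

namespace DSDedupAux

theorem dd_nil : dd ([] : List α) = [] := rfl

theorem dd_single (a : α) : dd [a] = [a] := rfl

theorem dd_same (a : α) (l : List α) : dd (a :: a :: l) = dd (a :: l) := by
  unfold dd
  rw [List.destutter_cons_cons, if_neg (by simp)]
  rfl

theorem dd_ne {a b : α} (h : a ≠ b) (l : List α) : dd (a :: b :: l) = a :: dd (b :: l) := by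
  unfold dd
  rw [List.destutter_cons_cons, if_pos h]
  rfl

theorem dd_idem (l : List α) : dd (dd l) = dd l := List.destutter_idem (l := l) _

theorem dd_head (a : α) (l : List α) : ∃ t, dd (a :: l) = a :: t := by
  induction l generalizing a with
  | nil => exact ⟨[], rfl⟩
  | cons b l ih =>
    by_cases h : a = b
    · subst h
      rw [dd_same]
      exact ih a
    · exact ⟨_, dd_ne h l⟩

theorem dd_cons_dd (a : α) (m : List α) : dd (a :: dd m) = dd (a :: m) := by
  cases m with
  | nil => rfl
  | cons b m =>
    obtain ⟨t, ht⟩ := dd_head b m
    have h2 : dd (b :: t) = dd (b :: m) := by
      rw [← ht]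
      exact dd_idem _
    by_cases h : a = b
    · subst h
      rw [ht, dd_same, dd_same, h2]
    · rw [ht, dd_ne h, dd_ne h, h2]

theorem mem_dd (x : α) (l : List α) : x ∈ dd l ↔ x ∈ l := by
  induction l with
  | nil => rfl
  | cons a l ih =>
    cases l with
    | nil => rfl
    | cons b l =>
      by_cases h : a = b
      · subst h
        rw [dd_same, ih]
        simp
      · rw [dd_ne h, List.mem_cons, ih, List.mem_cons (b := a)]

theorem length_mono (a : α) (m : List α) : (dd m).length ≤ (dd (a :: m)).length := by
  cases m with
  | nil => simp [dd_nil]
  | cons b m =>
    by_cases h : a = b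
    · subst h
      rw [dd_same]
    · rw [dd_ne h]
      simp

theorem length_append (l m : List α) :
    (dd l).length + (dd m).length ≤ (dd (l ++ m)).length + 1 := by
  induction l with
  | nil => simp [dd_nil]
  | cons a l ih =>
    cases l with
    | nil =>
      have := length_mono a m
      simp only [dd_single, List.length_singleton, List.singleton_append]
      omega
    | cons b l =>
      by_cases h : a = b
      · subst h
        simp only [List.cons_append] at ih ⊢
        rw [dd_same, dd_same]
        exact ih
      · simp only [List.cons_append] at ih ⊢
        rw [dd_ne h, dd_ne h]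
        simp only [List.length_cons]
        omega

end DSDedupAux

open DSDedupAux

theorem dd_toFinset (l : List α) : (dd l).toFinset = l.toFinset := by
  ext x
  rw [List.mem_toFinset, List.mem_toFinset, mem_dd]

/-- the compressed restriction of the compressed word is the compressed restriction -/
theorem dd_filter_dd (l : List α) (p : α → Bool) : dd ((dd l).filter p) = dd (l.filter p) := by
  induction l with
  | nil => rfl
  | cons a l ih =>
    cases l with
    | nil => rfl
    | cons b l =>
      by_cases h : a = b
      · subst h
        rw [dd_same, ih]
        by_cases hp : p a = true
        · rw [List.filter_cons_of_pos hp, List.filter_cons_of_pos (l := a :: l) hp,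
            List.filter_cons_of_pos hp, dd_same]
        · rw [List.filter_cons_of_neg (l := a :: l) hp]
      · rw [dd_ne h]
        by_cases hp : p a = true
        · rw [List.filter_cons_of_pos hp, List.filter_cons_of_pos (l := b :: l) hp,
            ← dd_cons_dd, ih, dd_cons_dd]
        · rw [List.filter_cons_of_neg hp, List.filter_cons_of_neg (l := b :: l) hp, ih]

/-- an alternating pattern of distinct neighbours survives compression -/
theorem sublist_dd {l m : List α} (hm : NoRep m) (h : m <+ l) : m <+ dd l := by
  induction l generalizing m with
  | nil => exact h
  | cons a l ih =>
    cases l with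
    | nil => exact h
    | cons b l =>
      by_cases hab : a = b
      · subst hab
        rw [dd_same]
        apply ih hm
        cases h with
        | cons _ h => exact h
        | cons_cons _ h =>
          rename_i m'
          cases h with
          | cons _ h => exact h.cons_cons _
          | cons_cons _ h =>
            rename_i m''
            exfalso
            have : (a :: a :: m'').IsChain (· ≠ ·) := hm
            rw [List.isChain_cons_cons] at this
            exact this.1 rfl
      · rw [dd_ne hab]
        cases h with
        | cons _ h => exact (ih hm h).cons _
        | cons_cons _ h => exact (ih (List.IsChain.tail hm) h).cons_cons _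

/-- a word made of `k` blocks of pairwise distinct letters loses at most `k - 1` letters -/
theorem length_le_dd_add (L : List (List α)) (h : ∀ l ∈ L, l.Nodup) :
    L.flatten.length ≤ (dd L.flatten).length + L.length := by
  induction L with
  | nil => simp
  | cons l L ih =>
    have h1 := ih (fun m hm => h m (List.mem_cons_of_mem _ hm))
    have hl : l.Nodup := h l (by simp)
    have h2 : dd l = l := List.destutter_of_isChain _ _ (List.Pairwise.isChain hl)
    have h3 := length_append l L.flatten
    rw [h2] at h3
    simp only [List.flatten_cons, List.length_append, List.length_cons]
    omega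

end P7b
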