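import Mathlib

/-! MP_7b5a71: Davenport-Schinzel words as lists. -/

namespace P7b

open List

variable {α : Type*}

/-- no two adjacent entries are equal -/
def NoRep (l : List α) : Prop := l.IsChain (· ≠ ·)

/-- no alternation `a b a b` -/
def Free4 (l : List α) : Prop := ∀ a b : α, a ≠ b → ¬ ([a, b, a, b] <+ l)

/-- no alternation `a b a b a` -/
def Free5 (l : List α) : Prop := ∀ a b : α, a ≠ b → ¬ ([a, b, a, b, a] <+ l)

/-- `s` is left active in `l`: `b s b s` occurs for some `b ≠ s`. -/
def LAct (l : List α) (s : α) : Prop := ∃ b, b ≠ s ∧ [b, s, b, s] <+ l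

/-- `s` is right active in `l`: `s b s b` occurs for some `b ≠ s`. -/
def RAct (l : List α) (s : α) : Prop := ∃ b, b ≠ s ∧ [s, b, s, b] <+ l

/-- the upper bound used for words without `a b a b a` on `n` letters -/
noncomputable def dsB (n : ℕ) : ℝ := n * (3 + 2 * Real.log n)

theorem Free4.mono {l l' : List α} (h : Free4 l) (hs : l' <+ l) : Free4 l' :=
  fun a b hab hp => h a b hab (hp.trans hs)

theorem Free5.mono {l l' : List α} (h : Free5 l) (hs : l' <+ l) : Free5 l' :=
  fun a b hab hp => h a b hab (hp.trans hs)

theorem Free4.free5 {l : List α} (h : Free4 l) : Free5 l :=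
  fun a b hab hp => h a b hab ((by simp : [a, b, a, b] <+ [a, b, a, b, a]).trans hp)

variable [DecidableEq α]

/-- remove adjacent repetitions -/
def dd (l : List α) : List α := l.destutter (· ≠ ·)

/-- the letters that are both left and right active -/
noncomputable def both (l : List α) : Finset α := by
  classical exact l.toFinset.filter (fun s => LAct l s ∧ RAct l s)

theorem dd_sublist (l : List α) : dd l <+ l := List.destutter_sublist _ _

theorem dd_noRep (l : List α) : NoRep (dd l) := List.isChain_destutter _ _

end P7b
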