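import Pool.Agent.Lib.P7b.DSDedup
import Pool.Agent.Lib.P7b.DS2

/-! MP_7b5a71: the block bound of Hart and Sharir.

Proof by strong induction on `m = L.length`.  `m = 0`: `0`.  `m = 1`: the sum is `n`.  `m ≥ 2`: `L = L₁ ++ L₂` with
`m₁ = m / 2`, `m₂ = m - m / 2` blocks.  Let `G` be the set of letters occurring in both `L₁.flatten` and `L₂.flatten`.
* Letters not in `G`: apply the induction hypothesis to the blocks of `L₁` (resp. `L₂`) filtered by `· ∉ G`:
  together `≤ 4 (n - |G|) + m₁ (clog₂ m₁ + 1) + m₂ (clog₂ m₂ + 1) ≤ 4 (n - |G|) + m clog₂ m`
  (`clog₂ m₁ + 1, clog₂ m₂ + 1 ≤ clog₂ m` for `m ≥ 2`, `m₂ = ⌈m/2⌉`).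
* Letters in `G`, blocks of `L₁`: let `K` be the list of the blocks `(l.filter (· ∈ G)).dedup`, `l ∈ L₁`.  Then
  `K.flatten <+ L₁.flatten`, `K.flatten.length ≤ (dd K.flatten).length + m₁` (`length_le_dd_add`), and `dd K.flatten` has no
  `a b a b` because `a ∈ G` occurs again in `L₂.flatten` (which would give `a b a b a`); so `≤ 2 |G| + m₁` (`ds2`).
  Same for `L₂` (`b ∈ G` occurs before: `b a b a b`).  Together `≤ 4 |G| + m`.
Sum: `4 n + m clog₂ m + m`. -/

namespace P7b

open List

variable {α : Type*} [DecidableEq α]

namespace DSHSAux

/-- the number of incidences -/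
def F (L : List (List α)) : ℕ := (L.map (fun l => l.toFinset.card)).sum

theorem F_append (L₁ L₂ : List (List α)) : F (L₁ ++ L₂) = F L₁ + F L₂ := by
  simp [F]

theorem flatten_map_sublist (f : List α → List α) (hf : ∀ l, f l <+ l) (L : List (List α)) :
    (L.map f).flatten <+ L.flatten := by
  induction L with
  | nil => simp
  | cons l L ih =>
    simp only [List.map_cons, List.flatten_cons]
    exact (hf l).append ih

theorem F_split (p : α → Bool) (L : List (List α)) :
    F L = F (L.map (List.filter (fun a => !p a))) + F (L.map (List.filter p)) := by
  induction L with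
  | nil => simp [F]
  | cons l L ih =>
    have h1 : l.toFinset.card
        = (l.filter (fun a => !p a)).toFinset.card + (l.filter p).toFinset.card := by
      rw [List.toFinset_filter, List.toFinset_filter]
      have := Finset.card_filter_add_card_filter_not (s := l.toFinset) (p := fun a => p a = true)
      rw [← this, Nat.add_comm]
      congr 2
      ext a
      simp
    have h2 : F (l :: L) = l.toFinset.card + F L := by simp [F]
    have h3 : F ((l :: L).map (List.filter (fun a => !p a)))
        = (l.filter (fun a => !p a)).toFinset.card + F (L.map (List.filter (fun a => !p a))) := by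
      simp [F]
    have h4 : F ((l :: L).map (List.filter p))
        = (l.filter p).toFinset.card + F (L.map (List.filter p)) := by
      simp [F]
    rw [h2, h3, h4, h1, ih]
    omega

/-- the blocks restricted to `G` -/
def K (p : α → Bool) (L : List (List α)) : List (List α) :=
  L.map (fun l => (l.filter p).dedup)

theorem K_sublist (p : α → Bool) (L : List (List α)) : (K p L).flatten <+ L.flatten :=
  flatten_map_sublist _ (fun l => (List.dedup_sublist _).trans List.filter_sublist) L

theorem F_eq_K (p : α → Bool) (L : List (List α)) :
    F (L.map (List.filter p)) = (K p L).flatten.length := by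
  induction L with
  | nil => simp [F, K]
  | cons l L ih =>
    have h4 : F ((l :: L).map (List.filter p))
        = (l.filter p).toFinset.card + F (L.map (List.filter p)) := by
      simp [F]
    have h5 : (K p (l :: L)).flatten.length
        = (l.filter p).dedup.length + (K p L).flatten.length := by
      simp [K]
    rw [h4, h5, ih, List.card_toFinset]

theorem mem_K {p : α → Bool} {L : List (List α)} {a : α} (h : a ∈ (K p L).flatten) :
    p a = true := by
  simp only [K, List.mem_flatten, List.mem_map] at h
  obtain ⟨l, ⟨l', _, rfl⟩, hl⟩ := h
  rw [List.mem_dedup, List.mem_filter] at hl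
  exact hl.2

/-- the incidences with a set `G` of letters whose restricted word has no `a b a b` -/
theorem F_le (G : Finset α) (L : List (List α)) (h4 : Free4 (K (fun a => decide (a ∈ G)) L).flatten) :
    F (L.map (List.filter (fun a => decide (a ∈ G)))) ≤ 2 * G.card + L.length := by
  set p : α → Bool := fun a => decide (a ∈ G) with hp
  have h1 := length_le_dd_add (K p L) (by
    intro l hl
    simp only [K, List.mem_map] at hl
    obtain ⟨l', _, rfl⟩ := hl
    exact List.nodup_dedup _)
  have h2 := ds2 (dd (K p L).flatten) (dd_noRep _) (h4.mono (dd_sublist _))
  have h3 : (dd (K p L).flatten).toFinset ⊆ G := by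
    intro a ha
    rw [List.mem_toFinset] at ha
    have := mem_K ((dd_sublist _).subset ha)
    simpa [hp] using this
  have h5 := Finset.card_le_card h3
  have h6 : (K p L).length = L.length := by simp [K]
  rw [F_eq_K]
  omega

theorem main (m : ℕ) : ∀ L : List (List α), L.length = m → Free5 L.flatten →
    F L ≤ 4 * L.flatten.toFinset.card + L.length * (Nat.clog 2 L.length + 1) := by
  induction m using Nat.strong_induction_on with
  | _ m ih =>
    intro L hL h5
    rcases Nat.lt_or_ge m 2 with hm | hm
    · interval_cases m
      · rw [List.length_eq_zero_iff] at hL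
        subst hL
        simp [F]
      · obtain ⟨l, rfl⟩ := List.length_eq_one_iff.1 hL
        simp [F]
        omega
    · set L₁ := L.take (m / 2) with hL₁
      set L₂ := L.drop (m / 2) with hL₂
      have hLL : L₁ ++ L₂ = L := List.take_append_drop _ _
      have hl₁ : L₁.length = m / 2 := by
        rw [hL₁, List.length_take, hL]; omega
      have hl₂ : L₂.length = m - m / 2 := by
        rw [hL₂, List.length_drop, hL]
      have hflat : L.flatten = L₁.flatten ++ L₂.flatten := by
        rw [← hLL, List.flatten_append]
      set G : Finset α := L₁.flatten.toFinset ∩ L₂.flatten.toFinset with hG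
      set p : α → Bool := fun a => decide (a ∈ G) with hp
      -- the letters outside `G`
      have hA : ∀ (L' : List (List α)), L'.length < m → L'.flatten <+ L.flatten →
          F (L'.map (List.filter (fun a => !p a))) ≤
            4 * (L'.flatten.toFinset \ G).card + L'.length * (Nat.clog 2 L'.length + 1) := by
        intro L' hL' hs
        have hfl : (L'.map (List.filter (fun a => !p a))).flatten
            = L'.flatten.filter (fun a => !p a) := by
          rw [← List.filter_flatten]
        have := ih L'.length hL' (L'.map (List.filter (fun a => !p a))) (by simp)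
          (h5.mono (by
            rw [hfl]
            exact List.filter_sublist.trans hs))
        rw [hfl, List.length_map, List.toFinset_filter] at this
        have he : (L'.flatten.toFinset.filter (fun a => (!p a) = true))
            = L'.flatten.toFinset \ G := by
          ext a
          simp [hp]
        rwa [he] at this
      have hA₁ := hA L₁ (by omega) (by rw [hflat]; exact List.sublist_append_left _ _)
      have hA₂ := hA L₂ (by omega) (by rw [hflat]; exact List.sublist_append_right _ _)
      -- the letters in `G`
      have hB₁ : F (L₁.map (List.filter p)) ≤ 2 * G.card + L₁.length := by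
        apply F_le G L₁
        intro a b hab hs
        have ha : a ∈ L₂.flatten := by
          have := mem_K (hs.subset (by simp : a ∈ [a, b, a, b]))
          have : a ∈ G := by simpa using this
          rw [hG, Finset.mem_inter, List.mem_toFinset, List.mem_toFinset] at this
          exact this.2
        apply h5 a b hab
        rw [hflat]
        exact (hs.trans (K_sublist _ _)).append (List.singleton_sublist.2 ha)
      have hB₂ : F (L₂.map (List.filter p)) ≤ 2 * G.card + L₂.length := by
        apply F_le G L₂
        intro a b hab hs
        have hb : b ∈ L₁.flatten := by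
          have := mem_K (hs.subset (by simp : b ∈ [a, b, a, b]))
          have : b ∈ G := by simpa using this
          rw [hG, Finset.mem_inter, List.mem_toFinset, List.mem_toFinset] at this
          exact this.1
        apply h5 b a hab.symm
        rw [hflat]
        exact (List.singleton_sublist.2 hb).append (hs.trans (K_sublist _ _))
      -- cardinalities
      have hcard : (L₁.flatten.toFinset \ G).card + (L₂.flatten.toFinset \ G).card + G.card
          = L.flatten.toFinset.card := by
        have e1 : L.flatten.toFinset = L₁.flatten.toFinset ∪ L₂.flatten.toFinset := by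
          rw [hflat, List.toFinset_append]
        rw [e1]
        have e2 := Finset.card_union_add_card_inter L₁.flatten.toFinset L₂.flatten.toFinset
        have e3 := Finset.card_sdiff_add_card_eq_card (s := G) (t := L₁.flatten.toFinset)
          Finset.inter_subset_left
        have e4 := Finset.card_sdiff_add_card_eq_card (s := G) (t := L₂.flatten.toFinset)
          Finset.inter_subset_right
        rw [← hG] at e2
        omega
      have hclog : Nat.clog 2 m = Nat.clog 2 (m - m / 2) + 1 := by
        rw [Nat.clog_of_two_le (by norm_num) hm]
        congr 2
        omega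
      have hmono : Nat.clog 2 (m / 2) ≤ Nat.clog 2 (m - m / 2) :=
        Nat.clog_mono_right 2 (by omega)
      have hsplit : F L = (F (L₁.map (List.filter (fun a => !p a))) + F (L₁.map (List.filter p)))
          + (F (L₂.map (List.filter (fun a => !p a))) + F (L₂.map (List.filter p))) := by
        rw [← hLL, F_append, F_split p L₁, F_split p L₂]
      rw [hl₁] at hA₁ hB₁
      rw [hl₂] at hA₂ hB₂
      rw [hL, hsplit, ← hcard, hclog]
      have h1 : m / 2 * (Nat.clog 2 (m / 2) + 1) ≤ m / 2 * (Nat.clog 2 (m - m / 2) + 1) :=
        Nat.mul_le_mul_left _ (by omega)
      have h2 : m / 2 * (Nat.clog 2 (m - m / 2) + 1) + (m - m / 2) * (Nat.clog 2 (m - m / 2) + 1)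
          = m * (Nat.clog 2 (m - m / 2) + 1) := by
        rw [← Nat.add_mul]
        congr 1
        omega
      have h3 : m * (Nat.clog 2 (m - m / 2) + 1 + 1) = m * (Nat.clog 2 (m - m / 2) + 1) + m := by
        ring
      rw [h3]
      omega

end DSHSAux

/-- If a word without `a b a b a` is cut in `m` blocks then the total number of (block, letter)
incidences is at most `4 n + m (log₂ m + 1)`.  (Cut the list of blocks in two halves; the letters
occurring in both halves avoid `a b a b` in each half.) -/
theorem hart_sharir (L : List (List α)) (h5 : Free5 L.flatten) :
    (L.map (fun l => l.toFinset.card)).sum ≤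
      4 * L.flatten.toFinset.card + L.length * (Nat.clog 2 L.length + 1) :=
  DSHSAux.main L.length L rfl h5

end P7b
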