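import Pool.Agent.Lib.P7b.MapBasic
import Pool.Agent.Lib.P7b.Orb

/-! MP_7b5a71: pockets of disjoint arcs of the same face have no common tip.

Let `A₁, A₂` be the two arcs, `v₁, v₂` the ends, `a₁ = seg u₁`, `a₂ = seg u₂`, `f = lft u₁ = lft u₂`, `Z = {r | c₁ r = 1 ∧ c₂ r = 1}`; `f ∉ Z`.  Call `d` *bad* if exactly
one of `lft d`, `lft (rev d)` is in `Z` (invariant under `rev`).  Darts in `A₁ ∪ A₂` have left face `f`.
(a) If `seg d ∉ {a₁, a₂}` then `d` is not bad.  Suppose `lft d ∈ Z`, `lft (rev d) ∉ Z` (otherwise exchange `d` and `rev d`), say `c₁ (lft (rev d)) = 0` (the other case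
is symmetric).  By `cc` exactly one of `d`, `rev d` is in `A₁`; not `d` (its left face would be `f ∉ Z`); so `rev d ∈ A₁`, `lft (rev d) = f`, `c₂ (lft (rev d)) = 0 ≠ c₂ (lft d)`,
so by `cc` one of `d`, `rev d` is in `A₂`, again `rev d`; contradiction with `A₁ ∩ A₂ = ∅`.
(b) A tip is not bad (`nxt d = rev d`, `lft_nxt`).  For `d` not a tip let `N = nxt d`, `E = str d`, `S' = nxt (rev E)`, `W = rev d`; `nxt (rev N) = E`, `nxt (rev E) = S'`,
`nxt (rev S') = W`, `nxt (rev W) = N`, so `lft (rev N) = lft E` etc.: going round the vertex the four darts `N, E, S', W` have left faces `r₀, r₁, r₂, r₃` and their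
reverses have left faces `r₁, r₂, r₃, r₀`.  So if `N` and `S'` are not bad (`r₀ ∈ Z ↔ r₁ ∈ Z`, `r₂ ∈ Z ↔ r₃ ∈ Z`) then `E` is bad iff `W` is bad iff `d` is bad.
(c) Let `seg d = a₁`.  `N` and `S'` are on the same segment (`seg_right`), different from `a₁`; if it is not `a₂` they are not bad by (a), so `str d` is bad
iff `d` is bad.  By `prop_seg` (with `a = a₁`, `b = a₂`) no dart of `a₁` is bad; same for `a₂`.
(d) So no dart is bad; `dual` for the complement of `Z` (or for `Z`): since `lft u₁ ∉ Z` no dart has its left face in `Z`.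
(e) Suppose `In₁ t` and `In₂ t`.  If `t ∈ A₁` then `lft t = f`, so `c₂ (lft t) = 0` and `t ∈ A₂`, contradiction; same if `t ∈ A₂`.  So `c₁ (lft t) = c₂ (lft t) = 1`, `lft t ∈ Z`,
contradiction.  (This works for all darts `t`, not only tips.) -/

namespace P7b

namespace PreMap

variable {M : PreMap}

private theorem zmod2_cases (x : ZMod 2) : x = 0 ∨ x = 1 := by
  revert x; decide

private theorem lft_arc (h : M.Ax) {u d : M.D} {m : ℕ} (hd : d ∈ M.arc u m) :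
    M.lft d = M.lft u := by
  obtain ⟨i, _, _, rfl⟩ := (mem_arc u d m).1 hd
  exact h.lft_iter u i

private theorem cc_off {u : M.D} {m : ℕ} {c : M.R → ZMod 2} (h₁ : M.Col u m c) (d : M.D)
    (hr : M.seg (M.rev d) = M.seg d) (hd : M.seg d ≠ M.seg u) :
    c (M.lft d) + c (M.lft (M.rev d)) = ind (d ∈ M.arc u m) + ind (M.rev d ∈ M.arc u m) := by
  rw [h₁.cc d, ind_false (p := M.Btw u ((M.nxt^[m]) u) d ∨ M.Btw u ((M.nxt^[m]) u) (M.rev d)),
    add_zero]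
  rintro (h | h)
  · exact hd h.1
  · exact hd (hr.symm.trans h.1)

private theorem step_a (h : M.Ax) {u₁ u₂ : M.D} {m₁ m₂ : ℕ} {c₁ c₂} (h₁ : M.Col u₁ m₁ c₁)
    (h₂ : M.Col u₂ m₂ c₂) (hl : M.lft u₁ = M.lft u₂) (hA : Disjoint (M.arc u₁ m₁) (M.arc u₂ m₂))
    (d : M.D) (hs1 : M.seg d ≠ M.seg u₁) (hs2 : M.seg d ≠ M.seg u₂)
    (hP : c₁ (M.lft d) = 1 ∧ c₂ (M.lft d) = 1) :
    c₁ (M.lft (M.rev d)) = 1 ∧ c₂ (M.lft (M.rev d)) = 1 := by
  have hc1 := cc_off h₁ d (h.seg_rev d) hs1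
  have hc2 := cc_off h₂ d (h.seg_rev d) hs2
  have hd1 : d ∉ M.arc u₁ m₁ := by
    intro hd
    have := h₁.c0
    rw [← lft_arc h hd, hP.1] at this
    exact one_ne_zero this
  have hd2 : d ∉ M.arc u₂ m₂ := by
    intro hd
    have := h₂.c0
    rw [← lft_arc h hd, hP.2] at this
    exact one_ne_zero this
  rw [hP.1, ind_false hd1, zero_add] at hc1
  rw [hP.2, ind_false hd2, zero_add] at hc2
  have hr1 : M.rev d ∉ M.arc u₁ m₁ := by
    intro hr
    have hf : c₂ (M.lft (M.rev d)) = 0 := by rw [lft_arc h hr, hl]; exact h₂.c0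
    by_cases hr2 : M.rev d ∈ M.arc u₂ m₂
    · exact Finset.disjoint_left.1 hA hr hr2
    · rw [hf, ind_false hr2, add_zero] at hc2
      exact one_ne_zero hc2
  have hr2 : M.rev d ∉ M.arc u₂ m₂ := by
    intro hr
    have hf : c₁ (M.lft (M.rev d)) = 0 := by rw [lft_arc h hr, ← hl]; exact h₁.c0
    rw [hf, ind_false hr1, add_zero] at hc1
    exact one_ne_zero hc1
  rw [ind_false hr1] at hc1
  rw [ind_false hr2] at hc2
  constructor
  · rcases zmod2_cases (c₁ (M.lft (M.rev d))) with h0 | h0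
    · rw [h0, add_zero] at hc1; exact absurd hc1 one_ne_zero
    · exact h0
  · rcases zmod2_cases (c₂ (M.lft (M.rev d))) with h0 | h0
    · rw [h0, add_zero] at hc2; exact absurd hc2 one_ne_zero
    · exact h0

private theorem step_b (h : M.Ax) (P : M.R → Prop) (d : M.D) (hd : ¬ M.tip d)
    (hN : P (M.lft (M.nxt d)) ↔ P (M.lft (M.rev (M.nxt d))))
    (hS : P (M.lft (M.nxt (M.rev (M.str d)))) ↔
      P (M.lft (M.rev (M.nxt (M.rev (M.str d)))))) :
    (¬ (P (M.lft (M.str d)) ↔ P (M.lft (M.rev (M.str d))))) ↔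
      ¬ (P (M.lft d) ↔ P (M.lft (M.rev d))) := by
  have e0 : M.lft (M.nxt d) = M.lft d := h.lft_nxt d
  have e1 : M.lft (M.str d) = M.lft (M.rev (M.nxt d)) := h.lft_nxt _
  have e2 : M.lft (M.nxt (M.rev (M.str d))) = M.lft (M.rev (M.str d)) := h.lft_nxt _
  have e3 : M.lft (M.rev (M.nxt (M.rev (M.str d)))) = M.lft (M.rev d) := by
    have := h.str_rev d hd
    unfold str at this ⊢
    rw [← h.lft_nxt (M.rev (M.nxt (M.rev (M.nxt (M.rev (M.nxt d)))))), this]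
  rw [e0] at hN
  rw [e2, e3] at hS
  rw [e1, ← hN, hS]

theorem Ax.disj (h : M.Ax) {u₁ u₂ : M.D} {m₁ m₂ : ℕ} {c₁ c₂} (h₁ : M.Col u₁ m₁ c₁)
    (h₂ : M.Col u₂ m₂ c₂) (hl : M.lft u₁ = M.lft u₂) (hA : Disjoint (M.arc u₁ m₁) (M.arc u₂ m₂))
    (t : M.D) : ¬ (M.In u₁ m₁ c₁ t ∧ M.In u₂ m₂ c₂ t) := by
  have hoff : ∀ d, M.seg d ≠ M.seg u₁ → M.seg d ≠ M.seg u₂ →
      ((c₁ (M.lft d) = 1 ∧ c₂ (M.lft d) = 1) ↔
        (c₁ (M.lft (M.rev d)) = 1 ∧ c₂ (M.lft (M.rev d)) = 1)) := by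
    intro d hs1 hs2
    constructor
    · exact step_a h h₁ h₂ hl hA d hs1 hs2
    · intro hP
      have := step_a h h₁ h₂ hl hA (M.rev d) (by rwa [h.seg_rev]) (by rwa [h.seg_rev]) hP
      rwa [h.rev_rev] at this
  have hseg : ∀ a b : M.S, ((a = M.seg u₁ ∧ b = M.seg u₂) ∨ (a = M.seg u₂ ∧ b = M.seg u₁)) →
      ∀ d, M.seg d = a → ¬ ¬ ((c₁ (M.lft d) = 1 ∧ c₂ (M.lft d) = 1) ↔
        (c₁ (M.lft (M.rev d)) = 1 ∧ c₂ (M.lft (M.rev d)) = 1)) := by
    intro a b hab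
    apply h.prop_seg a b (fun d => ¬ ((c₁ (M.lft d) = 1 ∧ c₂ (M.lft d) = 1) ↔
        (c₁ (M.lft (M.rev d)) = 1 ∧ c₂ (M.lft (M.rev d)) = 1)))
    · intro d _
      simp only [h.rev_rev]
      exact not_congr ⟨Iff.symm, Iff.symm⟩
    · intro d hda hdt hnb
      have hna : M.seg (M.nxt d) ≠ a := by rw [← hda]; exact h.nxt_seg d hdt
      have hn1 : M.seg (M.nxt d) ≠ M.seg u₁ := by
        rcases hab with ⟨h1, h2⟩ | ⟨h1, h2⟩
        · rwa [← h1]
        · rwa [← h2]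
      have hn2 : M.seg (M.nxt d) ≠ M.seg u₂ := by
        rcases hab with ⟨h1, h2⟩ | ⟨h1, h2⟩
        · rwa [← h2]
        · rwa [← h1]
      apply step_b h (fun r => c₁ r = 1 ∧ c₂ r = 1) d hdt
      · exact hoff _ hn1 hn2
      · apply hoff
        · rw [h.seg_right d hdt]; exact hn1
        · rw [h.seg_right d hdt]; exact hn2
    · intro d _ hdt hn
      apply hn
      rw [← h.nxt_tip d hdt, h.lft_nxt]
  have hall : ∀ d, (c₁ (M.lft d) = 1 ∧ c₂ (M.lft d) = 1) ↔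
        (c₁ (M.lft (M.rev d)) = 1 ∧ c₂ (M.lft (M.rev d)) = 1) := by
    intro d
    by_cases hs1 : M.seg d = M.seg u₁
    · exact not_not.1 (hseg _ _ (Or.inl ⟨rfl, rfl⟩) d hs1)
    · by_cases hs2 : M.seg d = M.seg u₂
      · exact not_not.1 (hseg _ _ (Or.inr ⟨rfl, rfl⟩) d hs2)
      · exact hoff d hs1 hs2
  have hZ : ∀ d, ¬ (c₁ (M.lft d) = 1 ∧ c₂ (M.lft d) = 1) := by
    intro d hd
    have := h.dual {r | c₁ r = 1 ∧ c₂ r = 1} hall d u₁ hd
    have h0 := h₁.c0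
    rw [this.1] at h0
    exact one_ne_zero h0
  rintro ⟨i1, i2⟩
  unfold In at i1 i2
  by_cases t1 : t ∈ M.arc u₁ m₁
  · have t2 : t ∉ M.arc u₂ m₂ := fun t2 => Finset.disjoint_left.1 hA t1 t2
    rw [ind_false t2, add_zero, lft_arc h t1, hl, h₂.c0] at i2
    exact zero_ne_one i2
  · by_cases t2 : t ∈ M.arc u₂ m₂
    · rw [ind_false t1, add_zero, lft_arc h t2, ← hl, h₁.c0] at i1
      exact zero_ne_one i1
    · rw [ind_false t1, add_zero] at i1
      rw [ind_false t2, add_zero] at i2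
      exact hZ t ⟨i1, i2⟩

end PreMap

end P7b
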