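import Pool.Agent.Lib.P7b.GLeft

/-! MP_7b5a71: a non-vertex boundary point of a face lies on a boundary edge.

The point is in the open edge of a dart; near it every point off `un R` has one of the two
components `lreg og hd`, `lreg hd og`, so one of them is the face; every point of the open edge is
a limit of points of that component. -/

namespace P7b

namespace EdgeFrAux

theorem edge_front {R : Finset Sg} (h : GP R) {s : Sg} (hs : s ∈ R) {p q : ℂ} (hp : p ∈ car s)
    (hq : q ∈ car s) (hpq : p ≠ q) (hd : Disjoint (openSegment ℝ p q) (Vx R)) {x : ℂ}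
    (hface : face R x = lreg R p q) : openSegment ℝ p q ⊆ frontier (face R x) := by
  intro z hz
  have hzun : z ∈ un R := Set.mem_biUnion hs (openSegment_sub hp hq hz)
  have hz' := hz
  rw [openSegment_eq_image'] at hz'
  obtain ⟨t, ⟨ht0, ht1⟩, hzt⟩ := hz'
  have hzt' : z = lq p q t 0 := by
    rw [← hzt]
    unfold lq
    simp [Complex.real_smul]
  obtain ⟨ε₀, e0, h1⟩ := lreg_eq h hs hp hq hpq hd ht0 ht1
  have hn : 0 < ‖q - p‖ := norm_pos_iff.2 (sub_ne_zero.2 hpq.symm)
  refine ⟨?_, ?_⟩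
  · rw [Metric.mem_closure_iff]
    intro η hη
    have hm : 0 < min ε₀ (η / ‖q - p‖) := lt_min e0 (by positivity)
    have hlt : min ε₀ (η / ‖q - p‖) / 2 < min ε₀ (η / ‖q - p‖) := by linarith
    obtain ⟨h2, h3⟩ := h1 (min ε₀ (η / ‖q - p‖) / 2) (by linarith)
      (lt_of_lt_of_le hlt (min_le_left _ _))
    refine ⟨lq p q t (min ε₀ (η / ‖q - p‖) / 2), ?_, ?_⟩
    · rw [hface, ← h3]
      exact mem_connectedComponentIn h2
    · rw [dist_comm, hzt', GLeftAux.dist_lq p q t _ (by linarith)]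
      have h4 : min ε₀ (η / ‖q - p‖) / 2 < η / ‖q - p‖ :=
        lt_of_lt_of_le hlt (min_le_right _ _)
      rwa [lt_div_iff₀ hn] at h4
  · intro hint
    have h2 : z ∈ face R x := interior_subset hint
    exact connectedComponentIn_subset _ _ h2 hzun

end EdgeFrAux

theorem exists_boundary_edge {R : Finset Sg} (h : GP R) {x y : ℂ} (hx : x ∉ un R) (hy : y ∈ un R)
    (hv : y ∉ Vx R) (hf : y ∈ closure (face R x)) : ∃ e ∈ faceEdges R x, y ∈ e := by
  obtain ⟨d, hd⟩ := exists_dart h hy hv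
  obtain ⟨ε, e0, h1⟩ := edge_ball h d.mem (d.og_car h) (d.hd_car h) (d.og_ne_hd h) (d.disj h) hd
  rw [Metric.mem_closure_iff] at hf
  obtain ⟨w, hw, hwy⟩ := hf ε e0
  have hwun : w ∉ un R := connectedComponentIn_subset _ _ hw
  have hcomp : connectedComponentIn (un R)ᶜ w = face R x := (connectedComponentIn_eq hw).symm
  have hE : IsEdge R (openSegment ℝ d.og d.hd) :=
    ⟨d.sg, d.mem, d.og, ⟨(h.mem_VF.1 d.og_mem).1, d.og_car h⟩, d.hd,
      ⟨(h.mem_VF.1 (d.hd_mem h)).1, d.hd_car h⟩, d.og_ne_hd h, d.disj h, rfl⟩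
  refine ⟨openSegment ℝ d.og d.hd, ⟨hE, ?_⟩, hd⟩
  rcases (h1 w (by rwa [dist_comm])).2 hwun with h2 | h2
  · exact EdgeFrAux.edge_front h d.mem (d.og_car h) (d.hd_car h) (d.og_ne_hd h) (d.disj h)
      (hcomp.symm.trans h2)
  · rw [openSegment_symm]
    refine EdgeFrAux.edge_front h d.mem (d.hd_car h) (d.og_car h) (d.og_ne_hd h).symm ?_
      (hcomp.symm.trans h2)
    rw [openSegment_symm]
    exact d.disj h

end P7b
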