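import Pool.Agent.Lib.P7b.LPDefs

/-! MP_7b5a71: the quantifier `Ev`: minima of the thresholds.  `Ev.displ`: the displacement of an endpoint is less than `ε |s.2 - s.1| + δ`. -/

namespace P7b

theorem Ev.mono {S : Finset Sg} {Q Q' : (Sg → Sg) → Prop} (h : Ev S Q) (hQ : ∀ p, Q p → Q' p) :
    Ev S Q' := by
  obtain ⟨ε₀, hε₀, h⟩ := h
  refine ⟨ε₀, hε₀, fun ε h1 h2 => ?_⟩
  obtain ⟨δ₀, hδ₀, h⟩ := h ε h1 h2
  exact ⟨δ₀, hδ₀, fun δ h3 h4 p hp => hQ p (h δ h3 h4 p hp)⟩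

theorem Ev.and {S : Finset Sg} {Q Q' : (Sg → Sg) → Prop} (h : Ev S Q) (h' : Ev S Q') :
    Ev S (fun p => Q p ∧ Q' p) := by
  obtain ⟨ε₀, hε₀, h⟩ := h
  obtain ⟨ε₁, hε₁, h'⟩ := h'
  refine ⟨min ε₀ ε₁, lt_min hε₀ hε₁, fun ε h1 h2 => ?_⟩
  obtain ⟨δ₀, hδ₀, h⟩ := h ε h1 (h2.trans_le (min_le_left _ _))
  obtain ⟨δ₁, hδ₁, h'⟩ := h' ε h1 (h2.trans_le (min_le_right _ _))
  exact ⟨min δ₀ δ₁, lt_min hδ₀ hδ₁, fun δ h3 h4 p hp =>
    ⟨h δ h3 (h4.trans_le (min_le_left _ _)) p hp, h' δ h3 (h4.trans_le (min_le_right _ _)) p hp⟩⟩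

theorem Ev.all {ι : Type*} {S : Finset Sg} (F : Set ι) (hF : F.Finite) (Q : ι → (Sg → Sg) → Prop)
    (h : ∀ i ∈ F, Ev S (Q i)) : Ev S (fun p => ∀ i ∈ F, Q i p) := by
  induction F, hF using Set.Finite.induction_on with
  | empty =>
    exact ⟨1, one_pos, fun ε _ _ => ⟨1, one_pos, fun δ _ _ p _ i hi => absurd hi (Set.notMem_empty i)⟩⟩
  | @insert a s ha hs ih =>
    have h1 : Ev S (Q a) := h a (Set.mem_insert a s)
    have h2 := ih (fun i hi => h i (Set.mem_insert_of_mem a hi))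
    refine (h1.and h2).mono (fun p hp i hi => ?_)
    rcases Set.mem_insert_iff.1 hi with rfl | hi
    · exact hp.1
    · exact hp.2 i hi

theorem Ev.displ (S : Finset Sg) {η : ℝ} (hη : 0 < η) :
    Ev S (fun p => ∀ s ∈ S, dist (p s).1 s.1 < η ∧ dist (p s).2 s.2 < η) := by
  set L : ℝ := ∑ s ∈ S, dist s.2 s.1 with hL
  have hL0 : 0 ≤ L := Finset.sum_nonneg (fun s _ => dist_nonneg)
  have hLs : ∀ s ∈ S, dist s.2 s.1 ≤ L := fun s hs =>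
    Finset.single_le_sum (f := fun s : Sg => dist s.2 s.1) (fun s _ => dist_nonneg) hs
  refine ⟨η / (2 * (L + 1)), by positivity, fun ε h1 h2 => ⟨η / 2, by positivity,
    fun δ h3 h4 p hp s hs => ?_⟩⟩
  have hε : ε * dist s.2 s.1 < η / 2 := by
    have h5 : ε * (L + 1) < η / (2 * (L + 1)) * (L + 1) :=
      mul_lt_mul_of_pos_right h2 (by positivity)
    have h6 : η / (2 * (L + 1)) * (L + 1) = η / 2 := by
      field_simp
    have h7 : ε * dist s.2 s.1 ≤ ε * (L + 1) :=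
      mul_le_mul_of_nonneg_left ((hLs s hs).trans (by linarith)) h1.le
    linarith
  have hn : ‖(ε : ℂ) * (s.2 - s.1)‖ = ε * dist s.2 s.1 := by
    rw [norm_mul, Complex.norm_real, Real.norm_of_nonneg h1.le, dist_eq_norm]
  obtain ⟨h5, h6⟩ := hp s hs
  constructor
  · have h7 : dist (s.1 - (ε : ℂ) * (s.2 - s.1)) s.1 = ε * dist s.2 s.1 := by
      rw [dist_eq_norm, sub_sub_cancel_left, norm_neg, hn]
    linarith [dist_triangle (p s).1 (s.1 - (ε : ℂ) * (s.2 - s.1)) s.1]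
  · have h7 : dist (s.2 + (ε : ℂ) * (s.2 - s.1)) s.2 = ε * dist s.2 s.1 := by
      rw [dist_eq_norm, add_sub_cancel_left, hn]
    linarith [dist_triangle (p s).2 (s.2 + (ε : ℂ) * (s.2 - s.1)) s.2]

/-- `Ev` for a subfamily -/
theorem Ev.of_subset {S R : Finset Sg} (hR : R ⊆ S) {Q : (Sg → Sg) → Prop} (h : Ev R Q) : Ev S Q := by
  obtain ⟨ε₀, hε₀, h⟩ := h
  refine ⟨ε₀, hε₀, fun ε h1 h2 => ?_⟩
  obtain ⟨δ₀, hδ₀, h⟩ := h ε h1 h2
  exact ⟨δ₀, hδ₀, fun δ h3 h4 p hp => h δ h3 h4 p (fun s hs => hp s (hR hs))⟩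

end P7b
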