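import Pool.Agent.Lib.P7b.GLoc

/-! MP_7b5a71: the face on the left of an edge.

`lreg_eq`: let `K = segment (lq p q t 0) (lq p q (1/2) 0)` and `ε₁` from `loc_edge`; for `0 < ε ≤ ε' < ε₁ / (2 |q - p|)` the segments from `lq p q t ε` to `lq p q (1/2) ε` and
from `lq p q (1/2) ε` to `lq p q (1/2) ε'` are outside `un R` (their points `lq p q t' ε''` are at distance `< ε₁` from `lq p q t' 0 ∈ K` and are not in `car s` by
`lq_notMem_car`).  So all the points `lq p q t ε`, `lq p q (1/2) ε'` are in one component, and this component is `lreg R p q`.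
`edge_ball`: `z` in the open edge; ball of radius from `loc_ball`, made smaller so that its points on `car s` are in the open edge; the points of the
ball on the left (right) side of the line form a convex set outside `un R` containing `lq p q t ε` (`lq q p (1 - t) ε`) for small `ε > 0`. -/

namespace P7b

open Complex

variable {R : Finset Sg}

namespace GLeftAux

theorem lq_continuous (p q : ℂ) : Continuous (fun x : ℝ × ℝ => lq p q x.1 x.2) := by
  unfold lq
  fun_prop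

theorem dist_lq (p q : ℂ) (t ε : ℝ) (hε : 0 < ε) :
    dist (lq p q t ε) (lq p q t 0) = ε * ‖q - p‖ := by
  rw [dist_eq_norm]
  have : lq p q t ε - lq p q t 0 = (ε : ℂ) * (I * (q - p)) := by
    unfold lq
    push_cast
    ring
  rw [this, norm_mul, norm_mul, Complex.norm_I, one_mul, Complex.norm_real, Real.norm_eq_abs,
    abs_of_pos hε]

theorem lq_seg (p q : ℂ) {a b t : ℝ} (ha : a ≤ t) (hb : t ≤ b) :
    lq p q t 0 ∈ segment ℝ (lq p q a 0) (lq p q b 0) := by
  have hab : a ≤ b := ha.trans hb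
  have ht : t ∈ segment ℝ a b := by
    rw [segment_eq_Icc hab]
    exact ⟨ha, hb⟩
  obtain ⟨u, v, hu, hv, huv, rfl⟩ := ht
  refine ⟨u, v, hu, hv, huv, ?_⟩
  have hu' : (u : ℂ) = 1 - v := by
    have : u = 1 - v := by linarith
    rw [this]; push_cast; ring
  unfold lq
  simp only [smul_eq_mul, Complex.real_smul]
  push_cast
  rw [hu']
  ring

theorem strip_not (h : GP R) {s : Sg} (hs : s ∈ R) {p q : ℂ} (hp : p ∈ car s) (hq : q ∈ car s)
    (hpq : p ≠ q) (hd : Disjoint (openSegment ℝ p q) (Vx R)) {a b : ℝ} (ha : 0 < a) (hb : b < 1)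
    (hab : a ≤ b) :
    ∃ ε₀ > 0, ∀ t, a ≤ t → t ≤ b → ∀ ε, 0 < ε → ε < ε₀ → lq p q t ε ∉ un R := by
  obtain ⟨ε₁, h1, h2⟩ := loc_edge h hs hp hq hd (m := lq p q a 0) (m' := lq p q b 0)
    (lq_zero_mem ha (by linarith)) (lq_zero_mem (by linarith) hb)
  have hn : 0 < ‖q - p‖ := norm_pos_iff.2 (sub_ne_zero.2 hpq.symm)
  refine ⟨ε₁ / ‖q - p‖, by positivity, ?_⟩
  intro t hta htb ε hε hε' hmem
  have h3 : dist (lq p q t ε) (lq p q t 0) < ε₁ := by
    rw [dist_lq p q t ε hε]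
    rwa [lt_div_iff₀ hn] at hε'
  exact lq_notMem_car hp hq hpq t hε.ne' (h2 _ (lq_seg p q hta htb) _ h3 hmem)

theorem strip (h : GP R) {s : Sg} (hs : s ∈ R) {p q : ℂ} (hp : p ∈ car s) (hq : q ∈ car s)
    (hpq : p ≠ q) (hd : Disjoint (openSegment ℝ p q) (Vx R)) {a b : ℝ} (ha : 0 < a) (hb : b < 1)
    (ha' : a ≤ 1 / 2) (hb' : 1 / 2 ≤ b) :
    ∃ ε₀ > 0, ∀ t, a ≤ t → t ≤ b → ∀ ε, 0 < ε → ε < ε₀ → lq p q t ε ∉ un R ∧
      connectedComponentIn (un R)ᶜ (lq p q t ε) = lreg R p q := by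
  obtain ⟨ε₀, h0, h1⟩ := strip_not h hs hp hq hpq hd ha hb (ha'.trans hb')
  refine ⟨ε₀, h0, ?_⟩
  -- the strip is preconnected
  have hpre : IsPreconnected ((fun x : ℝ × ℝ => lq p q x.1 x.2) ''
      (Set.Icc a b ×ˢ Set.Ioo 0 ε₀)) :=
    (isPreconnected_Icc.prod isPreconnected_Ioo).image _ (lq_continuous p q).continuousOn
  have hsub : ((fun x : ℝ × ℝ => lq p q x.1 x.2) '' (Set.Icc a b ×ˢ Set.Ioo 0 ε₀)) ⊆ (un R)ᶜ := by
    rintro _ ⟨⟨t, ε⟩, ⟨⟨hta, htb⟩, ⟨he, he'⟩⟩, rfl⟩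
    exact h1 t hta htb ε he he'
  have hcomp : ∀ t, a ≤ t → t ≤ b → ∀ ε, 0 < ε → ε < ε₀ → ∀ t', a ≤ t' → t' ≤ b →
      ∀ ε', 0 < ε' → ε' < ε₀ → connectedComponentIn (un R)ᶜ (lq p q t ε) =
        connectedComponentIn (un R)ᶜ (lq p q t' ε') := by
    intro t hta htb ε he he' t' hta' htb' ε' he1 he1'
    have m1 : lq p q t ε ∈ ((fun x : ℝ × ℝ => lq p q x.1 x.2) '' (Set.Icc a b ×ˢ Set.Ioo 0 ε₀)) :=
      ⟨(t, ε), ⟨⟨hta, htb⟩, ⟨he, he'⟩⟩, rfl⟩
    have m2 : lq p q t' ε' ∈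
        ((fun x : ℝ × ℝ => lq p q x.1 x.2) '' (Set.Icc a b ×ˢ Set.Ioo 0 ε₀)) :=
      ⟨(t', ε'), ⟨⟨hta', htb'⟩, ⟨he1, he1'⟩⟩, rfl⟩
    have h3 := hpre.subset_connectedComponentIn m1 hsub m2
    exact connectedComponentIn_eq h3
  intro t hta htb ε he he'
  refine ⟨h1 t hta htb ε he he', ?_⟩
  ext z
  constructor
  · intro hz
    refine ⟨ε₀, h0, ?_⟩
    intro ε' he1 he1'
    rw [← hcomp t hta htb ε he he' (1 / 2) ha' hb' ε' he1 he1']
    exact hz
  · rintro ⟨ε₁, hε₁, hz⟩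
    have hm : 0 < min ε₀ ε₁ / 2 := by positivity
    have hm0 : min ε₀ ε₁ / 2 < ε₀ := by
      have := min_le_left ε₀ ε₁
      have h' : 0 < min ε₀ ε₁ := lt_min h0 hε₁
      linarith
    have hm1 : min ε₀ ε₁ / 2 < ε₁ := by
      have := min_le_right ε₀ ε₁
      have h' : 0 < min ε₀ ε₁ := lt_min h0 hε₁
      linarith
    rw [hcomp t hta htb ε he he' (1 / 2) ha' hb' _ hm hm0]
    exact hz _ hm hm1

theorem coord {p q : ℂ} (hpq : p ≠ q) (w : ℂ) :
    w = lq p q ((w - p) / (q - p)).re ((w - p) / (q - p)).im := by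
  have hne : q - p ≠ 0 := sub_ne_zero.2 hpq.symm
  have h1 : ((((w - p) / (q - p)).re : ℝ) : ℂ) + ((((w - p) / (q - p)).im : ℝ) : ℂ) * I
      = (w - p) / (q - p) := Complex.re_add_im _
  unfold lq
  have h2 : (w - p) / (q - p) * (q - p) = w - p := div_mul_cancel₀ _ hne
  calc w = p + (w - p) := by ring
    _ = p + (w - p) / (q - p) * (q - p) := by rw [h2]
    _ = p + (((((w - p) / (q - p)).re : ℝ) : ℂ) + ((((w - p) / (q - p)).im : ℝ) : ℂ) * I)
          * (q - p) := by rw [h1]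
    _ = _ := by ring

end GLeftAux

open GLeftAux

theorem lreg_eq (h : GP R) {s : Sg} (hs : s ∈ R) {p q : ℂ} (hp : p ∈ car s) (hq : q ∈ car s)
    (hpq : p ≠ q) (hd : Disjoint (openSegment ℝ p q) (Vx R)) {t : ℝ} (h0 : 0 < t) (h1 : t < 1) :
    ∃ ε₀ > 0, ∀ ε, 0 < ε → ε < ε₀ → lq p q t ε ∉ un R ∧
      connectedComponentIn (un R)ᶜ (lq p q t ε) = lreg R p q := by
  obtain ⟨ε₀, e0, h2⟩ := strip h hs hp hq hpq hd (a := min t (1 / 2)) (b := max t (1 / 2))
    (lt_min h0 (by norm_num)) (max_lt h1 (by norm_num)) (min_le_right _ _) (le_max_right _ _)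
  exact ⟨ε₀, e0, fun ε he he' => h2 t (min_le_left _ _) (le_max_left _ _) ε he he'⟩

theorem edge_ball (h : GP R) {s : Sg} (hs : s ∈ R) {p q : ℂ} (hp : p ∈ car s) (hq : q ∈ car s)
    (hpq : p ≠ q) (hd : Disjoint (openSegment ℝ p q) (Vx R)) {z : ℂ} (hz : z ∈ openSegment ℝ p q) :
    ∃ ε > 0, ∀ w, dist w z < ε → (w ∈ un R → w ∈ openSegment ℝ p q) ∧
      (w ∉ un R → connectedComponentIn (un R)ᶜ w = lreg R p q ∨
        connectedComponentIn (un R)ᶜ w = lreg R q p) := by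
  have hz' := hz
  rw [openSegment_eq_image'] at hz'
  obtain ⟨t, ⟨ht0, ht1⟩, hzt⟩ := hz'
  have hne : q - p ≠ 0 := sub_ne_zero.2 hpq.symm
  have hn : 0 < ‖q - p‖ := norm_pos_iff.2 hne
  set a : ℝ := min t (1 - t) / 2 with ha
  have hmin : 0 < min t (1 - t) := lt_min ht0 (by linarith)
  have ha0 : 0 < a := by positivity
  have hat : 2 * a ≤ t := by have := min_le_left t (1 - t); linarith
  have hat' : 2 * a ≤ 1 - t := by have := min_le_right t (1 - t); linarith
  have ha2 : a ≤ 1 / 2 := by linarith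
  obtain ⟨ε₁, e1, h1⟩ := strip h hs hp hq hpq hd (a := a) (b := 1 - a) ha0 (by linarith) ha2
    (by linarith)
  have hd' : Disjoint (openSegment ℝ q p) (Vx R) := by rwa [openSegment_symm]
  obtain ⟨ε₂, e2, h2⟩ := strip h hs hq hp hpq.symm hd' (a := a) (b := 1 - a) ha0 (by linarith) ha2
    (by linarith)
  obtain ⟨ε₃, e3, h3⟩ := loc_edge h hs hp hq hd hz hz
  refine ⟨min ε₃ (‖q - p‖ * min a (min ε₁ ε₂)), lt_min e3 (by positivity), ?_⟩
  intro w hw
  have hw3 : dist w z < ε₃ := lt_of_lt_of_le hw (min_le_left _ _)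
  have hwn : dist w z < ‖q - p‖ * min a (min ε₁ ε₂) := lt_of_lt_of_le hw (min_le_right _ _)
  set c : ℂ := (w - p) / (q - p) with hc
  have hcz : c - (t : ℂ) = (w - z) / (q - p) := by
    rw [hc, ← hzt]
    simp only [Complex.real_smul]
    field_simp
    ring
  have hcn : ‖c - (t : ℂ)‖ < min a (min ε₁ ε₂) := by
    rw [hcz, norm_div, div_lt_iff₀ hn, mul_comm, ← dist_eq_norm]
    exact hwn
  have hre : |c.re - t| < min a (min ε₁ ε₂) := by
    have := Complex.abs_re_le_norm (c - (t : ℂ))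
    simp only [Complex.sub_re, Complex.ofReal_re] at this
    linarith
  have him : |c.im| < min a (min ε₁ ε₂) := by
    have := Complex.abs_im_le_norm (c - (t : ℂ))
    simp only [Complex.sub_im, Complex.ofReal_im, sub_zero] at this
    linarith
  have hre' : |c.re - t| < a := lt_of_lt_of_le hre (min_le_left _ _)
  rw [abs_lt] at hre'
  have hr1 : a ≤ c.re := by linarith
  have hr2 : c.re ≤ 1 - a := by linarith
  have hwc : w = lq p q c.re c.im := coord hpq w
  constructor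
  · intro hwu
    have hws : w ∈ car s := h3 z (left_mem_segment ℝ z z) w hw3 hwu
    have him0 : c.im = 0 := by
      by_contra hcon
      rw [hwc] at hws
      exact lq_notMem_car hp hq hpq _ hcon hws
    rw [hwc, him0]
    exact lq_zero_mem (by linarith) (by linarith)
  · intro hwu
    rcases lt_trichotomy c.im 0 with hlt | heq | hgt
    · right
      have hw' : w = lq q p (1 - c.re) (-c.im) := by
        rw [lq_rev p q (1 - c.re) (-c.im)]
        simp only [sub_sub_cancel, neg_neg]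
        exact hwc
      rw [hw']
      refine (h2 _ (by linarith) (by linarith) _ (by linarith) ?_).2
      rw [abs_of_neg hlt] at him
      exact lt_of_lt_of_le him ((min_le_right _ _).trans (min_le_right _ _))
    · exfalso
      apply hwu
      have hmem : w ∈ openSegment ℝ p q := by
        rw [hwc, heq]
        exact lq_zero_mem (by linarith) (by linarith)
      exact Set.mem_biUnion hs (openSegment_sub hp hq hmem)
    · left
      rw [hwc]
      refine (h1 _ hr1 hr2 _ hgt ?_).2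
      rw [abs_of_pos hgt] at him
      exact lt_of_lt_of_le him ((min_le_right _ _).trans (min_le_left _ _))

end P7b
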