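import Pool.Agent.Lib.P7b.GMapA
import Pool.Agent.Lib.P7b.GLeft

/-! MP_7b5a71: connectedness of the dual graph.

Let `A = {z ∉ Vx R | (z ∉ un R and the component of z in (un R)ᶜ is in Z) or (z in the open edge of some dart d with lft d ∈ Z)}` and `B` the same with `∉ Z`.
`A ∪ B = (Vx R)ᶜ` (`exists_dart`), `A ∩ B = ∅` (`edge_uniq` and the hypothesis on `Z`: `d` and `rev d` have left faces both in `Z` or both not).  Both are open: near `z ∉ un R` the
component is the same (`(un R)ᶜ` is open, `ℂ` is locally connected: `IsOpen.connectedComponentIn`); near a point of an open edge use `edge_ball`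
(`lft d = lreg d.og d.hd`, `lft (rev d) = lreg d.hd d.og` by `hd_rv`).  `(Vx R)ᶜ` is connected: `Set.Countable.isPathConnected_compl_of_one_lt_rank` (`vx_finite`, rank of `ℂ` over `ℝ` is 2).  So if
`lft d ∈ Z` then a point `lq d.og d.hd (1/2) ε` is in `A`, hence `B = ∅`, hence `lft e ∈ Z`. -/

namespace P7b

variable {R : Finset Sg}

namespace GDualAux

/-- the point `z` is coloured -/
def Wt (R : Finset Sg) (Z : Set (Set ℂ)) (z : ℂ) : Prop :=
  (z ∉ un R ∧ connectedComponentIn (un R)ᶜ z ∈ Z) ∨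
    ∃ d : Drt R, z ∈ openSegment ℝ d.og d.hd ∧ lreg R d.og d.hd ∈ Z

theorem rv_lreg (h : GP R) (d : Drt R) : lreg R (d.rv h).og (d.rv h).hd = lreg R d.hd d.og := by
  rw [hd_rv]
  rfl

theorem mem_un (d : Drt R) (h : GP R) {z : ℂ} (hz : z ∈ openSegment ℝ d.og d.hd) : z ∈ un R :=
  Set.mem_biUnion d.mem (openSegment_sub (d.og_car h) (d.hd_car h) hz)

theorem wt_out (h : GP R) (Z : Set (Set ℂ)) {z : ℂ} (hz : z ∉ un R) :
    Wt R Z z ↔ connectedComponentIn (un R)ᶜ z ∈ Z := by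
  constructor
  · rintro (⟨_, h1⟩ | ⟨d, hd, _⟩)
    · exact h1
    · exact absurd (mem_un d h hd) hz
  · intro h1
    exact Or.inl ⟨hz, h1⟩

theorem wt_edge (h : GP R) (Z : Set (Set ℂ))
    (hZ : ∀ d : Drt R, lreg R d.og d.hd ∈ Z ↔ lreg R d.hd d.og ∈ Z) {z : ℂ} (d : Drt R)
    (hz : z ∈ openSegment ℝ d.og d.hd) : Wt R Z z ↔ lreg R d.og d.hd ∈ Z := by
  constructor
  · rintro (⟨h1, _⟩ | ⟨e, he, h2⟩)
    · exact absurd (mem_un d h hz) h1
    · rcases edge_uniq h hz he with heq | heq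
      · rw [heq] at h2
        exact h2
      · rw [heq, rv_lreg] at h2
        exact (hZ d).2 h2
  · intro h1
    exact Or.inr ⟨d, hz, h1⟩

theorem wt_loc (h : GP R) (Z : Set (Set ℂ))
    (hZ : ∀ d : Drt R, lreg R d.og d.hd ∈ Z ↔ lreg R d.hd d.og ∈ Z) {z : ℂ} (hz : z ∉ Vx R) :
    ∃ ε > 0, ∀ w, dist w z < ε → (Wt R Z w ↔ Wt R Z z) := by
  by_cases hu : z ∈ un R
  · obtain ⟨d, hd⟩ := exists_dart h hu hz
    obtain ⟨ε, e0, h1⟩ := edge_ball h d.mem (d.og_car h) (d.hd_car h) (d.og_ne_hd h) (d.disj h) hd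
    refine ⟨ε, e0, fun w hw => ?_⟩
    rw [wt_edge h Z hZ d hd]
    by_cases hwu : w ∈ un R
    · exact wt_edge h Z hZ d ((h1 w hw).1 hwu)
    · rw [wt_out h Z hwu]
      rcases (h1 w hw).2 hwu with h2 | h2
      · rw [h2]
      · rw [h2]
        exact (hZ d).symm
  · have hop : IsOpen (connectedComponentIn (un R)ᶜ z) := (isClosed_un R).isOpen_compl.connectedComponentIn
    have hmem : z ∈ connectedComponentIn (un R)ᶜ z := mem_connectedComponentIn hu
    obtain ⟨ε, e0, h1⟩ := Metric.isOpen_iff.1 hop z hmem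
    refine ⟨ε, e0, fun w hw => ?_⟩
    have hwc : w ∈ connectedComponentIn (un R)ᶜ z := h1 (Metric.mem_ball.2 hw)
    have hwu : w ∉ un R := connectedComponentIn_subset _ _ hwc
    rw [wt_out h Z hwu, wt_out h Z hu, connectedComponentIn_eq hwc]

theorem conn (h : GP R) : IsPreconnected (Vx R)ᶜ := by
  have h2 : 1 < Module.rank ℝ ℂ := by
    rw [Complex.rank_real_complex]
    exact Nat.one_lt_ofNat
  exact (h.vx_finite.countable.isPathConnected_compl_of_one_lt_rank h2).isConnected.isPreconnected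

theorem wt_const (h : GP R) (Z : Set (Set ℂ))
    (hZ : ∀ d : Drt R, lreg R d.og d.hd ∈ Z ↔ lreg R d.hd d.og ∈ Z) {z w : ℂ} (hz : z ∉ Vx R)
    (hw : w ∉ Vx R) (h1 : Wt R Z z) : Wt R Z w := by
  by_contra h2
  have hop1 : IsOpen {x | ∃ ε > 0, ∀ y, dist y x < ε → Wt R Z y} := by
    rw [Metric.isOpen_iff]
    rintro x ⟨ε, e0, hx⟩
    refine ⟨ε / 2, by positivity, ?_⟩
    intro y hy
    rw [Metric.mem_ball] at hy
    refine ⟨ε / 2, by positivity, ?_⟩
    intro y' hy'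
    apply hx
    have := dist_triangle y' y x
    linarith
  have hop2 : IsOpen {x | ∃ ε > 0, ∀ y, dist y x < ε → ¬ Wt R Z y} := by
    rw [Metric.isOpen_iff]
    rintro x ⟨ε, e0, hx⟩
    refine ⟨ε / 2, by positivity, ?_⟩
    intro y hy
    rw [Metric.mem_ball] at hy
    refine ⟨ε / 2, by positivity, ?_⟩
    intro y' hy'
    apply hx
    have := dist_triangle y' y x
    linarith
  have hcov : (Vx R)ᶜ ⊆ {x | ∃ ε > 0, ∀ y, dist y x < ε → Wt R Z y} ∪
      {x | ∃ ε > 0, ∀ y, dist y x < ε → ¬ Wt R Z y} := by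
    intro x hx
    obtain ⟨ε, e0, h3⟩ := wt_loc h Z hZ hx
    by_cases hxW : Wt R Z x
    · left
      exact ⟨ε, e0, fun y hy => (h3 y hy).2 hxW⟩
    · right
      exact ⟨ε, e0, fun y hy hyW => hxW ((h3 y hy).1 hyW)⟩
  obtain ⟨ε1, e1, h3⟩ := wt_loc h Z hZ hz
  obtain ⟨ε2, e2, h4⟩ := wt_loc h Z hZ hw
  obtain ⟨x, _, ⟨ε, e0, hx1⟩, ⟨ε', e0', hx2⟩⟩ := (conn h) _ _ hop1 hop2 hcov
    ⟨z, hz, ε1, e1, fun y hy => (h3 y hy).2 h1⟩ ⟨w, hw, ε2, e2, fun y hy hyW => h2 ((h4 y hy).1 hyW)⟩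
  exact hx2 x (by rw [dist_self]; exact e0') (hx1 x (by rw [dist_self]; exact e0))

end GDualAux

open GDualAux

theorem gm_dual (h : GP R) (Z : Set (gm h).R)
    (hZ : ∀ d, (gm h).lft d ∈ Z ↔ (gm h).lft ((gm h).rev d) ∈ Z) (d e : (gm h).D)
    (hd : (gm h).lft d ∈ Z) : (gm h).lft e ∈ Z := by
  have hZ' : ∀ d : Drt R, lreg R d.og d.hd ∈ Z ↔ lreg R d.hd d.og ∈ Z := by
    intro d
    rw [← rv_lreg h d]
    exact hZ d
  have hpt : ∀ d : Drt R, lq d.og d.hd (1 / 2) 0 ∈ openSegment ℝ d.og d.hd := fun d =>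
    lq_zero_mem (by norm_num) (by norm_num)
  have hv : ∀ d : Drt R, lq d.og d.hd (1 / 2) 0 ∉ Vx R := fun d =>
    Set.disjoint_left.1 (d.disj h) (hpt d)
  have h1 : Wt R Z (lq (Drt.og d) (Drt.hd d) (1 / 2) 0) := (wt_edge h Z hZ' d (hpt d)).2 hd
  exact (wt_edge h Z hZ' e (hpt e)).1 (wt_const h Z hZ' (hv d) (hv e) h1)

end P7b
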