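import Pool.Agent.Lib.P7b.GLeft

/-! MP_7b5a71: the face on the left does not change at a corner.

`corner_cross`: near `q` (`loc_ball`; only `s` and `g` pass through `q`, by `GP.trip`) the open cone `W = {q + a (p - q) + b (q' - q) | 0 < a, b < δ}` is convex and outside
`un R`: a point of `W` in `car s` would be on the line through `p, q` (`b = 0`, since `p - q`, `q' - q` are linearly independent).  With
`m = lq p q (1 - δ/2) 0 = q + (δ/2) (p - q)`: `lq p q (1 - δ/2) ε = q + (δ/2 + ε λ)(p - q) + ε μ (q' - q)`, where `I (q - p) = λ (p - q) + μ (q' - q)` and `μ > 0` because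
`0 < im (conj (q - p) (q' - q))`; so it is in `W` for small `ε > 0`.  Similarly `lq q q' (δ/2) ε = q + (δ/2 + ε λ')(q' - q) + ε μ' (p - q)` with `μ' > 0`.  Use `lreg_eq`.
`corner_tip`: `q = en s b`; near `q` only `s`, and `car s` near `q` is `{q + a (p - q), a ≥ 0}`.  The three sets
`{q + a (p - q) + c I (p - q)}` with `|a|, |c| < δ` and `c < 0`, resp. `a < 0`, resp. `c > 0` are convex, outside `un R`, the first meets the second and the second meets the
third; the first contains `lq p q (1 - δ/2) ε` (`I (q - p) = - I (p - q)`), the third `lq q p (δ/2) ε`. -/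

namespace P7b

open Complex

variable {R : Finset Sg}

namespace GCornerAux

open Set

theorem cc_box {q u v : ℂ} {a a' c c' : ℝ}
    (hF : ∀ x ∈ Ioo a a', ∀ y ∈ Ioo c c', q + (x : ℂ) * u + (y : ℂ) * v ∉ un R) {x y x' y' : ℝ}
    (hx : x ∈ Ioo a a') (hy : y ∈ Ioo c c') (hx' : x' ∈ Ioo a a') (hy' : y' ∈ Ioo c c') :
    connectedComponentIn (un R)ᶜ (q + (x : ℂ) * u + (y : ℂ) * v) =
      connectedComponentIn (un R)ᶜ (q + (x' : ℂ) * u + (y' : ℂ) * v) := by
  have hconv : Convex ℝ ((fun p : ℝ × ℝ => q + (p.1 : ℂ) * u + (p.2 : ℂ) * v) '' (Ioo a a' ×ˢ Ioo c c')) := by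
    have hS : Convex ℝ (Ioo a a' ×ˢ Ioo c c') := (convex_Ioo _ _).prod (convex_Ioo _ _)
    rintro _ ⟨z, hz, rfl⟩ _ ⟨w, hw, rfl⟩ α β hα hβ hab
    refine ⟨α • z + β • w, hS hz hw hα hβ hab, ?_⟩
    have : (α : ℂ) + (β : ℂ) = 1 := by exact_mod_cast hab
    simp only [Prod.fst_add, Prod.snd_add, Prod.smul_fst, Prod.smul_snd, smul_eq_mul, ofReal_add,
      ofReal_mul, real_smul]
    linear_combination (-q) * this
  have hsub : ((fun p : ℝ × ℝ => q + (p.1 : ℂ) * u + (p.2 : ℂ) * v) '' (Ioo a a' ×ˢ Ioo c c')) ⊆ (un R)ᶜ := by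
    rintro _ ⟨z, hz, rfl⟩
    exact hF _ hz.1 _ hz.2
  have h1 := hconv.isPreconnected.subset_connectedComponentIn (x := q + (x : ℂ) * u + (y : ℂ) * v)
    ⟨(x, y), ⟨hx, hy⟩, rfl⟩ hsub
  exact connectedComponentIn_eq (h1 ⟨(x', y'), ⟨hx', hy'⟩, rfl⟩)

/-- the cross product -/
noncomputable def cr (u v : ℂ) : ℝ := ((starRingEnd ℂ) u * v).im

theorem cr_eq (u v : ℂ) : cr u v = u.re * v.im - u.im * v.re := by
  simp [cr]; ring

theorem decomp {u v : ℂ} (h : cr u v ≠ 0) (z : ℂ) :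
    z = ((cr z v / cr u v : ℝ) : ℂ) * u + ((cr u z / cr u v : ℝ) : ℂ) * v := by
  have e : (cr z v : ℂ) * u + (cr u z : ℂ) * v = (cr u v : ℂ) * z := by
    apply Complex.ext
    · simp only [cr_eq, add_re, re_ofReal_mul]; ring
    · simp only [cr_eq, add_im, im_ofReal_mul]; ring
  have h' : (cr u v : ℂ) ≠ 0 := by exact_mod_cast h
  apply mul_left_cancel₀ h'
  rw [← e, ofReal_div, ofReal_div]
  field_simp

theorem line {s : Sg} (hs : s.1 ≠ s.2) (b : Bool) {p q w : ℂ} (hp : p ∈ car s) (hq : q ∈ car s)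
    (hpq : p ≠ q) (hw : w ∈ car s) :
    w - q = (((tau s b w - tau s b q) / (tau s b p - tau s b q) : ℝ) : ℂ) * (p - q) := by
  have h1 := sub_eq hs b hq hw
  have h2 := sub_eq hs b hq hp
  have h3 : tau s b p - tau s b q ≠ 0 := by
    intro h0
    apply hpq
    exact tau_inj hs b hp hq (by linarith)
  rw [h1, h2, ← mul_assoc, ← ofReal_mul, div_mul_cancel₀ _ h3]

theorem cr_line {s : Sg} (hs : s.1 ≠ s.2) {p q w : ℂ} (hp : p ∈ car s) (hq : q ∈ car s)
    (hpq : p ≠ q) (hw : w ∈ car s) : cr (p - q) (w - q) = 0 := by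
  rw [line hs true hp hq hpq hw, cr_eq]
  simp only [re_ofReal_mul, im_ofReal_mul]
  ring

/-- a common small number -/
theorem small_pos (l : ℝ) {δ : ℝ} (hδ : 0 < δ) : ∃ η > 0, ∀ ε : ℝ, 0 < ε → ε < η → |ε * l| < δ / 2 := by
  refine ⟨δ / (2 * (|l| + 1)), by positivity, fun ε h0 h1 => ?_⟩
  rw [abs_mul, abs_of_pos h0]
  have hl : 0 < |l| + 1 := by positivity
  have h2 : ε * (2 * (|l| + 1)) < δ := by
    rwa [lt_div_iff₀ (by positivity)] at h1
  nlinarith [abs_nonneg l]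

end GCornerAux

open GCornerAux in
theorem corner_cross (h : GP R) {s g : Sg} (hs : s ∈ R) (hg : g ∈ R) (hgs : g ≠ s) {p q q' : ℂ}
    (hp : p ∈ car s) (hq : q ∈ car s) (hqg : q ∈ car g) (hq' : q' ∈ car g) (hpq : p ≠ q)
    (hqq' : q ≠ q') (hd : Disjoint (openSegment ℝ p q) (Vx R))
    (hd' : Disjoint (openSegment ℝ q q') (Vx R))
    (hl : 0 < ((starRingEnd ℂ) (q - p) * (q' - q)).im) : lreg R p q = lreg R q q' := by
  obtain ⟨r, hr, hball⟩ := loc_ball R q
  have hD : cr (p - q) (q' - q) < 0 := by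
    have : cr (q - p) (q' - q) = - cr (p - q) (q' - q) := by
      simp only [cr_eq, sub_re, sub_im]; ring
    have h2 : 0 < cr (q - p) (q' - q) := hl
    linarith
  have hD' : cr (q' - q) (p - q) = - cr (p - q) (q' - q) := by
    simp only [cr_eq]; ring
  set u := p - q with hu
  set v := q' - q with hv
  have hu0 : u ≠ 0 := sub_ne_zero.2 hpq
  have hv0 : v ≠ 0 := sub_ne_zero.2 hqq'.symm
  set δ : ℝ := min 1 (r / (‖u‖ + ‖v‖ + 1)) with hδ
  have hδ0 : 0 < δ := lt_min one_pos (by positivity)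
  have hδ1 : δ ≤ 1 := min_le_left _ _
  have hδ2 : δ * (‖u‖ + ‖v‖ + 1) ≤ r := by
    have := min_le_right 1 (r / (‖u‖ + ‖v‖ + 1))
    rwa [← hδ, le_div_iff₀ (by positivity)] at this
  have hbox : ∀ x ∈ Set.Ioo (0 : ℝ) δ, ∀ y ∈ Set.Ioo (0 : ℝ) δ, q + (x : ℂ) * u + (y : ℂ) * v ∉ un R := by
    intro x hx y hy hmem
    simp only [un, Set.mem_iUnion] at hmem
    obtain ⟨t, ht, hmem⟩ := hmem
    have hdist : dist (q + (x : ℂ) * u + (y : ℂ) * v) q < r := by
      rw [dist_eq_norm]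
      have e : q + (x : ℂ) * u + (y : ℂ) * v - q = (x : ℂ) * u + (y : ℂ) * v := by ring
      rw [e]
      calc ‖(x : ℂ) * u + (y : ℂ) * v‖ ≤ ‖(x : ℂ) * u‖ + ‖(y : ℂ) * v‖ := norm_add_le _ _
        _ = x * ‖u‖ + y * ‖v‖ := by
            rw [norm_mul, norm_mul, norm_real, norm_real, Real.norm_of_nonneg hx.1.le,
              Real.norm_of_nonneg hy.1.le]
        _ < δ * (‖u‖ + ‖v‖ + 1) := by nlinarith [norm_nonneg u, norm_nonneg v, hx.2, hy.2]
        _ ≤ r := hδ2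
    have hqt := hball _ hdist t ht hmem
    have hw : q + (x : ℂ) * u + (y : ℂ) * v - q = (x : ℂ) * u + (y : ℂ) * v := by ring
    by_cases hts : t = s
    · subst hts
      have := cr_line (h.ne t ht) hp hq hpq hmem
      rw [hw] at this
      have e : cr (p - q) ((x : ℂ) * u + (y : ℂ) * v) = y * cr u v := by
        rw [← hu]
        simp only [cr_eq, add_re, add_im, re_ofReal_mul, im_ofReal_mul]; ring
      rw [e] at this
      rcases mul_eq_zero.1 this with h1 | h1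
      · linarith [hy.1]
      · linarith
    · by_cases htg : t = g
      · subst htg
        have := cr_line (h.ne t ht) hq' hqg hqq'.symm hmem
        rw [hw] at this
        have e : cr (q' - q) ((x : ℂ) * u + (y : ℂ) * v) = - (x * cr u v) := by
          rw [← hv]
          simp only [cr_eq, add_re, add_im, re_ofReal_mul, im_ofReal_mul]; ring
        rw [e] at this
        rcases mul_eq_zero.1 (neg_eq_zero.1 this) with h1 | h1
        · linarith [hx.1]
        · linarith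
      · have := h.trip s hs g hg t ht (Ne.symm hgs) (Ne.symm htg) (Ne.symm hts)
        have h3 : q ∈ car s ∩ car g ∩ car t := ⟨⟨hq, hqg⟩, hqt⟩
        rw [this] at h3
        exact h3
  have ht1 : (0 : ℝ) < 1 - δ / 2 := by linarith
  have ht1' : 1 - δ / 2 < (1 : ℝ) := by linarith
  obtain ⟨e1, he1, H1⟩ := lreg_eq h hs hp hq hpq hd ht1 ht1'
  obtain ⟨e2, he2, H2⟩ := lreg_eq h hg hqg hq' hqq' hd' (t := δ / 2) (by linarith) (by linarith)
  have hne : cr u v ≠ 0 := hD.ne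
  have d1 := decomp hne (-(I * u))
  have d2 := decomp hne (I * v)
  set l1 := cr (-(I * u)) v / cr u v with hl1
  set m1 := cr u (-(I * u)) / cr u v with hm1
  set l2 := cr (I * v) v / cr u v with hl2
  set m2 := cr u (I * v) / cr u v with hm2
  have hm1p : 0 < m1 := by
    apply div_pos_of_neg_of_neg _ hD
    have : cr u (-(I * u)) = - (u.re * u.re + u.im * u.im) := by
      simp only [cr_eq, neg_re, neg_im, mul_re, mul_im, I_re, I_im]; ring
    rw [this]
    have h4 : 0 < normSq u := normSq_pos.2 hu0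
    rw [normSq_apply] at h4
    linarith
  have hl2p : 0 < l2 := by
    apply div_pos_of_neg_of_neg _ hD
    have : cr (I * v) v = - (v.re * v.re + v.im * v.im) := by
      simp only [cr_eq, mul_re, mul_im, I_re, I_im]; ring
    rw [this]
    have h4 : 0 < normSq v := normSq_pos.2 hv0
    rw [normSq_apply] at h4
    linarith
  obtain ⟨n1, hn1, N1⟩ := small_pos l1 hδ0
  obtain ⟨n2, hn2, N2⟩ := small_pos m1 hδ0
  obtain ⟨n3, hn3, N3⟩ := small_pos l2 hδ0
  obtain ⟨n4, hn4, N4⟩ := small_pos m2 hδ0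
  obtain ⟨ε, hε, hε'⟩ := exists_between (lt_min (lt_min he1 he2) (lt_min (lt_min hn1 hn2) (lt_min hn3 hn4)))
  simp only [lt_min_iff] at hε'
  obtain ⟨⟨hεe1, hεe2⟩, ⟨hεn1, hεn2⟩, hεn3, hεn4⟩ := hε'
  have A1 := abs_lt.1 (N1 ε hε hεn1)
  have A2 := abs_lt.1 (N2 ε hε hεn2)
  have A3 := abs_lt.1 (N3 ε hε hεn3)
  have A4 := abs_lt.1 (N4 ε hε hεn4)
  have P2 : 0 < ε * m1 := mul_pos hε hm1p
  have P3 : 0 < ε * l2 := mul_pos hε hl2p
  rw [← (H1 ε hε hεe1).2, ← (H2 ε hε hεe2).2]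
  have E1 : lq p q (1 - δ / 2) ε = q + ((δ / 2 + ε * l1 : ℝ) : ℂ) * u + ((ε * m1 : ℝ) : ℂ) * v := by
    have : lq p q (1 - δ / 2) ε = q + ((δ / 2 : ℝ) : ℂ) * u + (ε : ℂ) * (-(I * u)) := by
      rw [lq, hu]; push_cast; ring
    rw [this]
    nth_rewrite 1 [d1]
    push_cast
    ring
  have E2 : lq q q' (δ / 2) ε = q + ((ε * l2 : ℝ) : ℂ) * u + ((δ / 2 + ε * m2 : ℝ) : ℂ) * v := by
    have : lq q q' (δ / 2) ε = q + ((δ / 2 : ℝ) : ℂ) * v + (ε : ℂ) * (I * v) := by
      rw [lq, hv]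
    rw [this]
    nth_rewrite 1 [d2]
    push_cast
    ring
  rw [E1, E2]
  exact cc_box hbox ⟨by linarith, by linarith⟩ ⟨by linarith, by linarith⟩ ⟨by linarith, by linarith⟩
    ⟨by linarith, by linarith⟩

open GCornerAux in
theorem corner_tip (h : GP R) {s : Sg} (hs : s ∈ R) (b : Bool) {p : ℂ} (hp : p ∈ car s)
    (hpq : p ≠ en s b) (hd : Disjoint (openSegment ℝ p (en s b)) (Vx R)) :
    lreg R p (en s b) = lreg R (en s b) p := by
  have hq : en s b ∈ car s := en_mem s b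
  have honly : ∀ t ∈ R, en s b ∈ car t → t = s := by
    intro t ht hmem
    by_contra hne
    cases b
    · exact h.tip1 s hs t ht (Ne.symm hne) hmem
    · exact h.tip2 s hs t ht (Ne.symm hne) hmem
  have htau : ∀ z ∈ car s, tau s b z ≤ tau s b (en s b) := fun z hz => tau_le_en (h.ne s hs) b hz
  have htaup : tau s b p < tau s b (en s b) := tau_lt_en (h.ne s hs) b hp hpq
  set q := en s b with hqdef
  obtain ⟨r, hr, hball⟩ := loc_ball R q
  set u := p - q with hu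
  have hu0 : u ≠ 0 := sub_ne_zero.2 hpq
  set δ : ℝ := min 1 (r / (2 * ‖u‖ + 1)) with hδ
  have hδ0 : 0 < δ := lt_min one_pos (by positivity)
  have hδ1 : δ ≤ 1 := min_le_left _ _
  have hδ2 : δ * (2 * ‖u‖ + 1) ≤ r := by
    have := min_le_right 1 (r / (2 * ‖u‖ + 1))
    rwa [← hδ, le_div_iff₀ (by positivity)] at this
  have key : ∀ x y : ℝ, |x| < δ → |y| < δ → q + (x : ℂ) * u + (y : ℂ) * (I * u) ∈ un R → 0 ≤ x ∧ y = 0 := by
    intro x y hx hy hmem
    simp only [un, Set.mem_iUnion] at hmem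
    obtain ⟨t, ht, hmem⟩ := hmem
    have hdist : dist (q + (x : ℂ) * u + (y : ℂ) * (I * u)) q < r := by
      rw [dist_eq_norm]
      have e : q + (x : ℂ) * u + (y : ℂ) * (I * u) - q = (x : ℂ) * u + (y : ℂ) * (I * u) := by ring
      rw [e]
      calc ‖(x : ℂ) * u + (y : ℂ) * (I * u)‖ ≤ ‖(x : ℂ) * u‖ + ‖(y : ℂ) * (I * u)‖ := norm_add_le _ _
        _ = |x| * ‖u‖ + |y| * ‖u‖ := by
            rw [norm_mul, norm_mul, norm_mul, norm_real, norm_real, norm_I, one_mul, Real.norm_eq_abs,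
              Real.norm_eq_abs]
        _ < δ * (2 * ‖u‖ + 1) := by nlinarith [norm_nonneg u]
        _ ≤ r := hδ2
    have hqt := hball _ hdist t ht hmem
    have hts := honly t ht hqt
    subst hts
    have hw : q + (x : ℂ) * u + (y : ℂ) * (I * u) - q = (x : ℂ) * u + (y : ℂ) * (I * u) := by ring
    have hline := line (h.ne t ht) b hp hq hpq hmem
    set c : ℝ := (tau t b (q + (x : ℂ) * u + (y : ℂ) * (I * u)) - tau t b q) / (tau t b p - tau t b q) with hc
    rw [hw, ← hu] at hline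
    have hcx : ((x : ℂ) + (y : ℂ) * I) = (c : ℂ) := by
      have : ((x : ℂ) + (y : ℂ) * I) * u = (c : ℂ) * u := by
        rw [← hline]; ring
      exact mul_right_cancel₀ hu0 this
    have hx' : x = c := by
      have := congrArg Complex.re hcx
      simpa using this
    have hy' : y = 0 := by
      have := congrArg Complex.im hcx
      simpa using this
    refine ⟨?_, hy'⟩
    rw [hx', hc]
    apply div_nonneg_of_nonpos
    · linarith [htau _ hmem]
    · linarith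
  have hδ' : |(-(δ / 2))| < δ := by rw [abs_neg, abs_of_pos (by linarith)]; linarith
  obtain ⟨e1, he1, H1⟩ := lreg_eq h hs hp hq hpq hd (t := 1 - δ / 2) (by linarith) (by linarith)
  have hd' : Disjoint (openSegment ℝ q p) (Vx R) := by rwa [openSegment_symm]
  obtain ⟨e2, he2, H2⟩ := lreg_eq h hs hq hp hpq.symm hd' (t := δ / 2) (by linarith) (by linarith)
  obtain ⟨ε, hε, hε'⟩ := exists_between (lt_min (lt_min he1 he2) hδ0)
  simp only [lt_min_iff] at hε'
  obtain ⟨⟨hεe1, hεe2⟩, hεδ⟩ := hε'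
  rw [← (H1 ε hε hεe1).2, ← (H2 ε hε hεe2).2]
  have E1 : lq p q (1 - δ / 2) ε = q + ((δ / 2 : ℝ) : ℂ) * u + ((-ε : ℝ) : ℂ) * (I * u) := by
    rw [lq, hu]; push_cast; ring
  have E2 : lq q p (δ / 2) ε = q + ((δ / 2 : ℝ) : ℂ) * u + ((ε : ℝ) : ℂ) * (I * u) := by
    rw [lq, hu]
  rw [E1, E2]
  have B1 : ∀ x ∈ Set.Ioo (-δ) δ, ∀ y ∈ Set.Ioo (-δ) 0, q + (x : ℂ) * u + (y : ℂ) * (I * u) ∉ un R := by
    intro x hx y hy hmem
    have := key x y (abs_lt.2 hx) (abs_lt.2 ⟨hy.1, by linarith [hy.2]⟩) hmem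
    linarith [hy.2, this.2]
  have B2 : ∀ x ∈ Set.Ioo (-δ) 0, ∀ y ∈ Set.Ioo (-δ) δ, q + (x : ℂ) * u + (y : ℂ) * (I * u) ∉ un R := by
    intro x hx y hy hmem
    have := key x y (abs_lt.2 ⟨hx.1, by linarith [hx.2]⟩) (abs_lt.2 hy) hmem
    linarith [hx.2, this.1]
  have B3 : ∀ x ∈ Set.Ioo (-δ) δ, ∀ y ∈ Set.Ioo 0 δ, q + (x : ℂ) * u + (y : ℂ) * (I * u) ∉ un R := by
    intro x hx y hy hmem
    have := key x y (abs_lt.2 hx) (abs_lt.2 ⟨by linarith [hy.1], hy.2⟩) hmem
    linarith [hy.1, this.2]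
  have C1 := cc_box B1 (x := δ / 2) (y := -ε) (x' := -(δ / 2)) (y' := -(δ / 2)) ⟨by linarith, by linarith⟩
    ⟨by linarith, by linarith⟩ ⟨by linarith, by linarith⟩ ⟨by linarith, by linarith⟩
  have C2 := cc_box B2 (x := -(δ / 2)) (y := -(δ / 2)) (x' := -(δ / 2)) (y' := δ / 2) ⟨by linarith, by linarith⟩
    ⟨by linarith, by linarith⟩ ⟨by linarith, by linarith⟩ ⟨by linarith, by linarith⟩
  have C3 := cc_box B3 (x := -(δ / 2)) (y := δ / 2) (x' := δ / 2) (y' := ε) ⟨by linarith, by linarith⟩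
    ⟨by linarith, by linarith⟩ ⟨by linarith, by linarith⟩ ⟨by linarith, by linarith⟩
  exact C1.trans (C2.trans C3)

end P7b
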