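import Pool.Agent.Lib.P7b.GMapA
import Pool.Agent.Lib.P7b.GCorner

/-! MP_7b5a71: `lft (nxt d) = lft d`.  Tip: `corner_tip` with `hd_rv`.  Crossing: `nxt d` starts at `q = d.hd` on `g = oth R d.sg q` in the direction `turn d.sg d.dr g`; by
`sub_eq` `d.hd - d.og` is a positive multiple of `dv d.sg d.dr` and `(nxt d).hd - q` a positive multiple of `dv g (turn ..)`; `turn_pos`; `corner_cross`. -/

namespace P7b

variable {R : Finset Sg}

namespace GLftAux

theorem lft_def (h : GP R) (d : Drt R) : (gm h).lft d = lreg R d.og d.hd := rfl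

theorem oth_facts (h : GP R) (d : Drt R) (ht : d.hd ≠ en d.sg d.dr) :
    oth R d.sg d.hd ∈ R ∧ oth R d.sg d.hd ≠ d.sg ∧ d.hd ∈ car (oth R d.sg d.hd) := by
  have h1 := d.hd_ne h
  have h0 : d.hd ≠ d.sg.1 ∧ d.hd ≠ d.sg.2 := by
    cases hb : d.dr
    · rw [hb] at ht h1
      exact ⟨ht, h1⟩
    · rw [hb] at ht h1
      exact ⟨h1, ht⟩
  obtain ⟨h3, h4, h5⟩ := h.oth_spec d.mem (d.hd_mem h) h0.1 h0.2
  exact ⟨h3, h4, (h.mem_VF.mp h5).2⟩

/-- the vector of a dart is a positive multiple of the direction vector -/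
theorem vec (h : GP R) (d : Drt R) :
    ∃ c : ℝ, 0 < c ∧ d.hd - d.og = (c : ℂ) * dv d.sg d.dr := by
  have h2 := (h.sc_spec d.mem d.dr d.og_mem d.og_ne).2.1
  exact ⟨tau d.sg d.dr d.hd - tau d.sg d.dr d.og, sub_pos.2 h2,
    sub_eq (h.ne _ d.mem) d.dr (d.og_car h) (d.hd_car h)⟩

theorem tip_case (h : GP R) (d : Drt R) (ht : d.hd = en d.sg d.dr) :
    lreg R (d.rv h).og (d.rv h).hd = lreg R d.og d.hd := by
  have hne : d.og ≠ en d.sg d.dr := d.og_ne
  have hd := d.disj h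
  rw [ht] at hd
  have h1 := corner_tip h d.mem d.dr (d.og_car h) hne hd
  rw [hd_rv h d]
  show lreg R d.hd d.og = _
  rw [ht]
  exact h1.symm

theorem cross_case (h : GP R) (d e : Drt R) (ht : d.hd ≠ en d.sg d.dr)
    (hsg : e.sg = oth R d.sg d.hd) (hdr : e.dr = turn d.sg d.dr (oth R d.sg d.hd))
    (hog : e.og = d.hd) : lreg R e.og e.hd = lreg R d.og d.hd := by
  obtain ⟨h1, h2, h3⟩ := oth_facts h d ht
  obtain ⟨c, hc, hcv⟩ := vec h d
  obtain ⟨c', hc', hcv'⟩ := vec h e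
  have hne := e.og_ne_hd h
  have hdis := e.disj h
  have hcar := e.hd_car h
  rw [hog] at hne hdis hcv' ⊢
  rw [hsg] at hcar hcv'
  rw [hdr] at hcv'
  have htp := h.turn_pos d.mem h1 h2 (d.hd_car h) h3 d.dr
  refine (corner_cross h d.mem h1 h2 (d.og_car h) (d.hd_car h) h3 hcar (d.og_ne_hd h) hne
    (d.disj h) hdis ?_).symm
  rw [hcv, hcv']
  have : ((starRingEnd ℂ) ((c : ℂ) * dv d.sg d.dr) *
      ((c' : ℂ) * dv (oth R d.sg d.hd) (turn d.sg d.dr (oth R d.sg d.hd)))) =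
      ((c * c' : ℝ) : ℂ) * ((starRingEnd ℂ) (dv d.sg d.dr) *
        dv (oth R d.sg d.hd) (turn d.sg d.dr (oth R d.sg d.hd))) := by
    rw [map_mul, Complex.conj_ofReal]
    push_cast
    ring
  rw [this, Complex.im_ofReal_mul]
  exact mul_pos (mul_pos hc hc') htp

end GLftAux

open GLftAux in
theorem gm_lft_nxt (h : GP R) (d : (gm h).D) : (gm h).lft ((gm h).nxt d) = (gm h).lft d := by
  rw [gm_nxt, lft_def, lft_def]
  by_cases ht : Drt.hd (R := R) d = en (Drt.sg (R := R) d) (Drt.dr (R := R) d)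
  · rw [nf_tip h d ht]
    exact tip_case h d ht
  · exact cross_case h d _ ht (nf_sg h d ht) (nf_dr h d ht) (nf_og h d)

end P7b
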