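import Pool.Agent.Lib.P7b.Map

/-! MP_7b5a71: winding numbers of closed polygons, through `Complex.arg`.

`wind l z = Σ_{(a, b) ∈ l} arg ((b - z) / (a - z))`.
* `wind_int`: the product of the ratios over a walk from `v` to `w` is `(w - z) / (v - z)` (induction), so for a closed walk it is `1`; the sum of the arguments as an
  element of `Real.Angle` is the argument of the product (`Complex.arg_mul_coe_angle`), hence `0`: `wind l z ∈ 2 π ℤ` (`Real.Angle.coe_eq_zero_iff`...).
* `wind_cont`: `(b - z) / (a - z)` is in `Complex.slitPlane` iff `z` is not in `segment ℝ a b` (a negative or zero real ratio `-λ` means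
  `z = (b + λ a) / (1 + λ)`); `Complex.continuousAt_arg`.
* `wind_const`: continuous with values in the discrete set `2 π ℤ` on a preconnected set.  (For instance: the function
  `z ↦ wind l z / (2 π)` is locally constant on the set, or use that the image of a preconnected set is an interval.) -/

namespace P7b

open Complex

/-- the total angle (in radians) under which the polygon `l` is seen from `z` -/
noncomputable def wind (l : List (ℂ × ℂ)) (z : ℂ) : ℝ :=
  (l.map (fun e => Complex.arg ((e.2 - z) / (e.1 - z)))).sum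

namespace WindAux

theorem walk_arg (z : ℂ) {v w : ℂ} {l : List (ℂ × ℂ)} (hl : IsWalk Prod.fst Prod.swap v l w) :
    (∀ e ∈ l, z ≠ e.1 ∧ z ≠ e.2) → v ≠ z →
      w ≠ z ∧ ((wind l z : ℝ) : Real.Angle) = ((Complex.arg ((w - z) / (v - z)) : ℝ) : Real.Angle) := by
  induction hl with
  | nil v =>
    intro _ hv
    refine ⟨hv, ?_⟩
    rw [div_self (sub_ne_zero.2 hv), Complex.arg_one]
    simp [wind]
  | cons d l w _ ih =>
    intro hz hv
    have hd := hz d (by simp)
    have hv' : (Prod.fst (Prod.swap d)) ≠ z := fun h => hd.2 h.symm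
    obtain ⟨hw, hih⟩ := ih (fun e he => hz e (by simp [he])) hv'
    refine ⟨hw, ?_⟩
    have h1 : wind (d :: l) z = Complex.arg ((d.2 - z) / (d.1 - z)) + wind l z := by
      simp [wind]
    rw [h1, Real.Angle.coe_add, hih]
    have a1 : (d.1 - z) ≠ 0 := sub_ne_zero.2 hv
    have a2 : (d.2 - z) ≠ 0 := sub_ne_zero.2 hv'
    have a3 : (w - z) ≠ 0 := sub_ne_zero.2 hw
    rw [show (Prod.fst (Prod.swap d)) = d.2 from rfl]
    have e : (w - z) / (d.1 - z) = (d.2 - z) / (d.1 - z) * ((w - z) / (d.2 - z)) := by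
      field_simp
    rw [e, Complex.arg_mul_coe_angle (div_ne_zero a2 a1) (div_ne_zero a3 a2)]

theorem slit {a b z : ℂ} (h : z ∉ segment ℝ a b) : (b - z) / (a - z) ∈ Complex.slitPlane := by
  have ha : a - z ≠ 0 := by
    intro h0
    apply h
    rw [← sub_eq_zero.1 h0]
    exact left_mem_segment ℝ a b
  by_contra hc
  rw [Complex.mem_slitPlane_iff] at hc
  push Not at hc
  obtain ⟨hre, him⟩ := hc
  apply h
  set t : ℝ := -((b - z) / (a - z)).re with ht
  have ht0 : 0 ≤ t := by rw [ht]; linarith
  have heq : (b - z) / (a - z) = ((-t : ℝ) : ℂ) := by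
    apply Complex.ext
    · rw [Complex.ofReal_re, ht, neg_neg]
    · rw [Complex.ofReal_im, him]
  have h2 : b - z = ((-t : ℝ) : ℂ) * (a - z) := by
    rw [← heq]; field_simp
  have h1t : (1 + t) ≠ 0 := by positivity
  have h1c : (1 + (t : ℂ)) ≠ 0 := by
    have := Complex.ofReal_ne_zero.2 h1t
    simpa using this
  refine ⟨t / (1 + t), 1 / (1 + t), by positivity, by positivity, by field_simp; ring, ?_⟩
  rw [Complex.real_smul, Complex.real_smul]
  push_cast at h2 ⊢
  field_simp
  linear_combination h2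

end WindAux

theorem wind_int {v : ℂ} {l : List (ℂ × ℂ)} (hl : IsWalk Prod.fst Prod.swap v l v) (z : ℂ)
    (hz : ∀ e ∈ l, z ≠ e.1 ∧ z ≠ e.2) : ∃ k : ℤ, wind l z = 2 * Real.pi * k := by
  cases l with
  | nil => exact ⟨0, by simp [wind]⟩
  | cons d l =>
    have hv : v ≠ z := by
      cases hl with
      | cons d l w h => exact fun h0 => (hz d (by simp)).1 h0.symm
    have h1 := (WindAux.walk_arg z hl hz hv).2
    rw [div_self (sub_ne_zero.2 hv), Complex.arg_one] at h1
    obtain ⟨k, hk⟩ := Real.Angle.angle_eq_iff_two_pi_dvd_sub.1 h1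
    exact ⟨k, by rw [← hk, sub_zero]⟩

theorem wind_cont {l : List (ℂ × ℂ)} {z : ℂ} (hz : ∀ e ∈ l, z ∉ segment ℝ e.1 e.2) :
    ContinuousAt (wind l) z := by
  induction l with
  | nil =>
    have : wind [] = fun _ => (0 : ℝ) := by funext z; simp [wind]
    rw [this]
    exact continuousAt_const
  | cons d l ih =>
    have h1 : wind (d :: l) = fun z => Complex.arg ((d.2 - z) / (d.1 - z)) + wind l z := by
      funext z; simp [wind]
    rw [h1]
    have hd := hz d (by simp)
    have ha : d.1 - z ≠ 0 := by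
      intro h0
      apply hd
      rw [← sub_eq_zero.1 h0]
      exact left_mem_segment ℝ _ _
    apply ContinuousAt.add
    · apply ContinuousAt.comp (f := fun z => (d.2 - z) / (d.1 - z)) (g := Complex.arg)
      · exact Complex.continuousAt_arg (WindAux.slit hd)
      · apply ContinuousAt.div _ _ ha
        · exact continuousAt_const.sub continuousAt_id
        · exact continuousAt_const.sub continuousAt_id
    · exact ih (fun e he => hz e (by simp [he]))

theorem wind_const {v : ℂ} {l : List (ℂ × ℂ)} (hl : IsWalk Prod.fst Prod.swap v l v) {U : Set ℂ}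
    (hU : IsPreconnected U) (hz : ∀ z ∈ U, ∀ e ∈ l, z ∉ segment ℝ e.1 e.2) {z w : ℂ} (h1 : z ∈ U)
    (h2 : w ∈ U) : wind l z = wind l w := by
  have hcont : ContinuousOn (wind l) U := fun z hzU =>
    (wind_cont (hz z hzU)).continuousWithinAt
  have hint : ∀ z ∈ U, ∃ k : ℤ, wind l z = 2 * Real.pi * k := by
    intro z hzU
    apply wind_int hl z
    intro e he
    have := hz z hzU e he
    exact ⟨fun h => this (h ▸ left_mem_segment ℝ _ _), fun h => this (h ▸ right_mem_segment ℝ _ _)⟩
  have hord : Set.OrdConnected (wind l '' U) :=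
    isPreconnected_iff_ordConnected.1 (hU.image _ hcont)
  have key : ∀ z ∈ U, ∀ w ∈ U, ¬ wind l z < wind l w := by
    intro z hzU w hwU hlt
    obtain ⟨k1, hk1⟩ := hint z hzU
    obtain ⟨k2, hk2⟩ := hint w hwU
    have hpi := Real.pi_pos
    have hk : (k1 : ℝ) < k2 := by
      rw [hk1, hk2] at hlt
      nlinarith
    have hk' : (k1 : ℝ) + 1 ≤ k2 := by exact_mod_cast Int.add_one_le_iff.2 (by exact_mod_cast hk)
    have hmem : 2 * Real.pi * k1 + Real.pi ∈ wind l '' U := by
      apply hord.out (Set.mem_image_of_mem _ hzU) (Set.mem_image_of_mem _ hwU)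
      constructor
      · rw [hk1]; linarith
      · rw [hk2]; nlinarith
    obtain ⟨y, hy, hyw⟩ := hmem
    obtain ⟨m, hm⟩ := hint y hy
    rw [hm] at hyw
    have h3 : (2 * m : ℝ) = 2 * k1 + 1 := by
      have : Real.pi * (2 * m) = Real.pi * (2 * k1 + 1) := by linarith
      exact mul_left_cancel₀ hpi.ne' this
    have h4 : (2 * m : ℤ) = 2 * k1 + 1 := by exact_mod_cast h3
    omega
  exact le_antisymm (not_lt.1 (key w h2 z h1)) (not_lt.1 (key z h1 w h2))

end P7b
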