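import Pool.Agent.Lib.P7b.GLoc
import Pool.Agent.Lib.P7b.Wind

/-! MP_7b5a71: the jump of the winding number across an edge.

`arg_jump`: with `z = lq a b (1/2) ε` the ratio `(b - z) / (a - z) = (1/2 - ε I) / (-1/2 - ε I) = (- (1/4 - ε²) + ε I) / (1/4 + ε²)`, whose argument tends to `π` as
`ε → 0+` and to `-π` as `ε → 0-` (`Complex.tendsto_arg_nhdsWithin_im_nonneg_of_re_neg_of_im_zero`, `Complex.tendsto_arg_nhdsWithin_im_neg_of_re_neg_of_im_zero`).
For the reversed edge `(b, a)` the ratio is the inverse, so the jump is `- 2 π`.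
`wind_jump`: sum over `e ∈ l`: if `e = d` the jump is `2 π`, if `e = rv d` (`hd_rv`-type identity: `(d.rv h).og = d.hd`, `(d.rv h).hd = d.og` by `GP.sc_sc`) it is `- 2 π`, otherwise the
midpoint `lq d.og d.hd (1/2) 0` is not in `segment e.og e.hd` (it is not a vertex, and not in the open edge of `e` by `edge_uniq`) so the function is
continuous there and the difference tends to `0`.  `d ≠ rv d` because the directions differ. -/

namespace P7b

open Complex Filter Topology

variable {R : Finset Sg}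

/-- the polygon of a list of darts -/
noncomputable def poly (l : List (Drt R)) : List (ℂ × ℂ) := l.map (fun d => (d.og, d.hd))

namespace GJumpAux

/-- the ratio seen from the point at height `ε` over the midpoint -/
private noncomputable def rho (ε : ℝ) : ℂ := (1 / 2 - (ε : ℂ) * I) / (-(1 / 2) - (ε : ℂ) * I)

private theorem den_ne (ε : ℝ) : (-(1 / 2) - (ε : ℂ) * I) ≠ 0 := by
  intro h
  have := congrArg Complex.re h
  norm_num at this

private theorem num_ne (ε : ℝ) : (1 / 2 - (ε : ℂ) * I) ≠ 0 := by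
  intro h
  have := congrArg Complex.re h
  norm_num at this

private theorem rho_im (ε : ℝ) : (rho ε).im = ε / (1 / 4 + ε ^ 2) := by
  unfold rho
  rw [Complex.div_im]
  simp [Complex.normSq_apply]
  field_simp
  ring

private theorem rho_zero : rho 0 = -1 := by
  unfold rho
  norm_num

private theorem rho_cont : Continuous rho := by
  unfold rho
  refine Continuous.div ?_ ?_ den_ne
  · fun_prop
  · fun_prop

private theorem ratio_eq {a b : ℂ} (hab : a ≠ b) (ε : ℝ) :
    (b - lq a b (1 / 2) ε) / (a - lq a b (1 / 2) ε) = rho ε := by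
  have h1 : b - lq a b (1 / 2) ε = (b - a) * (1 / 2 - (ε : ℂ) * I) := by
    unfold lq
    push_cast
    ring
  have h2 : a - lq a b (1 / 2) ε = (b - a) * (-(1 / 2) - (ε : ℂ) * I) := by
    unfold lq
    push_cast
    ring
  rw [h1, h2, mul_div_mul_left _ _ (sub_ne_zero.2 hab.symm)]
  rfl

private theorem ratio_eq' {a b : ℂ} (hab : a ≠ b) (ε : ℝ) :
    (a - lq a b (1 / 2) ε) / (b - lq a b (1 / 2) ε) = rho (-ε) := by
  have h1 : b - lq a b (1 / 2) ε = (b - a) * (1 / 2 - (ε : ℂ) * I) := by
    unfold lq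
    push_cast
    ring
  have h2 : a - lq a b (1 / 2) ε = (b - a) * (-(1 / 2) - (ε : ℂ) * I) := by
    unfold lq
    push_cast
    ring
  rw [h1, h2, mul_div_mul_left _ _ (sub_ne_zero.2 hab.symm)]
  unfold rho
  rw [div_eq_div_iff (num_ne ε) (den_ne (-ε))]
  push_cast
  ring

private theorem tend_pos : Tendsto (fun ε : ℝ => Complex.arg (rho ε)) (𝓝[>] 0) (𝓝 Real.pi) := by
  have h := Complex.tendsto_arg_nhdsWithin_im_nonneg_of_re_neg_of_im_zero (z := -1)
    (by norm_num) (by norm_num)
  refine h.comp (tendsto_nhdsWithin_iff.2 ⟨?_, ?_⟩)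
  · have h1 : Tendsto rho (𝓝 0) (𝓝 (rho 0)) := rho_cont.tendsto 0
    rw [rho_zero] at h1
    exact h1.mono_left nhdsWithin_le_nhds
  · filter_upwards [self_mem_nhdsWithin] with ε hε
    have hε' : 0 < ε := hε
    change 0 ≤ (rho ε).im
    rw [rho_im]
    positivity

private theorem tend_neg : Tendsto (fun ε : ℝ => Complex.arg (rho (-ε))) (𝓝[>] 0)
    (𝓝 (-Real.pi)) := by
  have h := Complex.tendsto_arg_nhdsWithin_im_neg_of_re_neg_of_im_zero (z := -1)
    (by norm_num) (by norm_num)
  refine h.comp (tendsto_nhdsWithin_iff.2 ⟨?_, ?_⟩)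
  · have h1 : Tendsto (fun ε : ℝ => rho (-ε)) (𝓝 0) (𝓝 (rho (-0))) :=
      (rho_cont.comp continuous_neg).tendsto 0
    rw [neg_zero, rho_zero] at h1
    exact h1.mono_left nhdsWithin_le_nhds
  · filter_upwards [self_mem_nhdsWithin] with ε hε
    have hε' : 0 < ε := hε
    change (rho (-ε)).im < 0
    rw [rho_im]
    have : 0 < ε / (1 / 4 + (-ε) ^ 2) := by positivity
    rw [neg_div]
    linarith

end GJumpAux

open GJumpAux

theorem arg_jump {a b : ℂ} (hab : a ≠ b) :
    Tendsto (fun ε : ℝ => Complex.arg ((b - lq a b (1 / 2) ε) / (a - lq a b (1 / 2) ε))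
      - Complex.arg ((b - lq a b (1 / 2) (-ε)) / (a - lq a b (1 / 2) (-ε)))) (𝓝[>] 0)
      (𝓝 (2 * Real.pi)) := by
  simp_rw [ratio_eq hab]
  have h := tend_pos.sub tend_neg
  have e : Real.pi - -Real.pi = 2 * Real.pi := by ring
  rwa [e] at h

theorem arg_jump' {a b : ℂ} (hab : a ≠ b) :
    Tendsto (fun ε : ℝ => Complex.arg ((a - lq a b (1 / 2) ε) / (b - lq a b (1 / 2) ε))
      - Complex.arg ((a - lq a b (1 / 2) (-ε)) / (b - lq a b (1 / 2) (-ε)))) (𝓝[>] 0)
      (𝓝 (-(2 * Real.pi))) := by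
  simp_rw [ratio_eq' hab, neg_neg]
  have h := tend_neg.sub tend_pos
  have e : -Real.pi - Real.pi = -(2 * Real.pi) := by ring
  rwa [e] at h

namespace GJumpAux

private theorem hd_rv (h : GP R) (d : Drt R) : (d.rv h).hd = d.og :=
  h.sc_sc d.mem d.dr d.og_mem d.og_ne

private theorem rv_ne (h : GP R) (d : Drt R) : d.rv h ≠ d := by
  intro e
  have h1 : (d.rv h).dr = d.dr := by rw [e]
  have h2 : (d.rv h).dr = !d.dr := rfl
  rw [h2] at h1
  cases hd : d.dr <;> simp [hd] at h1

private theorem lq_cont (a b : ℂ) : Continuous (fun ε : ℝ => lq a b (1 / 2) ε) := by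
  unfold lq
  fun_prop

private theorem wind_cons (e : ℂ × ℂ) (l : List (ℂ × ℂ)) (z : ℂ) :
    wind (e :: l) z = Complex.arg ((e.2 - z) / (e.1 - z)) + wind l z := by
  simp [wind]

private theorem step_zero (h : GP R) {d e : Drt R} (h1 : e ≠ d) (h2 : e ≠ d.rv h) :
    Tendsto (fun ε : ℝ =>
      Complex.arg ((e.hd - lq d.og d.hd (1 / 2) ε) / (e.og - lq d.og d.hd (1 / 2) ε))
      - Complex.arg ((e.hd - lq d.og d.hd (1 / 2) (-ε)) / (e.og - lq d.og d.hd (1 / 2) (-ε))))
      (𝓝[>] 0) (𝓝 0) := by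
  have hz : lq d.og d.hd (1 / 2) 0 ∈ openSegment ℝ d.og d.hd :=
    lq_zero_mem (by norm_num) (by norm_num)
  have hv : lq d.og d.hd (1 / 2) 0 ∉ Vx R := fun hx =>
    Set.disjoint_left.1 (d.disj h) hz hx
  have hn : lq d.og d.hd (1 / 2) 0 ∉ segment ℝ e.og e.hd := by
    intro hs
    have a1 : e.og ≠ lq d.og d.hd (1 / 2) 0 := by
      intro hx
      rw [← hx] at hv
      exact hv (h.mem_VF.1 e.og_mem).1
    have a2 : e.hd ≠ lq d.og d.hd (1 / 2) 0 := by
      intro hx
      rw [← hx] at hv
      exact hv (h.mem_VF.1 (e.hd_mem h)).1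
    have ho := mem_openSegment_of_ne_left_right a1 a2 hs
    rcases edge_uniq h hz ho with hx | hx
    · exact h1 hx
    · exact h2 hx
  have hc : ContinuousAt (wind [(e.og, e.hd)]) (lq d.og d.hd (1 / 2) 0) := by
    apply wind_cont
    intro x hx
    rw [List.mem_singleton] at hx
    subst hx
    exact hn
  have hw : ∀ z, wind [(e.og, e.hd)] z = Complex.arg ((e.hd - z) / (e.og - z)) := by
    intro z
    simp [wind]
  have t1 : Tendsto (fun ε : ℝ => lq d.og d.hd (1 / 2) ε) (𝓝[>] 0)
      (𝓝 (lq d.og d.hd (1 / 2) 0)) :=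
    ((lq_cont _ _).tendsto 0).mono_left nhdsWithin_le_nhds
  have t2 : Tendsto (fun ε : ℝ => lq d.og d.hd (1 / 2) (-ε)) (𝓝[>] 0)
      (𝓝 (lq d.og d.hd (1 / 2) 0)) := by
    have h3 : Tendsto (fun ε : ℝ => lq d.og d.hd (1 / 2) (-ε)) (𝓝 0)
        (𝓝 (lq d.og d.hd (1 / 2) (-0))) :=
      ((lq_cont _ _).comp continuous_neg).tendsto 0
    rw [neg_zero] at h3
    exact h3.mono_left nhdsWithin_le_nhds
  have s1 := hc.tendsto.comp t1
  have s2 := hc.tendsto.comp t2
  have s3 := s1.sub s2
  rw [sub_self] at s3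
  refine s3.congr fun ε => ?_
  simp only [Function.comp, hw]

end GJumpAux

open Classical in
theorem wind_jump (h : GP R) (l : List (Drt R)) (d : Drt R) :
    Tendsto (fun ε : ℝ => wind (poly l) (lq d.og d.hd (1 / 2) ε)
      - wind (poly l) (lq d.og d.hd (1 / 2) (-ε))) (𝓝[>] 0)
      (𝓝 (2 * Real.pi * ((l.count d : ℝ) - l.count (d.rv h)))) := by
  induction l with
  | nil =>
    simp [poly, wind]
  | cons e l ih =>
    have key : Tendsto (fun ε : ℝ =>
        Complex.arg ((e.hd - lq d.og d.hd (1 / 2) ε) / (e.og - lq d.og d.hd (1 / 2) ε))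
        - Complex.arg ((e.hd - lq d.og d.hd (1 / 2) (-ε)) / (e.og - lq d.og d.hd (1 / 2) (-ε))))
        (𝓝[>] 0) (𝓝 (2 * Real.pi * ((if e = d then 1 else 0) -
          (if e = d.rv h then 1 else 0)))) := by
      by_cases h1 : e = d
      · subst h1
        rw [if_pos rfl, if_neg (rv_ne h e).symm]
        have := arg_jump (Drt.og_ne_hd h e)
        simpa using this
      · by_cases h2 : e = d.rv h
        · subst h2
          rw [if_neg (rv_ne h d), if_pos rfl]
          have h3 := arg_jump' (Drt.og_ne_hd h d)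
          rw [hd_rv]
          have h4 : (d.rv h).og = d.hd := rfl
          rw [h4]
          have h5 : 2 * Real.pi * ((0 : ℝ) - 1) = -(2 * Real.pi) := by ring
          rw [h5]
          exact h3
        · rw [if_neg h1, if_neg h2]
          simpa using step_zero h h1 h2
    have h3 := key.add ih
    have h4 : 2 * Real.pi * ((if e = d then (1 : ℝ) else 0) - (if e = d.rv h then 1 else 0)) +
        2 * Real.pi * ((l.count d : ℝ) - l.count (d.rv h)) =
        2 * Real.pi * (((e :: l).count d : ℝ) - (e :: l).count (d.rv h)) := by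
      rw [List.count_cons, List.count_cons]
      simp only [beq_iff_eq]
      push_cast
      ring
    rw [h4] at h3
    refine h3.congr fun ε => ?_
    simp only [poly, List.map_cons, wind_cons]
    ring

end P7b
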