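import Pool.Agent.Lib.P7b.GMapA
import Pool.Agent.Lib.P7b.GLeft
import Pool.Agent.Lib.P7b.GJump

/-! MP_7b5a71: planarity of the segment map.

Let `l` be a closed walk of darts; `poly l` is a closed walk of pairs (`gm.org d = d.og`, `gm.org (gm.rev d) = (d.rv h).og = d.hd`).  For `z ∉ un R`,
`wind (poly l) z = 2 π k(z)`, `k(z) ∈ ℤ` (`wind_int`; the edges are in `un R`), and `k` is constant on the components of `(un R)ᶜ` (`wind_const`,
`isPreconnected_connectedComponentIn`).  For a set `C` put `c C = k(z) mod 2` for a chosen `z ∈ C \ un R` (0 if there is none).  For a dart `d`, by `lreg_eq` (`t = 1/2`) for small `ε > 0`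
`lft d = lreg d.og d.hd` is the component of `z₊ = lq d.og d.hd (1/2) ε`, and `lft (rev d) = lreg d.hd d.og` the component of `z₋ = lq d.hd d.og (1/2) ε = lq d.og d.hd (1/2) (-ε)`
(`lq_rev`).  `wind z₊ - wind z₋ → 2 π (count d - count (rev d))` (`wind_jump`), and it is constant `2 π (k₊ - k₋)` for small `ε`; so `k₊ - k₋ = count d - count (rev d)`; mod 2. -/

namespace P7b

variable {R : Finset Sg}

namespace GPlanarAux

open Filter Topology

theorem walk_poly (h : GP R) {v w : (gm h).V} {l : List (gm h).D}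
    (hl : IsWalk (gm h).org (gm h).rev v l w) :
    IsWalk (D := ℂ × ℂ) (V := ℂ) Prod.fst Prod.swap v (poly (R := R) l) w := by
  induction hl with
  | nil v => exact IsWalk.nil v
  | cons d l w _ ih =>
    exact IsWalk.cons (org := (Prod.fst : ℂ × ℂ → ℂ)) (rev := Prod.swap)
      (Drt.og (R := R) d, Drt.hd (R := R) d) (poly (R := R) l) w ih

theorem seg_sub (h : GP R) (d : Drt R) : segment ℝ d.og d.hd ⊆ un R := by
  have h1 : Convex ℝ (car d.sg) := convex_segment _ _
  have h2 := h1.segment_subset (d.og_car h) (d.hd_car h)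
  intro z hz
  exact Set.mem_biUnion d.mem (h2 hz)

theorem not_seg (h : GP R) (l : List (Drt R)) {z : ℂ} (hz : z ∉ un R) :
    ∀ e ∈ poly l, z ∉ segment ℝ e.1 e.2 := by
  intro e he hze
  unfold poly at he
  rw [List.mem_map] at he
  obtain ⟨d, _, rfl⟩ := he
  exact hz (seg_sub h d hze)

theorem not_end (h : GP R) (l : List (Drt R)) {z : ℂ} (hz : z ∉ un R) :
    ∀ e ∈ poly l, z ≠ e.1 ∧ z ≠ e.2 := by
  intro e he
  have h1 := not_seg h l hz e he
  constructor
  · intro hh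
    apply h1
    rw [hh]
    exact left_mem_segment ℝ _ _
  · intro hh
    apply h1
    rw [hh]
    exact right_mem_segment ℝ _ _

open Classical in
/-- the winding number -/
noncomputable def kk (l : List (Drt R)) (z : ℂ) : ℤ :=
  if h : ∃ k : ℤ, wind (poly l) z = 2 * Real.pi * k then Classical.choose h else 0

theorem kk_spec {v : ℂ} {l : List (Drt R)} (hw : IsWalk Prod.fst Prod.swap v (poly l) v)
    (h : GP R) {z : ℂ} (hz : z ∉ un R) : wind (poly l) z = 2 * Real.pi * kk l z := by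
  have hex := wind_int hw z (not_end h l hz)
  unfold kk
  rw [dif_pos hex]
  exact Classical.choose_spec hex

open Classical in
/-- the colouring -/
noncomputable def cc (l : List (Drt R)) (C : Set ℂ) : ZMod 2 :=
  if h : ∃ z, z ∈ C ∧ z ∉ un R then ((kk l (Classical.choose h) : ℤ) : ZMod 2) else 0

theorem wind_comp {v : ℂ} {l : List (Drt R)} (hw : IsWalk Prod.fst Prod.swap v (poly l) v)
    (h : GP R) {z w : ℂ} (hz : z ∉ un R) (hzw : w ∈ connectedComponentIn (un R)ᶜ z) :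
    wind (poly l) w = wind (poly l) z := by
  refine wind_const hw (isPreconnected_connectedComponentIn (F := (un R)ᶜ) (x := z)) ?_ hzw
    (mem_connectedComponentIn hz)
  intro u hu
  exact not_seg h l (connectedComponentIn_subset _ _ hu)

theorem kk_comp {v : ℂ} {l : List (Drt R)} (hw : IsWalk Prod.fst Prod.swap v (poly l) v)
    (h : GP R) {z w : ℂ} (hz : z ∉ un R) (hzw : w ∈ connectedComponentIn (un R)ᶜ z) :
    kk l w = kk l z := by
  have h1 := wind_comp hw h hz hzw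
  rw [kk_spec hw h hz, kk_spec hw h (connectedComponentIn_subset _ _ hzw)] at h1
  have h2 : (2 * Real.pi : ℝ) ≠ 0 := by positivity
  have h3 := mul_left_cancel₀ h2 h1
  exact_mod_cast h3

theorem cc_comp {v : ℂ} {l : List (Drt R)} (hw : IsWalk Prod.fst Prod.swap v (poly l) v)
    (h : GP R) {z : ℂ} (hz : z ∉ un R) {C : Set ℂ} (hC : connectedComponentIn (un R)ᶜ z = C) :
    cc l C = ((kk l z : ℤ) : ZMod 2) := by
  have hex : ∃ z, z ∈ C ∧ z ∉ un R := ⟨z, hC ▸ mem_connectedComponentIn hz, hz⟩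
  unfold cc
  rw [dif_pos hex]
  have h1 := Classical.choose_spec hex
  rw [kk_comp hw h hz (by rw [hC]; exact h1.1)]

theorem key {v : ℂ} {l : List (Drt R)} (hw : IsWalk Prod.fst Prod.swap v (poly l) v)
    (h : GP R) (d : Drt R) {n m : ℕ}
    (hj : Tendsto (fun ε : ℝ => wind (poly l) (lq d.og d.hd (1 / 2) ε)
      - wind (poly l) (lq d.og d.hd (1 / 2) (-ε))) (𝓝[>] 0)
      (𝓝 (2 * Real.pi * ((n : ℝ) - m)))) :
    cc l (lreg R d.og d.hd) + cc l (lreg R (d.rv h).og (d.rv h).hd) = n + m := by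
  obtain ⟨ε₁, h1, h1'⟩ := lreg_eq h d.mem (d.og_car h) (d.hd_car h) (d.og_ne_hd h) (d.disj h)
    (t := 1 / 2) (by norm_num) (by norm_num)
  have hds : Disjoint (openSegment ℝ d.hd d.og) (Vx R) := by
    rw [openSegment_symm]
    exact d.disj h
  obtain ⟨ε₂, h2, h2'⟩ := lreg_eq h d.mem (d.hd_car h) (d.og_car h) (d.og_ne_hd h).symm hds
    (t := 1 / 2) (by norm_num) (by norm_num)
  have hrev : ∀ ε : ℝ, lq d.hd d.og (1 / 2) ε = lq d.og d.hd (1 / 2) (-ε) := by
    intro ε
    rw [lq_rev]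
    norm_num
  have hog : (d.rv h).og = d.hd := rfl
  rw [hog, hd_rv h d]
  set ε₀ : ℝ := min ε₁ ε₂ / 2 with hε₀
  have hmin : 0 < min ε₁ ε₂ := lt_min h1 h2
  have h0 : 0 < ε₀ := by rw [hε₀]; linarith
  have h01 : ε₀ < ε₁ := by
    have := min_le_left ε₁ ε₂
    rw [hε₀]; linarith
  have h02 : ε₀ < ε₂ := by
    have := min_le_right ε₁ ε₂
    rw [hε₀]; linarith
  obtain ⟨a1, a2⟩ := h1' ε₀ h0 h01
  obtain ⟨b1, b2⟩ := h2' ε₀ h0 h02
  rw [cc_comp hw h a1 a2, cc_comp hw h b1 b2]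
  have hconst : (fun _ : ℝ => wind (poly l) (lq d.og d.hd (1 / 2) ε₀)
      - wind (poly l) (lq d.hd d.og (1 / 2) ε₀)) =ᶠ[𝓝[>] 0]
      (fun ε : ℝ => wind (poly l) (lq d.og d.hd (1 / 2) ε)
      - wind (poly l) (lq d.og d.hd (1 / 2) (-ε))) := by
    have hIoo : Set.Ioo (0 : ℝ) ε₀ ∈ 𝓝[>] (0 : ℝ) := Ioo_mem_nhdsGT h0
    filter_upwards [hIoo] with ε hε
    obtain ⟨c1, c2⟩ := h1' ε hε.1 (hε.2.trans h01)
    obtain ⟨e1, e2⟩ := h2' ε hε.1 (hε.2.trans h02)
    rw [← hrev]
    have k1 : wind (poly l) (lq d.og d.hd (1 / 2) ε) = wind (poly l) (lq d.og d.hd (1 / 2) ε₀) := by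
      refine wind_comp hw h a1 ?_
      rw [a2, ← c2]
      exact mem_connectedComponentIn c1
    have k2 : wind (poly l) (lq d.hd d.og (1 / 2) ε) = wind (poly l) (lq d.hd d.og (1 / 2) ε₀) := by
      refine wind_comp hw h b1 ?_
      rw [b2, ← e2]
      exact mem_connectedComponentIn e1
    rw [k1, k2]
  have hlim := (tendsto_const_nhds (x := wind (poly l) (lq d.og d.hd (1 / 2) ε₀)
      - wind (poly l) (lq d.hd d.og (1 / 2) ε₀)) (f := 𝓝[>] (0 : ℝ))).congr' hconst
  have heq := tendsto_nhds_unique hlim hj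
  rw [kk_spec hw h a1, kk_spec hw h b1] at heq
  have h2pi : (2 * Real.pi : ℝ) ≠ 0 := by positivity
  have h5 : ((kk l (lq d.og d.hd (1 / 2) ε₀) : ℤ) : ℝ) - ((kk l (lq d.hd d.og (1 / 2) ε₀) : ℤ) : ℝ)
      = (n : ℝ) - m := by
    apply mul_left_cancel₀ h2pi
    rw [← heq]
    ring
  have h6 : kk l (lq d.og d.hd (1 / 2) ε₀) = kk l (lq d.hd d.og (1 / 2) ε₀) + n - m := by
    have : ((kk l (lq d.og d.hd (1 / 2) ε₀) : ℤ) : ℝ) =
        ((kk l (lq d.hd d.og (1 / 2) ε₀) + n - m : ℤ) : ℝ) := by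
      push_cast
      linarith
    exact_mod_cast this
  rw [h6]
  push_cast
  have h7 : ∀ x y z : ZMod 2, x + y - z + x = y + z := by decide
  exact h7 _ _ _

end GPlanarAux

open GPlanarAux

theorem gm_planar (h : GP R) (v : (gm h).V) (l : List (gm h).D)
    (hl : IsWalk (gm h).org (gm h).rev v l v) :
    ∃ c : (gm h).R → ZMod 2, ∀ d, c ((gm h).lft d) + c ((gm h).lft ((gm h).rev d))
      = l.count d + l.count ((gm h).rev d) := by
  refine ⟨cc (R := R) l, fun d => ?_⟩
  have hw := walk_poly h hl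
  have hj := wind_jump h l d
  have hk := key hw h d hj
  change cc (R := R) l (lreg R (Drt.og (R := R) d) (Drt.hd (R := R) d)) +
    cc (R := R) l (lreg R (Drt.rv h d).og (Drt.rv h d).hd) = _
  rw [hk]
  have e : ∀ (i1 i2 : DecidableEq (gm h).D) (a : (gm h).D),
      @List.count _ (@instBEqOfDecidableEq _ i1) a l =
        @List.count _ (@instBEqOfDecidableEq _ i2) a l := fun i1 i2 a => by
    rw [Subsingleton.elim i1 i2]
  exact congrArg₂ (fun x y : ℕ => (x : ZMod 2) + (y : ZMod 2)) (e _ _ d) (e _ _ _)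

end P7b
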