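import Pool.Agent.Lib.P7b.GMapB
import Pool.Agent.Lib.P7b.GLft
import Pool.Agent.Lib.P7b.GPlanar
import Pool.Agent.Lib.P7b.GDual

/-! MP_7b5a71: the segment map of an arrangement satisfies the axioms. -/

namespace P7b

variable {R : Finset Sg}

theorem gm_ax (h : GP R) : (gm h).Ax where
  rev_rev := gm_rev_rev h
  seg_rev := gm_seg_rev h
  dir_rev := gm_dir_rev h
  org_nxt := gm_org_nxt h
  nxt_tip := gm_nxt_tip h
  nxt_seg := gm_nxt_seg h
  str_seg := gm_str_seg h
  str_dir := gm_str_dir h
  str_pos := gm_str_pos h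
  str_rev := gm_str_rev h
  pos_inj := gm_pos_inj h
  tip_last := gm_tip_last h
  cross_uniq := gm_cross_uniq h
  lft_nxt := gm_lft_nxt h
  planar := gm_planar h
  dual := gm_dual h

end P7b
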