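import Mathlib

/-! MP_7b5a71: arrangements of segments in the plane `ℂ`. -/

namespace P7b

open Complex

/-- A segment is given by its two endpoints. -/
abbrev Sg := ℂ × ℂ

/-- the closed segment -/
def car (s : Sg) : Set ℂ := segment ℝ s.1 s.2

/-- the union of the segments -/
def un (R : Finset Sg) : Set ℂ := ⋃ s ∈ R, car s

/-- General position: the segments are not points, no endpoint lies on another segment, two segments share at
most one point, no point lies on three segments. -/
structure GP (R : Finset Sg) : Prop where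
  ne : ∀ s ∈ R, s.1 ≠ s.2
  tip1 : ∀ s ∈ R, ∀ t ∈ R, s ≠ t → s.1 ∉ car t
  tip2 : ∀ s ∈ R, ∀ t ∈ R, s ≠ t → s.2 ∉ car t
  sub : ∀ s ∈ R, ∀ t ∈ R, s ≠ t → (car s ∩ car t).Subsingleton
  trip : ∀ s ∈ R, ∀ t ∈ R, ∀ u ∈ R, s ≠ t → t ≠ u → s ≠ u → car s ∩ car t ∩ car u = ∅

/-- the vertices of the arrangement: endpoints and intersection points -/
def Vx (R : Finset Sg) : Set ℂ :=
  {z | ∃ s ∈ R, z = s.1 ∨ z = s.2} ∪ {z | ∃ s ∈ R, ∃ t ∈ R, s ≠ t ∧ z ∈ car s ∧ z ∈ car t}

/-- the edges of the arrangement: open pieces of a segment between two vertices, containing no vertex -/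
def IsEdge (R : Finset Sg) (e : Set ℂ) : Prop :=
  ∃ s ∈ R, ∃ p ∈ Vx R ∩ car s, ∃ q ∈ Vx R ∩ car s, p ≠ q ∧
    Disjoint (openSegment ℝ p q) (Vx R) ∧ e = openSegment ℝ p q

/-- the face of the arrangement containing `x` -/
def face (R : Finset Sg) (x : ℂ) : Set ℂ := connectedComponentIn (un R)ᶜ x

/-- the edges on the boundary of the face of `x` -/
def faceEdges (R : Finset Sg) (x : ℂ) : Set (Set ℂ) := {e | IsEdge R e ∧ e ⊆ frontier (face R x)}

/-- the number of edges on the boundary of the face of `x` -/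
noncomputable def faceSize (R : Finset Sg) (x : ℂ) : ℕ := (faceEdges R x).ncard

open Classical in
/-- the number of segments of `R` meeting `s` (other than `s`) -/
noncomputable def cross (R : Finset Sg) (s : Sg) : ℕ :=
  (R.filter (fun t => t ≠ s ∧ (car s ∩ car t).Nonempty)).card

theorem GP.mono {R R' : Finset Sg} (h : GP R) (hs : R' ⊆ R) : GP R' :=
  ⟨fun s hs' => h.ne s (hs hs'), fun s hs' t ht => h.tip1 s (hs hs') t (hs ht),
    fun s hs' t ht => h.tip2 s (hs hs') t (hs ht), fun s hs' t ht => h.sub s (hs hs') t (hs ht),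
    fun s hs' t ht u hu => h.trip s (hs hs') t (hs ht) u (hs hu)⟩

end P7b
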