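import Pool.Agent.Lib.P7b.GMapA
import Pool.Agent.Lib.P7b.GLeft

/-! MP_7b5a71: the number of edges on the boundary of a face, and the number of crossing segments.

`faceEdges_le`: let `e = openSegment p q` be an edge (`s, p, q` as in `IsEdge`) with `e ⊆ frontier (face R x)`, WLOG `tau s true p < tau s true q` (exchange `p, q`).  Then
`d = (s, true, p)` is a dart (`p ≠ en s true`) with `d.hd = q` (`sc_spec`, `mem_openSegment_iff`: no vertex strictly between; `tau_inj`).  Take the midpoint `z` of `e` and the ball of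
`edge_ball`; `z ∈ closure (face R x)`, so there is `w ∈ face R x` in the ball, `w ∉ un R` (`connectedComponentIn_subset`), and its component is `face R x`
(`connectedComponentIn_eq`), so `lreg p q = face R x` or `lreg q p = face R x`: `d` or `rv d` (`hd_rv`) is in `fd (face R x)`.  This defines an injection
`faceEdges → fd` up to the map `d ↦ openSegment d.og d.hd`: `faceEdges R x ⊆ (fun d => openSegment ℝ d.og d.hd) '' fd`, hence finite and `ncard ≤ card`
(`Set.ncard_le_ncard`, `Set.ncard_image_le`; `openSegment_symm`).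
`cr_card`: `g ∈ cr s ↔ g ≠ s ∧ (car s ∩ car g).Nonempty`: (→) `nf_sg`, `oth_spec` (`d.hd ∈ car s ∩ car g`).  (←) let `v ∈ car s ∩ car g`, a vertex of `s`, not an endpoint (`not_end`); let
`d = rv` of the dart `(s, false, v)`: it has head `v` (`hd_rv`), direction `true`, and `oth R s v = g` (`oth_uniq`). -/

namespace P7b

variable {R : Finset Sg}

namespace GFaceAux

theorem dart_of_edge (h : GP R) {s : Sg} (hs : s ∈ R) {p q : ℂ} (hp : p ∈ Vx R ∩ car s)
    (hq : q ∈ Vx R ∩ car s) (hpq : p ≠ q) (hd : Disjoint (openSegment ℝ p q) (Vx R)) :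
    ∃ d : Drt R, d.og = p ∧ d.hd = q := by
  have hsn := h.ne s hs
  obtain ⟨b, hb⟩ : ∃ b : Bool, tau s b p < tau s b q := by
    rcases lt_trichotomy (tau s true p) (tau s true q) with h1 | h1 | h1
    · exact ⟨true, h1⟩
    · exact absurd (tau_inj hsn true hp.2 hq.2 h1) hpq
    · refine ⟨false, ?_⟩
      have h2 : ∀ z, tau s false z = - tau s true z := fun z => tau_not s true z
      rw [h2, h2]
      linarith
  have hpV : p ∈ VF R s := h.mem_VF.2 hp
  have hqV : q ∈ VF R s := h.mem_VF.2 hq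
  have hne : p ≠ en s b := by
    intro hh
    have h1 := tau_le_en hsn b hq.2
    rw [← hh] at h1
    linarith
  obtain ⟨h1, h2, h3⟩ := h.sc_spec hs b hpV hne
  refine ⟨⟨(s, b, p), hs, hpV, hne⟩, rfl, ?_⟩
  show sc R s b p = q
  have h4 := h3 q hqV hb
  rcases h4.lt_or_eq with h5 | h5
  · exfalso
    have h6 : sc R s b p ∈ openSegment ℝ p q :=
      (mem_openSegment_iff hsn b hp.2 hq.2 (h.mem_VF.1 h1).2 hb).2 ⟨h2, h5⟩
    exact Set.disjoint_left.1 hd h6 (h.mem_VF.1 h1).1
  · exact tau_inj hsn b (h.mem_VF.1 h1).2 hq.2 h5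

end GFaceAux

theorem faceEdges_le (h : GP R) {x : ℂ} (hx : x ∉ un R) :
    (faceEdges R x).Finite ∧ faceSize R x ≤ ((gm h).fd (face R x)).card := by
  have hsub : faceEdges R x ⊆ (fun d : Drt R => openSegment ℝ d.og d.hd) ''
      {d : Drt R | lreg R d.og d.hd = face R x} := by
    rintro e ⟨⟨s, hs, p, hp, q, hq, hpq, hd, rfl⟩, hfr⟩
    obtain ⟨d, hdp, hdq⟩ := GFaceAux.dart_of_edge h hs hp hq hpq hd
    have hz : midpoint ℝ p q ∈ openSegment ℝ p q := midpoint_mem_openSegment p q
    obtain ⟨ε, hε, hball⟩ := edge_ball h hs hp.2 hq.2 hpq hd hz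
    have hcl := frontier_subset_closure (hfr hz)
    obtain ⟨w, hw, hwz⟩ := Metric.mem_closure_iff.1 hcl ε hε
    rw [dist_comm] at hwz
    have hwn : w ∉ un R := fun hh => (connectedComponentIn_subset _ _ hw) hh
    have hcc : face R x = connectedComponentIn (un R)ᶜ w := connectedComponentIn_eq hw
    rcases (hball w hwz).2 hwn with h1 | h1
    · refine ⟨d, ?_, ?_⟩
      · show lreg R d.og d.hd = face R x
        rw [hdp, hdq, hcc, h1]
      · show openSegment ℝ d.og d.hd = _
        rw [hdp, hdq]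
    · refine ⟨d.rv h, ?_, ?_⟩
      · show lreg R d.hd (d.rv h).hd = face R x
        rw [hd_rv, hdp, hdq, hcc, h1]
      · show openSegment ℝ d.hd (d.rv h).hd = _
        rw [hd_rv, hdp, hdq, openSegment_symm]
  have hfd : ({d : Drt R | lreg R d.og d.hd = face R x} : Set (Drt R)) =
      ((((gm h).fd (face R x)) : Finset (gm h).D) : Set (gm h).D) := by
    ext d
    simp only [PreMap.fd, Finset.coe_filter, Finset.mem_univ, true_and, Set.mem_ofPred_eq]
    exact Iff.rfl
  have hfin : ({d : Drt R | lreg R d.og d.hd = face R x} : Set (Drt R)).Finite := Set.toFinite _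
  refine ⟨(hfin.image _).subset hsub, ?_⟩
  unfold faceSize
  calc (faceEdges R x).ncard ≤ ((fun d : Drt R => openSegment ℝ d.og d.hd) ''
      {d : Drt R | lreg R d.og d.hd = face R x}).ncard := Set.ncard_le_ncard hsub (hfin.image _)
    _ ≤ ({d : Drt R | lreg R d.og d.hd = face R x} : Set (Drt R)).ncard := Set.ncard_image_le hfin
    _ = ((gm h).fd (face R x)).card := by
      rw [hfd]
      exact Set.ncard_coe_finset _

theorem cr_card (h : GP R) {s : Sg} (hs : s ∈ R) :
    ((gm h).cr ⟨s, hs⟩).card = cross R s := by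
  classical
  unfold cross
  have hmem : ∀ g : {t : Sg // t ∈ R}, g ∈ (gm h).cr ⟨s, hs⟩ ↔
      (g.1 ≠ s ∧ (car s ∩ car g.1).Nonempty) := by
    intro g
    have h0 : g ∈ (gm h).cr ⟨s, hs⟩ ↔ ∃ d : Drt R, (⟨d.sg, d.mem⟩ : {t : Sg // t ∈ R}) = ⟨s, hs⟩ ∧
        ¬ (gm h).tip d ∧ (⟨(Drt.nf h d).sg, (Drt.nf h d).mem⟩ : {t : Sg // t ∈ R}) = g := by
      exact (Finset.mem_filter (s := (Finset.univ : Finset (gm h).S))).trans
        (and_iff_right (@Finset.mem_univ (gm h).S (gm h).fS g))
    rw [h0]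
    constructor
    · rintro ⟨d, hd1, hd2, hd3⟩
      have hds : d.sg = s := congrArg Subtype.val hd1
      have ht : d.hd ≠ en d.sg d.dr := fun hh => hd2 ((gm_tip_iff h d).2 hh)
      obtain ⟨e1, e2⟩ := Drt.GMapAux.ne_ends h d ht
      obtain ⟨o1, o2, o3⟩ := h.oth_spec d.mem (d.hd_mem h) e1 e2
      have hg : g.1 = oth R d.sg d.hd := by
        rw [← hd3]
        exact nf_sg h d ht
      rw [hg]
      refine ⟨by rw [← hds]; exact o2, d.hd, ?_, ?_⟩
      · rw [← hds]
        exact (h.mem_VF.1 (d.hd_mem h)).2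
      · exact (h.mem_VF.1 o3).2
    · rintro ⟨hgs, v, hvs, hvg⟩
      have hvV : v ∈ VF R s :=
        h.mem_VF.2 ⟨Or.inr ⟨s, hs, g.1, g.2, Ne.symm hgs, hvs, hvg⟩, hvs⟩
      obtain ⟨n1, n2⟩ := h.not_end hs g.2 hgs hvs hvg hs
      have hv0 : v ≠ en s false := by simpa [en] using n1
      have hv1 : v ≠ en s true := by simpa [en] using n2
      let d0 : Drt R := ⟨(s, false, v), hs, hvV, hv0⟩
      have hhd : (d0.rv h).hd = v := hd_rv h d0
      have hsg : (d0.rv h).sg = s := rfl
      have ht : (d0.rv h).hd ≠ en (d0.rv h).sg (d0.rv h).dr := by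
        rw [hhd]
        exact hv1
      refine ⟨d0.rv h, rfl, fun hh => ht ((gm_tip_iff h _).1 hh), ?_⟩
      apply Subtype.ext
      show (Drt.nf h (d0.rv h)).sg = g.1
      rw [nf_sg h _ ht, hhd, hsg]
      exact h.oth_uniq hs g.2 hgs hvs hvg
  refine Finset.card_bij (fun (g : {t : Sg // t ∈ R}) _ => g.1) ?_ ?_ ?_
  · intro g hg
    rw [Finset.mem_filter]
    exact ⟨g.2, (hmem g).1 hg⟩
  · intro a _ b _ hab
    exact Subtype.ext hab
  · intro t ht
    rw [Finset.mem_filter] at ht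
    exact ⟨⟨t, ht.1⟩, (hmem ⟨t, ht.1⟩).2 ht.2, rfl⟩

end P7b
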