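import Pool.Agent.Lib.P7b.GMap

/-! MP_7b5a71: local structure of the union of the segments.

* `loc_ball`: finitely many closed sets; those not containing `z` have positive distance from `z`.
* `loc_edge`: the compact set `segment m m'` is inside the open edge, which contains no vertex, so it is disjoint from the closed set
  `⋃ t ∈ R, t ≠ s, car t` (a point of `car s ∩ car t` is a vertex); take a positive lower bound for the distance
  (`Metric.infDist`, `IsCompact.exists_infDist...`, or `Disjoint.exists_thickenings`).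
* `lq_notMem_car`: `(lq p q t ε - p) / (q - p) = t + ε I` is not real.
* `exists_dart`: `z ∈ car s` is not a vertex; take the last vertex `q₀` of `s` with `tau s true q₀ < tau s true z`; then `sc` is beyond `z` and
  `mem_openSegment_iff`.
* `edge_uniq`: if `z` is in the open edges of `d` and `e` then it is not a vertex, so both are on the same segment (else `z` would be in the
  intersection of two segments); with the same direction, `og` is the last vertex before `z` for both, so `d = e`; with opposite directions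
  apply this to `rv e`. -/

namespace P7b

open Complex

variable {R : Finset Sg}

theorem isClosed_car (s : Sg) : IsClosed (car s) := by
  unfold car
  rw [segment_eq_image]
  refine (isCompact_Icc.image ?_).isClosed
  fun_prop

theorem isClosed_un (R : Finset Sg) : IsClosed (un R) := by
  unfold un
  exact R.finite_toSet.isClosed_biUnion fun s _ => isClosed_car s

theorem loc_ball (R : Finset Sg) (z : ℂ) :
    ∃ ε > 0, ∀ w, dist w z < ε → ∀ s ∈ R, w ∈ car s → z ∈ car s := by
  have key : ∀ᶠ w in nhds z, ∀ s ∈ R, w ∈ car s → z ∈ car s := by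
    rw [Finset.eventually_all]
    intro s _
    by_cases hz : z ∈ car s
    · exact Filter.Eventually.of_forall fun _ _ => hz
    · filter_upwards [(isClosed_car s).isOpen_compl.mem_nhds hz] with w hw hw'
      exact absurd hw' hw
  obtain ⟨ε, hε, h⟩ := Metric.eventually_nhds_iff.1 key
  exact ⟨ε, hε, fun w hw s hs hws => h hw s hs hws⟩

theorem loc_edge (h : GP R) {s : Sg} (hs : s ∈ R) {p q : ℂ} (hp : p ∈ car s) (hq : q ∈ car s)
    (hd : Disjoint (openSegment ℝ p q) (Vx R)) {m m' : ℂ} (hm : m ∈ openSegment ℝ p q)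
    (hm' : m' ∈ openSegment ℝ p q) :
    ∃ ε > 0, ∀ z ∈ segment ℝ m m', ∀ w, dist w z < ε → w ∈ un R → w ∈ car s := by
  classical
  have hK : segment ℝ m m' ⊆ openSegment ℝ p q :=
    (convex_openSegment p q).segment_subset hm hm'
  have hcl : IsClosed (⋃ t ∈ (R.filter (fun t => t ≠ s)), car t) :=
    (R.filter (fun t => t ≠ s)).finite_toSet.isClosed_biUnion fun t _ => isClosed_car t
  have hsub : segment ℝ m m' ⊆ (⋃ t ∈ (R.filter (fun t => t ≠ s)), car t)ᶜ := by
    intro z hz hz'
    simp only [Set.mem_iUnion, Finset.mem_filter, exists_prop] at hz'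
    obtain ⟨t, ⟨ht, hts⟩, hzt⟩ := hz'
    have hzs : z ∈ car s := openSegment_sub hp hq (hK hz)
    exact Set.disjoint_left.1 hd (hK hz) (Or.inr ⟨s, hs, t, ht, Ne.symm hts, hzs, hzt⟩)
  have hcomp : IsCompact (segment ℝ m m') := by
    rw [segment_eq_image]
    refine isCompact_Icc.image ?_
    fun_prop
  obtain ⟨ε, hε, hth⟩ := hcomp.exists_thickening_subset_open hcl.isOpen_compl hsub
  refine ⟨ε, hε, fun z hz w hw hwu => ?_⟩
  have h1 : w ∈ Metric.thickening ε (segment ℝ m m') :=
    Metric.mem_thickening_iff.2 ⟨z, hz, hw⟩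
  have h2 := hth h1
  unfold un at hwu
  simp only [Set.mem_iUnion, exists_prop] at hwu
  obtain ⟨t, ht, hwt⟩ := hwu
  by_cases hts : t = s
  · rwa [hts] at hwt
  · exfalso
    apply h2
    simp only [Set.mem_iUnion, Finset.mem_filter, exists_prop]
    exact ⟨t, ⟨ht, hts⟩, hwt⟩

theorem lq_rev (a b : ℂ) (t ε : ℝ) : lq b a t ε = lq a b (1 - t) (-ε) := by
  unfold lq
  push_cast
  ring

theorem lq_notMem_car {s : Sg} {p q : ℂ} (hp : p ∈ car s) (hq : q ∈ car s) (hpq : p ≠ q) (t : ℝ)
    {ε : ℝ} (hε : ε ≠ 0) : lq p q t ε ∉ car s := by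
  intro hz
  have hs : s.1 ≠ s.2 := by
    intro h
    unfold car at hp hq
    rw [h, segment_same] at hp hq
    exact hpq (hp.trans hq.symm)
  have h1 := sub_eq hs true hp hq
  have h2 := sub_eq hs true hp hz
  have hv := dv_ne hs true
  have h3 : lq p q t ε - p = ((t : ℂ) + (ε : ℂ) * I) * (q - p) := by
    unfold lq; ring
  rw [h3, h1, ← mul_assoc] at h2
  have h4 := mul_right_cancel₀ hv h2
  have h5 := congrArg Complex.im h4
  simp only [Complex.mul_im, Complex.add_im, Complex.ofReal_im, Complex.add_re, Complex.ofReal_re,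
    Complex.I_im, Complex.I_re, Complex.mul_re, mul_zero, mul_one, zero_add, add_zero,
    sub_zero] at h5
  rcases mul_eq_zero.1 h5 with h6 | h6
  · exact hε h6
  · apply hpq
    have h7 : q - p = 0 := by rw [h1, h6]; simp
    exact (sub_eq_zero.1 h7).symm

theorem lq_zero_mem {p q : ℂ} {t : ℝ} (h0 : 0 < t) (h1 : t < 1) : lq p q t 0 ∈ openSegment ℝ p q := by
  rw [openSegment_eq_image']
  refine ⟨t, ⟨h0, h1⟩, ?_⟩
  unfold lq
  simp [Complex.real_smul]

/-- data of an edge, from a dart -/
theorem Drt.disj (h : GP R) (d : Drt R) : Disjoint (openSegment ℝ d.og d.hd) (Vx R) :=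
  h.sc_disj d.mem d.dr d.og_mem d.og_ne

theorem Drt.og_car (h : GP R) (d : Drt R) : d.og ∈ car d.sg := (h.mem_VF.1 d.og_mem).2

theorem Drt.hd_car (h : GP R) (d : Drt R) : d.hd ∈ car d.sg := (h.mem_VF.1 (d.hd_mem h)).2

theorem Drt.og_ne_hd (h : GP R) (d : Drt R) : d.og ≠ d.hd := by
  have h2 := (h.sc_spec d.mem d.dr d.og_mem d.og_ne).2.1
  intro hh
  unfold Drt.hd at hh
  rw [← hh] at h2
  exact lt_irrefl _ h2

theorem exists_dart (h : GP R) {z : ℂ} (hz : z ∈ un R) (hv : z ∉ Vx R) :
    ∃ d : Drt R, z ∈ openSegment ℝ d.og d.hd := by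
  classical
  unfold un at hz
  simp only [Set.mem_iUnion, exists_prop] at hz
  obtain ⟨s, hs, hzs⟩ := hz
  have hne := h.ne s hs
  have hen : ∀ b, z ≠ en s b := by
    intro b hb
    rw [hb] at hv
    exact hv (h.mem_VF.1 (h.en_mem_VF hs b)).1
  have h1 : tau s true (en s false) < tau s true z := by
    have := tau_lt_en hne false hzs (hen false)
    have e1 : ∀ w, tau s false w = - tau s true w := fun w => tau_not s true w
    rw [e1, e1] at this
    linarith
  have hF : ((VF R s).filter (fun v => tau s true v < tau s true z)).Nonempty :=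
    ⟨en s false, Finset.mem_filter.2 ⟨h.en_mem_VF hs false, h1⟩⟩
  obtain ⟨q, hq, hmax⟩ := Finset.exists_max_image _ (tau s true) hF
  rw [Finset.mem_filter] at hq
  have hq2 : q ≠ en s true := by
    intro hh
    have := tau_le_en hne true hzs
    rw [← hh] at this
    linarith [hq.2]
  obtain ⟨s1, s2, s3⟩ := h.sc_spec hs true hq.1 hq2
  refine ⟨⟨(s, true, q), hs, hq.1, hq2⟩, ?_⟩
  change z ∈ openSegment ℝ q (sc R s true q)
  rw [mem_openSegment_iff hne true (h.mem_VF.1 hq.1).2 (h.mem_VF.1 s1).2 hzs s2]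
  refine ⟨hq.2, ?_⟩
  rcases lt_trichotomy (tau s true z) (tau s true (sc R s true q)) with h4 | h4 | h4
  · exact h4
  · exfalso
    have := tau_inj hne true hzs (h.mem_VF.1 s1).2 h4
    rw [this] at hv
    exact hv (h.mem_VF.1 s1).1
  · exfalso
    have := hmax _ (Finset.mem_filter.2 ⟨s1, h4⟩)
    linarith

theorem edge_uniq (h : GP R) {z : ℂ} {d e : Drt R} (hd : z ∈ openSegment ℝ d.og d.hd)
    (he : z ∈ openSegment ℝ e.og e.hd) : e = d ∨ e = d.rv h := by
  -- the case of equal directions
  have same : ∀ d e : Drt R, z ∈ openSegment ℝ d.og d.hd → z ∈ openSegment ℝ e.og e.hd →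
      d.dr = e.dr → e = d := by
    intro d e hd he hde
    have hzd := openSegment_sub (d.og_car h) (d.hd_car h) hd
    have hze := openSegment_sub (e.og_car h) (e.hd_car h) he
    have hv : z ∉ Vx R := Set.disjoint_left.1 (d.disj h) hd
    have hsg : d.sg = e.sg := by
      by_contra hne
      exact hv (Or.inr ⟨d.sg, d.mem, e.sg, e.mem, hne, hzd, hze⟩)
    have hne := h.ne d.sg d.mem
    obtain ⟨s1, s2, s3⟩ := h.sc_spec d.mem d.dr d.og_mem d.og_ne
    obtain ⟨t1, t2, t3⟩ := h.sc_spec e.mem e.dr e.og_mem e.og_ne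
    have k1 := (mem_openSegment_iff hne d.dr (d.og_car h) (h.mem_VF.1 s1).2 hzd s2).1 hd
    have k2 := (mem_openSegment_iff (h.ne e.sg e.mem) e.dr (e.og_car h) (h.mem_VF.1 t1).2 hze
      t2).1 he
    have hog : e.og ∈ VF R d.sg := by rw [hsg]; exact e.og_mem
    have hog' : d.og ∈ VF R e.sg := by rw [← hsg]; exact d.og_mem
    have heq : tau d.sg d.dr d.og = tau d.sg d.dr e.og := by
      rcases lt_trichotomy (tau d.sg d.dr d.og) (tau d.sg d.dr e.og) with h4 | h4 | h4
      · exfalso
        have h5 := s3 _ hog h4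
        rw [hsg, hde] at h5 k1
        linarith [k1.2, k2.1]
      · exact h4
      · exfalso
        rw [hsg, hde] at h4 k1
        have h5 := t3 _ hog' h4
        linarith [k1.1, k2.2]
    exact (Drt.ext' hsg hde (tau_inj hne d.dr (d.og_car h) (h.mem_VF.1 hog).2 heq)).symm
  by_cases hde : d.dr = e.dr
  · exact Or.inl (same d e hd he hde)
  · right
    have h1 : (e.rv h).hd = e.og := by
      change sc R e.sg (!e.dr) (sc R e.sg e.dr e.og) = e.og
      exact h.sc_sc e.mem e.dr e.og_mem e.og_ne
    have h2 : z ∈ openSegment ℝ (e.rv h).og (e.rv h).hd := by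
      rw [h1, openSegment_symm]
      exact he
    have h3 : d.dr = (e.rv h).dr := by
      change d.dr = !e.dr
      revert hde
      cases d.dr <;> cases e.dr <;> simp
    have h4 := same d (e.rv h) hd h2 h3
    rw [← h4]
    refine Drt.ext' rfl ?_ ?_
    · change e.dr = !!e.dr
      rw [Bool.not_not]
    · change e.og = (e.rv h).hd
      exact h1.symm

end P7b
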