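import Mathlib

/-! MP_7b5a71: abstract planar segment maps.

Intended model: the arrangement of a finite set of segments in general position (no endpoint on
another segment, two segments share at most one point, no three through one point).
`D` = darts = directed edges of the arrangement; `S` = segments; `R` = faces; `V` = vertices.
`rev d` = the reversed dart, `org d` = its starting vertex, `lft d` = the face on its left,
`seg d`, `dir d` = the segment containing it and its direction on it, `pos d` = its index among the
darts of the same segment and direction (increasing in that direction), `nxt d` = the next dart on the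
boundary of the face on the left (at an endpoint turn back, at a crossing turn left into the other
segment).  `tip d`: the head of `d` is an endpoint of the segment.  `str d = nxt (rev (nxt d))` = the
dart following `d` straight on, if the head of `d` is a crossing. -/

namespace P7b

/-- walks in the graph -/
inductive IsWalk {D V : Type} (org : D → V) (rev : D → D) : V → List D → V → Prop
  | nil (v : V) : IsWalk org rev v [] v
  | cons (d : D) (l : List D) (w : V) :
      IsWalk org rev (org (rev d)) l w → IsWalk org rev (org d) (d :: l) w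

/-- the indicator of a proposition mod 2 -/
noncomputable def ind (p : Prop) : ZMod 2 := @ite _ p (Classical.propDecidable p) 1 0

theorem ind_true {p : Prop} (h : p) : ind p = 1 := by simp [ind, h]

theorem ind_false {p : Prop} (h : ¬ p) : ind p = 0 := by simp [ind, h]

theorem ind_congr {p q : Prop} (h : p ↔ q) : ind p = ind q := by rw [propext h]

/-- the data of a segment map -/
structure PreMap where
  D : Type
  S : Type
  R : Type
  V : Type
  fD : Fintype D
  dD : DecidableEq D
  fS : Fintype S
  dS : DecidableEq S
  rev : D → D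
  nxt : Equiv.Perm D
  seg : D → S
  dir : D → Bool
  pos : D → ℕ
  lft : D → R
  org : D → V
  tipV : V → Prop

attribute [instance] PreMap.fD PreMap.dD PreMap.fS PreMap.dS

namespace PreMap

variable (M : PreMap)

/-- the head of `d` is an endpoint -/
def tip (d : M.D) : Prop := M.tipV (M.org (M.rev d))

/-- straight on -/
def str (d : M.D) : M.D := M.nxt (M.rev (M.nxt d))

/-- The axioms. -/
structure Ax : Prop where
  rev_rev : ∀ d, M.rev (M.rev d) = d
  seg_rev : ∀ d, M.seg (M.rev d) = M.seg d
  dir_rev : ∀ d, M.dir (M.rev d) = !M.dir d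
  org_nxt : ∀ d, M.org (M.nxt d) = M.org (M.rev d)
  nxt_tip : ∀ d, M.tip d → M.nxt d = M.rev d
  nxt_seg : ∀ d, ¬ M.tip d → M.seg (M.nxt d) ≠ M.seg d
  str_seg : ∀ d, ¬ M.tip d → M.seg (M.str d) = M.seg d
  str_dir : ∀ d, ¬ M.tip d → M.dir (M.str d) = M.dir d
  str_pos : ∀ d, ¬ M.tip d → M.pos (M.str d) = M.pos d + 1
  str_rev : ∀ d, ¬ M.tip d → M.str (M.rev (M.str d)) = M.rev d
  pos_inj : ∀ d e, M.seg d = M.seg e → M.dir d = M.dir e → M.pos d = M.pos e → d = e
  tip_last : ∀ d e, M.tip d → M.seg e = M.seg d → M.dir e = M.dir d → M.pos e ≤ M.pos d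
  cross_uniq : ∀ d e, ¬ M.tip d → ¬ M.tip e → M.seg d = M.seg e → M.dir d = M.dir e →
    M.seg (M.nxt d) = M.seg (M.nxt e) → d = e
  lft_nxt : ∀ d, M.lft (M.nxt d) = M.lft d
  /-- every closed walk is the boundary mod 2 of a set of faces -/
  planar : ∀ (v : M.V) (l : List M.D), IsWalk M.org M.rev v l v →
    ∃ c : M.R → ZMod 2, ∀ d, c (M.lft d) + c (M.lft (M.rev d)) = l.count d + l.count (M.rev d)
  /-- any two faces are connected by crossing edges -/
  dual : ∀ Z : Set M.R, (∀ d, M.lft d ∈ Z ↔ M.lft (M.rev d) ∈ Z) →
    ∀ d e, M.lft d ∈ Z → M.lft e ∈ Z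

/-- the segments crossing the segment `s` -/
noncomputable def cr (s : M.S) : Finset M.S := by
  classical
  exact (Finset.univ : Finset M.S).filter
    (fun g : M.S => ∃ d : M.D, M.seg d = s ∧ ¬ M.tip d ∧ M.seg (M.nxt d) = g)

/-- the darts with the face `f` on the left -/
noncomputable def fd (f : M.R) : Finset M.D := by
  classical
  exact (Finset.univ : Finset M.D).filter (fun d : M.D => M.lft d = f)

/-- the length of the boundary component of `d` -/
noncomputable def per (d : M.D) : ℕ := Function.minimalPeriod M.nxt d

/-- the open arc of the boundary component from `u` to `nxt^m u` -/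
noncomputable def arc (u : M.D) (m : ℕ) : Finset M.D :=
  (Finset.Ioo 0 m).image (fun i => (M.nxt^[i]) u)

/-- `d` is on the side of `u`, strictly between `u` and `v` -/
def Btw (u v d : M.D) : Prop :=
  M.seg d = M.seg u ∧ M.dir d = M.dir u ∧ M.pos u < M.pos d ∧ M.pos d < M.pos v

/-- `c` is the colouring of the faces with boundary: the arc from `u` to `v = nxt^m u`, closed along the
segment of `u` and `v`; the face of `u` has colour `0`. -/
structure Col (u : M.D) (m : ℕ) (c : M.R → ZMod 2) : Prop where
  m_pos : 0 < m
  m_lt : m < M.per u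
  seg_eq : M.seg ((M.nxt^[m]) u) = M.seg u
  dir_eq : M.dir ((M.nxt^[m]) u) = M.dir u
  pos_lt : M.pos u < M.pos ((M.nxt^[m]) u)
  c0 : c (M.lft u) = 0
  cc : ∀ d, c (M.lft d) + c (M.lft (M.rev d)) =
    ind (d ∈ M.arc u m) + ind (M.rev d ∈ M.arc u m)
    + ind (M.Btw u ((M.nxt^[m]) u) d ∨ M.Btw u ((M.nxt^[m]) u) (M.rev d))

/-- the pocket: the darts with a face of colour 1 on the left, and the darts of the arc -/
def In (u : M.D) (m : ℕ) (c : M.R → ZMod 2) (d : M.D) : Prop :=
  c (M.lft d) + ind (d ∈ M.arc u m) = 1

end PreMap

end P7b
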