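import Pool.Agent.Lib.P7b.GVert
import Pool.Agent.Lib.P7b.Map

/-! MP_7b5a71: the segment map of an arrangement of segments in general position. -/

namespace P7b

open Complex

/-- darts: a segment, a direction on it, and a vertex of the segment that is not its end in this direction -/
def Drt (R : Finset Sg) : Type :=
  {d : Sg × Bool × ℂ // d.1 ∈ R ∧ d.2.2 ∈ VF R d.1 ∧ d.2.2 ≠ en d.1 d.2.1}

namespace Drt

variable {R : Finset Sg}

/-- the segment -/
def sg (d : Drt R) : Sg := d.1.1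

/-- the direction -/
def dr (d : Drt R) : Bool := d.1.2.1

/-- the origin -/
def og (d : Drt R) : ℂ := d.1.2.2

/-- the head: the next vertex -/
noncomputable def hd (d : Drt R) : ℂ := sc R d.sg d.dr d.og

theorem mem (d : Drt R) : d.sg ∈ R := d.2.1

theorem og_mem (d : Drt R) : d.og ∈ VF R d.sg := d.2.2.1

theorem og_ne (d : Drt R) : d.og ≠ en d.sg d.dr := d.2.2.2

theorem hd_mem (h : GP R) (d : Drt R) : d.hd ∈ VF R d.sg := (h.sc_spec d.mem d.dr d.og_mem d.og_ne).1

theorem hd_ne (h : GP R) (d : Drt R) : d.hd ≠ en d.sg (!d.dr) := h.sc_ne d.mem d.dr d.og_mem d.og_ne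

theorem ext' {d e : Drt R} (h1 : d.sg = e.sg) (h2 : d.dr = e.dr) (h3 : d.og = e.og) : d = e :=
  Subtype.ext (Prod.ext h1 (Prod.ext h2 h3))

instance : Finite (Drt R) := by
  have hf : ({d : Sg × Bool × ℂ | d.1 ∈ R ∧ d.2.2 ∈ VF R d.1 ∧ d.2.2 ≠ en d.1 d.2.1}).Finite := by
    classical
    refine Set.Finite.subset
      ((R ×ˢ ((Finset.univ : Finset Bool) ×ˢ (R.biUnion (VF R)))).finite_toSet) ?_
    rintro ⟨s, b, z⟩ ⟨h1, h2, _⟩
    rw [Finset.mem_coe, Finset.mem_product, Finset.mem_product, Finset.mem_biUnion]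
    exact ⟨h1, Finset.mem_univ _, s, h1, h2⟩
  exact hf.to_subtype

/-- the reversed dart -/
noncomputable def rv (h : GP R) (d : Drt R) : Drt R := ⟨(d.sg, !d.dr, d.hd), d.mem, d.hd_mem h, d.hd_ne h⟩

theorem GMapAux.ne_en {s : Sg} {q : ℂ} (h1 : q ≠ s.1) (h2 : q ≠ s.2) (b : Bool) : q ≠ en s b := by
  cases b
  · simpa [en] using h1
  · simpa [en] using h2

theorem GMapAux.ne_ends (h : GP R) (d : Drt R) (ht : d.hd ≠ en d.sg d.dr) :
    d.hd ≠ d.sg.1 ∧ d.hd ≠ d.sg.2 := by
  have h1 := d.hd_ne h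
  cases hb : d.dr
  · rw [hb] at ht h1
    simp only [en, Bool.not_false, if_true, Bool.false_eq_true, if_false] at ht h1
    exact ⟨ht, h1⟩
  · rw [hb] at ht h1
    simp only [en, Bool.not_true, if_true, Bool.false_eq_true, if_false] at ht h1
    exact ⟨h1, ht⟩

theorem GMapAux.og_eq (h : GP R) (d : Drt R) : sc R d.sg (!d.dr) d.hd = d.og :=
  h.sc_sc d.mem d.dr d.og_mem d.og_ne

/-- if the head is not an endpoint then it is a crossing with the segment `oth` -/
theorem nf_aux (h : GP R) (d : Drt R) (ht : d.hd ≠ en d.sg d.dr) :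
    oth R d.sg d.hd ∈ R ∧ d.hd ∈ VF R (oth R d.sg d.hd) ∧
      d.hd ≠ en (oth R d.sg d.hd) (turn d.sg d.dr (oth R d.sg d.hd)) := by
  obtain ⟨h1, h2⟩ := GMapAux.ne_ends h d ht
  obtain ⟨h3, h4, h5⟩ := h.oth_spec d.mem (d.hd_mem h) h1 h2
  refine ⟨h3, h5, ?_⟩
  obtain ⟨h6, h7⟩ := h.not_end d.mem h3 h4 (h.mem_VF.1 (d.hd_mem h)).2 (h.mem_VF.1 h5).2 h3
  exact GMapAux.ne_en h6 h7 _

open Classical in
/-- the next dart on the boundary of the face on the left: turn back at an endpoint, turn left at a crossing -/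
noncomputable def nf (h : GP R) (d : Drt R) : Drt R :=
  if ht : d.hd = en d.sg d.dr then d.rv h
  else ⟨(oth R d.sg d.hd, turn d.sg d.dr (oth R d.sg d.hd), d.hd), nf_aux h d ht⟩

theorem GMapAux.nf_pos (h : GP R) (d : Drt R) (ht : d.hd = en d.sg d.dr) : nf h d = d.rv h :=
  dif_pos ht

theorem GMapAux.nf_neg (h : GP R) (d : Drt R) (ht : ¬ d.hd = en d.sg d.dr) :
    nf h d = ⟨(oth R d.sg d.hd, turn d.sg d.dr (oth R d.sg d.hd), d.hd), nf_aux h d ht⟩ :=
  dif_neg ht

/-- `nf` is injective: the dart `d` is determined by `nf d`. If `nf d` starts at an endpoint of its segment then `d = rv (nf d)`; otherwise `sg d` is the other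
segment at the vertex, its direction is determined by `turn_turn`, and `og d = sc R (sg d) (!dr d) (hd d)` (`sc_sc`). -/
theorem nf_inj (h : GP R) : Function.Injective (nf h) := by
  have key : ∀ d e : Drt R, d.hd = en d.sg d.dr → ¬ e.hd = en e.sg e.dr → nf h d ≠ nf h e := by
    intro d e hd he hde
    rw [GMapAux.nf_pos h d hd, GMapAux.nf_neg h e he] at hde
    have h3 : d.hd = e.hd := congrArg og hde
    obtain ⟨h1, h2⟩ := GMapAux.ne_ends h e he
    obtain ⟨h4, h5, h6⟩ := h.oth_spec e.mem (e.hd_mem h) h1 h2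
    obtain ⟨h7, h8⟩ := h.not_end e.mem h4 h5 (h.mem_VF.1 (e.hd_mem h)).2 (h.mem_VF.1 h6).2 d.mem
    exact GMapAux.ne_en h7 h8 d.dr (h3 ▸ hd)
  intro d e hde
  by_cases hd : d.hd = en d.sg d.dr
  · by_cases he : e.hd = en e.sg e.dr
    · have hde' := hde
      rw [GMapAux.nf_pos h d hd, GMapAux.nf_pos h e he] at hde'
      have h0 : (d.rv h).sg = (e.rv h).sg := congrArg sg hde'
      have h1 : d.sg = e.sg := h0
      have h2 : (!d.dr) = (!e.dr) := congrArg dr hde'
      have h2' : d.dr = e.dr := by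
        revert h2
        cases d.dr <;> cases e.dr <;> simp
      have h3 : d.hd = e.hd := congrArg og hde'
      refine ext' h1 h2' ?_
      rw [← GMapAux.og_eq h d, ← GMapAux.og_eq h e, h1, h2', h3]
    · exact absurd hde (key d e hd he)
  · by_cases he : e.hd = en e.sg e.dr
    · exact absurd hde.symm (key e d he hd)
    · have hde' := hde
      rw [GMapAux.nf_neg h d hd, GMapAux.nf_neg h e he] at hde'
      have h1 : oth R d.sg d.hd = oth R e.sg e.hd := congrArg sg hde'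
      have h2 : turn d.sg d.dr (oth R d.sg d.hd) = turn e.sg e.dr (oth R e.sg e.hd) :=
        congrArg dr hde'
      have h3 : d.hd = e.hd := congrArg og hde'
      obtain ⟨a1, a2⟩ := GMapAux.ne_ends h d hd
      obtain ⟨a3, a4, a5⟩ := h.oth_spec d.mem (d.hd_mem h) a1 a2
      obtain ⟨b1, b2⟩ := GMapAux.ne_ends h e he
      obtain ⟨b3, b4, b5⟩ := h.oth_spec e.mem (e.hd_mem h) b1 b2
      have c1 := (h.mem_VF.1 (d.hd_mem h)).2
      have c2 := (h.mem_VF.1 (e.hd_mem h)).2
      have c3 := (h.mem_VF.1 a5).2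
      have hs : d.sg = e.sg := by
        by_contra hne
        have h4 := h.trip d.sg d.mem (oth R d.sg d.hd) a3 e.sg e.mem (Ne.symm a4)
          (by rw [h1]; exact b4) hne
        have h5 : d.hd ∈ car d.sg ∩ car (oth R d.sg d.hd) ∩ car e.sg :=
          ⟨⟨c1, c3⟩, by rw [h3]; exact c2⟩
        rw [h4] at h5
        exact h5
      have t1 := h.turn_turn d.mem a3 a4 c1 c3 d.dr
      have t2 := h.turn_turn e.mem b3 b4 c2 (h.mem_VF.1 b5).2 e.dr
      rw [← h2, ← h1, ← hs, t1] at t2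
      refine ext' hs t2 ?_
      rw [← GMapAux.og_eq h d, ← GMapAux.og_eq h e, hs, t2, h3]

end Drt

/-- the point `a + t (b - a)` moved to the left of `b - a` by `ε |b - a|` -/
noncomputable def lq (a b : ℂ) (t ε : ℝ) : ℂ := a + (t : ℂ) * (b - a) + (ε : ℂ) * (I * (b - a))

/-- the face on the left of the edge from `a` to `b` -/
def lreg (R : Finset Sg) (a b : ℂ) : Set ℂ :=
  {z | ∃ ε₀ : ℝ, 0 < ε₀ ∧ ∀ ε : ℝ, 0 < ε → ε < ε₀ → z ∈ connectedComponentIn (un R)ᶜ (lq a b (1 / 2) ε)}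

/-- the segment map of `R` -/
noncomputable def gm {R : Finset Sg} (h : GP R) : PreMap where
  D := Drt R
  S := {s : Sg // s ∈ R}
  R := Set ℂ
  V := ℂ
  fD := Fintype.ofFinite _
  dD := Classical.decEq _
  fS := Fintype.ofFinite _
  dS := Classical.decEq _
  rev := Drt.rv h
  nxt := Equiv.ofBijective (Drt.nf h) (Finite.injective_iff_bijective.1 (Drt.nf_inj h))
  seg := fun d => ⟨d.sg, d.mem⟩
  dir := fun d => d.dr
  pos := fun d => ((VF R d.sg).filter (fun v => tau d.sg d.dr v ≤ tau d.sg d.dr d.og)).card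
  lft := fun d => lreg R d.og d.hd
  org := fun d => d.og
  tipV := fun q => ∃ s ∈ R, q = s.1 ∨ q = s.2

end P7b
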