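import Pool.Agent.Lib.P7b.GMap

/-! MP_7b5a71: the combinatorial axioms for the segment map of an arrangement, part A.

`(rv d).og = d.hd`, `(rv d).hd = d.og` (`sc_sc`).  `tip d` means: `d.hd` is an endpoint of some segment of `R`; by `tip1`, `tip2` it is then an endpoint of
`d.sg`, and `d.hd ≠ en d.sg (!d.dr)`, so `tip d ↔ d.hd = en d.sg d.dr`. -/

namespace P7b

variable {R : Finset Sg}

theorem hd_rv (h : GP R) (d : Drt R) : (d.rv h).hd = d.og := by
  exact h.sc_sc d.mem d.dr d.og_mem d.og_ne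

theorem gm_tip_iff (h : GP R) (d : Drt R) : (gm h).tip d ↔ d.hd = en d.sg d.dr := by
  have hc : d.hd ∈ car d.sg := (h.mem_VF.1 (d.hd_mem h)).2
  have hn := d.hd_ne h
  constructor
  · intro ht
    obtain ⟨s, hs, hse⟩ : ∃ s ∈ R, d.hd = s.1 ∨ d.hd = s.2 := ht
    have hss : s = d.sg := by
      by_contra hne
      rcases hse with h1 | h1
      · exact h.tip1 s hs d.sg d.mem hne (h1 ▸ hc)
      · exact h.tip2 s hs d.sg d.mem hne (h1 ▸ hc)
    rw [hss] at hse
    cases hb : d.dr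
    · rw [hb] at hn
      simp only [en, Bool.not_false, if_true, Bool.false_eq_true, if_false] at hn ⊢
      rcases hse with h1 | h1
      · exact h1
      · exact absurd h1 hn
    · rw [hb] at hn
      simp only [en, Bool.not_true, if_true, Bool.false_eq_true, if_false] at hn ⊢
      rcases hse with h1 | h1
      · exact absurd h1 hn
      · exact h1
  · intro ht
    show ∃ s ∈ R, d.hd = s.1 ∨ d.hd = s.2
    refine ⟨d.sg, d.mem, ?_⟩
    rw [ht]
    cases d.dr
    · left
      simp [en]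
    · right
      simp [en]

theorem gm_nxt (h : GP R) (d : Drt R) : (gm h).nxt d = Drt.nf h d := rfl

theorem nf_tip (h : GP R) (d : Drt R) (ht : d.hd = en d.sg d.dr) : Drt.nf h d = d.rv h := by
  rw [Drt.nf, dif_pos ht]

theorem nf_sg (h : GP R) (d : Drt R) (ht : d.hd ≠ en d.sg d.dr) :
    (Drt.nf h d).sg = oth R d.sg d.hd := by
  rw [Drt.nf, dif_neg ht]; rfl

theorem nf_dr (h : GP R) (d : Drt R) (ht : d.hd ≠ en d.sg d.dr) :
    (Drt.nf h d).dr = turn d.sg d.dr (oth R d.sg d.hd) := by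
  rw [Drt.nf, dif_neg ht]; rfl

theorem nf_og (h : GP R) (d : Drt R) : (Drt.nf h d).og = d.hd := by
  by_cases ht : d.hd = en d.sg d.dr
  · rw [Drt.GMapAux.nf_pos h d ht]
    rfl
  · rw [Drt.GMapAux.nf_neg h d ht]
    rfl

theorem gm_rev_rev (h : GP R) (d : (gm h).D) : (gm h).rev ((gm h).rev d) = d := by
  apply Drt.ext'
  · rfl
  · exact Bool.not_not _
  · exact hd_rv h d

theorem gm_seg_rev (h : GP R) (d : (gm h).D) : (gm h).seg ((gm h).rev d) = (gm h).seg d := by
  rfl

theorem gm_dir_rev (h : GP R) (d : (gm h).D) : (gm h).dir ((gm h).rev d) = !(gm h).dir d := by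
  rfl

theorem gm_org_nxt (h : GP R) (d : (gm h).D) : (gm h).org ((gm h).nxt d) = (gm h).org ((gm h).rev d) := by
  exact nf_og h d

theorem gm_nxt_tip (h : GP R) (d : (gm h).D) (ht : (gm h).tip d) : (gm h).nxt d = (gm h).rev d := by
  exact nf_tip h d ((gm_tip_iff h d).1 ht)

theorem gm_nxt_seg (h : GP R) (d : (gm h).D) (ht : ¬ (gm h).tip d) :
    (gm h).seg ((gm h).nxt d) ≠ (gm h).seg d := by
  intro hc
  have ht' : Drt.hd d ≠ en (Drt.sg d) (Drt.dr d) := fun h0 => ht ((gm_tip_iff h d).2 h0)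
  obtain ⟨h1, h2⟩ := Drt.GMapAux.ne_ends h d ht'
  obtain ⟨h3, h4, h5⟩ := h.oth_spec (Drt.mem d) (Drt.hd_mem h d) h1 h2
  have h6 : (Drt.nf h d).sg = Drt.sg d := congrArg Subtype.val hc
  rw [nf_sg h d ht'] at h6
  exact h4 h6

end P7b
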