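import Pool.Agent.Lib.P7b.GMapA

/-! MP_7b5a71: the combinatorial axioms for the segment map of an arrangement, part B (straight on).

`gm_str`: for `d` not a tip, `q = d.hd`, `g = oth R d.sg q`, `b' = turn d.sg d.dr g`: `nxt d = (g, b', q)`, `rev (nxt d) = (g, !b', q')` with head `q` (`hd_rv`), which is not an
endpoint (`not_end`), `oth R g q = d.sg` (`oth_uniq`), `turn g (!b') d.sg = d.dr` (`turn_turn`); so `str d = (d.sg, d.dr, q)`.
`str_pos`: `{v | tau v ≤ tau q} = {v | tau v ≤ tau d.og} ∪ {q}` (`sc_spec`, `tau_inj`).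
`pos_inj`: if `tau d.og < tau e.og` then the set of `d` is strictly contained in that of `e`; so equal cardinality gives `tau d.og = tau e.og` and `tau_inj`.
`tip_last`: `e.og ≠ en`, so `tau e.og < tau (en) = tau d.hd`, hence `tau e.og ≤ tau d.og` by `sc_spec` for `d` (else `tau d.hd ≤ tau e.og`).
`cross_uniq`: `oth R s d.hd = oth R s e.hd = g ≠ s`, both heads are in `car s ∩ car g`, equal by `GP.sub`; so the origins agree (`hd_rv`, `ext'`: `rv d = rv e`). -/

namespace P7b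

variable {R : Finset Sg}

/-- the head of a dart that is not a tip -/
private theorem hd_facts (h : GP R) (d : Drt R) (ht : d.hd ≠ en d.sg d.dr) :
    d.hd ≠ d.sg.1 ∧ d.hd ≠ d.sg.2 := by
  have h1 := d.hd_ne h
  cases hb : d.dr
  · rw [hb] at ht h1
    exact ⟨ht, h1⟩
  · rw [hb] at ht h1
    exact ⟨h1, ht⟩

private theorem oth_facts (h : GP R) (d : Drt R) (ht : d.hd ≠ en d.sg d.dr) :
    oth R d.sg d.hd ∈ R ∧ oth R d.sg d.hd ≠ d.sg ∧ d.hd ∈ car d.sg ∧ d.hd ∈ car (oth R d.sg d.hd) := by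
  obtain ⟨h1, h2⟩ := hd_facts h d ht
  obtain ⟨h3, h4, h5⟩ := h.oth_spec d.mem (d.hd_mem h) h1 h2
  exact ⟨h3, h4, (h.mem_VF.mp (d.hd_mem h)).2, (h.mem_VF.mp h5).2⟩

private theorem hd_not_end (h : GP R) (d : Drt R) (ht : d.hd ≠ en d.sg d.dr) {t : Sg} (htR : t ∈ R)
    (b : Bool) : d.hd ≠ en t b := by
  obtain ⟨h1, h2, h3, h4⟩ := oth_facts h d ht
  obtain ⟨h5, h6⟩ := h.not_end d.mem h1 h2 h3 h4 htR
  cases b
  · exact h5
  · exact h6

private theorem str_eq (h : GP R) (d : Drt R) :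
    ((gm h).str d : Drt R) = Drt.nf h (Drt.rv h (Drt.nf h d)) := rfl

theorem gm_str (h : GP R) (d : Drt R) (ht : ¬ (gm h).tip d) :
    ((gm h).str d : Drt R).1 = (d.sg, d.dr, d.hd) := by
  rw [gm_tip_iff] at ht
  obtain ⟨h1, h2, h3, h4⟩ := oth_facts h d ht
  rw [str_eq]
  obtain ⟨e, he⟩ : ∃ e, e = Drt.nf h d := ⟨_, rfl⟩
  have hesg : e.sg = oth R d.sg d.hd := by rw [he]; exact nf_sg h d ht
  have hedr : e.dr = turn d.sg d.dr (oth R d.sg d.hd) := by rw [he]; exact nf_dr h d ht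
  have heog : e.og = d.hd := by rw [he]; exact nf_og h d
  rw [← he]
  obtain ⟨f, hf⟩ : ∃ f, f = Drt.rv h e := ⟨_, rfl⟩
  have hfhd : f.hd = d.hd := by rw [hf, hd_rv h e, heog]
  have hfsg : f.sg = oth R d.sg d.hd := by rw [hf]; exact hesg
  have hfdr : f.dr = !turn d.sg d.dr (oth R d.sg d.hd) := by
    rw [hf, ← hedr]; rfl
  have hft : f.hd ≠ en f.sg f.dr := by
    rw [hfhd]
    exact hd_not_end h d ht f.mem _
  rw [← hf]
  have ho : oth R (oth R d.sg d.hd) d.hd = d.sg := h.oth_uniq h1 d.mem (Ne.symm h2) h4 h3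
  have e1 : (Drt.nf h f).sg = d.sg := by rw [nf_sg h f hft, hfsg, hfhd, ho]
  have e2 : (Drt.nf h f).dr = d.dr := by
    rw [nf_dr h f hft, hfsg, hfhd, ho, hfdr]
    exact h.turn_turn d.mem h1 h2 h3 h4 d.dr
  have e3 : (Drt.nf h f).og = d.hd := by rw [nf_og h f, hfhd]
  exact Prod.ext e1 (Prod.ext e2 e3)

private theorem str_sg (h : GP R) (d : Drt R) (ht : ¬ (gm h).tip d) :
    ((gm h).str d : Drt R).sg = d.sg := by
  show ((gm h).str d : Drt R).1.1 = d.sg
  rw [gm_str h d ht]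

private theorem str_dr (h : GP R) (d : Drt R) (ht : ¬ (gm h).tip d) :
    ((gm h).str d : Drt R).dr = d.dr := by
  show ((gm h).str d : Drt R).1.2.1 = d.dr
  rw [gm_str h d ht]

private theorem str_og (h : GP R) (d : Drt R) (ht : ¬ (gm h).tip d) :
    ((gm h).str d : Drt R).og = d.hd := by
  show ((gm h).str d : Drt R).1.2.2 = d.hd
  rw [gm_str h d ht]

theorem gm_str_seg (h : GP R) (d : (gm h).D) (ht : ¬ (gm h).tip d) :
    (gm h).seg ((gm h).str d) = (gm h).seg d :=
  Subtype.ext (str_sg h d ht)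

theorem gm_str_dir (h : GP R) (d : (gm h).D) (ht : ¬ (gm h).tip d) :
    (gm h).dir ((gm h).str d) = (gm h).dir d :=
  str_dr h d ht

private theorem pos_def (h : GP R) (d : Drt R) : (gm h).pos d =
    ((VF R d.sg).filter (fun v => tau d.sg d.dr v ≤ tau d.sg d.dr d.og)).card := rfl

private theorem og_lt_hd (h : GP R) (d : Drt R) : tau d.sg d.dr d.og < tau d.sg d.dr d.hd :=
  (h.sc_spec d.mem d.dr d.og_mem d.og_ne).2.1

private theorem hd_min (h : GP R) (d : Drt R) {v : ℂ} (hv : v ∈ VF R d.sg)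
    (hlt : tau d.sg d.dr d.og < tau d.sg d.dr v) : tau d.sg d.dr d.hd ≤ tau d.sg d.dr v :=
  (h.sc_spec d.mem d.dr d.og_mem d.og_ne).2.2 v hv hlt

private theorem gm_str_pos' (h : GP R) (d : Drt R) (ht : ¬ (gm h).tip d) :
    (gm h).pos ((gm h).str d) = (gm h).pos d + 1 := by
  have h1 : (gm h).pos ((gm h).str d) =
      ((VF R d.sg).filter
        (fun v => tau d.sg d.dr v ≤ tau d.sg d.dr d.hd)).card := by
    have h0 := pos_def h ((gm h).str d)
    rw [str_sg h d ht, str_dr h d ht, str_og h d ht] at h0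
    exact h0
  rw [h1, pos_def h]
  have hne := h.ne _ d.mem
  have h2 : (VF R d.sg).filter
        (fun v => tau d.sg d.dr v ≤ tau d.sg d.dr d.hd) =
      insert d.hd ((VF R d.sg).filter
        (fun v => tau d.sg d.dr v ≤ tau d.sg d.dr d.og)) := by
    ext v
    simp only [Finset.mem_filter, Finset.mem_insert]
    constructor
    · rintro ⟨hv, hle⟩
      by_cases hlt : tau d.sg d.dr d.og < tau d.sg d.dr v
      · left
        exact tau_inj hne d.dr (h.mem_VF.mp hv).2 (h.mem_VF.mp (d.hd_mem h)).2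
          (le_antisymm hle (hd_min h d hv hlt))
      · right
        exact ⟨hv, not_lt.mp hlt⟩
    · rintro (rfl | ⟨hv, hle⟩)
      · exact ⟨d.hd_mem h, le_rfl⟩
      · exact ⟨hv, hle.trans (og_lt_hd h d).le⟩
  rw [h2, Finset.card_insert_of_notMem]
  intro hmem
  rw [Finset.mem_filter] at hmem
  exact absurd hmem.2 (not_le.mpr (og_lt_hd h d))

private theorem gm_str_rev' (h : GP R) (d : Drt R) (ht : ¬ (gm h).tip d) :
    (gm h).str ((gm h).rev ((gm h).str d)) = (gm h).rev d := by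
  have ht' := ht
  rw [gm_tip_iff] at ht'
  obtain ⟨e, he⟩ : ∃ e : Drt R, e = (gm h).str d := ⟨_, rfl⟩
  have hesg : e.sg = d.sg := by rw [he]; exact str_sg h d ht
  have hedr : e.dr = d.dr := by rw [he]; exact str_dr h d ht
  have heog : e.og = d.hd := by rw [he]; exact str_og h d ht
  have hrhd : (Drt.rv h e).hd = d.hd := by rw [hd_rv h e, heog]
  have hrt : ¬ (gm h).tip (Drt.rv h e) := by
    rw [gm_tip_iff, hrhd]
    exact hd_not_end h d ht' (Drt.rv h e).mem _
  have hs := gm_str h (Drt.rv h e) hrt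
  have hgoal : ((gm h).str (Drt.rv h e) : Drt R) = Drt.rv h d := by
    apply Subtype.ext
    rw [hs, hrhd]
    have a1 : (Drt.rv h e).sg = d.sg := hesg
    have a2 : (Drt.rv h e).dr = !d.dr := by
      show (!e.dr) = _
      rw [hedr]
    rw [a1, a2]
    rfl
  rw [← he]
  exact hgoal

private theorem gm_pos_inj' (h : GP R) (d e : Drt R) (hs : (gm h).seg d = (gm h).seg e)
    (hd : (gm h).dir d = (gm h).dir e) (hp : (gm h).pos d = (gm h).pos e) : d = e := by
  have hs' : e.sg = d.sg := (congrArg Subtype.val hs).symm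
  have hd' : e.dr = d.dr := Eq.symm hd
  rw [pos_def h, pos_def h e, hs', hd'] at hp
  have hne := h.ne _ d.mem
  have hod := d.og_mem
  have hoe := e.og_mem
  rw [hs'] at hoe
  have key : ∀ a b : ℂ, a ∈ VF R d.sg → b ∈ VF R d.sg →
      tau d.sg d.dr a < tau d.sg d.dr b →
      ((VF R d.sg).filter
        (fun v => tau d.sg d.dr v ≤ tau d.sg d.dr a)).card <
      ((VF R d.sg).filter
        (fun v => tau d.sg d.dr v ≤ tau d.sg d.dr b)).card := by
    intro a b ha hb hab
    apply Finset.card_lt_card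
    rw [Finset.ssubset_iff_of_subset]
    · refine ⟨b, Finset.mem_filter.mpr ⟨hb, le_rfl⟩, ?_⟩
      rw [Finset.mem_filter]
      exact fun hh => absurd hh.2 (not_le.mpr hab)
    · intro v hv
      rw [Finset.mem_filter] at hv ⊢
      exact ⟨hv.1, hv.2.trans hab.le⟩
  have heq : tau d.sg d.dr d.og = tau d.sg d.dr e.og := by
    rcases lt_trichotomy (tau d.sg d.dr d.og)
      (tau d.sg d.dr e.og) with hlt | heq | hlt
    · exact absurd hp (key _ _ hod hoe hlt).ne
    · exact heq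
    · exact absurd hp (key _ _ hoe hod hlt).ne'
  have hog := tau_inj hne d.dr (h.mem_VF.mp hod).2 (h.mem_VF.mp hoe).2 heq
  exact Drt.ext' hs'.symm hd'.symm hog

private theorem gm_tip_last' (h : GP R) (d e : Drt R) (ht : (gm h).tip d)
    (hs : (gm h).seg e = (gm h).seg d) (hd : (gm h).dir e = (gm h).dir d) :
    (gm h).pos e ≤ (gm h).pos d := by
  rw [gm_tip_iff] at ht
  have hs' : e.sg = d.sg := congrArg Subtype.val hs
  have hd' : e.dr = d.dr := hd
  rw [pos_def h, pos_def h d, hs', hd']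
  have hne := h.ne _ d.mem
  have hoe := e.og_mem
  have hoen := e.og_ne
  rw [hs'] at hoe
  rw [hs', hd'] at hoen
  have h1 : tau d.sg d.dr e.og < tau d.sg d.dr d.hd := by
    rw [ht]
    exact tau_lt_en hne d.dr (h.mem_VF.mp hoe).2 hoen
  have h2 : tau d.sg d.dr e.og ≤ tau d.sg d.dr d.og := by
    by_contra hcon
    exact absurd (hd_min h d hoe (not_le.mp hcon)) (not_le.mpr h1)
  apply Finset.card_le_card
  intro v hv
  rw [Finset.mem_filter] at hv ⊢
  exact ⟨hv.1, hv.2.trans h2⟩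

private theorem gm_cross_uniq' (h : GP R) (d e : Drt R) (ht : ¬ (gm h).tip d) (ht' : ¬ (gm h).tip e)
    (hs : (gm h).seg d = (gm h).seg e) (hd : (gm h).dir d = (gm h).dir e)
    (hn : (gm h).seg ((gm h).nxt d) = (gm h).seg ((gm h).nxt e)) : d = e := by
  rw [gm_tip_iff] at ht ht'
  have hs' : d.sg = e.sg := congrArg Subtype.val hs
  have hd' : d.dr = e.dr := hd
  have hn' : (Drt.nf h d).sg = (Drt.nf h e).sg := congrArg Subtype.val hn
  rw [nf_sg h d ht, nf_sg h e ht'] at hn'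
  obtain ⟨a1, a2, a3, a4⟩ := oth_facts h d ht
  obtain ⟨b1, b2, b3, b4⟩ := oth_facts h e ht'
  have hhd : d.hd = e.hd := by
    apply h.sub d.sg d.mem _ a1 (Ne.symm a2) ⟨a3, a4⟩
    rw [hs', ← hn'] at *
    exact ⟨b3, b4⟩
  have hrv : Drt.rv h d = Drt.rv h e := by
    apply Drt.ext'
    · exact hs'
    · show (!d.dr) = (!e.dr)
      rw [hd']
    · exact hhd
  have c1 := gm_rev_rev h d
  have c2 := gm_rev_rev h e
  rw [← c1, ← c2]
  exact congrArg (gm h).rev hrv

theorem gm_str_pos (h : GP R) (d : (gm h).D) (ht : ¬ (gm h).tip d) :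
    (gm h).pos ((gm h).str d) = (gm h).pos d + 1 := gm_str_pos' h d ht

theorem gm_str_rev (h : GP R) (d : (gm h).D) (ht : ¬ (gm h).tip d) :
    (gm h).str ((gm h).rev ((gm h).str d)) = (gm h).rev d := gm_str_rev' h d ht

theorem gm_pos_inj (h : GP R) (d e : (gm h).D) (hs : (gm h).seg d = (gm h).seg e)
    (hd : (gm h).dir d = (gm h).dir e) (hp : (gm h).pos d = (gm h).pos e) : d = e :=
  gm_pos_inj' h d e hs hd hp

theorem gm_tip_last (h : GP R) (d e : (gm h).D) (ht : (gm h).tip d)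
    (hs : (gm h).seg e = (gm h).seg d) (hd : (gm h).dir e = (gm h).dir d) :
    (gm h).pos e ≤ (gm h).pos d := gm_tip_last' h d e ht hs hd

theorem gm_cross_uniq (h : GP R) (d e : (gm h).D) (ht : ¬ (gm h).tip d) (ht' : ¬ (gm h).tip e)
    (hs : (gm h).seg d = (gm h).seg e) (hd : (gm h).dir d = (gm h).dir e)
    (hn : (gm h).seg ((gm h).nxt d) = (gm h).seg ((gm h).nxt e)) : d = e :=
  gm_cross_uniq' h d e ht ht' hs hd hn

end P7b
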