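import Pool.Agent.Lib.P7b.GDefs

/-! MP_7b5a71: coordinates on a directed segment.

`co s z` is the real coordinate of `z` on the line of `s` (`0` at `s.1`, `1` at `s.2`); `tau s b` is this coordinate in the direction `b`
(`true` = from `s.1` to `s.2`); `en s b` the end of `s` in direction `b`; `dv s b` the direction vector. -/

namespace P7b

open Complex

noncomputable def co (s : Sg) (z : ℂ) : ℝ := ((z - s.1) / (s.2 - s.1)).re

noncomputable def tau (s : Sg) (b : Bool) (z : ℂ) : ℝ := if b then co s z else - co s z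

def en (s : Sg) (b : Bool) : ℂ := if b then s.2 else s.1

noncomputable def dv (s : Sg) (b : Bool) : ℂ := if b then s.2 - s.1 else s.1 - s.2

theorem tau_not (s : Sg) (b : Bool) (z : ℂ) : tau s (!b) z = - tau s b z := by
  cases b <;> simp [tau]

theorem dv_not (s : Sg) (b : Bool) : dv s (!b) = - dv s b := by
  cases b <;> simp [dv]

theorem dv_ne {s : Sg} (hs : s.1 ≠ s.2) (b : Bool) : dv s b ≠ 0 := by
  cases b
  · simpa [dv] using sub_ne_zero.2 hs
  · simpa [dv] using sub_ne_zero.2 hs.symm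

namespace GTauAux

theorem co_line {s : Sg} (hs : s.1 ≠ s.2) (θ : ℝ) : co s (s.1 + (θ : ℂ) * (s.2 - s.1)) = θ := by
  unfold co
  have h : (s.2 - s.1 : ℂ) ≠ 0 := sub_ne_zero.2 hs.symm
  have e : (s.1 + (θ : ℂ) * (s.2 - s.1) - s.1) / (s.2 - s.1) = (θ : ℂ) := by
    field_simp
    ring
  rw [e, ofReal_re]

theorem co_fst {s : Sg} : co s s.1 = 0 := by
  unfold co
  simp

theorem co_snd {s : Sg} (hs : s.1 ≠ s.2) : co s s.2 = 1 := by
  unfold co
  rw [div_self (sub_ne_zero.2 hs.symm), one_re]

theorem co_comb {s : Sg} {a b : ℝ} (hab : a + b = 1) (p q : ℂ) :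
    co s (a • p + b • q) = a * co s p + b * co s q := by
  unfold co
  have hb : b = 1 - a := by linarith
  subst hb
  have e : (a • p + (1 - a) • q - s.1) / (s.2 - s.1) =
      (a : ℂ) * ((p - s.1) / (s.2 - s.1)) + ((1 - a : ℝ) : ℂ) * ((q - s.1) / (s.2 - s.1)) := by
    rw [real_smul, real_smul]
    push_cast
    ring
  rw [e, add_re, re_ofReal_mul, re_ofReal_mul]

theorem tau_comb {s : Sg} (b : Bool) {x y : ℝ} (hxy : x + y = 1) (p q : ℂ) :
    tau s b (x • p + y • q) = x * tau s b p + y * tau s b q := by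
  cases b
  · simp only [tau, co_comb hxy]
    simp
    ring
  · simp only [tau, co_comb hxy]
    simp

end GTauAux

open GTauAux

theorem mem_car_iff {s : Sg} (hs : s.1 ≠ s.2) {z : ℂ} :
    z ∈ car s ↔ z = s.1 + (co s z : ℂ) * (s.2 - s.1) ∧ 0 ≤ co s z ∧ co s z ≤ 1 := by
  unfold car
  rw [segment_eq_image']
  constructor
  · rintro ⟨θ, ⟨h0, h1⟩, rfl⟩
    have e : s.1 + θ • (s.2 - s.1) = s.1 + (θ : ℂ) * (s.2 - s.1) := by rw [real_smul]
    dsimp only
    rw [e, co_line hs]
    exact ⟨rfl, h0, h1⟩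
  · rintro ⟨h, h0, h1⟩
    refine ⟨co s z, ⟨h0, h1⟩, ?_⟩
    dsimp only
    rw [real_smul]
    exact h.symm

theorem fst_mem (s : Sg) : s.1 ∈ car s := left_mem_segment ℝ _ _

theorem snd_mem (s : Sg) : s.2 ∈ car s := right_mem_segment ℝ _ _

theorem en_mem (s : Sg) (b : Bool) : en s b ∈ car s := by
  cases b
  · exact fst_mem s
  · exact snd_mem s

theorem en_ne {s : Sg} (hs : s.1 ≠ s.2) (b : Bool) : en s b ≠ en s (!b) := by
  cases b
  · simpa [en] using hs
  · simpa [en] using hs.symm

theorem tau_inj {s : Sg} (hs : s.1 ≠ s.2) (b : Bool) {z w : ℂ} (hz : z ∈ car s) (hw : w ∈ car s)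
    (h : tau s b z = tau s b w) : z = w := by
  have e : co s z = co s w := by
    cases b
    · simpa [tau] using h
    · simpa [tau] using h
  rw [((mem_car_iff hs).1 hz).1, ((mem_car_iff hs).1 hw).1, e]

theorem tau_le_en {s : Sg} (hs : s.1 ≠ s.2) (b : Bool) {z : ℂ} (hz : z ∈ car s) :
    tau s b z ≤ tau s b (en s b) := by
  obtain ⟨-, h0, h1⟩ := (mem_car_iff hs).1 hz
  cases b
  · simp [tau, en, co_fst, h0]
  · simp [tau, en, co_snd hs, h1]

theorem tau_lt_en {s : Sg} (hs : s.1 ≠ s.2) (b : Bool) {z : ℂ} (hz : z ∈ car s) (h : z ≠ en s b) :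
    tau s b z < tau s b (en s b) := by
  rcases (tau_le_en hs b hz).lt_or_eq with h1 | h1
  · exact h1
  · exact absurd (tau_inj hs b hz (en_mem s b) h1) h

/-- differences of points of the segment -/
theorem sub_eq {s : Sg} (hs : s.1 ≠ s.2) (b : Bool) {z w : ℂ} (hz : z ∈ car s) (hw : w ∈ car s) :
    w - z = ((tau s b w - tau s b z : ℝ) : ℂ) * dv s b := by
  have e : w - z = (s.1 + (co s w : ℂ) * (s.2 - s.1)) - (s.1 + (co s z : ℂ) * (s.2 - s.1)) := by
    rw [← ((mem_car_iff hs).1 hw).1, ← ((mem_car_iff hs).1 hz).1]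
  rw [e]
  cases b
  · simp only [tau, dv]
    push_cast
    simp
    ring
  · simp only [tau, dv]
    push_cast
    simp
    ring

theorem openSegment_sub {s : Sg} {p q : ℂ} (hp : p ∈ car s) (hq : q ∈ car s) :
    openSegment ℝ p q ⊆ car s := by
  have hc : Convex ℝ (car s) := convex_segment _ _
  exact hc.openSegment_subset hp hq

theorem segment_sub {s : Sg} {p q : ℂ} (hp : p ∈ car s) (hq : q ∈ car s) :
    segment ℝ p q ⊆ car s := by
  have hc : Convex ℝ (car s) := convex_segment _ _
  exact hc.segment_subset hp hq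

theorem mem_openSegment_iff {s : Sg} (hs : s.1 ≠ s.2) (b : Bool) {p q z : ℂ} (hp : p ∈ car s)
    (hq : q ∈ car s) (hz : z ∈ car s) (hpq : tau s b p < tau s b q) :
    z ∈ openSegment ℝ p q ↔ tau s b p < tau s b z ∧ tau s b z < tau s b q := by
  constructor
  · rintro ⟨x, y, hx, hy, hxy, rfl⟩
    rw [tau_comb b hxy]
    have hx' : x = 1 - y := by linarith
    subst hx'
    constructor
    · nlinarith
    · nlinarith
  · rintro ⟨h1, h2⟩
    set l : ℝ := (tau s b z - tau s b p) / (tau s b q - tau s b p) with hl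
    have hD : 0 < tau s b q - tau s b p := by linarith
    have hl0 : 0 < l := div_pos (by linarith) hD
    have hl1 : l < 1 := by
      rw [hl, div_lt_one hD]
      linarith
    have hm : (1 - l) • p + l • q ∈ openSegment ℝ p q := ⟨1 - l, l, by linarith, hl0, by ring, rfl⟩
    have e : z = (1 - l) • p + l • q := by
      refine tau_inj hs b hz (openSegment_sub hp hq hm) ?_
      rw [tau_comb b (by ring)]
      have h3 : l * (tau s b q - tau s b p) = tau s b z - tau s b p := by
        rw [hl]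
        field_simp
      linarith
    rw [e]
    exact hm

end P7b
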