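import Pool.Agent.Lib.P7b.GTau

/-! MP_7b5a71: vertices on a segment, the successor of a vertex, the other segment at a crossing.

* `vx_finite`: endpoints: finite; intersections: finite union over pairs of subsingletons (`GP.sub`).
* `sc`: minimum of `tau s b` over the vertices of `s` beyond `q`; nonempty because `en s b` is a vertex with the largest `tau` (`tau_lt_en`).
* `sc_sc`: nothing lies strictly between `q` and `sc q`; `tau_not`, `tau_inj`.
* `sc_disj`: a vertex in the open segment is in `car s` (`openSegment_sub`), strictly between (`mem_openSegment_iff`).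
* `exists_oth`: `q` is a vertex: if it is an endpoint of `t` then `t = s` by `tip1`, `tip2`, excluded; so it is on two different segments, one of them `≠ s`;
  uniqueness by `trip`.
* `not_end`: by `tip1`, `tip2` an endpoint of `t` is on no other segment, but `q` is on two segments.
* `not_parallel`: `q` is an interior point of `s` and `g` (`not_end`).  If `dv g b'` were a real multiple of `dv s b` then `q + ε dv s b` would be in both for small
  `ε` of both signs, contradicting `sub`.  (`im (conj v * w) = 0` iff `w` is a real multiple of `v ≠ 0`.)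
* `turn_turn`: `im (conj (-(w)) * v) = im (conj v * w)`; `dv_not`. -/

namespace P7b

open Complex

theorem GP.vx_finite {R : Finset Sg} (h : GP R) : (Vx R).Finite := by
  classical
  unfold Vx
  refine Set.Finite.union ?_ ?_
  · refine Set.Finite.subset (Set.Finite.biUnion R.finite_toSet
      (fun s _ => Set.toFinite ({s.1, s.2} : Set ℂ))) ?_
    rintro z ⟨s, hs, hz⟩
    simp only [Set.mem_iUnion]
    exact ⟨s, Finset.mem_coe.2 hs, by simpa using hz⟩
  · refine Set.Finite.subset (Set.Finite.biUnion R.finite_toSet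
      (fun s hs => Set.Finite.biUnion R.finite_toSet
        (fun t ht => (?_ : ({z | s ≠ t ∧ z ∈ car s ∧ z ∈ car t} : Set ℂ).Finite)))) ?_
    · by_cases hst : s = t
      · refine Set.Finite.subset Set.finite_empty ?_
        rintro z ⟨h1, _⟩
        exact absurd hst h1
      · refine Set.Finite.subset (h.sub s hs t ht hst).finite ?_
        rintro z ⟨_, h1, h2⟩
        exact ⟨h1, h2⟩
    · rintro z ⟨s, hs, t, ht, hst, h1, h2⟩
      simp only [Set.mem_iUnion]
      exact ⟨s, Finset.mem_coe.2 hs, t, Finset.mem_coe.2 ht, hst, h1, h2⟩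

/-- the vertices on `s` -/
noncomputable def VF (R : Finset Sg) (s : Sg) : Finset ℂ := by
  classical
  exact if h : (Vx R ∩ car s).Finite then h.toFinset else ∅

theorem GP.mem_VF {R : Finset Sg} (h : GP R) {s : Sg} {z : ℂ} : z ∈ VF R s ↔ z ∈ Vx R ∧ z ∈ car s := by
  have hf : (Vx R ∩ car s).Finite := h.vx_finite.subset Set.inter_subset_left
  unfold VF
  rw [dif_pos hf, Set.Finite.mem_toFinset]
  exact Iff.rfl

theorem GP.en_mem_VF {R : Finset Sg} (h : GP R) {s : Sg} (hs : s ∈ R) (b : Bool) : en s b ∈ VF R s := by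
  rw [h.mem_VF]
  refine ⟨Or.inl ⟨s, hs, ?_⟩, en_mem s b⟩
  cases b
  · left; simp [en]
  · right; simp [en]

/-- the next vertex on `s` after `q` in the direction `b` -/
noncomputable def sc (R : Finset Sg) (s : Sg) (b : Bool) (q : ℂ) : ℂ := by
  classical
  exact if h : ((VF R s).filter (fun v => tau s b q < tau s b v)).Nonempty then
    Classical.choose (Finset.exists_min_image _ (tau s b) h) else q

theorem GP.sc_spec {R : Finset Sg} (h : GP R) {s : Sg} (hs : s ∈ R) (b : Bool) {q : ℂ}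
    (hq : q ∈ VF R s) (hne : q ≠ en s b) :
    sc R s b q ∈ VF R s ∧ tau s b q < tau s b (sc R s b q) ∧
      ∀ v ∈ VF R s, tau s b q < tau s b v → tau s b (sc R s b q) ≤ tau s b v := by
  have hne' : ((VF R s).filter (fun v => tau s b q < tau s b v)).Nonempty :=
    ⟨en s b, Finset.mem_filter.2 ⟨h.en_mem_VF hs b,
      tau_lt_en (h.ne s hs) b (h.mem_VF.1 hq).2 hne⟩⟩
  have hsc : sc R s b q = Classical.choose (Finset.exists_min_image _ (tau s b) hne') := by
    unfold sc
    rw [dif_pos hne']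
  have hspec := Classical.choose_spec (Finset.exists_min_image _ (tau s b) hne')
  rw [← hsc] at hspec
  obtain ⟨h1, h2⟩ := hspec
  rw [Finset.mem_filter] at h1
  exact ⟨h1.1, h1.2, fun v hv hlt => h2 v (Finset.mem_filter.2 ⟨hv, hlt⟩)⟩

/-- the reversed direction is possible from the next vertex -/
theorem GP.sc_ne {R : Finset Sg} (h : GP R) {s : Sg} (hs : s ∈ R) (b : Bool) {q : ℂ}
    (hq : q ∈ VF R s) (hne : q ≠ en s b) : sc R s b q ≠ en s (!b) := by
  obtain ⟨h1, h2, h3⟩ := h.sc_spec hs b hq hne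
  intro hh
  have h4 := tau_le_en (h.ne s hs) (!b) (h.mem_VF.1 hq).2
  rw [tau_not, tau_not] at h4
  rw [hh] at h2
  linarith

theorem GP.sc_sc {R : Finset Sg} (h : GP R) {s : Sg} (hs : s ∈ R) (b : Bool) {q : ℂ}
    (hq : q ∈ VF R s) (hne : q ≠ en s b) : sc R s (!b) (sc R s b q) = q := by
  obtain ⟨h1, h2, h3⟩ := h.sc_spec hs b hq hne
  obtain ⟨h4, h5, h6⟩ := h.sc_spec hs (!b) h1 (h.sc_ne hs b hq hne)
  have h7 := h6 q hq (by rw [tau_not, tau_not]; linarith)
  rw [tau_not, tau_not] at h5 h7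
  refine tau_inj (h.ne s hs) b (h.mem_VF.1 h4).2 (h.mem_VF.1 hq).2 ?_
  by_contra hne2
  have h8 : tau s b q < tau s b (sc R s (!b) (sc R s b q)) := by
    rcases lt_trichotomy (tau s b q) (tau s b (sc R s (!b) (sc R s b q))) with hlt | heq | hgt
    · exact hlt
    · exact absurd heq.symm hne2
    · linarith
  have h9 := h3 _ h4 h8
  linarith

/-- the open edge between a vertex and the next one contains no vertex -/
theorem GP.sc_disj {R : Finset Sg} (h : GP R) {s : Sg} (hs : s ∈ R) (b : Bool) {q : ℂ}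
    (hq : q ∈ VF R s) (hne : q ≠ en s b) :
    Disjoint (openSegment ℝ q (sc R s b q)) (Vx R) := by
  obtain ⟨h1, h2, h3⟩ := h.sc_spec hs b hq hne
  rw [Set.disjoint_left]
  intro z hz hzV
  have hqc := (h.mem_VF.1 hq).2
  have hqc' := (h.mem_VF.1 h1).2
  have hzc := openSegment_sub hqc hqc' hz
  have h4 := (mem_openSegment_iff (h.ne s hs) b hqc hqc' hzc h2).1 hz
  have h5 := h3 z (h.mem_VF.2 ⟨hzV, hzc⟩) h4.1
  linarith [h4.2]

/-- a vertex of `s` that is not an endpoint of `s` lies on exactly one other segment -/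
theorem GP.exists_oth {R : Finset Sg} (h : GP R) {s : Sg} (hs : s ∈ R) {q : ℂ} (hq : q ∈ VF R s)
    (h1 : q ≠ s.1) (h2 : q ≠ s.2) : ∃ g, g ∈ R ∧ g ≠ s ∧ q ∈ car g := by
  obtain ⟨hV, hc⟩ := h.mem_VF.1 hq
  rcases hV with ⟨t, ht, hqt⟩ | ⟨a, ha, b, hb, hab, hqa, hqb⟩
  · exfalso
    by_cases hts : t = s
    · subst hts
      rcases hqt with hqt | hqt
      · exact h1 hqt
      · exact h2 hqt
    · rcases hqt with hqt | hqt
      · rw [hqt] at hc
        exact h.tip1 t ht s hs hts hc
      · rw [hqt] at hc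
        exact h.tip2 t ht s hs hts hc
  · by_cases has : a = s
    · subst has
      exact ⟨b, hb, fun hh => hab hh.symm, hqb⟩
    · exact ⟨a, ha, has, hqa⟩

open Classical in
/-- the other segment at a crossing -/
noncomputable def oth (R : Finset Sg) (s : Sg) (q : ℂ) : Sg :=
  if h : ∃ g, g ∈ R ∧ g ≠ s ∧ q ∈ car g then Classical.choose h else s

theorem GP.oth_spec {R : Finset Sg} (h : GP R) {s : Sg} (hs : s ∈ R) {q : ℂ} (hq : q ∈ VF R s)
    (h1 : q ≠ s.1) (h2 : q ≠ s.2) : oth R s q ∈ R ∧ oth R s q ≠ s ∧ q ∈ VF R (oth R s q) := by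
  have hex := h.exists_oth hs hq h1 h2
  have hoth : oth R s q = Classical.choose hex := by
    unfold oth
    rw [dif_pos hex]
  have hspec := Classical.choose_spec hex
  rw [← hoth] at hspec
  exact ⟨hspec.1, hspec.2.1, h.mem_VF.2 ⟨(h.mem_VF.1 hq).1, hspec.2.2⟩⟩

theorem GP.oth_uniq {R : Finset Sg} (h : GP R) {s g : Sg} (hs : s ∈ R) (hg : g ∈ R) (hgs : g ≠ s)
    {q : ℂ} (hq : q ∈ car s) (hqg : q ∈ car g) : oth R s q = g := by
  have hex : ∃ g, g ∈ R ∧ g ≠ s ∧ q ∈ car g := ⟨g, hg, hgs, hqg⟩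
  have hoth : oth R s q = Classical.choose hex := by
    unfold oth
    rw [dif_pos hex]
  have hspec := Classical.choose_spec hex
  rw [← hoth] at hspec
  by_contra hne
  have h1 := h.trip s hs g hg _ hspec.1 (Ne.symm hgs) (fun hh => hne hh.symm) (Ne.symm hspec.2.1)
  have h2 : q ∈ car s ∩ car g ∩ car (oth R s q) := ⟨⟨hq, hqg⟩, hspec.2.2⟩
  rw [h1] at h2
  exact h2

/-- a crossing is not an endpoint of any segment -/
theorem GP.not_end {R : Finset Sg} (h : GP R) {s g : Sg} (hs : s ∈ R) (hg : g ∈ R) (hgs : g ≠ s)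
    {q : ℂ} (hq : q ∈ car s) (hqg : q ∈ car g) {t : Sg} (ht : t ∈ R) : q ≠ t.1 ∧ q ≠ t.2 := by
  constructor
  · intro hh
    by_cases hts : t = s
    · have h1 := h.tip1 t ht g hg (by rw [hts]; exact Ne.symm hgs)
      rw [← hh] at h1
      exact h1 hqg
    · have h1 := h.tip1 t ht s hs hts
      rw [← hh] at h1
      exact h1 hq
  · intro hh
    by_cases hts : t = s
    · have h1 := h.tip2 t ht g hg (by rw [hts]; exact Ne.symm hgs)
      rw [← hh] at h1
      exact h1 hqg
    · have h1 := h.tip2 t ht s hs hts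
      rw [← hh] at h1
      exact h1 hq

private theorem car_nhd {s : Sg} (hs : s.1 ≠ s.2) {q : ℂ} (hq : q ∈ car s) (h1 : q ≠ s.1)
    (h2 : q ≠ s.2) (b : Bool) :
    ∃ d : ℝ, 0 < d ∧ ∀ e : ℝ, |e| ≤ d → q + (e : ℂ) * dv s b ∈ car s := by
  obtain ⟨hz, h0, h01⟩ := (mem_car_iff hs).1 hq
  have hc0 : co s q ≠ 0 := by
    intro hc
    rw [hc] at hz
    apply h1
    rw [hz]; simp
  have hc1 : co s q ≠ 1 := by
    intro hc
    rw [hc] at hz
    apply h2
    rw [hz]; simp
  have h0' : 0 < co s q := lt_of_le_of_ne h0 (Ne.symm hc0)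
  have h1' : co s q < 1 := lt_of_le_of_ne h01 hc1
  refine ⟨min (co s q) (1 - co s q), lt_min h0' (by linarith), ?_⟩
  intro e he
  have he1 := abs_le.1 (he.trans (min_le_left _ _))
  have he2 := abs_le.1 (he.trans (min_le_right _ _))
  have key : ∀ x : ℝ, 0 ≤ x → x ≤ 1 → s.1 + (x : ℂ) * (s.2 - s.1) ∈ car s := by
    intro x hx0 hx1
    unfold car
    rw [segment_eq_image']
    exact ⟨x, ⟨hx0, hx1⟩, by simp [Complex.real_smul]⟩
  cases b
  · have h3 : q + (e : ℂ) * dv s false = s.1 + ((co s q - e : ℝ) : ℂ) * (s.2 - s.1) := by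
      conv_lhs => rw [hz]
      simp only [dv, Bool.false_eq_true, if_false]
      push_cast
      ring
    rw [h3]
    exact key _ (by linarith [he1.2]) (by linarith [he2.1])
  · have h3 : q + (e : ℂ) * dv s true = s.1 + ((co s q + e : ℝ) : ℂ) * (s.2 - s.1) := by
      conv_lhs => rw [hz]
      simp only [dv, if_true]
      push_cast
      ring
    rw [h3]
    exact key _ (by linarith [he1.1]) (by linarith [he2.2])

/-- crossing segments are not parallel -/
theorem GP.not_parallel {R : Finset Sg} (h : GP R) {s g : Sg} (hs : s ∈ R) (hg : g ∈ R) (hgs : g ≠ s)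
    {q : ℂ} (hq : q ∈ car s) (hqg : q ∈ car g) (b b' : Bool) :
    ((starRingEnd ℂ) (dv s b) * dv g b').im ≠ 0 := by
  intro him
  have hv := dv_ne (h.ne s hs) b
  have hw := dv_ne (h.ne g hg) b'
  obtain ⟨hq1, hq2⟩ := h.not_end hs hg hgs hq hqg hs
  obtain ⟨hg1, hg2⟩ := h.not_end hs hg hgs hq hqg hg
  obtain ⟨d1, hd1, hd1'⟩ := car_nhd (h.ne s hs) hq hq1 hq2 b
  obtain ⟨d2, hd2, hd2'⟩ := car_nhd (h.ne g hg) hqg hg1 hg2 b'
  set v := dv s b with hvdef
  set w := dv g b' with hwdef
  have hvv : (0 : ℝ) < Complex.normSq v := Complex.normSq_pos.2 hv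
  set c : ℝ := ((starRingEnd ℂ) v * w).re / Complex.normSq v with hc
  have hwc : w = (c : ℂ) * v := by
    have h1 : (starRingEnd ℂ) v * w = ((((starRingEnd ℂ) v * w).re : ℝ) : ℂ) := by
      apply Complex.ext
      · simp
      · rw [him]; simp
    have h2 : (Complex.normSq v : ℂ) * w = ((((starRingEnd ℂ) v * w).re : ℝ) : ℂ) * v := by
      rw [← h1, ← Complex.mul_conj v]; ring
    have h3 : (Complex.normSq v : ℂ) ≠ 0 := by exact_mod_cast hvv.ne'
    rw [hc]
    push_cast
    rw [div_mul_eq_mul_div, eq_div_iff h3, mul_comm w, h2]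
  have hc0 : c ≠ 0 := by
    intro hc0
    rw [hc0] at hwc
    apply hw
    rw [hwc]; simp
  have hcpos : 0 < |c| := abs_pos.2 hc0
  set e : ℝ := min d1 (d2 * |c|) with he
  have hepos : 0 < e := lt_min hd1 (mul_pos hd2 hcpos)
  have h1 : q + (e : ℂ) * v ∈ car s := by
    apply hd1'
    rw [abs_of_pos hepos]
    exact min_le_left _ _
  have h2 : q + ((e / c : ℝ) : ℂ) * w ∈ car g := by
    apply hd2'
    rw [abs_div, abs_of_pos hepos, div_le_iff₀ hcpos]
    exact min_le_right _ _
  have h3 : q + ((e / c : ℝ) : ℂ) * w = q + (e : ℂ) * v := by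
    rw [hwc]
    have hcc : (c : ℂ) ≠ 0 := by exact_mod_cast hc0
    push_cast
    field_simp
  rw [h3] at h2
  have h4 := h.sub s hs g hg (Ne.symm hgs) ⟨hq, hqg⟩ ⟨h1, h2⟩
  have h5 : (e : ℂ) * v = 0 := by
    have := sub_eq_zero.2 h4
    simpa using this
  have hee : (e : ℂ) ≠ 0 := by exact_mod_cast hepos.ne'
  exact (mul_ne_zero hee hv) h5

open Classical in
/-- the direction of `g` pointing to the left of the direction `b` of `s` -/
noncomputable def turn (s : Sg) (b : Bool) (g : Sg) : Bool :=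
  decide (0 < ((starRingEnd ℂ) (dv s b) * dv g true).im)

/-- the direction `turn s b g` of `g` points to the left of `s` -/
theorem GP.turn_pos {R : Finset Sg} (h : GP R) {s g : Sg} (hs : s ∈ R) (hg : g ∈ R) (hgs : g ≠ s)
    {q : ℂ} (hq : q ∈ car s) (hqg : q ∈ car g) (b : Bool) :
    0 < ((starRingEnd ℂ) (dv s b) * dv g (turn s b g)).im := by
  have hnp := h.not_parallel hs hg hgs hq hqg b true
  unfold turn
  by_cases hp : 0 < ((starRingEnd ℂ) (dv s b) * dv g true).im
  · rw [decide_eq_true hp]; exact hp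
  · rw [decide_eq_false hp]
    have hd : dv g false = - dv g true := dv_not g true
    rw [hd, mul_neg, Complex.neg_im]
    have : ((starRingEnd ℂ) (dv s b) * dv g true).im < 0 := lt_of_le_of_ne (not_lt.1 hp) hnp
    linarith

theorem GP.turn_iff {R : Finset Sg} (h : GP R) {s g : Sg} (hs : s ∈ R) (hg : g ∈ R) (hgs : g ≠ s)
    {q : ℂ} (hq : q ∈ car s) (hqg : q ∈ car g) (b b' : Bool) :
    turn s b g = b' ↔ 0 < ((starRingEnd ℂ) (dv s b) * dv g b').im := by
  have hp := h.turn_pos hs hg hgs hq hqg b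
  constructor
  · intro hh
    rw [hh] at hp
    exact hp
  · intro hh
    by_contra hne
    have hd : turn s b g = !b' := by
      cases h1 : turn s b g <;> cases b' <;> simp_all
    rw [hd, dv_not, mul_neg, Complex.neg_im] at hp
    linarith

/-- turning left, reversing and turning left again gives the original direction -/
theorem GP.turn_turn {R : Finset Sg} (h : GP R) {s g : Sg} (hs : s ∈ R) (hg : g ∈ R) (hgs : g ≠ s)
    {q : ℂ} (hq : q ∈ car s) (hqg : q ∈ car g) (b : Bool) : turn g (!turn s b g) s = b := by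
  rw [h.turn_iff hg hs (Ne.symm hgs) hqg hq]
  have hp := h.turn_pos hs hg hgs hq hqg b
  rw [dv_not]
  have h1 : ((starRingEnd ℂ) (-dv g (turn s b g)) * dv s b).im
      = ((starRingEnd ℂ) (dv s b) * dv g (turn s b g)).im := by
    simp [Complex.mul_im]
    ring
  rw [h1]
  exact hp

end P7b
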