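import Pool.Agent.Lib.P7b.LPFin

/-! MP_7b5a71: generic perturbations.

`exists_off_lines`: the points `z + τ + τ² I`, `0 < τ` small, are in the ball; a line `{a + t d}` contains at most two of them (a polynomial of degree 2 in `τ` with
leading coefficient `≠ 0` or degree 1 with nonzero coefficient: `im (conj d * (z + τ + τ² I - a)) = 0`); so some `τ` works (infinitely many `τ`, finitely many bad ones).
`exists_gp_insert`: `T` in general position, target `q : Sg`, `δ > 0`: choose `s'.1` in the ball around `q.1` off the lines of the segments of `T` (line through `t.1`, `t.2`), then `s'.2` in the ball around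
`q.2` off the lines of the segments of `T`, off the lines through `s'.1` and each vertex of `T` (`Vx T` is finite; `s'.1` is not a vertex since vertices lie on lines of `T`), and `≠ s'.1` (take the
ball off one more line through `s'.1`).  Then: `s' ∉ T`; `car s' ∩ car t` is a subsingleton (two common points would put `s'.1` on the line of `t`); a vertex `y` of `T` is not on `car s'` (else `s'.2` is on the
line through `s'.1` and `y`), which gives `tip1`, `tip2` (for endpoints of `t`) and `trip`; the endpoints of `s'` are not on `car t`.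
`exists_gp`: induction on `S`. -/

namespace P7b

open Complex

namespace GenPosAux

open Polynomial in
theorem finite_roots (c : ℝ) {d : ℂ} (hd : d ≠ 0) :
    {τ : ℝ | c - τ * d.im + τ ^ 2 * d.re = 0}.Finite := by
  have hp : (C c - C d.im * X + C d.re * X ^ 2 : ℝ[X]) ≠ 0 := by
    intro h0
    apply hd
    have h1 := congrArg (fun f : ℝ[X] => f.coeff 1) h0
    have h2 := congrArg (fun f : ℝ[X] => f.coeff 2) h0
    simp [coeff_C] at h1 h2
    exact Complex.ext h2 h1
  refine (Polynomial.finite_setOfPred_isRoot hp).subset ?_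
  intro τ hτ
  simp only [Set.mem_ofPred_eq] at hτ ⊢
  unfold Polynomial.IsRoot
  simp only [eval_add, eval_sub, eval_mul, eval_C, eval_X, eval_pow]
  linarith

theorem car_eq (s : Sg) {z : ℂ} (h : z ∈ car s) :
    ∃ θ : ℝ, 0 ≤ θ ∧ θ ≤ 1 ∧ z = s.1 + (θ : ℂ) * (s.2 - s.1) := by
  unfold car at h
  rw [segment_eq_image'] at h
  obtain ⟨θ, ⟨h0, h1⟩, h2⟩ := h
  refine ⟨θ, h0, h1, ?_⟩
  rw [← h2]
  change s.1 + θ • (s.2 - s.1) = _
  rw [Complex.real_smul]

theorem left_mem (s : Sg) : s.1 ∈ car s := left_mem_segment ℝ _ _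

theorem right_mem (s : Sg) : s.2 ∈ car s := right_mem_segment ℝ _ _

theorem vx_car {T : Finset Sg} {y : ℂ} (hy : y ∈ Vx T) : ∃ t ∈ T, y ∈ car t := by
  rcases hy with ⟨t, ht, h⟩ | ⟨s, hs, t, ht, _, h1, _⟩
  · refine ⟨t, ht, ?_⟩
    rcases h with rfl | rfl
    · exact left_mem t
    · exact right_mem t
  · exact ⟨s, hs, h1⟩

end GenPosAux

open GenPosAux

theorem exists_off_lines (L : Set (ℂ × ℂ)) (hL : L.Finite) (hd : ∀ l ∈ L, l.2 ≠ 0) (z : ℂ) {δ : ℝ}
    (hδ : 0 < δ) : ∃ w, dist w z < δ ∧ ∀ l ∈ L, ∀ t : ℝ, w ≠ l.1 + (t : ℂ) * l.2 := by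
  set η : ℝ := min 1 (δ / 2) with hη
  have hη0 : 0 < η := lt_min one_pos (by linarith)
  set B : Set ℝ := ⋃ l ∈ L, {τ : ℝ | (((starRingEnd ℂ) l.2) * (z - l.1)).im - τ * l.2.im
    + τ ^ 2 * l.2.re = 0} with hB
  have hBfin : B.Finite := hL.biUnion fun l hl => finite_roots _ (hd l hl)
  obtain ⟨τ, ⟨hτ0, hτ1⟩, hτB⟩ := ((Set.Ioo_infinite hη0).sdiff hBfin).nonempty
  refine ⟨z + ((τ : ℂ) + (τ : ℂ) ^ 2 * I), ?_, ?_⟩
  · rw [dist_eq_norm, add_sub_cancel_left]
    have h1 : τ < 1 := hτ1.trans_le (min_le_left _ _)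
    have h2 : τ < δ / 2 := hτ1.trans_le (min_le_right _ _)
    calc ‖(τ : ℂ) + (τ : ℂ) ^ 2 * I‖ ≤ ‖(τ : ℂ)‖ + ‖(τ : ℂ) ^ 2 * I‖ := norm_add_le _ _
      _ = τ + τ ^ 2 := by
        rw [norm_mul, norm_pow, Complex.norm_I, Complex.norm_real, Real.norm_eq_abs,
          abs_of_pos hτ0, mul_one]
      _ < δ := by nlinarith
  · intro l hl t heq
    apply hτB
    rw [hB]
    refine Set.mem_biUnion hl ?_
    simp only [Set.mem_ofPred_eq]
    have h1 : z - l.1 = (t : ℂ) * l.2 - ((τ : ℂ) + (τ : ℂ) ^ 2 * I) := by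
      linear_combination heq
    rw [h1]
    have h2 : ((starRingEnd ℂ) l.2 * ((t : ℂ) * l.2 - ((τ : ℂ) + (τ : ℂ) ^ 2 * I))).im =
        τ * l.2.im - τ ^ 2 * l.2.re := by
      have h9 : ((τ : ℂ) ^ 2).re = τ ^ 2 := by rw [← Complex.ofReal_pow, Complex.ofReal_re]
      have h10 : ((τ : ℂ) ^ 2).im = 0 := by rw [← Complex.ofReal_pow, Complex.ofReal_im]
      simp [Complex.mul_im, Complex.mul_re, h9, h10]
      ring
    rw [h2]
    ring

theorem exists_gp_insert (T : Finset Sg) (hT : GP T) (hV : (Vx T).Finite) (q : Sg) {δ : ℝ}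
    (hδ : 0 < δ) : ∃ s' : Sg, dist s'.1 q.1 < δ ∧ dist s'.2 q.2 < δ ∧ s' ∉ T ∧ GP (insert s' T) := by
  classical
  set L1 : Set (ℂ × ℂ) := (fun t : Sg => (t.1, t.2 - t.1)) '' (T : Set Sg) with hL1
  have hL1fin : L1.Finite := T.finite_toSet.image _
  have hL1d : ∀ l ∈ L1, l.2 ≠ 0 := by
    rintro l ⟨t, ht, rfl⟩
    exact sub_ne_zero.2 (hT.ne t ht).symm
  obtain ⟨s1, hs1, hs1L⟩ := exists_off_lines L1 hL1fin hL1d q.1 hδ
  have hs1t : ∀ t ∈ T, ∀ θ : ℝ, s1 ≠ t.1 + (θ : ℂ) * (t.2 - t.1) := fun t ht θ =>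
    hs1L _ ⟨t, ht, rfl⟩ θ
  have hs1c : ∀ t ∈ T, s1 ∉ car t := by
    intro t ht h
    obtain ⟨θ, _, _, h2⟩ := car_eq t h
    exact hs1t t ht θ h2
  have hs1V : ∀ y ∈ Vx T, y ≠ s1 := by
    rintro y hy rfl
    obtain ⟨t, ht, h⟩ := vx_car hy
    exact hs1c t ht h
  set L2 : Set (ℂ × ℂ) := L1 ∪ ((fun y : ℂ => (s1, y - s1)) '' (Vx T) ∪ {(s1, 1)}) with hL2
  have hL2fin : L2.Finite := hL1fin.union ((hV.image _).union (Set.finite_singleton _))
  have hL2d : ∀ l ∈ L2, l.2 ≠ 0 := by
    rintro l (hl | ⟨y, hy, rfl⟩ | hl)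
    · exact hL1d l hl
    · exact sub_ne_zero.2 (hs1V y hy)
    · rw [Set.mem_singleton_iff] at hl
      rw [hl]
      exact one_ne_zero
  obtain ⟨s2, hs2, hs2L⟩ := exists_off_lines L2 hL2fin hL2d q.2 hδ
  have hs2t : ∀ t ∈ T, ∀ θ : ℝ, s2 ≠ t.1 + (θ : ℂ) * (t.2 - t.1) := fun t ht θ =>
    hs2L _ (Or.inl ⟨t, ht, rfl⟩) θ
  have hs2c : ∀ t ∈ T, s2 ∉ car t := by
    intro t ht h
    obtain ⟨θ, _, _, h2⟩ := car_eq t h
    exact hs2t t ht θ h2
  have hs2V : ∀ y ∈ Vx T, ∀ θ : ℝ, s2 ≠ s1 + (θ : ℂ) * (y - s1) := fun y hy θ =>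
    hs2L _ (Or.inr (Or.inl ⟨y, hy, rfl⟩)) θ
  have h12 : s1 ≠ s2 := by
    intro h
    have h1 := hs2L (s1, 1) (Or.inr (Or.inr rfl)) 0
    apply h1
    simp [h]
  have hVc : ∀ y ∈ Vx T, y ∉ car (s1, s2) := by
    intro y hy h
    obtain ⟨θ, _, _, h2⟩ := car_eq (s1, s2) h
    simp only at h2
    have hθ : θ ≠ 0 := by
      rintro rfl
      apply hs1V y hy
      rw [h2]
      simp
    apply hs2V y hy θ⁻¹
    rw [h2]
    have hθ' : (θ : ℂ) ≠ 0 := by exact_mod_cast hθ
    push_cast
    field_simp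
    ring
  have hsubs : ∀ t ∈ T, (car (s1, s2) ∩ car t).Subsingleton := by
    rintro t ht a ⟨ha1, ha2⟩ b ⟨hb1, hb2⟩
    by_contra hab
    obtain ⟨α, _, _, h1⟩ := car_eq (s1, s2) ha1
    obtain ⟨β, _, _, h2⟩ := car_eq (s1, s2) hb1
    obtain ⟨γ, _, _, h3⟩ := car_eq t ha2
    obtain ⟨η, _, _, h4⟩ := car_eq t hb2
    simp only at h1 h2
    have hαβ : α ≠ β := by
      rintro rfl
      exact hab (h1.trans h2.symm)
    apply hs1t t ht (γ - α * (η - γ) / (β - α))
    have hne : ((β : ℂ) - α) ≠ 0 := by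
      have h5 : (β : ℝ) - α ≠ 0 := sub_ne_zero.2 (Ne.symm hαβ)
      exact_mod_cast h5
    have h6 : (s2 - s1) * ((β : ℂ) - α) = ((η : ℂ) - γ) * (t.2 - t.1) := by
      linear_combination h1 - h2 - h3 + h4
    have h7 : s2 - s1 = ((η : ℂ) - γ) * (t.2 - t.1) / ((β : ℂ) - α) := by
      rw [eq_div_iff hne, h6]
    have h8 : s1 = a - (α : ℂ) * (s2 - s1) := by
      rw [h1]
      ring
    rw [h7] at h8
    rw [h8, h3]
    push_cast
    field_simp
    ring
  have hmem : ∀ {s : Sg}, s ∈ insert (s1, s2) T → s = (s1, s2) ∨ s ∈ T := fun {s} h =>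
    Finset.mem_insert.1 h
  have htr : ∀ t ∈ T, ∀ u ∈ T, t ≠ u → ∀ z, z ∈ car t → z ∈ car u → z ∉ car (s1, s2) :=
    fun t ht u hu htu z hz1 hz2 => hVc z (Or.inr ⟨t, ht, u, hu, htu, hz1, hz2⟩)
  refine ⟨(s1, s2), hs1, hs2, ?_, ?_⟩
  · intro h
    apply hs1t _ h 0
    simp
  · refine ⟨?_, ?_, ?_, ?_, ?_⟩
    · intro s hs
      rcases hmem hs with rfl | hs
      · exact h12
      · exact hT.ne s hs
    · intro s hs t ht hst
      rcases hmem hs with rfl | hs <;> rcases hmem ht with rfl | ht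
      · exact absurd rfl hst
      · exact hs1c t ht
      · exact hVc _ (Or.inl ⟨s, hs, Or.inl rfl⟩)
      · exact hT.tip1 s hs t ht hst
    · intro s hs t ht hst
      rcases hmem hs with rfl | hs <;> rcases hmem ht with rfl | ht
      · exact absurd rfl hst
      · exact hs2c t ht
      · exact hVc _ (Or.inl ⟨s, hs, Or.inr rfl⟩)
      · exact hT.tip2 s hs t ht hst
    · intro s hs t ht hst
      rcases hmem hs with rfl | hs <;> rcases hmem ht with rfl | ht
      · exact absurd rfl hst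
      · exact hsubs t ht
      · rw [Set.inter_comm]
        exact hsubs s hs
      · exact hT.sub s hs t ht hst
    · intro s hs t ht u hu hst htu hsu
      rcases hmem hs with rfl | hs <;> rcases hmem ht with rfl | ht <;>
        rcases hmem hu with rfl | hu
      · exact absurd rfl hst
      · exact absurd rfl hst
      · exact absurd rfl hsu
      · rw [Set.eq_empty_iff_forall_notMem]
        rintro z ⟨⟨h1, h2⟩, h3⟩
        exact htr t ht u hu htu z h2 h3 h1
      · exact absurd rfl htu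
      · rw [Set.eq_empty_iff_forall_notMem]
        rintro z ⟨⟨h1, h2⟩, h3⟩
        exact htr s hs u hu hsu z h1 h3 h2
      · rw [Set.eq_empty_iff_forall_notMem]
        rintro z ⟨⟨h1, h2⟩, h3⟩
        exact htr s hs t ht hst z h1 h2 h3
      · exact hT.trip s hs t ht u hu hst htu hsu

/-- generic choice near arbitrary targets -/
theorem exists_gp (S : Finset Sg) (q : Sg → Sg) {δ : ℝ} (hδ : 0 < δ) :
    ∃ p : Sg → Sg, (∀ s ∈ S, dist (p s).1 (q s).1 < δ ∧ dist (p s).2 (q s).2 < δ) ∧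
      Set.InjOn p S ∧ GP (S.image p) := by
  classical
  induction S using Finset.induction_on with
  | empty =>
    refine ⟨id, fun s hs => absurd hs (Finset.notMem_empty s), ?_, ?_⟩
    · simp
    · rw [Finset.image_empty]
      exact ⟨fun s hs => absurd hs (Finset.notMem_empty s),
        fun s hs => absurd hs (Finset.notMem_empty s),
        fun s hs => absurd hs (Finset.notMem_empty s),
        fun s hs => absurd hs (Finset.notMem_empty s),
        fun s hs => absurd hs (Finset.notMem_empty s)⟩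
  | insert s S hsS ih =>
    obtain ⟨p, hp1, hp2, hp3⟩ := ih
    obtain ⟨s', h1, h2, h3, h4⟩ := exists_gp_insert (S.image p) hp3 hp3.lp.vx_finite (q s) hδ
    have hpt : ∀ t ∈ S, Function.update p s s' t = p t := by
      intro t ht
      have hts : t ≠ s := by
        rintro rfl
        exact hsS ht
      exact Function.update_of_ne hts _ _
    refine ⟨Function.update p s s', ?_, ?_, ?_⟩
    · intro t ht
      rcases Finset.mem_insert.1 ht with rfl | ht
      · rw [Function.update_self]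
        exact ⟨h1, h2⟩
      · rw [hpt t ht]
        exact hp1 t ht
    · intro a ha b hb hab
      rw [Finset.mem_coe] at ha hb
      rcases Finset.mem_insert.1 ha with rfl | ha' <;> rcases Finset.mem_insert.1 hb with rfl | hb'
      · rfl
      · rw [Function.update_self, hpt b hb'] at hab
        exact absurd (Finset.mem_image.2 ⟨b, hb', hab.symm⟩) h3
      · rw [Function.update_self, hpt a ha'] at hab
        exact absurd (Finset.mem_image.2 ⟨a, ha', hab⟩) h3
      · rw [hpt a ha', hpt b hb'] at hab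
        exact hp2 ha' hb' hab
    · have h5 : (insert s S).image (Function.update p s s') = insert s' (S.image p) := by
        rw [Finset.image_insert, Function.update_self]
        congr 1
        exact Finset.image_congr fun t ht => hpt t ht
      rw [h5]
      exact h4

end P7b
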