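import Mathlib

/-! MP_7b5a71: greedy cutting of an interval into light blocks. -/

namespace P7b

namespace GreedyAux

theorem step {τ : Type*} [DecidableEq τ] (Tp : ℕ → ℕ → Finset τ) (N w : ℕ)
    (h1 : ∀ i, Tp i (i + 1) = ∅) (i : ℕ) (hi : i < N) :
    ∃ j, i < j ∧ j ≤ N ∧ (Tp i j).card ≤ w ∧ (j = N ∨ w + 1 ≤ (Tp i (j + 1)).card) := by
  classical
  have hP : i < i + 1 ∧ (Tp i (i + 1)).card ≤ w := by
    refine ⟨Nat.lt_succ_self i, ?_⟩
    rw [h1, Finset.card_empty]
    exact Nat.zero_le w
  have hspec := Nat.findGreatest_spec (P := fun j => i < j ∧ (Tp i j).card ≤ w) (n := N)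
    (Nat.succ_le_of_lt hi) hP
  have hle := Nat.findGreatest_le (P := fun j => i < j ∧ (Tp i j).card ≤ w) N
  refine ⟨Nat.findGreatest (fun j => i < j ∧ (Tp i j).card ≤ w) N, hspec.1, hle, hspec.2, ?_⟩
  by_contra hc
  push Not at hc
  obtain ⟨hne, hlt⟩ := hc
  have h2 : Nat.findGreatest (fun j => i < j ∧ (Tp i j).card ≤ w) N + 1 ≤ N := by omega
  have h3 := Nat.findGreatest_is_greatest (P := fun j => i < j ∧ (Tp i j).card ≤ w)
    (Nat.lt_succ_self _) h2
  exact h3 ⟨lt_trans hspec.1 (Nat.lt_succ_self _), Nat.lt_succ_iff.1 hlt⟩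

theorem main {τ : Type*} [DecidableEq τ] (Tp : ℕ → ℕ → Finset τ) (N w : ℕ)
    (hmono : ∀ i j i' j', i' ≤ i → j ≤ j' → Tp i j ⊆ Tp i' j')
    (hdisj : ∀ i j i' j', j ≤ i' → Disjoint (Tp i j) (Tp i' j'))
    (h1 : ∀ i, Tp i (i + 1) = ∅) : ∀ n i, N - i = n → i < N →
    ∃ (m : ℕ) (c : ℕ → ℕ), 0 < m ∧ c 0 = i ∧ c m = N ∧ (∀ t < m, c t < c (t + 1)) ∧
      (∀ t < m, (Tp (c t) (c (t + 1))).card ≤ w) ∧ (m - 1) * (w + 1) ≤ 2 * (Tp i N).card := by
  intro n
  induction n using Nat.strong_induction_on with
  | _ n ih =>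
    intro i hin hi
    obtain ⟨j, hij, hjN, hjw, hj⟩ := step Tp N w h1 i hi
    rcases eq_or_lt_of_le hjN with rfl | hjN'
    · refine ⟨1, fun t => if t = 0 then i else j, Nat.one_pos, by simp, by simp, ?_, ?_, by simp⟩
      · intro t ht
        have : t = 0 := by omega
        subst this
        simpa using hij
      · intro t ht
        have : t = 0 := by omega
        subst this
        simpa using hjw
    · have hw1 : w + 1 ≤ (Tp i (j + 1)).card := by
        rcases hj with h | h
        · omega
        · exact h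
      obtain ⟨k, hjk, hkN, hkw, _⟩ := step Tp N w h1 j hjN'
      rcases eq_or_lt_of_le hkN with rfl | hkN'
      · refine ⟨2, fun t => if t = 0 then i else if t = 1 then j else k, by norm_num, by simp,
          by simp, ?_, ?_, ?_⟩
        · intro t ht
          interval_cases t
          · simpa using hij
          · simpa using hjk
        · intro t ht
          interval_cases t
          · simpa using hjw
          · simpa using hkw
        · have h2 := Finset.card_le_card (hmono i (j + 1) i k le_rfl (by omega))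
          have : (2 - 1) * (w + 1) = w + 1 := by norm_num
          rw [this]
          omega
      · obtain ⟨m, c, hm, hc0, hcm, hlt, hcw, hcard⟩ := ih (N - k) (by omega) k rfl hkN'
        refine ⟨m + 2, fun t => if t = 0 then i else if t = 1 then j else c (t - 2), by omega,
          by simp, by simp [hcm], ?_, ?_, ?_⟩
        · intro t ht
          rcases t with _ | _ | t
          · simpa using hij
          · simpa [hc0] using hjk
          · have := hlt t (by omega)
            simpa using this
        · intro t ht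
          rcases t with _ | _ | t
          · simpa using hjw
          · simpa [hc0] using hkw
          · have := hcw t (by omega)
            simpa using this
        · have h2 : (Tp i (j + 1)).card + (Tp k N).card ≤ (Tp i N).card := by
            rw [← Finset.card_union_of_disjoint (hdisj i (j + 1) k N hjk)]
            refine Finset.card_le_card (Finset.union_subset ?_ ?_)
            · exact hmono _ _ _ _ le_rfl (by omega)
            · exact hmono _ _ _ _ (by omega) le_rfl
          have h3 : (m + 2 - 1) * (w + 1) = (m - 1) * (w + 1) + 2 * (w + 1) := by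
            obtain ⟨m', rfl⟩ : ∃ m', m = m' + 1 := ⟨m - 1, by omega⟩
            simp only [Nat.add_sub_cancel]
            have : m' + 1 + 2 - 1 = m' + 2 := by omega
            rw [this]
            ring
          rw [h3]
          omega

end GreedyAux

/-- `Tp i j` = the tips attached to the interval `[i, j)`.  Greedy cuts. -/
theorem greedy_cut {τ : Type*} [DecidableEq τ] (Tp : ℕ → ℕ → Finset τ) (N w : ℕ) (hN : 0 < N)
    (hmono : ∀ i j i' j', i' ≤ i → j ≤ j' → Tp i j ⊆ Tp i' j')
    (hdisj : ∀ i j i' j', j ≤ i' → Disjoint (Tp i j) (Tp i' j'))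
    (h1 : ∀ i, Tp i (i + 1) = ∅) :
    ∃ (m : ℕ) (c : ℕ → ℕ), 0 < m ∧ c 0 = 0 ∧ c m = N ∧ (∀ t < m, c t < c (t + 1)) ∧
      (∀ t < m, (Tp (c t) (c (t + 1))).card ≤ w) ∧ (m - 1) * (w + 1) ≤ 2 * (Tp 0 N).card :=
  GreedyAux.main Tp N w hmono hdisj h1 (N - 0) 0 rfl hN

end P7b
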