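import Pool.Agent.Lib.P7b.Pocket
import Pool.Agent.Lib.P7b.ColEx

/-! MP_7b5a71: the symbols of a boundary component.

Fix a dart `d₀` and write `O i = nxt^[i] d₀`, `N = per d₀`.  On each side (segment, direction) the cyclic order along the boundary component
is the order along the side, so in the linear order `O 0, ..., O (N-1)` the positions of a side have at most one descent; the symbol of `i`
is (segment, direction, whether `i` is not before the dart of the side with the smallest position). -/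

namespace P7b

namespace PreMap

variable {M : PreMap}

/-- the `i`-th dart of the boundary component of `d₀` -/
def O (M : PreMap) (d₀ : M.D) (i : ℕ) : M.D := (M.nxt^[i]) d₀

/-- same side -/
def Sd (M : PreMap) (d e : M.D) : Prop := M.seg d = M.seg e ∧ M.dir d = M.dir e

/-- `i` is not before the first dart of its side -/
def Cls (M : PreMap) (d₀ : M.D) (i : ℕ) : Prop :=
  ∃ j ≤ i, j < M.per d₀ ∧ M.Sd (M.O d₀ j) (M.O d₀ i) ∧
    ∀ k < M.per d₀, M.Sd (M.O d₀ k) (M.O d₀ i) → M.pos (M.O d₀ j) ≤ M.pos (M.O d₀ k)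

open Classical in
/-- the symbol of the index `i` -/
noncomputable def sym (M : PreMap) (d₀ : M.D) (i : ℕ) : M.S × Bool × Bool :=
  (M.seg (M.O d₀ i), M.dir (M.O d₀ i), decide (M.Cls d₀ i))

namespace IdxAux

theorem O_add (d₀ : M.D) (i k : ℕ) : M.O d₀ (k + i) = (M.nxt^[k]) (M.O d₀ i) := by
  unfold O
  rw [Function.iterate_add_apply]

theorem O_sub (d₀ : M.D) {i j : ℕ} (hij : i ≤ j) : (M.nxt^[j - i]) (M.O d₀ i) = M.O d₀ j := by
  rw [← O_add]
  congr 1
  omega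

theorem O_per (d₀ : M.D) (i : ℕ) : M.O d₀ (M.per d₀ + i) = M.O d₀ i := by
  unfold O
  rw [Nat.add_comm, Function.iterate_add_apply, iter_per]

theorem O_inj (d₀ : M.D) {i j : ℕ} (hi : i < M.per d₀) (hj : j < M.per d₀)
    (h : M.O d₀ i = M.O d₀ j) : i = j := iter_inj d₀ hi hj h

theorem per_O (d₀ : M.D) (i : ℕ) : M.per (M.O d₀ i) = M.per d₀ := per_iter d₀ i

theorem lft_O (h : M.Ax) (d₀ : M.D) (i : ℕ) : M.lft (M.O d₀ i) = M.lft d₀ := h.lft_iter d₀ i

theorem O_wrap (d₀ : M.D) {i j : ℕ} (hj : j < M.per d₀) :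
    (M.nxt^[M.per d₀ - j + i]) (M.O d₀ j) = M.O d₀ i := by
  rw [← O_add]
  rw [show M.per d₀ - j + i + j = M.per d₀ + i by omega]
  exact O_per d₀ i

theorem sd_of_sym {d₀ : M.D} {i j : ℕ} (hs : M.sym d₀ i = M.sym d₀ j) :
    M.Sd (M.O d₀ i) (M.O d₀ j) := by
  unfold sym at hs
  exact ⟨congrArg (fun x => x.1) hs, congrArg (fun x => x.2.1) hs⟩

theorem cls_of_sym {d₀ : M.D} {i j : ℕ} (hs : M.sym d₀ i = M.sym d₀ j) :
    M.Cls d₀ i ↔ M.Cls d₀ j := by
  unfold sym at hs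
  have h2 := congrArg (fun x => x.2.2) hs
  exact decide_eq_decide.mp h2

theorem exists_min (d₀ : M.D) {i : ℕ} (hi : i < M.per d₀) :
    ∃ j₀ < M.per d₀, M.Sd (M.O d₀ j₀) (M.O d₀ i) ∧
      ∀ k < M.per d₀, M.Sd (M.O d₀ k) (M.O d₀ i) → M.pos (M.O d₀ j₀) ≤ M.pos (M.O d₀ k) := by
  classical
  obtain ⟨j₀, hj₀, hmin⟩ := Finset.exists_min_image
    ((Finset.range (M.per d₀)).filter (fun k => M.Sd (M.O d₀ k) (M.O d₀ i)))
    (fun k => M.pos (M.O d₀ k))
    ⟨i, by
      rw [Finset.mem_filter, Finset.mem_range]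
      exact ⟨hi, rfl, rfl⟩⟩
  rw [Finset.mem_filter, Finset.mem_range] at hj₀
  refine ⟨j₀, hj₀.1, hj₀.2, ?_⟩
  intro k hk hsk
  exact hmin k (by
    rw [Finset.mem_filter, Finset.mem_range]
    exact ⟨hk, hsk⟩)

theorem sd_trans {a b c : M.D} (h1 : M.Sd a b) (h2 : M.Sd b c) : M.Sd a c :=
  ⟨h1.1.trans h2.1, h1.2.trans h2.2⟩

theorem sd_symm {a b : M.D} (h1 : M.Sd a b) : M.Sd b a := ⟨h1.1.symm, h1.2.symm⟩

theorem cls_iff (h : M.Ax) (d₀ : M.D) {i j₀ : ℕ} (hj₀ : j₀ < M.per d₀)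
    (hs : M.Sd (M.O d₀ j₀) (M.O d₀ i))
    (hmin : ∀ k < M.per d₀, M.Sd (M.O d₀ k) (M.O d₀ i) → M.pos (M.O d₀ j₀) ≤ M.pos (M.O d₀ k)) :
    M.Cls d₀ i ↔ j₀ ≤ i := by
  constructor
  · rintro ⟨j, hji, hj, hsj, hm⟩
    have h1 := hmin j hj hsj
    have h2 := hm j₀ hj₀ hs
    have h3 : M.O d₀ j = M.O d₀ j₀ := by
      have hsd := sd_trans hsj (sd_symm hs)
      exact h.pos_inj _ _ hsd.1 hsd.2 (by omega)
    have h4 := O_inj d₀ hj hj₀ h3
    omega
  · intro hle
    exact ⟨j₀, hle, hj₀, hs, hmin⟩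

theorem cls_mono {d₀ : M.D} {i k : ℕ} (hik : i ≤ k) (hs : M.Sd (M.O d₀ i) (M.O d₀ k))
    (hc : M.Cls d₀ i) : M.Cls d₀ k := by
  obtain ⟨j, hji, hj, hsj, hm⟩ := hc
  exact ⟨j, le_trans hji hik, hj, sd_trans hsj hs, fun l hl hsl => hm l hl (sd_trans hsl (sd_symm hs))⟩

end IdxAux

open IdxAux

theorem mem_arc_idx (d₀ : M.D) {i j k : ℕ} (hij : i < j) (hj : j < M.per d₀) (hk : k < M.per d₀) :
    M.O d₀ k ∈ M.arc (M.O d₀ i) (j - i) ↔ i < k ∧ k < j := by
  rw [mem_arc]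
  constructor
  · rintro ⟨a, ha0, ha, he⟩
    rw [← O_add] at he
    have := O_inj d₀ hk (by omega) he
    omega
  · rintro ⟨h1, h2⟩
    exact ⟨k - i, by omega, by omega, (O_sub d₀ h1.le).symm⟩

/-- the wrapped arc -/
theorem mem_arc_idx' (d₀ : M.D) {i j k : ℕ} (hij : i < j) (hj : j < M.per d₀)
    (hk : k < M.per d₀) :
    M.O d₀ k ∈ M.arc (M.O d₀ j) (M.per d₀ - j + i) ↔ j < k ∨ k < i := by
  rw [mem_arc]
  constructor
  · rintro ⟨a, ha0, ha, he⟩
    rw [← O_add] at he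
    by_cases hlt : a + j < M.per d₀
    · have := O_inj d₀ hk hlt he
      omega
    · obtain ⟨b, hb⟩ := Nat.exists_eq_add_of_le (Nat.le_of_not_lt hlt)
      rw [hb, O_per] at he
      have := O_inj d₀ hk (by omega) he
      omega
  · rintro (h1 | h1)
    · exact ⟨k - j, by omega, by omega, (O_sub d₀ h1.le).symm⟩
    · exact ⟨M.per d₀ - j + k, by omega, by omega, (O_wrap d₀ hj).symm⟩

/-- Within a symbol the position increases with the index.  Proof: `j₀` = the index of the dart of the side with smallest position.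
If both indices are `≥ j₀` (`Cls`; the witness is `j₀` by `pos_inj`) and `pos (O j) < pos (O i)`, then `i ≠ j₀`, the pocket of `O j₀, O i` (`exists_col`) contains
`O j` (`in_own`; `j ≠ j₀`), which has the same left face, so `j₀ < j < i` by `in_arc`, `mem_arc_idx`; contradiction.  If both are `< j₀`: the same with the wrapped arc from
`O j₀` to `O i`: `O j` in it means `j > j₀` or `j < i`. -/
theorem Ax.sym_pos (h : M.Ax) (d₀ : M.D) {i j : ℕ} (hij : i < j) (hj : j < M.per d₀)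
    (hs : M.sym d₀ i = M.sym d₀ j) : M.pos (M.O d₀ i) < M.pos (M.O d₀ j) := by
  have hi : i < M.per d₀ := lt_trans hij hj
  have hsd := sd_of_sym hs
  have hcl := cls_of_sym hs
  obtain ⟨j₀, hj₀, hsj₀, hmin⟩ := exists_min d₀ hi
  have hsj₀' : M.Sd (M.O d₀ j₀) (M.O d₀ j) := sd_trans hsj₀ hsd
  have hmin' : ∀ k < M.per d₀, M.Sd (M.O d₀ k) (M.O d₀ j) →
      M.pos (M.O d₀ j₀) ≤ M.pos (M.O d₀ k) := fun k hk hsk => hmin k hk (sd_trans hsk (sd_symm hsd))
  have hci := cls_iff h d₀ hj₀ hsj₀ hmin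
  have hcj := cls_iff h d₀ hj₀ hsj₀' hmin'
  have hiff : j₀ ≤ i ↔ j₀ ≤ j := hci.symm.trans (hcl.trans hcj)
  by_contra hcon
  have hne : M.pos (M.O d₀ i) ≠ M.pos (M.O d₀ j) := by
    intro he
    have := O_inj d₀ hi hj (h.pos_inj _ _ hsd.1 hsd.2 he)
    omega
  have hlt : M.pos (M.O d₀ j) < M.pos (M.O d₀ i) := by omega
  have h0j := hmin j hj (sd_symm hsd)
  have h0i := hmin i hi ⟨rfl, rfl⟩
  have hj0j : j₀ ≠ j := by
    intro he
    have h1 : i < j₀ := by omega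
    have h2 : j₀ ≤ i := hiff.mpr he.le
    omega
  have h0j' : M.pos (M.O d₀ j₀) < M.pos (M.O d₀ j) := by
    refine lt_of_le_of_ne h0j ?_
    intro he
    exact hj0j (O_inj d₀ hj₀ hj (h.pos_inj _ _ hsj₀'.1 hsj₀'.2 he))
  have hlft : M.lft (M.O d₀ j) = M.lft (M.O d₀ j₀) := by rw [lft_O h, lft_O h]
  by_cases hle : j₀ ≤ i
  · have hlt0 : j₀ < i := by
      rcases Nat.lt_or_ge j₀ i with h1 | h1
      · exact h1
      · exfalso
        have : j₀ = i := by omega
        rw [this] at h0j'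
        omega
    have hsub := O_sub d₀ hlt0.le
    obtain ⟨c, hc⟩ := h.exists_col (M.O d₀ j₀) (i - j₀) (by omega) (by rw [per_O]; omega)
      (by rw [hsub]; exact hsj₀.1.symm) (by rw [hsub]; exact hsj₀.2.symm)
      (by rw [hsub]; omega)
    have hin : M.In (M.O d₀ j₀) (i - j₀) c (M.O d₀ j) := by
      rw [h.in_own hc _ hsj₀'.1.symm hsj₀'.2.symm, hsub]
      exact ⟨h0j', hlt⟩
    rw [h.in_arc hc _ hlft, mem_arc_idx d₀ hlt0 hi hj] at hin
    omega
  · have hlt0 : i < j₀ := by omega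
    have hlt1 : j < j₀ := by
      by_contra hh
      exact hle (hiff.mpr (by omega))
    have hwr := O_wrap d₀ (i := i) hj₀
    obtain ⟨c, hc⟩ := h.exists_col (M.O d₀ j₀) (M.per d₀ - j₀ + i) (by omega) (by rw [per_O]; omega)
      (by rw [hwr]; exact hsj₀.1.symm) (by rw [hwr]; exact hsj₀.2.symm)
      (by rw [hwr]; omega)
    have hin : M.In (M.O d₀ j₀) (M.per d₀ - j₀ + i) c (M.O d₀ j) := by
      rw [h.in_own hc _ hsj₀'.1.symm hsj₀'.2.symm, hwr]
      exact ⟨h0j', hlt⟩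
    rw [h.in_arc hc _ hlft, mem_arc_idx' d₀ hlt0 hj₀ hj] at hin
    omega

/-- the pocket of two indices with the same symbol -/
theorem Ax.col_idx (h : M.Ax) (d₀ : M.D) {i j : ℕ} (hij : i < j) (hj : j < M.per d₀)
    (hs : M.sym d₀ i = M.sym d₀ j) : ∃ c, M.Col (M.O d₀ i) (j - i) c := by
  have hsd := sd_of_sym hs
  have hpos := h.sym_pos d₀ hij hj hs
  have hsub := O_sub d₀ hij.le
  exact h.exists_col (M.O d₀ i) (j - i) (by omega) (by rw [per_O]; omega)
    (by rw [hsub]; exact hsd.1.symm) (by rw [hsub]; exact hsd.2.symm)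
    (by rw [hsub]; exact hpos)

/-- Between two equal symbols there is no other symbol of the same segment.  Proof: `O k` is in the arc and has the same left face, so it is in the
pocket (`in_arc`); by `in_opp` its direction is that of `O i`; `Cls` is monotone in the index along a side, so the third components agree. -/
theorem Ax.sym_between (h : M.Ax) (d₀ : M.D) {i k j : ℕ} (hik : i < k) (hkj : k < j)
    (hj : j < M.per d₀) (hs : M.sym d₀ i = M.sym d₀ j) (hk : M.seg (M.O d₀ k) = M.seg (M.O d₀ i)) :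
    M.sym d₀ k = M.sym d₀ i := by
  have hsd := sd_of_sym hs
  have hcl := cls_of_sym hs
  obtain ⟨c, hc⟩ := h.col_idx d₀ (lt_trans hik hkj) hj hs
  have hlft : M.lft (M.O d₀ k) = M.lft (M.O d₀ i) := by rw [lft_O h, lft_O h]
  have hin : M.In (M.O d₀ i) (j - i) c (M.O d₀ k) := by
    rw [h.in_arc hc _ hlft, mem_arc_idx d₀ (lt_trans hik hkj) hj (lt_trans hkj hj)]
    exact ⟨hik, hkj⟩
  have hdir : M.dir (M.O d₀ k) = M.dir (M.O d₀ i) := by
    by_contra hne
    exact h.in_opp hc _ hk hne hin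
  have hski : M.Sd (M.O d₀ k) (M.O d₀ i) := ⟨hk, hdir⟩
  have hck : M.Cls d₀ k ↔ M.Cls d₀ i := by
    constructor
    · intro hh
      exact hcl.mpr (cls_mono hkj.le (sd_trans hski hsd) hh)
    · intro hh
      exact cls_mono hik.le (sd_symm hski) hh
  unfold sym
  rw [hk, hdir, propext hck]

/-- consecutive symbols are different (`nxt_tip`, `dir_rev`, `nxt_seg`) -/
theorem Ax.sym_succ_ne (h : M.Ax) (d₀ : M.D) (i : ℕ) : M.sym d₀ i ≠ M.sym d₀ (i + 1) := by
  intro hs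
  have hsd := sd_of_sym hs
  have hsucc : M.O d₀ (i + 1) = M.nxt (M.O d₀ i) := by
    rw [Nat.add_comm, O_add]
    rfl
  by_cases ht : M.tip (M.O d₀ i)
  · have h1 := hsd.2
    rw [hsucc, h.nxt_tip _ ht, h.dir_rev] at h1
    cases hd : M.dir (M.O d₀ i) <;> rw [hd] at h1 <;> simp at h1
  · have h1 := hsd.1
    rw [hsucc] at h1
    exact h.nxt_seg _ ht h1.symm

end PreMap

end P7b
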