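import Pool.Agent.Lib.P7b.GDefs

/-! MP_7b5a71: families of segments any two of which share at most one point, and their perturbations. -/

namespace P7b

open Complex

/-- Nondegenerate segments, any two of them share at most one point (concurrent segments, endpoints on other segments,
common endpoints, collinear segments touching at an endpoint are allowed). -/
structure LP (S : Finset Sg) : Prop where
  ne : ∀ s ∈ S, s.1 ≠ s.2
  sub : ∀ s ∈ S, ∀ t ∈ S, s ≠ t → (car s ∩ car t).Subsingleton

theorem LP.mono {S R : Finset Sg} (h : LP S) (hs : R ⊆ S) : LP R :=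
  ⟨fun s hs' => h.ne s (hs hs'), fun s hs' t ht => h.sub s (hs hs') t (hs ht)⟩

theorem GP.lp {S : Finset Sg} (h : GP S) : LP S := ⟨h.ne, h.sub⟩

/-- `p` moves every segment of `S`, lengthened by the factor `1 + 2 ε`, by less than `δ` at each end -/
def Near (S : Finset Sg) (ε δ : ℝ) (p : Sg → Sg) : Prop :=
  ∀ s ∈ S, dist (p s).1 (s.1 - (ε : ℂ) * (s.2 - s.1)) < δ ∧
    dist (p s).2 (s.2 + (ε : ℂ) * (s.2 - s.1)) < δ

/-- `Q` holds for all small perturbations (first `ε` small, then `δ` small) -/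
def Ev (S : Finset Sg) (Q : (Sg → Sg) → Prop) : Prop :=
  ∃ ε₀ > 0, ∀ ε, 0 < ε → ε < ε₀ → ∃ δ₀ > 0, ∀ δ, 0 < δ → δ < δ₀ → ∀ p, Near S ε δ p → Q p

end P7b
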