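import Pool.Agent.Lib.P7b.LPDefs

/-! MP_7b5a71: finiteness and the midpoints of the edges for families with the property `LP`.

`lp_vx_finite`: endpoints and, for each pair, at most one point.  `lp_edges_finite`: an edge is determined by its two end vertices.
`edge_sep`: `e₁ ≠ e₂` edges on the same segment `s`, `m₁ ∈ e₁`, `m₂ ∈ e₂`: there is a vertex in `openSegment ℝ m₁ m₂`.  (Coordinates on `s`: `e_i = openSegment p_i q_i` are maximal intervals without vertices,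
so they are disjoint or equal, and an end of `e₁` lies strictly between `m₁` and `m₂`.) -/

namespace P7b

theorem LP.vx_finite {R : Finset Sg} (h : LP R) : (Vx R).Finite := by
  classical
  unfold Vx
  refine Set.Finite.union ?_ ?_
  · refine Set.Finite.subset (Set.Finite.biUnion R.finite_toSet
      (fun s _ => Set.toFinite ({s.1, s.2} : Set ℂ))) ?_
    rintro z ⟨s, hs, hz⟩
    simp only [Set.mem_iUnion, Set.mem_insert_iff, Set.mem_singleton_iff]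
    exact ⟨s, hs, hz⟩
  · refine Set.Finite.subset (Set.Finite.biUnion R.finite_toSet
      (fun s hs => Set.Finite.biUnion R.finite_toSet
        (fun t ht => (?_ : ({z | s ≠ t ∧ z ∈ car s ∧ z ∈ car t} : Set ℂ).Finite)))) ?_
    · by_cases hst : s = t
      · refine Set.Finite.subset Set.finite_empty ?_
        rintro z ⟨h1, -⟩
        exact absurd hst h1
      · refine Set.Finite.subset (h.sub s hs t ht hst).finite ?_
        rintro z ⟨-, h1, h2⟩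
        exact ⟨h1, h2⟩
    · rintro z ⟨s, hs, t, ht, hst, h1, h2⟩
      simp only [Set.mem_iUnion]
      exact ⟨s, hs, t, ht, hst, h1, h2⟩

theorem LP.edges_finite {R : Finset Sg} (h : LP R) (x : ℂ) : (faceEdges R x).Finite := by
  classical
  refine Set.Finite.subset ((h.vx_finite.prod h.vx_finite).image
    (fun pq : ℂ × ℂ => openSegment ℝ pq.1 pq.2)) ?_
  rintro e ⟨⟨s, hs, p, hp, q, hq, -, -, rfl⟩, -⟩
  exact ⟨(p, q), ⟨hp.1, hq.1⟩, rfl⟩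

/-- `e` is an edge on the segment `s` -/
def EdgeOn (R : Finset Sg) (s : Sg) (e : Set ℂ) : Prop :=
  ∃ p ∈ Vx R ∩ car s, ∃ q ∈ Vx R ∩ car s, p ≠ q ∧
    Disjoint (openSegment ℝ p q) (Vx R) ∧ e = openSegment ℝ p q

namespace LPFinAux

/-- coordinates of an edge on the line of `s` -/
theorem coord {R : Finset Sg} {s : Sg} (hs : s.1 ≠ s.2) {e : Set ℂ} (h : EdgeOn R s e) :
    ∃ a b : ℝ, a < b ∧ AffineMap.lineMap s.1 s.2 a ∈ Vx R ∧ AffineMap.lineMap s.1 s.2 b ∈ Vx R ∧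
      (∀ t : ℝ, AffineMap.lineMap s.1 s.2 t ∈ Vx R → ¬ (a < t ∧ t < b)) ∧
      e = (AffineMap.lineMap s.1 s.2 : ℝ → ℂ) '' Set.Ioo a b := by
  obtain ⟨p, ⟨hpv, hps⟩, q, ⟨hqv, hqs⟩, hpq, hd, rfl⟩ := h
  have hinj : Function.Injective (AffineMap.lineMap s.1 s.2 : ℝ → ℂ) :=
    AffineMap.lineMap_injective ℝ hs
  unfold car at hps hqs
  rw [segment_eq_image_lineMap] at hps hqs
  obtain ⟨a, -, rfl⟩ := hps
  obtain ⟨b, -, rfl⟩ := hqs
  have hab : a ≠ b := fun h => hpq (by rw [h])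
  have key : ∀ a b : ℝ, a < b → openSegment ℝ ((AffineMap.lineMap s.1 s.2 : ℝ →ᵃ[ℝ] ℂ) a)
      ((AffineMap.lineMap s.1 s.2 : ℝ →ᵃ[ℝ] ℂ) b) =
      (AffineMap.lineMap s.1 s.2 : ℝ → ℂ) '' Set.Ioo a b := by
    intro a b hab
    rw [← openSegment_eq_Ioo hab, image_openSegment]
  rcases lt_or_gt_of_ne hab with h | h
  · refine ⟨a, b, h, hpv, hqv, ?_, key a b h⟩
    intro t ht h'
    rw [key a b h] at hd
    exact Set.disjoint_left.1 hd ⟨t, h', rfl⟩ ht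
  · rw [openSegment_symm] at hd ⊢
    refine ⟨b, a, h, hqv, hpv, ?_, key b a h⟩
    intro t ht h'
    rw [key b a h] at hd
    exact Set.disjoint_left.1 hd ⟨t, h', rfl⟩ ht

end LPFinAux

theorem edge_sep {R : Finset Sg} (h : LP R) {s : Sg} (hs : s ∈ R) {e₁ e₂ : Set ℂ}
    (h1 : EdgeOn R s e₁) (h2 : EdgeOn R s e₂) (hne : e₁ ≠ e₂) {m₁ m₂ : ℂ} (hm1 : m₁ ∈ e₁)
    (hm2 : m₂ ∈ e₂) : ∃ y ∈ openSegment ℝ m₁ m₂, y ∈ Vx R := by
  obtain ⟨a₁, b₁, hab₁, ha₁, hb₁, hv₁, rfl⟩ := LPFinAux.coord (h.ne s hs) h1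
  obtain ⟨a₂, b₂, hab₂, ha₂, hb₂, hv₂, rfl⟩ := LPFinAux.coord (h.ne s hs) h2
  obtain ⟨t₁, ht₁, rfl⟩ := hm1
  obtain ⟨t₂, ht₂, rfl⟩ := hm2
  have key : ∀ a b t : ℝ, a < t → t < b → (AffineMap.lineMap s.1 s.2 : ℝ → ℂ) t ∈
      openSegment ℝ ((AffineMap.lineMap s.1 s.2 : ℝ → ℂ) a)
      ((AffineMap.lineMap s.1 s.2 : ℝ → ℂ) b) := by
    intro a b t h1 h2
    rw [← image_openSegment, openSegment_eq_Ioo (h1.trans h2)]
    exact ⟨t, ⟨h1, h2⟩, rfl⟩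
  rcases le_or_gt b₁ a₂ with hc | hc
  · exact ⟨_, key _ _ b₁ ht₁.2 (lt_of_le_of_lt hc ht₂.1), hb₁⟩
  · rcases le_or_gt b₂ a₁ with hc' | hc'
    · refine ⟨_, ?_, hb₂⟩
      rw [openSegment_symm]
      exact key _ _ b₂ ht₂.2 (lt_of_le_of_lt hc' ht₁.1)
    · exfalso
      have e1 : a₂ ≤ a₁ := not_lt.1 fun h' => hv₁ _ ha₂ ⟨h', hc⟩
      have e2 : a₁ ≤ a₂ := not_lt.1 fun h' => hv₂ _ ha₁ ⟨h', hc'⟩
      have e3 : b₂ ≤ b₁ := not_lt.1 fun h' => hv₂ _ hb₁ ⟨hc, h'⟩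
      have e4 : b₁ ≤ b₂ := not_lt.1 fun h' => hv₁ _ hb₂ ⟨hc', h'⟩
      apply hne
      rw [le_antisymm e2 e1, le_antisymm e4 e3]

end P7b
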