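import Pool.Agent.Lib.P7b.Map

/-! MP_7b5a71: elementary consequences of the axioms (vertices and straight lines).

Write `ρ x = nxt (rev x)` (rotation of outgoing darts).  At a crossing, with `d` arriving: `N = nxt d`, `ρ N = str d`,
`S' = ρ (str d)`, `ρ S' = rev d` (this is `str_rev`), `ρ (rev d) = N`.  The head of `rev (str d)`, `rev N`, `rev S'` is the head of
`d` (`org_nxt`, `rev_rev`). -/

namespace P7b

namespace PreMap

variable {M : PreMap}

theorem Ax.org_str (h : M.Ax) (d : M.D) : M.org (M.str d) = M.org (M.rev d) := by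
  show M.org (M.nxt (M.rev (M.nxt d))) = M.org (M.rev d)
  rw [h.org_nxt, h.rev_rev, h.org_nxt]

theorem Ax.tip_rev_str (h : M.Ax) (d : M.D) : M.tip (M.rev (M.str d)) ↔ M.tip d := by
  show M.tipV (M.org (M.rev (M.rev (M.str d)))) ↔ M.tipV (M.org (M.rev d))
  rw [h.rev_rev, h.org_str]

theorem Ax.tip_rev_nxt (h : M.Ax) (d : M.D) : M.tip (M.rev (M.nxt d)) ↔ M.tip d := by
  show M.tipV (M.org (M.rev (M.rev (M.nxt d)))) ↔ M.tipV (M.org (M.rev d))
  rw [h.rev_rev, h.org_nxt]

/-- the dart on the right is not the reverse of a tip -/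
theorem MapBasicAux.not_tip_right (h : M.Ax) (d : M.D) (hd : ¬ M.tip d) :
    ¬ M.tip (M.rev (M.nxt (M.rev (M.str d)))) := by
  intro ht
  exact hd ((h.tip_rev_str d).1 ((h.tip_rev_nxt _).1 ht))

theorem MapBasicAux.str_right' (h : M.Ax) (d : M.D) (hd : ¬ M.tip d) :
    M.str (M.rev (M.nxt (M.rev (M.str d)))) = M.nxt d := by
  have h1 : M.nxt (M.rev (M.nxt (M.rev (M.str d)))) = M.rev d := h.str_rev d hd
  show M.nxt (M.rev (M.nxt (M.rev (M.nxt (M.rev (M.str d)))))) = M.nxt d
  rw [h1, h.rev_rev]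

/-- the dart leaving on the right side of `d` is the reverse continuation of `nxt d` -/
theorem Ax.seg_right (h : M.Ax) (d : M.D) (hd : ¬ M.tip d) :
    M.seg (M.nxt (M.rev (M.str d))) = M.seg (M.nxt d) := by
  have h1 := MapBasicAux.str_right' h d hd
  have h2 := h.str_seg _ (MapBasicAux.not_tip_right h d hd)
  rw [h1, h.seg_rev] at h2
  exact h2.symm

theorem Ax.dir_right (h : M.Ax) (d : M.D) (hd : ¬ M.tip d) :
    M.dir (M.nxt (M.rev (M.str d))) = !M.dir (M.nxt d) := by
  have h1 := MapBasicAux.str_right' h d hd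
  have h2 := h.str_dir _ (MapBasicAux.not_tip_right h d hd)
  rw [h1, h.dir_rev] at h2
  rw [h2, Bool.not_not]

/-- `str (rev S') = N` -/
theorem Ax.str_right (h : M.Ax) (d : M.D) (hd : ¬ M.tip d) :
    M.str (M.rev (M.nxt (M.rev (M.str d)))) = M.nxt d := by
  exact MapBasicAux.str_right' h d hd

/-- the other crossing segment seen from the other segment -/
theorem Ax.seg_nxt_rev_nxt (h : M.Ax) (d : M.D) (hd : ¬ M.tip d) :
    M.seg (M.nxt (M.rev (M.nxt d))) = M.seg d := by
  exact h.str_seg d hd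

theorem Ax.pos_rev_str (h : M.Ax) (d : M.D) (hd : ¬ M.tip d) :
    M.pos (M.rev (M.str d)) + 1 = M.pos (M.rev d) := by
  have h1 := h.str_pos (M.rev (M.str d)) (fun ht => hd ((h.tip_rev_str d).1 ht))
  rw [h.str_rev d hd] at h1
  exact h1.symm

/-- Darts of the same segment and direction are connected by `str`. -/
theorem Ax.chain (h : M.Ax) (d e : M.D) (hs : M.seg d = M.seg e) (hd : M.dir d = M.dir e)
    (hp : M.pos d ≤ M.pos e) :
    (∀ i < M.pos e - M.pos d, ¬ M.tip (M.str^[i] d)) ∧ M.str^[M.pos e - M.pos d] d = e := by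
  obtain ⟨k, hk⟩ : ∃ k, k = M.pos e - M.pos d := ⟨_, rfl⟩
  rw [← hk]
  induction k generalizing d with
  | zero =>
    refine ⟨fun i hi => absurd hi (Nat.not_lt_zero i), ?_⟩
    exact h.pos_inj d e hs hd (by omega)
  | succ k ih =>
    have hnt : ¬ M.tip d := by
      intro ht
      have := h.tip_last d e ht hs.symm hd.symm
      omega
    have h1 := h.str_pos d hnt
    have h2 := ih (M.str d) ((h.str_seg d hnt).trans hs) ((h.str_dir d hnt).trans hd) (by omega) (by omega)
    refine ⟨?_, ?_⟩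
    · intro i hi
      cases i with
      | zero => exact hnt
      | succ i =>
        rw [Function.iterate_succ_apply]
        exact h2.1 i (by omega)
    · rw [Function.iterate_succ_apply]
      exact h2.2

theorem Ax.not_tip_of_lt (h : M.Ax) (d e : M.D) (hs : M.seg d = M.seg e) (hd : M.dir d = M.dir e)
    (hp : M.pos d < M.pos e) : ¬ M.tip d := by
  intro ht
  have := h.tip_last d e ht hs.symm hd.symm
  omega

theorem MapBasicAux.pos_add_rev_le (h : M.Ax) (d e : M.D) (hs : M.seg d = M.seg e)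
    (hd : M.dir d = M.dir e) (hp : M.pos d ≤ M.pos e) :
    M.pos d + M.pos (M.rev d) = M.pos e + M.pos (M.rev e) := by
  obtain ⟨k, hk⟩ : ∃ k, k = M.pos e - M.pos d := ⟨_, rfl⟩
  induction k generalizing d with
  | zero =>
    have := h.pos_inj d e hs hd (by omega)
    rw [this]
  | succ k ih =>
    have hnt : ¬ M.tip d := h.not_tip_of_lt d e hs hd (by omega)
    have h1 := h.str_pos d hnt
    have h2 := ih (M.str d) ((h.str_seg d hnt).trans hs) ((h.str_dir d hnt).trans hd) (by omega) (by omega)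
    have h3 := h.pos_rev_str d hnt
    omega

theorem Ax.pos_add_rev (h : M.Ax) (d e : M.D) (hs : M.seg d = M.seg e) (hd : M.dir d = M.dir e) :
    M.pos d + M.pos (M.rev d) = M.pos e + M.pos (M.rev e) := by
  rcases le_total (M.pos d) (M.pos e) with hp | hp
  · exact MapBasicAux.pos_add_rev_le h d e hs hd hp
  · exact (MapBasicAux.pos_add_rev_le h e d hs.symm hd.symm hp).symm

/-- the last dart of a side -/
theorem Ax.exists_tip (h : M.Ax) (d : M.D) :
    ∃ t, M.seg t = M.seg d ∧ M.dir t = M.dir d ∧ M.tip t ∧ M.pos d ≤ M.pos t := by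
  classical
  obtain ⟨t, ht, hmax⟩ := Finset.exists_max_image
    ((Finset.univ : Finset M.D).filter (fun e : M.D => M.seg e = M.seg d ∧ M.dir e = M.dir d)) M.pos
    ⟨d, Finset.mem_filter.2 ⟨Finset.mem_univ _, rfl, rfl⟩⟩
  rw [Finset.mem_filter] at ht
  refine ⟨t, ht.2.1, ht.2.2, ?_, hmax d (Finset.mem_filter.2 ⟨Finset.mem_univ _, rfl, rfl⟩)⟩
  by_contra hnt
  have h1 := h.str_pos t hnt
  have h2 := hmax (M.str t) (Finset.mem_filter.2 ⟨Finset.mem_univ _, (h.str_seg t hnt).trans ht.2.1,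
    (h.str_dir t hnt).trans ht.2.2⟩)
  omega

theorem MapBasicAux.no_cross (h : M.Ax) (a b : M.S) (Q : M.D → Prop)
    (hstr : ∀ d, M.seg d = a → ¬ M.tip d → M.seg (M.nxt d) ≠ b → (Q (M.str d) ↔ Q d))
    (htip : ∀ d, M.seg d = a → M.tip d → ¬ Q d) (d : M.D) (hd : M.seg d = a)
    (hn : ∀ e, M.seg e = a → M.dir e = M.dir d → M.pos d ≤ M.pos e → ¬ M.tip e → M.seg (M.nxt e) ≠ b) :
    ¬ Q d := by
  obtain ⟨t, ht1, ht2, ht3, ht4⟩ := h.exists_tip d
  obtain ⟨k, hk⟩ : ∃ k, k = M.pos t - M.pos d := ⟨_, rfl⟩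
  induction k generalizing d with
  | zero =>
    have := h.pos_inj d t ht1.symm ht2.symm (by omega)
    rw [this]
    exact htip t (ht1.trans hd) ht3
  | succ k ih =>
    have hnt : ¬ M.tip d := h.not_tip_of_lt d t ht1.symm ht2.symm (by omega)
    rw [← hstr d hd hnt (hn d hd rfl le_rfl hnt)]
    have h1 := h.str_pos d hnt
    have h2 := h.str_seg d hnt
    have h3 := h.str_dir d hnt
    apply ih (M.str d) (h2.trans hd)
    · intro e he1 he2 he3 he4
      exact hn e he1 (he2.trans h3) (by omega) he4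
    · rw [ht1, h2]
    · rw [ht2, h3]
    · omega
    · omega

/-- A property of darts of a segment that passes from a dart to the straight continuation, except at the crossing
with `b`, and that is invariant under reversal, vanishes as soon as it vanishes at the two tips. -/
theorem Ax.prop_seg (h : M.Ax) (a b : M.S) (Q : M.D → Prop)
    (hrev : ∀ d, M.seg d = a → (Q (M.rev d) ↔ Q d))
    (hstr : ∀ d, M.seg d = a → ¬ M.tip d → M.seg (M.nxt d) ≠ b → (Q (M.str d) ↔ Q d))
    (htip : ∀ d, M.seg d = a → M.tip d → ¬ Q d) : ∀ d, M.seg d = a → ¬ Q d := by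
  intro d hd
  by_cases hc : ∃ c, M.seg c = a ∧ M.dir c = M.dir d ∧ M.pos d ≤ M.pos c ∧ ¬ M.tip c ∧ M.seg (M.nxt c) = b
  · obtain ⟨c, hca, hcd, hcp, hct, hcb⟩ := hc
    rw [← hrev d hd]
    apply MapBasicAux.no_cross h a b Q hstr htip (M.rev d) ((h.seg_rev d).trans hd)
    intro e hea hed hep het heb
    -- the crossing dart in the other direction
    have hct' : ¬ M.tip (M.rev (M.str c)) := fun ht => hct ((h.tip_rev_str c).1 ht)
    have hseg' : M.seg (M.rev (M.str c)) = M.seg e := by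
      rw [h.seg_rev, h.str_seg c hct, hca, hea]
    have hdir' : M.dir (M.rev (M.str c)) = M.dir e := by
      rw [h.dir_rev, h.str_dir c hct, hcd, hed, h.dir_rev]
    have hec := h.cross_uniq (M.rev (M.str c)) e hct' het hseg' hdir'
      (by rw [h.seg_right c hct, hcb, heb])
    have h1 := h.pos_rev_str c hct
    rw [hec] at h1
    have h2 := h.pos_add_rev d c (hd.trans hca.symm) hcd.symm
    omega
  · apply MapBasicAux.no_cross h a b Q hstr htip d hd
    intro e hea hed hep het heb
    exact hc ⟨e, hea, hed, hep, het, heb⟩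

end PreMap

end P7b
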