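import Pool.Agent.Lib.P7b.MapBasic
import Pool.Agent.Lib.P7b.Orb

/-! MP_7b5a71: each side appears in at most one boundary component of a face.

Proof.  Let `l` be the boundary component of `u` (`walk_orbit`), `c` its colouring (`planar`), `count_orbit`.  Put `η d = c (lft d) + ind (d is in
the component of u)` in `ZMod 2`.  Then `η (nxt d) = η d` and `η (rev d) = η d`.  `u` and `w` are connected by `str` (`chain`, WLOG `pos u ≤ pos w`), so
`η u = η w`, and `c (lft u) = c (lft w)`; `u` is in its component, so `w` is. -/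

namespace P7b

namespace UniqAux

variable {M : PreMap}

theorem orb_nxt (u d : M.D) : (∃ i, M.nxt d = (M.nxt^[i]) u) ↔ (∃ i, d = (M.nxt^[i]) u) := by
  constructor
  · rintro ⟨i, hi⟩
    refine ⟨i + M.per u - 1, ?_⟩
    have hp := PreMap.per_pos (M := M) u
    apply M.nxt.injective
    rw [← Function.iterate_succ_apply' M.nxt]
    have : (i + M.per u - 1).succ = i + M.per u := by omega
    rw [this, Function.iterate_add_apply, PreMap.iter_per]
    exact hi
  · rintro ⟨i, hi⟩
    refine ⟨i + 1, ?_⟩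
    rw [Function.iterate_succ_apply', hi]

theorem zmod2_aux : ∀ a b p q : ZMod 2, a + b = p + q → b + q = a + p := by
  decide

theorem ind_natCast (p : Prop) [Decidable p] :
    (((if p then 1 else 0 : ℕ)) : ZMod 2) = ind p := by
  by_cases h : p
  · rw [ind_true h]; simp [h]
  · rw [ind_false h]; simp [h]

end UniqAux

namespace PreMap

variable {M : PreMap}

theorem Ax.same_orbit (h : M.Ax) (u w : M.D) (hl : M.lft u = M.lft w) (hs : M.seg u = M.seg w)
    (hd : M.dir u = M.dir w) : ∃ i < M.per u, w = (M.nxt^[i]) u := by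
  classical
  obtain ⟨c, hc⟩ := h.planar (M.org u) _ (h.walk_orbit u)
  have hc' : ∀ d, c (M.lft d) + c (M.lft (M.rev d)) =
      ind (∃ i, d = (M.nxt^[i]) u) + ind (∃ i, M.rev d = (M.nxt^[i]) u) := by
    intro d
    rw [hc d, count_orbit, count_orbit, UniqAux.ind_natCast, UniqAux.ind_natCast]
  have hrev : ∀ d, c (M.lft (M.rev d)) + ind (∃ i, M.rev d = (M.nxt^[i]) u) =
      c (M.lft d) + ind (∃ i, d = (M.nxt^[i]) u) :=
    fun d => UniqAux.zmod2_aux _ _ _ _ (hc' d)
  have hnxt : ∀ d, c (M.lft (M.nxt d)) + ind (∃ i, M.nxt d = (M.nxt^[i]) u) =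
      c (M.lft d) + ind (∃ i, d = (M.nxt^[i]) u) := by
    intro d
    rw [h.lft_nxt, ind_congr (UniqAux.orb_nxt u d)]
  have hstr : ∀ d, c (M.lft (M.str d)) + ind (∃ i, M.str d = (M.nxt^[i]) u) =
      c (M.lft d) + ind (∃ i, d = (M.nxt^[i]) u) := by
    intro d
    unfold PreMap.str
    rw [hnxt, hrev, hnxt]
  have hstrk : ∀ (k : ℕ) (d : M.D), c (M.lft (M.str^[k] d)) +
      ind (∃ i, M.str^[k] d = (M.nxt^[i]) u) = c (M.lft d) + ind (∃ i, d = (M.nxt^[i]) u) := by
    intro k
    induction k with
    | zero => intro d; rfl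
    | succ k ih =>
      intro d
      rw [Function.iterate_succ_apply, ih, hstr]
  have key : c (M.lft u) + ind (∃ i, u = (M.nxt^[i]) u) =
      c (M.lft w) + ind (∃ i, w = (M.nxt^[i]) u) := by
    rcases le_total (M.pos u) (M.pos w) with hp | hp
    · have := (h.chain u w hs hd hp).2
      have h2 := hstrk (M.pos w - M.pos u) u
      rw [this] at h2
      exact h2.symm
    · have := (h.chain w u hs.symm hd.symm hp).2
      have h2 := hstrk (M.pos u - M.pos w) w
      rw [this] at h2
      exact h2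
  rw [hl, ind_true ⟨0, rfl⟩] at key
  have key2 := add_left_cancel key
  have hw : ∃ i, w = (M.nxt^[i]) u := by
    by_contra hcon
    rw [ind_false hcon] at key2
    exact absurd key2 (by decide)
  obtain ⟨i, hi⟩ := hw
  refine ⟨i % M.per u, Nat.mod_lt _ (per_pos u), ?_⟩
  rw [hi]
  exact (Function.iterate_mod_minimalPeriod_eq (f := M.nxt) (x := u) (n := i)).symm

end PreMap

end P7b
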