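import Pool.Agent.Lib.P7b.OrbBound
import Pool.Agent.Lib.P7b.Uniq

/-! MP_7b5a71: the bound for the boundary of a face, abstract version.

Partition `fd f` (closed under `nxt` by `lft_nxt`) in orbits of `nxt`; choose a base dart in each: a set `B` of darts with `fd f` = disjoint union of the
orbits, `|fd f| = Σ_{d ∈ B} per d`.  Sum `orb_bound` over `d ∈ B`, `r = |S|`:
* `Σ_d |word d symbols| ≤ 4 r`: a symbol of `word d` determines a side that appears in the orbit of `d`; by `same_orbit` the sets of sides of different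
  orbits of `fd f` are disjoint, so the sets of symbols are disjoint subsets of `S × Bool × Bool` (`4 r` elements).
* `Σ_d |lightSym d w| ≤ 4 #{s | 1 ≤ |cr s| ≤ w}` for the same reason.
* `Σ_d |Tp d| ≤ 2 r` (`Tp_disj_orb`), and `clog₂ (4 |Tp d|) ≤ clog₂ (8 r)`. -/

namespace P7b

namespace PreMap

variable {M : PreMap}

/-- the chosen dart of a boundary component -/
private noncomputable def rep (M : PreMap) (d : M.D) : M.D :=
  Quotient.out (Quotient.mk (Equiv.Perm.SameCycle.setoid M.nxt) d)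

private theorem rep_same (d : M.D) : M.nxt.SameCycle (M.rep d) d :=
  Quotient.mk_out (s := Equiv.Perm.SameCycle.setoid M.nxt) d

private theorem rep_eq {d e : M.D} (h : M.nxt.SameCycle d e) : M.rep d = M.rep e := by
  unfold rep
  congr 1
  exact Quotient.sound (s := Equiv.Perm.SameCycle.setoid M.nxt) h

private theorem rep_rep (d : M.D) : M.rep (M.rep d) = M.rep d := rep_eq (rep_same d)

private theorem sc_iter (d : M.D) (i : ℕ) : M.nxt.SameCycle d ((M.nxt^[i]) d) :=
  ⟨i, by rw [zpow_natCast, Equiv.Perm.iterate_eq_pow]⟩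

private theorem exists_iter {d e : M.D} (h : M.nxt.SameCycle d e) :
    ∃ i < M.per d, (M.nxt^[i]) d = e := by
  obtain ⟨i, hi⟩ := h.exists_nat_pow_eq
  refine ⟨i % M.per d, Nat.mod_lt _ (per_pos d), ?_⟩
  rw [← hi, ← Equiv.Perm.iterate_eq_pow]
  exact Function.iterate_mod_minimalPeriod_eq

private theorem lft_same (h : M.Ax) {d e : M.D} (hs : M.nxt.SameCycle d e) :
    M.lft d = M.lft e := by
  obtain ⟨i, _, hi⟩ := exists_iter hs
  rw [← hi, h.lft_iter]

open Classical in
/-- the segments crossed by at least one and at most `w` segments -/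
noncomputable def lightSeg (M : PreMap) (w : ℕ) : Finset M.S :=
  (Finset.univ : Finset M.S).filter (fun s => 1 ≤ (M.cr s).card ∧ (M.cr s).card ≤ w)

theorem Ax.face_bound (h : M.Ax) (f : M.R) (w : ℕ) (hw : 1 ≤ w) :
    ((M.fd f).card : ℝ) ≤ 640 * Fintype.card M.S
      + 320 * (Fintype.card M.S / (w + 1 : ℝ)) * (Nat.clog 2 (8 * Fintype.card M.S) + 1)
      + 64 * (3 + 2 * Real.log (2 * w)) * (M.lightSeg w).card := by
  classical
  -- the base darts
  obtain ⟨B, hB⟩ : ∃ B : Finset M.D, B = (M.fd f).image M.rep := ⟨_, rfl⟩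
  have hfd : ∀ d, d ∈ M.fd f ↔ M.lft d = f := by
    intro d; unfold fd; simp
  have hBf : ∀ b ∈ B, M.lft b = f := by
    intro b hb
    rw [hB, Finset.mem_image] at hb
    obtain ⟨d, hd, rfl⟩ := hb
    rw [lft_same h (rep_same d)]
    exact (hfd d).1 hd
  have hBr : ∀ b ∈ B, M.rep b = b := by
    intro b hb
    rw [hB, Finset.mem_image] at hb
    obtain ⟨d, hd, rfl⟩ := hb
    exact rep_rep d
  have hne : ∀ b ∈ B, ∀ b' ∈ B, b ≠ b' → ¬ M.nxt.SameCycle b b' := by
    intro b hb b' hb' hbb hs
    apply hbb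
    rw [← hBr b hb, ← hBr b' hb', rep_eq hs]
  -- the number of darts
  have hcard : (M.fd f).card ≤ ∑ b ∈ B, M.per b := by
    rw [Finset.card_eq_sum_card_fiberwise (f := M.rep) (t := B)
      (fun d hd => by rw [hB]; exact Finset.mem_coe.2 (Finset.mem_image_of_mem _ hd))]
    apply Finset.sum_le_sum
    intro b hb
    have hsub : (M.fd f).filter (fun d => M.rep d = b) ⊆
        (Finset.range (M.per b)).image (fun i => (M.nxt^[i]) b) := by
      intro d hd
      rw [Finset.mem_filter] at hd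
      have hs : M.nxt.SameCycle b d := by rw [← hd.2]; exact rep_same d
      obtain ⟨i, hi, hi2⟩ := exists_iter hs
      exact Finset.mem_image.2 ⟨i, Finset.mem_range.2 hi, hi2⟩
    calc _ ≤ _ := Finset.card_le_card hsub
      _ ≤ (Finset.range (M.per b)).card := Finset.card_image_le
      _ = M.per b := Finset.card_range _
  -- symbols
  have hsym : ∀ b ∈ B, ∀ b' ∈ B, b ≠ b' →
      Disjoint (M.word b).toFinset (M.word b').toFinset := by
    intro b hb b' hb' hbb
    rw [Finset.disjoint_left]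
    intro σ h1 h2
    rw [List.mem_toFinset, word, List.mem_map] at h1 h2
    obtain ⟨i, _, hi⟩ := h1
    obtain ⟨j, _, hj⟩ := h2
    have hi1 : M.seg (M.O b i) = σ.1 := by rw [← hi]; rfl
    have hi2 : M.dir (M.O b i) = σ.2.1 := by rw [← hi]; rfl
    have hj1 : M.seg (M.O b' j) = σ.1 := by rw [← hj]; rfl
    have hj2 : M.dir (M.O b' j) = σ.2.1 := by rw [← hj]; rfl
    have hl : M.lft (M.O b i) = M.lft (M.O b' j) := by
      unfold O
      rw [h.lft_iter, h.lft_iter, hBf b hb, hBf b' hb']
    obtain ⟨k, _, hk⟩ := h.same_orbit (M.O b i) (M.O b' j) hl (hi1.trans hj1.symm)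
      (hi2.trans hj2.symm)
    apply hne b hb b' hb' hbb
    have e1 : M.nxt.SameCycle b (M.O b i) := sc_iter b i
    have e2 : M.nxt.SameCycle (M.O b i) (M.O b' j) := by rw [hk]; exact sc_iter _ k
    have e3 : M.nxt.SameCycle b' (M.O b' j) := sc_iter b' j
    exact (e1.trans e2).trans e3.symm
  have hsum1 : ∑ b ∈ B, (M.word b).toFinset.card ≤ 4 * Fintype.card M.S := by
    rw [← Finset.card_biUnion (fun b hb b' hb' hbb => hsym b hb b' hb' hbb)]
    calc _ ≤ (Finset.univ : Finset (M.S × Bool × Bool)).card :=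
          Finset.card_le_card (Finset.subset_univ _)
      _ = 4 * Fintype.card M.S := by
          rw [Finset.card_univ, Fintype.card_prod, Fintype.card_prod, Fintype.card_bool]; ring
  have hsum2 : ∑ b ∈ B, (M.lightSym b w).card ≤ 4 * (M.lightSeg w).card := by
    have hlight : ∀ b ∈ B, ∀ b' ∈ B, b ≠ b' →
        Disjoint (M.lightSym b w) (M.lightSym b' w) := fun b hb b' hb' hbb =>
      Finset.disjoint_of_subset_left (Finset.filter_subset _ _)
        (Finset.disjoint_of_subset_right (Finset.filter_subset _ _) (hsym b hb b' hb' hbb))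
    rw [← Finset.card_biUnion (fun b hb b' hb' hbb => hlight b hb b' hb' hbb)]
    calc _ ≤ ((M.lightSeg w) ×ˢ (Finset.univ : Finset (Bool × Bool))).card := by
          apply Finset.card_le_card
          intro σ hσ
          rw [Finset.mem_biUnion] at hσ
          obtain ⟨b, _, hb2⟩ := hσ
          rw [lightSym, Finset.mem_filter] at hb2
          rw [Finset.mem_product]
          refine ⟨?_, Finset.mem_univ _⟩
          rw [lightSeg, Finset.mem_filter]
          exact ⟨Finset.mem_univ _, hb2.2⟩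
      _ = 4 * (M.lightSeg w).card := by
          rw [Finset.card_product, Finset.card_univ, Fintype.card_prod, Fintype.card_bool]; ring
  -- tips
  have hsum3 : ∑ b ∈ B, (M.Tp b 0 (M.per b)).card ≤ 2 * Fintype.card M.S := by
    rw [← Finset.card_biUnion (fun b hb b' hb' hbb => h.Tp_disj_orb b b'
      ((hBf b hb).trans (hBf b' hb').symm)
      (fun k hk => hne b hb b' hb' hbb (by rw [← hk]; exact sc_iter b k)) _ _ _ _)]
    calc _ ≤ (Finset.univ : Finset (M.S × Bool)).card :=
          Finset.card_le_card (Finset.subset_univ _)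
      _ = 2 * Fintype.card M.S := by
          rw [Finset.card_univ, Fintype.card_prod, Fintype.card_bool]; ring
  have hTp : ∀ b, (M.Tp b 0 (M.per b)).card ≤ 2 * Fintype.card M.S := by
    intro b
    calc _ ≤ (Finset.univ : Finset (M.S × Bool)).card :=
          Finset.card_le_card (Finset.subset_univ _)
      _ = 2 * Fintype.card M.S := by
          rw [Finset.card_univ, Fintype.card_prod, Fintype.card_bool]; ring
  -- the sum
  set r : ℝ := (Fintype.card M.S : ℝ) with hr
  set K : ℝ := ((Nat.clog 2 (8 * Fintype.card M.S) : ℕ) : ℝ) + 1 with hK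
  set c : ℝ := 3 + 2 * Real.log (2 * w) with hc
  have hw1 : (1 : ℝ) ≤ w := by exact_mod_cast hw
  have hc0 : 0 ≤ c := by
    have : 0 ≤ Real.log (2 * w) := Real.log_nonneg (by linarith)
    linarith
  have hK0 : 0 ≤ K := by positivity
  have hterm : ∀ b ∈ B, (M.per b : ℝ) ≤ 160 * ((M.word b).toFinset.card : ℝ)
      + 160 * ((M.Tp b 0 (M.per b)).card : ℝ) / (w + 1 : ℝ) * K
      + 16 * c * ((M.lightSym b w).card : ℝ) := by
    intro b _
    have h1 := h.orb_bound b w hw
    have h2 : ((Nat.clog 2 (4 * (M.Tp b 0 (M.per b)).card) : ℕ) : ℝ) + 1 ≤ K := by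
      have : Nat.clog 2 (4 * (M.Tp b 0 (M.per b)).card) ≤
          Nat.clog 2 (8 * Fintype.card M.S) :=
        Nat.clog_mono_right 2 (by have := hTp b; omega)
      have : ((Nat.clog 2 (4 * (M.Tp b 0 (M.per b)).card) : ℕ) : ℝ) ≤
          ((Nat.clog 2 (8 * Fintype.card M.S) : ℕ) : ℝ) := by exact_mod_cast this
      linarith
    have h3 : 160 * (((M.Tp b 0 (M.per b)).card : ℝ) / (w + 1 : ℝ))
          * (((Nat.clog 2 (4 * (M.Tp b 0 (M.per b)).card) : ℕ) : ℝ) + 1) ≤
        160 * ((M.Tp b 0 (M.per b)).card : ℝ) / (w + 1 : ℝ) * K := by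
      rw [mul_div_assoc]
      exact mul_le_mul_of_nonneg_left h2 (by positivity)
    linarith
  have hs1 : (∑ b ∈ B, ((M.word b).toFinset.card : ℝ)) ≤ 4 * r := by
    rw [hr]; exact_mod_cast hsum1
  have hs2 : (∑ b ∈ B, ((M.lightSym b w).card : ℝ)) ≤ 4 * ((M.lightSeg w).card : ℝ) := by
    exact_mod_cast hsum2
  have hs3 : (∑ b ∈ B, ((M.Tp b 0 (M.per b)).card : ℝ)) ≤ 2 * r := by
    rw [hr]; exact_mod_cast hsum3
  calc ((M.fd f).card : ℝ) ≤ ∑ b ∈ B, (M.per b : ℝ) := by exact_mod_cast hcard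
    _ ≤ ∑ b ∈ B, (160 * ((M.word b).toFinset.card : ℝ)
      + 160 * ((M.Tp b 0 (M.per b)).card : ℝ) / (w + 1 : ℝ) * K
      + 16 * c * ((M.lightSym b w).card : ℝ)) := Finset.sum_le_sum hterm
    _ = 160 * (∑ b ∈ B, ((M.word b).toFinset.card : ℝ))
      + 160 / (w + 1 : ℝ) * K * (∑ b ∈ B, ((M.Tp b 0 (M.per b)).card : ℝ))
      + 16 * c * (∑ b ∈ B, ((M.lightSym b w).card : ℝ)) := by
        rw [Finset.sum_add_distrib, Finset.sum_add_distrib, Finset.mul_sum, Finset.mul_sum,
          Finset.mul_sum]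
        congr 2
        apply Finset.sum_congr rfl
        intro b _
        ring
    _ ≤ 160 * (4 * r) + 160 / (w + 1 : ℝ) * K * (2 * r) +
        16 * c * (4 * ((M.lightSeg w).card : ℝ)) := by
        gcongr
    _ = 640 * r + 320 * (r / (w + 1 : ℝ)) * K + 64 * c * ((M.lightSeg w).card : ℝ) := by ring

end PreMap

end P7b
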