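import Pool.Agent.Lib.P7b.Both

/-! MP_7b5a71: the length of one boundary component.

Apply `word_bound` with `l = word d₀` (`word_noRep`, `word_free5`), `Tp = Tp d₀`, `T` = the symbols of the word whose segment `s` satisfies `1 ≤ |cr s| ≤ w`.
* `hT`: for a light block, `σ ∈ both` is in the word, `1 ≤ |cr σ.1|` (`both_nonempty`) and `|cr σ.1| ≤ |Tp| ≤ w`: the map `g ↦ (g, b)` of `both_cross` is injective.
* `hTd`: `both_tips` and `Tp_disj`.
* `hTc`: `σ ↦ (σ.1, b)`: the set of segments of `both` has at most `|Tp| / 2` elements (each has its two tips in `Tp`), and there are at most 4 symbols for each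
  segment: `|both| ≤ 4 |Tp| / 2`. -/

namespace P7b

namespace PreMap

variable {M : PreMap}

open Classical in
/-- the symbols of the boundary component whose segment is crossed by at least one and at most `w` segments -/
noncomputable def lightSym (M : PreMap) (d₀ : M.D) (w : ℕ) : Finset (M.S × Bool × Bool) :=
  (M.word d₀).toFinset.filter (fun σ => 1 ≤ (M.cr σ.1).card ∧ (M.cr σ.1).card ≤ w)

namespace OrbBoundAux

private theorem cr_le (h : M.Ax) (d₀ : M.D) {i j : ℕ} (hij : i < j) (hj : j ≤ M.per d₀)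
    {σ : M.S × Bool × Bool} (hσ : σ ∈ both (sub (M.word d₀) i j)) :
    (M.cr σ.1).card ≤ (M.Tp d₀ i j).card := by
  refine le_trans (Finset.card_le_card ?_) (Finset.card_image_le (f := Prod.fst))
  intro g hg
  obtain ⟨b, hb⟩ := h.both_cross d₀ hij hj hσ g hg
  exact Finset.mem_image.2 ⟨(g, b), hb, rfl⟩

private theorem both_le (h : M.Ax) (d₀ : M.D) {i j : ℕ} (hij : i < j) (hj : j ≤ M.per d₀) :
    (both (sub (M.word d₀) i j)).card ≤ 2 * (M.Tp d₀ i j).card := by
  set B := both (sub (M.word d₀) i j) with hB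
  set C := B.image Prod.fst with hC
  have h1 : (C ×ˢ (Finset.univ : Finset Bool)).card ≤ (M.Tp d₀ i j).card := by
    refine Finset.card_le_card ?_
    intro A hA
    rw [Finset.mem_product, hC, Finset.mem_image] at hA
    obtain ⟨⟨σ, hσ, hs⟩, _⟩ := hA
    have := h.both_tips d₀ hij hj hσ A.2
    rwa [hs] at this
  have h2 : B.card ≤ (C ×ˢ (Finset.univ : Finset (Bool × Bool))).card := by
    refine Finset.card_le_card ?_
    intro σ hσ
    exact Finset.mem_product.2 ⟨Finset.mem_image_of_mem _ hσ, Finset.mem_univ _⟩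
  rw [Finset.card_product] at h1 h2
  have e1 : (Finset.univ : Finset Bool).card = 2 := rfl
  have e2 : (Finset.univ : Finset (Bool × Bool)).card = 4 := rfl
  rw [e1] at h1
  rw [e2] at h2
  omega

end OrbBoundAux

theorem Ax.orb_bound (h : M.Ax) (d₀ : M.D) (w : ℕ) (hw : 1 ≤ w) :
    (M.per d₀ : ℝ) ≤ 160 * (M.word d₀).toFinset.card
      + 160 * ((M.Tp d₀ 0 (M.per d₀)).card / (w + 1 : ℝ))
          * (Nat.clog 2 (4 * (M.Tp d₀ 0 (M.per d₀)).card) + 1)
      + 16 * (3 + 2 * Real.log (2 * w)) * (M.lightSym d₀ w).card := by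
  have hlen : (M.word d₀).length = M.per d₀ := by
    unfold word
    rw [List.length_map, List.length_range]
  have key := word_bound (M.word d₀) (M.Tp d₀) w hw (M.lightSym d₀ w) (h.word_noRep d₀)
    (h.word_free5 d₀) (Tp_mono d₀) (h.Tp_disj d₀) (Tp_single d₀) ?_ ?_ ?_
  · rw [hlen] at key
    exact key
  · intro i j hij hj hlt σ hσ
    rw [hlen] at hj
    have h1 : σ ∈ sub (M.word d₀) i j := by
      classical
      unfold both at hσ
      exact List.mem_toFinset.1 (Finset.mem_of_mem_filter _ hσ)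
    have h2 : σ ∈ M.word d₀ := (WordBoundAux.sub_sublist _ _ _).subset h1
    unfold lightSym
    rw [Finset.mem_filter]
    exact ⟨List.mem_toFinset.2 h2, Finset.card_pos.2 (h.both_nonempty d₀ hij hj hσ),
      (OrbBoundAux.cr_le h d₀ hij hj hσ).trans hlt⟩
  · intro i j i' j' hij hji hij' hj'
    rw [hlen] at hj'
    rw [Finset.disjoint_left]
    intro σ h1 h2
    have t1 := h.both_tips d₀ hij (by omega) h1 true
    have t2 := h.both_tips d₀ hij' hj' h2 true
    exact (Finset.disjoint_left.1 (h.Tp_disj d₀ i j i' j' hji)) t1 t2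
  · intro i j hij hj
    rw [hlen] at hj
    exact OrbBoundAux.both_le h d₀ hij hj

end PreMap

end P7b
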