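import Pool.Agent.Lib.P7b.EvLem
import Pool.Agent.Lib.P7b.Approx

/-! MP_7b5a71: a common interior point becomes a crossing after the perturbation.

`cross_pert`: `y₀ ∈ car s ∩ car t`, `s ≠ t` in `S`, not parallel: `im (conj u * v) ≠ 0`, `u = s.2 - s.1`, `v = t.2 - t.1`.  For fixed `ε > 0` the lines of the two lengthened segments meet in
`y₀`, with both parameters in the open interval `(0, 1)`; the parameters and the point depend continuously on the four ends.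
`not_par`: if `y₀ ∈ car s ∩ car t`, `y₀ ≠ s.1, s.2`, and `t` is parallel to `s` then `t` has points `≠ y₀` in `car s` near `y₀`, contradicting `LP.sub`.
`pert_sep`: two points `m₁ ≠ m₂` of `car s` with a vertex `y₀ ∈ Vx R` strictly between; `y₀ ∈ car t` for some `t ∈ R`, `t ≠ s` (a vertex of `R`: an endpoint of some `t`, `t ≠ s` because `y₀` is interior to `s`; or on two segments).
If `y₁, y₂ ∈ car (p s)` are within `r` of `m₁, m₂` then the crossing point `y' ∈ car (p s) ∩ car (p t)` within `r` of `y₀` is in `segment ℝ y₁ y₂` (all on the segment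
`p s`, compare projections on the direction of `s`), and `p t ≠ p s` (displacement small). -/

namespace P7b

namespace PertSepAux

open Filter Topology

/-- the area form -/
def cr (z w : ℂ) : ℝ := z.re * w.im - z.im * w.re

theorem cr_eq (z w : ℂ) : ((starRingEnd ℂ) z * w).im = cr z w := by
  simp only [cr, Complex.mul_im, Complex.conj_re, Complex.conj_im]
  ring

theorem mem_car {s : Sg} {y : ℂ} :
    y ∈ car s ↔ ∃ a : ℝ, 0 ≤ a ∧ a ≤ 1 ∧ y = s.1 + (a : ℂ) * (s.2 - s.1) := by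
  unfold car
  rw [segment_eq_image']
  constructor
  · rintro ⟨a, ⟨h0, h1⟩, h⟩
    refine ⟨a, h0, h1, ?_⟩
    rw [← h]
    simp
  · rintro ⟨a, h0, h1, h⟩
    refine ⟨a, ⟨h0, h1⟩, ?_⟩
    rw [h]
    simp

/-- parameter of the intersection point on the first line -/
noncomputable def al (q : Sg × Sg) : ℝ :=
  cr (q.2.1 - q.1.1) (q.2.2 - q.2.1) / cr (q.1.2 - q.1.1) (q.2.2 - q.2.1)

/-- parameter of the intersection point on the second line -/
noncomputable def be (q : Sg × Sg) : ℝ :=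
  cr (q.2.1 - q.1.1) (q.1.2 - q.1.1) / cr (q.1.2 - q.1.1) (q.2.2 - q.2.1)

theorem meet {A U B V : ℂ} (h : cr U V ≠ 0) :
    A + ((cr (B - A) V / cr U V : ℝ) : ℂ) * U = B + ((cr (B - A) U / cr U V : ℝ) : ℂ) * V := by
  have e1 : (B - A).re * cr U V = cr (B - A) V * U.re - cr (B - A) U * V.re := by
    unfold cr; ring
  have e2 : (B - A).im * cr U V = cr (B - A) V * U.im - cr (B - A) U * V.im := by
    unfold cr; ring
  have f1 : cr (B - A) V / cr U V * U.re - cr (B - A) U / cr U V * V.re = (B - A).re := by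
    rw [div_mul_eq_mul_div, div_mul_eq_mul_div, ← sub_div, ← e1, mul_div_assoc, div_self h, mul_one]
  have f2 : cr (B - A) V / cr U V * U.im - cr (B - A) U / cr U V * V.im = (B - A).im := by
    rw [div_mul_eq_mul_div, div_mul_eq_mul_div, ← sub_div, ← e2, mul_div_assoc, div_self h, mul_one]
  rw [Complex.sub_re] at f1
  rw [Complex.sub_im] at f2
  apply Complex.ext
  · simp only [Complex.add_re, Complex.mul_re, Complex.ofReal_re, Complex.ofReal_im, zero_mul,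
      sub_zero]
    linarith
  · simp only [Complex.add_im, Complex.mul_im, Complex.ofReal_re, Complex.ofReal_im, zero_mul,
      add_zero]
    linarith

theorem cont_cr {f g : Sg × Sg → ℂ} (hf : Continuous f) (hg : Continuous g) :
    Continuous (fun q => cr (f q) (g q)) := by
  unfold cr
  exact ((Complex.continuous_re.comp hf).mul (Complex.continuous_im.comp hg)).sub
    ((Complex.continuous_im.comp hf).mul (Complex.continuous_re.comp hg))

theorem cont_al {q₀ : Sg × Sg} (h : cr (q₀.1.2 - q₀.1.1) (q₀.2.2 - q₀.2.1) ≠ 0) :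
    ContinuousAt al q₀ := by
  unfold al
  exact ContinuousAt.div (cont_cr (by fun_prop) (by fun_prop)).continuousAt
    (cont_cr (by fun_prop) (by fun_prop)).continuousAt h

theorem cont_be {q₀ : Sg × Sg} (h : cr (q₀.1.2 - q₀.1.1) (q₀.2.2 - q₀.2.1) ≠ 0) :
    ContinuousAt be q₀ := by
  unfold be
  exact ContinuousAt.div (cont_cr (by fun_prop) (by fun_prop)).continuousAt
    (cont_cr (by fun_prop) (by fun_prop)).continuousAt h

/-- stability of a crossing in the interior of both segments -/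
theorem stable {q₀ : Sg × Sg} (h : cr (q₀.1.2 - q₀.1.1) (q₀.2.2 - q₀.2.1) ≠ 0)
    {a b : ℝ} (ha0 : 0 < a) (ha1 : a < 1) (hb0 : 0 < b) (hb1 : b < 1) {y₀ : ℂ}
    (hya : y₀ = q₀.1.1 + (a : ℂ) * (q₀.1.2 - q₀.1.1))
    (hyb : y₀ = q₀.2.1 + (b : ℂ) * (q₀.2.2 - q₀.2.1)) {r : ℝ} (hr : 0 < r) :
    ∀ᶠ q in 𝓝 q₀, ∃ y, dist y y₀ < r ∧ y ∈ car q.1 ∧ y ∈ car q.2 := by
  have hba : q₀.2.1 - q₀.1.1 = (a : ℂ) * (q₀.1.2 - q₀.1.1) - (b : ℂ) * (q₀.2.2 - q₀.2.1) := by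
    linear_combination hya - hyb
  have hal : al q₀ = a := by
    unfold al
    rw [div_eq_iff h, hba]
    generalize q₀.1.2 - q₀.1.1 = U
    generalize q₀.2.2 - q₀.2.1 = V
    simp only [cr, Complex.sub_re, Complex.sub_im, Complex.mul_re, Complex.mul_im,
      Complex.ofReal_re, Complex.ofReal_im]
    ring
  have hbe : be q₀ = b := by
    unfold be
    rw [div_eq_iff h, hba]
    generalize q₀.1.2 - q₀.1.1 = U
    generalize q₀.2.2 - q₀.2.1 = V
    simp only [cr, Complex.sub_re, Complex.sub_im, Complex.mul_re, Complex.mul_im,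
      Complex.ofReal_re, Complex.ofReal_im]
    ring
  have h1 : ∀ᶠ q in 𝓝 q₀, cr (q.1.2 - q.1.1) (q.2.2 - q.2.1) ≠ 0 :=
    (cont_cr (f := fun q => q.1.2 - q.1.1) (g := fun q => q.2.2 - q.2.1)
      (by fun_prop) (by fun_prop)).continuousAt.eventually_ne h
  have h2 : ∀ᶠ q in 𝓝 q₀, 0 < al q := (cont_al h).eventually (lt_mem_nhds (by rw [hal]; exact ha0))
  have h3 : ∀ᶠ q in 𝓝 q₀, al q < 1 := (cont_al h).eventually (gt_mem_nhds (by rw [hal]; exact ha1))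
  have h4 : ∀ᶠ q in 𝓝 q₀, 0 < be q := (cont_be h).eventually (lt_mem_nhds (by rw [hbe]; exact hb0))
  have h5 : ∀ᶠ q in 𝓝 q₀, be q < 1 := (cont_be h).eventually (gt_mem_nhds (by rw [hbe]; exact hb1))
  have hy : ContinuousAt (fun q : Sg × Sg => q.1.1 + ((al q : ℝ) : ℂ) * (q.1.2 - q.1.1)) q₀ := by
    have e1 : ContinuousAt (fun q : Sg × Sg => ((al q : ℝ) : ℂ)) q₀ :=
      Complex.continuous_ofReal.continuousAt.comp (cont_al h)
    have e2 : Continuous (fun q : Sg × Sg => q.1.1) := by fun_prop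
    have e3 : Continuous (fun q : Sg × Sg => q.1.2 - q.1.1) := by fun_prop
    exact e2.continuousAt.add (e1.mul e3.continuousAt)
  have h6 : ∀ᶠ q in 𝓝 q₀, dist (q.1.1 + ((al q : ℝ) : ℂ) * (q.1.2 - q.1.1)) y₀ < r := by
    have hval : q₀.1.1 + ((al q₀ : ℝ) : ℂ) * (q₀.1.2 - q₀.1.1) = y₀ := by rw [hal, ← hya]
    have := hy.eventually (Metric.ball_mem_nhds _ hr)
    refine this.mono (fun q hq => ?_)
    change dist _ (q₀.1.1 + ((al q₀ : ℝ) : ℂ) * (q₀.1.2 - q₀.1.1)) < r at hq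
    rwa [hval] at hq
  filter_upwards [h1, h2, h3, h4, h5, h6] with q k1 k2 k3 k4 k5 k6
  refine ⟨_, k6, ?_, ?_⟩
  · exact mem_car.mpr ⟨al q, k2.le, k3.le, rfl⟩
  · refine mem_car.mpr ⟨be q, k4.le, k5.le, ?_⟩
    exact meet k1

theorem between {A B y₁ y y₂ d : ℂ} (h1 : y₁ ∈ segment ℝ A B) (h : y ∈ segment ℝ A B)
    (h2 : y₂ ∈ segment ℝ A B) (g1 : (starRingEnd ℂ d * y₁).re < (starRingEnd ℂ d * y).re)
    (g2 : (starRingEnd ℂ d * y).re < (starRingEnd ℂ d * y₂).re) : y ∈ segment ℝ y₁ y₂ := by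
  obtain ⟨a₁, _, _, e1⟩ := (mem_car (s := (A, B))).mp h1
  obtain ⟨a, _, _, e⟩ := (mem_car (s := (A, B))).mp h
  obtain ⟨a₂, _, _, e2⟩ := (mem_car (s := (A, B))).mp h2
  simp only at e1 e e2
  obtain ⟨c, hc⟩ : ∃ c : ℝ, c = (starRingEnd ℂ d * (B - A)).re := ⟨_, rfl⟩
  have k : ∀ t : ℝ, (starRingEnd ℂ d * (A + (t : ℂ) * (B - A))).re =
      (starRingEnd ℂ d * A).re + t * c := by
    intro t
    rw [hc]
    simp only [Complex.mul_re, Complex.add_re, Complex.add_im, Complex.mul_im, Complex.ofReal_re,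
      Complex.ofReal_im, Complex.sub_re, Complex.sub_im]
    ring
  rw [e1, e, k, k] at g1
  rw [e, e2, k, k] at g2
  have hc0 : c ≠ 0 := by
    intro h0
    rw [h0] at g1
    simp at g1
  have ha : a₂ - a₁ ≠ 0 := by
    intro h0
    have : a₂ = a₁ := by linarith
    rw [this] at g2
    linarith
  have p1 : 0 < (a - a₁) * c := by linarith
  have p2 : 0 < (a₂ - a) * c := by linarith
  have hden : 0 < (a₂ - a₁) * c := by linarith
  rw [segment_eq_image']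
  refine ⟨(a - a₁) * c / ((a₂ - a₁) * c), ⟨by positivity, ?_⟩, ?_⟩
  · rw [div_le_one hden]
    linarith
  · have hq : (a - a₁) * c / ((a₂ - a₁) * c) = (a - a₁) / (a₂ - a₁) := by
      field_simp
    have hac : ((a₂ : ℂ) - (a₁ : ℂ)) ≠ 0 := by
      exact_mod_cast ha
    simp only
    rw [hq, e1, e, e2, Complex.real_smul]
    push_cast
    field_simp
    ring

end PertSepAux

open PertSepAux

theorem cross_pert {S : Finset Sg} {s t : Sg} (hs : s ∈ S) (ht : t ∈ S) {y₀ : ℂ} (hy : y₀ ∈ car s)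
    (hyt : y₀ ∈ car t) (hp : ((starRingEnd ℂ) (s.2 - s.1) * (t.2 - t.1)).im ≠ 0) {r : ℝ} (hr : 0 < r) :
    Ev S (fun p => ∃ y, dist y y₀ < r ∧ y ∈ car (p s) ∧ y ∈ car (p t)) := by
  rw [cr_eq] at hp
  obtain ⟨a, ha0, ha1, ha⟩ := mem_car.mp hy
  obtain ⟨b, hb0, hb1, hb⟩ := mem_car.mp hyt
  refine ⟨1, one_pos, fun ε hε _ => ?_⟩
  have h2ε : (0 : ℝ) < 1 + 2 * ε := by linarith
  have h2εc : (1 + 2 * (ε : ℂ)) ≠ 0 := by exact_mod_cast h2ε.ne'
  obtain ⟨q₀, hq₀⟩ : ∃ q₀ : Sg × Sg, q₀ = ((s.1 - (ε : ℂ) * (s.2 - s.1), s.2 + (ε : ℂ) * (s.2 - s.1)),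
    (t.1 - (ε : ℂ) * (t.2 - t.1), t.2 + (ε : ℂ) * (t.2 - t.1))) := ⟨_, rfl⟩
  have hU : q₀.1.2 - q₀.1.1 = ((1 + 2 * ε : ℝ) : ℂ) * (s.2 - s.1) := by
    rw [hq₀]; push_cast; ring
  have hV : q₀.2.2 - q₀.2.1 = ((1 + 2 * ε : ℝ) : ℂ) * (t.2 - t.1) := by
    rw [hq₀]; push_cast; ring
  have hcr : cr (q₀.1.2 - q₀.1.1) (q₀.2.2 - q₀.2.1) ≠ 0 := by
    rw [hU, hV]
    have : cr (((1 + 2 * ε : ℝ) : ℂ) * (s.2 - s.1)) (((1 + 2 * ε : ℝ) : ℂ) * (t.2 - t.1)) =
        (1 + 2 * ε) ^ 2 * cr (s.2 - s.1) (t.2 - t.1) := by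
      simp only [cr, Complex.mul_re, Complex.mul_im, Complex.ofReal_re, Complex.ofReal_im]
      ring
    rw [this]
    exact mul_ne_zero (pow_ne_zero _ h2ε.ne') hp
  have hya : y₀ = q₀.1.1 + (((a + ε) / (1 + 2 * ε) : ℝ) : ℂ) * (q₀.1.2 - q₀.1.1) := by
    rw [hU, ← mul_assoc, ← Complex.ofReal_mul, div_mul_cancel₀ _ h2ε.ne', ha, hq₀]
    push_cast
    ring
  have hyb : y₀ = q₀.2.1 + (((b + ε) / (1 + 2 * ε) : ℝ) : ℂ) * (q₀.2.2 - q₀.2.1) := by
    rw [hV, ← mul_assoc, ← Complex.ofReal_mul, div_mul_cancel₀ _ h2ε.ne', hb, hq₀]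
    push_cast
    ring
  have hst := stable hcr (a := (a + ε) / (1 + 2 * ε)) (b := (b + ε) / (1 + 2 * ε))
    (by positivity) (by rw [div_lt_one h2ε]; linarith) (by positivity)
    (by rw [div_lt_one h2ε]; linarith) hya hyb hr
  obtain ⟨δ₀, hδ₀, hδ⟩ := Metric.eventually_nhds_iff.mp hst
  refine ⟨δ₀, hδ₀, fun δ _ hδ1 p hN => ?_⟩
  refine hδ (y := (p s, p t)) ?_
  have n1 := hN s hs
  have n2 := hN t ht
  rw [hq₀]
  simp only [Prod.dist_eq, max_lt_iff]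
  exact ⟨⟨n1.1.trans hδ1, n1.2.trans hδ1⟩, ⟨n2.1.trans hδ1, n2.2.trans hδ1⟩⟩

theorem LP.not_par {S : Finset Sg} (h : LP S) {s t : Sg} (hs : s ∈ S) (ht : t ∈ S) (hst : s ≠ t)
    {y₀ : ℂ} (hy : y₀ ∈ car s) (hyt : y₀ ∈ car t) (h1 : y₀ ≠ s.1) (h2 : y₀ ≠ s.2) :
    ((starRingEnd ℂ) (s.2 - s.1) * (t.2 - t.1)).im ≠ 0 := by
  intro h0
  rw [cr_eq] at h0
  obtain ⟨a, ha0, ha1, ha⟩ := mem_car.mp hy
  obtain ⟨b, hb0, hb1, hb⟩ := mem_car.mp hyt
  have hu : s.2 - s.1 ≠ 0 := sub_ne_zero.mpr (h.ne s hs).symm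
  have hv : t.2 - t.1 ≠ 0 := sub_ne_zero.mpr (h.ne t ht).symm
  have ha0' : 0 < a := by
    rcases ha0.lt_or_eq with h3 | h3
    · exact h3
    · exfalso
      apply h1
      rw [ha, ← h3]
      simp
  have ha1' : a < 1 := by
    rcases ha1.lt_or_eq with h3 | h3
    · exact h3
    · exfalso
      apply h2
      rw [ha, h3]
      simp
  -- `v = c u`
  obtain ⟨c, hc⟩ : ∃ c : ℝ, t.2 - t.1 = (c : ℂ) * (s.2 - s.1) := by
    generalize s.2 - s.1 = u at hu h0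
    generalize t.2 - t.1 = v at h0
    refine ⟨(u.re * v.re + u.im * v.im) / (u.re ^ 2 + u.im ^ 2), ?_⟩
    have hn : u.re ^ 2 + u.im ^ 2 ≠ 0 := by
      intro h3
      apply hu
      apply Complex.ext
      · simp only [Complex.zero_re]; nlinarith [sq_nonneg u.re, sq_nonneg u.im]
      · simp only [Complex.zero_im]; nlinarith [sq_nonneg u.re, sq_nonneg u.im]
    unfold cr at h0
    apply Complex.ext
    · simp only [Complex.mul_re, Complex.ofReal_re, Complex.ofReal_im, zero_mul, sub_zero]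
      field_simp
      linear_combination -u.im * h0
    · simp only [Complex.mul_im, Complex.ofReal_re, Complex.ofReal_im, zero_mul, add_zero]
      field_simp
      linear_combination u.re * h0
  have hc0 : c ≠ 0 := by
    intro h3
    apply hv
    rw [hc, h3]
    simp
  -- a small number
  obtain ⟨η, hη0, hη1, hη2, hη3⟩ : ∃ η : ℝ, 0 < η ∧ η ≤ 1 / 2 ∧ η * |c| ≤ a ∧ η * |c| ≤ 1 - a := by
    have hcp : 0 < |c| := abs_pos.mpr hc0
    refine ⟨min (1 / 2) (min (a / |c|) ((1 - a) / |c|)), ?_, ?_, ?_, ?_⟩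
    · refine lt_min (by norm_num) (lt_min (div_pos ha0' hcp) (div_pos (by linarith) hcp))
    · exact min_le_left _ _
    · rw [← le_div_iff₀ hcp]
      exact (min_le_right _ _).trans (min_le_left _ _)
    · rw [← le_div_iff₀ hcp]
      exact (min_le_right _ _).trans (min_le_right _ _)
  have hηc : |η * c| ≤ a ∧ |η * c| ≤ 1 - a := by
    rw [abs_mul, abs_of_pos hη0]
    exact ⟨hη2, hη3⟩
  have e1 := abs_le.mp hηc.1
  have e2 := abs_le.mp hηc.2
  -- the second common point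
  have key : ∀ σ : ℝ, (σ = 1 ∨ σ = -1) → 0 ≤ b + σ * η → b + σ * η ≤ 1 → False := by
    intro σ hσ k1 k2
    have m1 : y₀ + ((σ * η : ℝ) : ℂ) * (t.2 - t.1) ∈ car t := by
      refine mem_car.mpr ⟨b + σ * η, k1, k2, ?_⟩
      rw [hb]
      push_cast
      ring
    have m2 : y₀ + ((σ * η : ℝ) : ℂ) * (t.2 - t.1) ∈ car s := by
      refine mem_car.mpr ⟨a + σ * (η * c), ?_, ?_, ?_⟩
      · rcases hσ with h3 | h3 <;> rw [h3] <;> linarith [e1.1, e1.2, e2.1, e2.2]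
      · rcases hσ with h3 | h3 <;> rw [h3] <;> linarith [e1.1, e1.2, e2.1, e2.2]
      · rw [ha, hc]
        push_cast
        ring
    have := h.sub s hs t ht hst ⟨hy, hyt⟩ ⟨m2, m1⟩
    have h4 : ((σ * η : ℝ) : ℂ) * (t.2 - t.1) = 0 := by
      linear_combination -this
    rcases mul_eq_zero.mp h4 with h5 | h5
    · have h6 : σ * η = 0 := by exact_mod_cast h5
      rcases mul_eq_zero.mp h6 with h7 | h7
      · rcases hσ with h8 | h8 <;> rw [h8] at h7 <;> norm_num at h7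
      · exact hη0.ne' h7
    · exact hv h5
  rcases le_total b (1 / 2) with h3 | h3
  · exact key 1 (Or.inl rfl) (by linarith) (by linarith)
  · exact key (-1) (Or.inr rfl) (by linarith) (by linarith)

theorem pert_sep {S R : Finset Sg} (hS : LP S) (hR : R ⊆ S) {s : Sg} (hs : s ∈ R) {m₁ m₂ y₀ : ℂ}
    (h12 : m₁ ≠ m₂) (h1 : m₁ ∈ car s) (h2 : m₂ ∈ car s) (hy : y₀ ∈ openSegment ℝ m₁ m₂)
    (hv : y₀ ∈ Vx R) :
    ∃ r > 0, Ev S (fun p => ∀ y₁ y₂, dist y₁ m₁ < r → dist y₂ m₂ < r → y₁ ∈ car (p s) →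
      y₂ ∈ car (p s) → ∃ y ∈ segment ℝ y₁ y₂, y ∈ Vx (R.image p)) := by
  classical
  obtain ⟨a₁, ha₁, ha₁', e1⟩ := mem_car.mp h1
  obtain ⟨a₂, ha₂, ha₂', e2⟩ := mem_car.mp h2
  rw [openSegment_eq_image'] at hy
  obtain ⟨l, ⟨hl0, hl1⟩, hl⟩ := hy
  simp only [Complex.real_smul] at hl
  have ha12 : a₁ ≠ a₂ := by
    intro h
    apply h12
    rw [e1, e2, h]
  have hyτ : y₀ = s.1 + (((1 - l) * a₁ + l * a₂ : ℝ) : ℂ) * (s.2 - s.1) := by
    rw [← hl, e1, e2]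
    push_cast
    ring
  have hyτ2 : y₀ - s.2 = -((((1 - l) * (1 - a₁) + l * (1 - a₂) : ℝ) : ℂ) * (s.2 - s.1)) := by
    rw [← hl, e1, e2]
    push_cast
    ring
  have hu : s.2 - s.1 ≠ 0 := sub_ne_zero.mpr (hS.ne s (hR hs)).symm
  have hτ0 : 0 < (1 - l) * a₁ + l * a₂ := by
    rcases ha₁.lt_or_eq with h | h
    · have := mul_pos (by linarith : 0 < 1 - l) h
      have := mul_nonneg hl0.le ha₂
      linarith
    · have h3 : 0 < a₂ := lt_of_le_of_ne ha₂ (by rw [h]; exact ha12)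
      have := mul_pos hl0 h3
      rw [← h]
      linarith
  have hτ1 : 0 < (1 - l) * (1 - a₁) + l * (1 - a₂) := by
    rcases ha₁'.lt_or_eq with h | h
    · have := mul_pos (by linarith : 0 < 1 - l) (by linarith : 0 < 1 - a₁)
      have := mul_nonneg hl0.le (by linarith : 0 ≤ 1 - a₂)
      linarith
    · have h3 : a₂ < 1 := lt_of_le_of_ne ha₂' (by rw [← h]; exact ha12.symm)
      have := mul_pos hl0 (by linarith : 0 < 1 - a₂)
      rw [h]
      linarith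
  have hys1 : y₀ ≠ s.1 := by
    intro h
    have h3 : (((1 - l) * a₁ + l * a₂ : ℝ) : ℂ) * (s.2 - s.1) = 0 := by
      linear_combination h - hyτ
    rcases mul_eq_zero.mp h3 with h4 | h4
    · exact hτ0.ne' (by exact_mod_cast h4)
    · exact hu h4
  have hys2 : y₀ ≠ s.2 := by
    intro h
    have h3 : (((1 - l) * (1 - a₁) + l * (1 - a₂) : ℝ) : ℂ) * (s.2 - s.1) = 0 := by
      linear_combination hyτ2 - h
    rcases mul_eq_zero.mp h3 with h4 | h4
    · exact hτ1.ne' (by exact_mod_cast h4)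
    · exact hu h4
  have hys : y₀ ∈ car s := by
    refine mem_car.mpr ⟨_, hτ0.le, ?_, hyτ⟩
    nlinarith
  -- another segment through `y₀`
  obtain ⟨t, htR, hts, hyt⟩ : ∃ t ∈ R, t ≠ s ∧ y₀ ∈ car t := by
    rcases hv with ⟨t, ht, h⟩ | ⟨t, ht, t', ht', htt', k1, k2⟩
    · refine ⟨t, ht, ?_, ?_⟩
      · rintro rfl
        rcases h with h | h
        · exact hys1 h
        · exact hys2 h
      · rcases h with h | h
        · rw [h]; exact left_mem_segment ℝ _ _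
        · rw [h]; exact right_mem_segment ℝ _ _
    · by_cases h : t = s
      · exact ⟨t', ht', fun h' => htt' (by rw [h, h']), k2⟩
      · exact ⟨t, ht, h, k1⟩
  have hnp := hS.not_par (hR hs) (hR htR) hts.symm hys hyt hys1 hys2
  -- the threshold
  have hL : 0 < ‖m₂ - m₁‖ := norm_pos_iff.mpr (sub_ne_zero.mpr h12.symm)
  obtain ⟨r, hr0, hr1, hr2⟩ : ∃ r : ℝ, 0 < r ∧ 2 * r ≤ l * ‖m₂ - m₁‖ ∧
      2 * r ≤ (1 - l) * ‖m₂ - m₁‖ := by
    have q1 : 0 < l * ‖m₂ - m₁‖ := mul_pos hl0 hL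
    have q2 : 0 < (1 - l) * ‖m₂ - m₁‖ := mul_pos (by linarith) hL
    refine ⟨min (l * ‖m₂ - m₁‖) ((1 - l) * ‖m₂ - m₁‖) / 2, ?_, ?_, ?_⟩
    · have := lt_min q1 q2
      linarith
    · have := min_le_left (l * ‖m₂ - m₁‖) ((1 - l) * ‖m₂ - m₁‖)
      linarith
    · have := min_le_right (l * ‖m₂ - m₁‖) ((1 - l) * ‖m₂ - m₁‖)
      linarith
  have hdst : 0 < dist s t := dist_pos.mpr hts.symm
  refine ⟨r, hr0, ((cross_pert (hR hs) (hR htR) hys hyt hnp hr0).and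
    (Ev.displ S (half_pos hdst))).mono ?_⟩
  rintro p ⟨⟨y, hyr, hy1, hy2⟩, hd⟩ y₁ y₂ g1 g2 k1 k2
  have hpne : p s ≠ p t := by
    intro h
    have d1 := hd s (hR hs)
    have d2 := hd t (hR htR)
    have d3 : dist (p s) s < dist s t / 2 := by
      rw [Prod.dist_eq]
      exact max_lt d1.1 d1.2
    have d4 : dist (p t) t < dist s t / 2 := by
      rw [Prod.dist_eq]
      exact max_lt d2.1 d2.2
    have d5 := dist_triangle_left s t (p s)
    rw [h] at d5 d3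
    linarith
  -- projections
  have hproj : ∀ z w : ℂ, |(starRingEnd ℂ (m₂ - m₁) * z).re - (starRingEnd ℂ (m₂ - m₁) * w).re| ≤
      ‖m₂ - m₁‖ * dist z w := by
    intro z w
    have h3 : (starRingEnd ℂ (m₂ - m₁) * z).re - (starRingEnd ℂ (m₂ - m₁) * w).re =
        (starRingEnd ℂ (m₂ - m₁) * (z - w)).re := by
      rw [mul_sub, Complex.sub_re]
    rw [h3]
    refine (Complex.abs_re_le_norm _).trans ?_
    rw [norm_mul, RCLike.norm_conj, dist_eq_norm]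
  have hself : (starRingEnd ℂ (m₂ - m₁) * (m₂ - m₁)).re = ‖m₂ - m₁‖ ^ 2 := by
    rw [← Complex.normSq_eq_conj_mul_self, Complex.ofReal_re, Complex.normSq_eq_norm_sq]
  have p1 : (starRingEnd ℂ (m₂ - m₁) * y₀).re =
      (starRingEnd ℂ (m₂ - m₁) * m₁).re + l * ‖m₂ - m₁‖ ^ 2 := by
    rw [← hself, ← hl]
    simp only [Complex.mul_re, Complex.add_re, Complex.add_im, Complex.mul_im, Complex.ofReal_re,
      Complex.ofReal_im]
    ring
  have p2 : (starRingEnd ℂ (m₂ - m₁) * m₂).re =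
      (starRingEnd ℂ (m₂ - m₁) * m₁).re + ‖m₂ - m₁‖ ^ 2 := by
    rw [← hself]
    rw [mul_sub, Complex.sub_re]
    ring
  have c1 := abs_le.mp (hproj y₁ m₁)
  have c2 := abs_le.mp (hproj y₂ m₂)
  have c0 := abs_le.mp (hproj y y₀)
  have b1 : ‖m₂ - m₁‖ * dist y₁ m₁ < ‖m₂ - m₁‖ * r := mul_lt_mul_of_pos_left g1 hL
  have b2 : ‖m₂ - m₁‖ * dist y₂ m₂ < ‖m₂ - m₁‖ * r := mul_lt_mul_of_pos_left g2 hL
  have b0 : ‖m₂ - m₁‖ * dist y y₀ < ‖m₂ - m₁‖ * r := mul_lt_mul_of_pos_left hyr hL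
  have r1 : ‖m₂ - m₁‖ * (2 * r) ≤ ‖m₂ - m₁‖ * (l * ‖m₂ - m₁‖) :=
    mul_le_mul_of_nonneg_left hr1 hL.le
  have r2 : ‖m₂ - m₁‖ * (2 * r) ≤ ‖m₂ - m₁‖ * ((1 - l) * ‖m₂ - m₁‖) :=
    mul_le_mul_of_nonneg_left hr2 hL.le
  refine ⟨y, between (d := m₂ - m₁) k1 hy1 k2 ?_ ?_, ?_⟩
  · nlinarith [c1.2, c0.1]
  · nlinarith [c2.1, c0.2]
  · refine Or.inr ⟨p s, ?_, p t, ?_, hpne, hy1, hy2⟩
    · exact Finset.mem_image_of_mem p hs
    · exact Finset.mem_image_of_mem p htR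

end P7b
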