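import Pool.Agent.Lib.P7b.PertVis
import Pool.Agent.Lib.P7b.PertSep
import Pool.Agent.Lib.P7b.LPFin
import Pool.Agent.Lib.P7b.GenPos
import Pool.Agent.Lib.P7b.EdgeFr
import Pool.Agent.Lib.P7b.GFace

/-! MP_7b5a71: perturbation to general position does not decrease the complexity of the faces.

For every `R ⊆ S` and every `e ∈ faceEdges R x` choose `s_e ∈ R` with `EdgeOn R s_e e` and a point `m_e ∈ e` (`m_e ∉ Vx R`, `m_e ∈ frontier (face R x)`).  For each pair `e₁ ≠ e₂` with the same segment choose `r(e₁, e₂)` from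
`edge_sep` and `pert_sep`; let `r` be the minimum of these finitely many numbers (and 1).  Also for `e₁ ≠ e₂` with different segments nothing is needed.  By `Ev.all` over the finite set of `(R, e)`, resp. `(R, e₁, e₂)`, and `pert_off`, all small
perturbations `p` satisfy: `x ∉ un (S.image p)`; for all `(R, e)` there is `y_e` as in `pert_visible` (with this `r`); and the conclusion of `pert_sep`.  Choose `ε`, `δ` and by `exists_gp` (targets = lengthened segments) a `p` with `Near S ε δ p`,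
injective on `S`, `GP (S.image p)`.  For `R ⊆ S` let `R' = R.image p` (`GP.mono`).  By `exists_boundary_edge` there is `e' ∈ faceEdges R' x` with `y_e ∈ e'` (`x ∉ un R'`).  The map `e ↦ e'` is injective: if `e₁' = e₂'`, this edge is contained in one segment `p t` of `R'`
and (GP) `y_{e₁}`, which is not a vertex, is on only one segment, so `p s_{e₁} = p s_{e₂}`, `s_{e₁} = s_{e₂}`; if `e₁ ≠ e₂` the vertex of `pert_sep` is in `segment y_{e₁} y_{e₂} ⊆ e₁'` (open segments are convex), contradiction.  So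
`ncard` is at most that of `faceEdges R' x`, which is finite (`faceEdges_le`). -/

namespace P7b

namespace PertAux

theorem exists_le {ι : Type*} (F : Set ι) (hF : F.Finite) (f : ι → ℝ) (h : ∀ i ∈ F, 0 < f i) :
    ∃ r > 0, ∀ i ∈ F, r ≤ f i := by
  rcases F.eq_empty_or_nonempty with rfl | hne
  · exact ⟨1, one_pos, fun i hi => absurd hi (Set.notMem_empty i)⟩
  · obtain ⟨a, ha, hmin⟩ := Set.exists_min_image F f hF hne
    exact ⟨f a, h a ha, hmin⟩

/-- the segment and a point of an edge on the boundary of the face -/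
theorem edge_data (R : Finset Sg) (x : ℂ) (e : Set ℂ) (he : e ∈ faceEdges R x) :
    ∃ s m, s ∈ R ∧ EdgeOn R s e ∧ m ∈ e ∧ m ∈ car s ∧ m ∉ Vx R ∧ m ∈ closure (face R x) := by
  obtain ⟨⟨s, hs, p, hp, q, hq, hpq, hd, rfl⟩, hfr⟩ := he
  have hm : midpoint ℝ p q ∈ openSegment ℝ p q := by
    rw [openSegment_eq_image_lineMap]
    exact ⟨1 / 2, ⟨by norm_num, by norm_num⟩, by rw [one_div, lineMap_inv_two]⟩
  refine ⟨s, midpoint ℝ p q, hs, ⟨p, hp, q, hq, hpq, hd, rfl⟩, hm, ?_, ?_, ?_⟩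
  · have hc : Convex ℝ (car s) := convex_segment _ _
    exact hc.openSegment_subset hp.2 hq.2 hm
  · exact Set.disjoint_left.1 hd hm
  · exact frontier_subset_closure (hfr hm)

theorem mem_un {R : Finset Sg} {z : ℂ} : z ∈ un R ↔ ∃ s ∈ R, z ∈ car s := by
  simp [un]

theorem eq_of_mem {R : Finset Sg} {y : ℂ} (hy : y ∉ Vx R) {s t : Sg} (hs : s ∈ R) (ht : t ∈ R)
    (h1 : y ∈ car s) (h2 : y ∈ car t) : s = t := by
  by_contra h
  exact hy (Or.inr ⟨s, hs, t, ht, h, h1, h2⟩)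

end PertAux

open PertAux in
theorem pert {S : Finset Sg} (hS : LP S) {x : ℂ} (hx : x ∉ un S) :
    ∃ p : Sg → Sg, Set.InjOn p S ∧ GP (S.image p) ∧ x ∉ un (S.image p) ∧
      ∀ R ⊆ S, (faceEdges R x).Finite ∧ faceSize R x ≤ faceSize (R.image p) x := by
  classical
  choose! sg mp hsg hon hme hmc hmv hmf using edge_data
  have hxR : ∀ R ⊆ S, x ∉ un R := by
    intro R hR hxu
    obtain ⟨t, ht, hxt⟩ := mem_un.1 hxu
    exact hx (mem_un.2 ⟨t, hR ht, hxt⟩)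
  have hfin : ∀ R ⊆ S, (faceEdges R x).Finite := fun R hR => (hS.mono hR).edges_finite x
  -- the finite index sets
  set I : Set (Finset Sg × Set ℂ × Set ℂ) :=
    ⋃ R ∈ S.powerset, (fun q : Set ℂ × Set ℂ => (R, q)) '' (faceEdges R x ×ˢ faceEdges R x) with hI
  have hIfin : I.Finite := by
    refine Set.Finite.biUnion S.powerset.finite_toSet fun R hR => ?_
    have hR' : R ⊆ S := Finset.mem_powerset.1 hR
    exact ((hfin R hR').prod (hfin R hR')).image _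
  have hImem : ∀ R ⊆ S, ∀ e₁ ∈ faceEdges R x, ∀ e₂ ∈ faceEdges R x, (R, e₁, e₂) ∈ I := by
    intro R hR e₁ h1 e₂ h2
    rw [hI]
    exact Set.mem_biUnion (Finset.mem_coe.2 (Finset.mem_powerset.2 hR)) ⟨(e₁, e₂), ⟨h1, h2⟩, rfl⟩
  have hIof : ∀ i ∈ I, i.1 ⊆ S ∧ i.2.1 ∈ faceEdges i.1 x ∧ i.2.2 ∈ faceEdges i.1 x := by
    intro i hi
    rw [hI] at hi
    simp only [Set.mem_iUnion] at hi
    obtain ⟨R, hR, q, hq, rfl⟩ := hi
    exact ⟨Finset.mem_powerset.1 hR, hq.1, hq.2⟩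
  -- separation
  have hsepE : ∀ i : Finset Sg × Set ℂ × Set ℂ, i ∈ I → ∃ r : ℝ, 0 < r ∧
      Ev S (fun p => i.2.1 ≠ i.2.2 → sg i.1 x i.2.1 = sg i.1 x i.2.2 → ∀ y₁ y₂,
        dist y₁ (mp i.1 x i.2.1) < r → dist y₂ (mp i.1 x i.2.2) < r →
        y₁ ∈ car (p (sg i.1 x i.2.1)) → y₂ ∈ car (p (sg i.1 x i.2.1)) →
        ∃ y ∈ segment ℝ y₁ y₂, y ∈ Vx (i.1.image p)) := by
    rintro ⟨R, e₁, e₂⟩ hi
    obtain ⟨hR, h1, h2⟩ := hIof _ hi
    dsimp only at hR h1 h2 ⊢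
    by_cases hc : e₁ ≠ e₂ ∧ sg R x e₁ = sg R x e₂
    · obtain ⟨hne, hss⟩ := hc
      have ho1 := hon R x e₁ h1
      have ho2 := hon R x e₂ h2
      rw [← hss] at ho2
      obtain ⟨y₀, hy₀, hv₀⟩ := edge_sep (hS.mono hR) (hsg R x e₁ h1) ho1 ho2 hne
        (hme R x e₁ h1) (hme R x e₂ h2)
      have hc2 := hmc R x e₂ h2
      rw [← hss] at hc2
      have h12 : mp R x e₁ ≠ mp R x e₂ := by
        intro he
        rw [← he, openSegment_same, Set.mem_singleton_iff] at hy₀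
        rw [hy₀] at hv₀
        exact hmv R x e₁ h1 hv₀
      obtain ⟨r, hr, hE⟩ := pert_sep hS hR (hsg R x e₁ h1) h12 (hmc R x e₁ h1) hc2 hy₀ hv₀
      exact ⟨r, hr, hE.mono fun p hp _ _ => hp⟩
    · refine ⟨1, one_pos, (pert_off hx).mono fun p _ hne hss => ?_⟩
      exact absurd ⟨hne, hss⟩ hc
  choose! rr hrr hEr using hsepE
  obtain ⟨r, hr, hrle⟩ := exists_le I hIfin rr hrr
  -- visible points
  have hvis : ∀ i ∈ I, Ev S (fun p => ∃ y, dist y (mp i.1 x i.2.1) < r ∧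
      y ∈ car (p (sg i.1 x i.2.1)) ∧ y ∉ Vx (i.1.image p) ∧
      y ∈ closure (face (i.1.image p) x)) := by
    intro i hi
    obtain ⟨hR, h1, -⟩ := hIof _ hi
    exact pert_visible hS hR (hxR _ hR) (hsg _ x _ h1) (hmc _ x _ h1) (hmv _ x _ h1)
      (hmf _ x _ h1) hr
  have hall := (pert_off hx).and ((Ev.all I hIfin _ hEr).and (Ev.all I hIfin _ hvis))
  obtain ⟨ε₀, hε₀, hε⟩ := hall
  obtain ⟨δ₀, hδ₀, hδ⟩ := hε (ε₀ / 2) (half_pos hε₀) (half_lt_self hε₀)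
  obtain ⟨p, hp1, hinj, hgp⟩ := exists_gp S
    (fun s => (s.1 - ((ε₀ / 2 : ℝ) : ℂ) * (s.2 - s.1), s.2 + ((ε₀ / 2 : ℝ) : ℂ) * (s.2 - s.1)))
    (half_pos hδ₀)
  obtain ⟨hoff, hsep, hv⟩ := hδ (δ₀ / 2) (half_pos hδ₀) (half_lt_self hδ₀) p hp1
  refine ⟨p, hinj, hgp, hoff, fun R hR => ⟨hfin R hR, ?_⟩⟩
  have hRp : R.image p ⊆ S.image p := Finset.image_subset_image hR
  have hgpR : GP (R.image p) := hgp.mono hRp
  have hxR' : x ∉ un (R.image p) := by
    intro hxu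
    obtain ⟨t, ht, hxt⟩ := mem_un.1 hxu
    exact hoff (mem_un.2 ⟨t, hRp ht, hxt⟩)
  have hv' : ∀ e, e ∈ faceEdges R x → ∃ y e', dist y (mp R x e) < r ∧
      y ∈ car (p (sg R x e)) ∧ y ∉ Vx (R.image p) ∧ e' ∈ faceEdges (R.image p) x ∧ y ∈ e' := by
    intro e he
    obtain ⟨y, hy1, hy2, hy3, hy4⟩ := hv _ (hImem R hR e he e he)
    have hyu : y ∈ un (R.image p) :=
      mem_un.2 ⟨_, Finset.mem_image_of_mem p (hsg R x e he), hy2⟩
    obtain ⟨e', he', hye⟩ := exists_boundary_edge hgpR hxR' hyu hy3 hy4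
    exact ⟨y, e', hy1, hy2, hy3, he', hye⟩
  choose! yy ee hy1 hy2 hy3 hy4 hy5 using hv'
  refine Set.ncard_le_ncard_of_injOn ee hy4 ?_ (faceEdges_le hgpR hxR').1
  intro e₁ h1 e₂ h2 heq
  by_contra hne
  have hmem2 : yy e₂ ∈ ee e₁ := by
    rw [heq]
    exact hy5 e₂ h2
  obtain ⟨⟨s', hs', p', hp', q', hq', -, hdis, hopen⟩, -⟩ := hy4 e₁ h1
  have hsub : ee e₁ ⊆ car s' := by
    rw [hopen]
    have hc : Convex ℝ (car s') := convex_segment _ _
    exact hc.openSegment_subset hp'.2 hq'.2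
  have hs1 : p (sg R x e₁) = s' := eq_of_mem (hy3 e₁ h1)
    (Finset.mem_image_of_mem p (hsg R x e₁ h1)) hs' (hy2 e₁ h1) (hsub (hy5 e₁ h1))
  have hs2 : p (sg R x e₂) = s' := eq_of_mem (hy3 e₂ h2)
    (Finset.mem_image_of_mem p (hsg R x e₂ h2)) hs' (hy2 e₂ h2) (hsub hmem2)
  have hss : sg R x e₁ = sg R x e₂ :=
    hinj (Finset.mem_coe.2 (hR (hsg R x e₁ h1))) (Finset.mem_coe.2 (hR (hsg R x e₂ h2)))
      (hs1.trans hs2.symm)
  have hi := hImem R hR e₁ h1 e₂ h2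
  have hle := hrle _ hi
  have h2' := hy2 e₂ h2
  rw [← hss] at h2'
  obtain ⟨y, hyseg, hyv⟩ := hsep _ hi hne hss (yy e₁) (yy e₂) ((hy1 e₁ h1).trans_le hle)
    ((hy1 e₂ h2).trans_le hle) (hy2 e₁ h1) h2'
  have hyo : y ∈ openSegment ℝ p' q' := by
    have hc : Convex ℝ (openSegment ℝ p' q') := convex_openSegment _ _
    have h3 := hy5 e₁ h1
    rw [hopen] at h3 hmem2
    exact hc.segment_subset h3 hmem2 hyseg
  exact Set.disjoint_left.1 hdis hyo hyv

end P7b
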