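import Pool.Agent.Lib.P7b.EvLem
import Pool.Agent.Lib.P7b.Approx

/-! MP_7b5a71: a visible point stays visible after a small perturbation.

`R ⊆ S`, `s ∈ R`, `m` a point of an edge of `R` on `s` in the frontier of the face: `m ∈ car s`, `m ∉ Vx R`, `m ∈ closure (face R x)`.  Choose `ρ ≤ r` such that the ball of radius `2 ρ` around `m` meets no
`car t`, `t ∈ R`, `t ≠ s`, and does not contain `s.1`, `s.2` (`m` is not a vertex).  Choose `w₀ ∈ face R x` with `dist w₀ m < ρ`; `w₀` is not on the line of `s` (the points of the line in the ball are on `car s`).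
Take `K, κ` from `exists_path_dist` and `η` from `cross_of_sides` and let the displacement be `< min κ η ρ` (`Ev.displ`).  Let `R' = R.image p`.  Then `K` is off `un R'` (`near_car`), so `w₀ ∈ face R' x` and
`x ∉ un R'`.  The segment from `w₀` to `2 m - w₀` (inside `ball m ρ`) meets `car (p s) ⊆ un R'`; let `y` be the first point of `un R'` on it starting from `w₀` (`un R'` closed).  `y` is in `car (p t)` for some `t ∈ R`; since
`dist y m < ρ`, `near_car` and the choice of `ρ` give `t = s`.  The half-open segment from `w₀` to `y` is connected and off `un R'`, so inside `face R' x`, and `y ∈ closure (face R' x)`.  `y` is not a vertex of `R'`: it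
is on no other `p t`, and it is not `(p s).1`, `(p s).2`, which are at distance `≥ 2 ρ - ρ` from `m`.  (If `p t = p s` for `t ≠ s` there is no problem: `Vx` counts different elements of `R'`.) -/

namespace P7b

open Complex

namespace PertVisAux

theorem mem_un {R : Finset Sg} {z : ℂ} : z ∈ un R ↔ ∃ s ∈ R, z ∈ car s := by
  simp [un]

theorem isClosed_un (R : Finset Sg) : IsClosed (un R) := by
  have h : ∀ s : Sg, IsClosed (car s) := fun s => by
    have : IsCompact (car s) := by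
      unfold car
      rw [segment_eq_image_lineMap]
      exact isCompact_Icc.image AffineMap.lineMap_continuous
    exact this.isClosed
  unfold un
  exact Set.Finite.isClosed_biUnion R.finite_toSet fun s _ => h s

/-- a uniform radius that separates `m` from finitely many sets not containing it -/
theorem exists_radius {R : Finset Sg} {s : Sg} {m : ℂ} (h : ∀ t ∈ R, t ≠ s → m ∉ car t) :
    ∃ ρ > 0, ∀ t ∈ R, t ≠ s → ∀ z ∈ car t, 2 * ρ ≤ dist z m := by
  classical
  have hm : m ∉ un (R.filter (fun t => t ≠ s)) := by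
    rw [mem_un]
    rintro ⟨t, ht, hmt⟩
    rw [Finset.mem_filter] at ht
    exact h t ht.1 ht.2 hmt
  obtain ⟨K, -, -, hxK, -, κ, hκ, hd⟩ := exists_path_dist (R.filter (fun t => t ≠ s)) hm
    (mem_connectedComponentIn (show m ∈ (un (R.filter (fun t => t ≠ s)))ᶜ from hm))
  refine ⟨κ / 2, half_pos hκ, fun t ht hts z hz => ?_⟩
  have := hd m hxK z (mem_un.2 ⟨t, Finset.mem_filter.2 ⟨ht, hts⟩, hz⟩)
  rw [dist_comm z m]
  linarith

theorem not_on_line {s : Sg} {m w₀ : ℂ} {ρ : ℝ} (hm : m ∈ car s)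
    (h1 : 2 * ρ ≤ dist m s.1) (h2 : 2 * ρ ≤ dist m s.2) (hρ : 0 < ρ) (hw : dist w₀ m < ρ)
    (hn : w₀ ∉ car s) (t : ℝ) : w₀ ≠ s.1 + (t : ℂ) * (s.2 - s.1) := by
  intro he
  unfold car at hm hn
  rw [segment_eq_image_lineMap] at hm
  obtain ⟨τ, hτ, rfl⟩ := hm
  have hτ' : (AffineMap.lineMap s.1 s.2 : ℝ → ℂ) τ = s.1 + (τ : ℂ) * (s.2 - s.1) := by
    rw [AffineMap.lineMap_apply]
    simp only [vsub_eq_sub, vadd_eq_add, Complex.real_smul]
    ring
  have hN : (0 : ℝ) ≤ ‖s.2 - s.1‖ := norm_nonneg _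
  have e1 : dist ((AffineMap.lineMap s.1 s.2 : ℝ → ℂ) τ) s.1 = τ * ‖s.2 - s.1‖ := by
    rw [hτ', dist_eq_norm]
    have : s.1 + (τ : ℂ) * (s.2 - s.1) - s.1 = (τ : ℂ) * (s.2 - s.1) := by ring
    rw [this, norm_mul, Complex.norm_real, Real.norm_of_nonneg hτ.1]
  have e2 : dist ((AffineMap.lineMap s.1 s.2 : ℝ → ℂ) τ) s.2 = (1 - τ) * ‖s.2 - s.1‖ := by
    rw [hτ', dist_eq_norm]
    have : s.1 + (τ : ℂ) * (s.2 - s.1) - s.2 = -(((1 - τ : ℝ) : ℂ) * (s.2 - s.1)) := by
      push_cast; ring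
    rw [this, norm_neg, norm_mul, Complex.norm_real, Real.norm_of_nonneg (by linarith [hτ.2])]
  have e3 : dist w₀ ((AffineMap.lineMap s.1 s.2 : ℝ → ℂ) τ) = |t - τ| * ‖s.2 - s.1‖ := by
    rw [hτ', he, dist_eq_norm]
    have : s.1 + (t : ℂ) * (s.2 - s.1) - (s.1 + (τ : ℂ) * (s.2 - s.1)) =
        ((t - τ : ℝ) : ℂ) * (s.2 - s.1) := by
      push_cast; ring
    rw [this, norm_mul, Complex.norm_real, Real.norm_eq_abs]
  rw [e1] at h1
  rw [e2] at h2
  rw [e3] at hw
  have hpos : 0 < ‖s.2 - s.1‖ := by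
    rcases hN.lt_or_eq with h | h
    · exact h
    · rw [← h] at h1
      linarith
  have hlt1 : |t - τ| < τ := by
    by_contra hc
    have := mul_le_mul_of_nonneg_right (not_lt.1 hc) hN
    linarith
  have hlt2 : |t - τ| < 1 - τ := by
    by_contra hc
    have := mul_le_mul_of_nonneg_right (not_lt.1 hc) hN
    linarith
  apply hn
  rw [segment_eq_image_lineMap]
  have hb1 := abs_lt.1 hlt1
  have hb2 := abs_lt.1 hlt2
  refine ⟨t, ⟨by linarith [hb1.1], by linarith [hb2.2]⟩, ?_⟩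
  rw [he, AffineMap.lineMap_apply]
  simp only [vsub_eq_sub, vadd_eq_add, Complex.real_smul]
  ring

/-- the first point of a closed set on a segment -/
theorem first_point {F : Set ℂ} (hF : IsClosed F) {w₀ w₁ : ℂ} (h0 : w₀ ∉ F)
    (h1 : ∃ y ∈ segment ℝ w₀ w₁, y ∈ F) :
    ∃ y ∈ segment ℝ w₀ w₁, y ∈ F ∧ y ∈ closure (connectedComponentIn Fᶜ w₀) := by
  set g : ℝ → ℂ := fun θ => AffineMap.lineMap w₀ w₁ θ with hg
  have hgc : Continuous g := AffineMap.lineMap_continuous
  have hg0 : g 0 = w₀ := by simp [hg]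
  set T : Set ℝ := Set.Icc 0 1 ∩ g ⁻¹' F with hT
  have hTc : IsCompact T := isCompact_Icc.inter_right (hF.preimage hgc)
  have hTn : T.Nonempty := by
    obtain ⟨y, hy, hyF⟩ := h1
    rw [segment_eq_image_lineMap] at hy
    obtain ⟨θ, hθ, rfl⟩ := hy
    exact ⟨θ, hθ, hyF⟩
  obtain ⟨θ, hθ, hmin⟩ := hTc.exists_isLeast hTn
  have hθ0 : 0 < θ := by
    rcases hθ.1.1.lt_or_eq with h | h
    · exact h
    · exfalso
      apply h0
      have := hθ.2
      rw [Set.mem_preimage, ← h, hg0] at this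
      exact this
  refine ⟨g θ, ?_, hθ.2, ?_⟩
  · rw [segment_eq_image_lineMap]
    exact ⟨θ, hθ.1, rfl⟩
  · have hsub : g '' Set.Ico 0 θ ⊆ connectedComponentIn Fᶜ w₀ := by
      apply IsPreconnected.subset_connectedComponentIn
      · exact isPreconnected_Ico.image g hgc.continuousOn
      · exact ⟨0, ⟨le_refl 0, hθ0⟩, hg0⟩
      · rintro _ ⟨a, ha, rfl⟩ haF
        have := hmin ⟨⟨ha.1, ha.2.le.trans hθ.1.2⟩, haF⟩
        exact absurd ha.2 (not_lt.2 this)
    refine closure_mono hsub ?_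
    have hcl : θ ∈ closure (Set.Ico 0 θ) := by
      rw [closure_Ico hθ0.ne]
      exact ⟨hθ0.le, le_refl θ⟩
    exact image_closure_subset_closure_image hgc ⟨θ, hcl, rfl⟩

end PertVisAux

open PertVisAux in
theorem pert_visible {S R : Finset Sg} (hS : LP S) (hR : R ⊆ S) {x : ℂ} (hx : x ∉ un R) {s : Sg}
    (hs : s ∈ R) {m : ℂ} (hm : m ∈ car s) (hv : m ∉ Vx R) (hf : m ∈ closure (face R x)) {r : ℝ}
    (hr : 0 < r) :
    Ev S (fun p => ∃ y, dist y m < r ∧ y ∈ car (p s) ∧ y ∉ Vx (R.image p) ∧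
      y ∈ closure (face (R.image p) x)) := by
  classical
  have hms1 : m ≠ s.1 := fun h => hv (Or.inl ⟨s, hs, Or.inl h⟩)
  have hms2 : m ≠ s.2 := fun h => hv (Or.inl ⟨s, hs, Or.inr h⟩)
  have hmt : ∀ t ∈ R, t ≠ s → m ∉ car t := fun t ht hts hc =>
    hv (Or.inr ⟨t, ht, s, hs, hts, hc, hm⟩)
  obtain ⟨ρ₁, hρ₁, hsep⟩ := exists_radius hmt
  set ρ : ℝ := min (min r ρ₁) (min (dist m s.1 / 2) (dist m s.2 / 2)) with hρdef
  have hρ : 0 < ρ := by
    refine lt_min (lt_min hr hρ₁) (lt_min ?_ ?_)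
    · exact half_pos (dist_pos.2 hms1)
    · exact half_pos (dist_pos.2 hms2)
  have hρr : ρ ≤ r := (min_le_left _ _).trans (min_le_left _ _)
  have hρρ : ρ ≤ ρ₁ := (min_le_left _ _).trans (min_le_right _ _)
  have hρ1 : 2 * ρ ≤ dist m s.1 := by
    have : ρ ≤ dist m s.1 / 2 := (min_le_right _ _).trans (min_le_left _ _)
    linarith
  have hρ2 : 2 * ρ ≤ dist m s.2 := by
    have : ρ ≤ dist m s.2 / 2 := (min_le_right _ _).trans (min_le_right _ _)
    linarith
  obtain ⟨w₀, hw₀, hwd⟩ := Metric.mem_closure_iff.1 hf ρ hρ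
  rw [dist_comm] at hwd
  have hw₀n : w₀ ∉ un R := connectedComponentIn_subset _ _ hw₀
  have hl : ∀ t : ℝ, w₀ ≠ s.1 + (t : ℂ) * (s.2 - s.1) :=
    not_on_line hm hρ1 hρ2 hρ hwd (fun h => hw₀n (mem_un.2 ⟨s, hs, h⟩))
  obtain ⟨K, -, hKc, hxK, hwK, κ, hκ, hdist⟩ := exists_path_dist R hx hw₀
  obtain ⟨η, hη, hcross⟩ := cross_of_sides (hS.ne s (hR hs)) hρ hm hρ1 hρ2 hwd hl
  have hμ : 0 < min κ (min η ρ) := lt_min hκ (lt_min hη hρ)
  refine (Ev.displ S hμ).mono fun p hp => ?_
  -- the points near `m` on moved segments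
  have hnear : ∀ t ∈ R, ∀ y : ℂ, dist y m < ρ → y ∈ car (p t) → t = s := by
    intro t ht y hy hyt
    by_contra hts
    obtain ⟨h1, h2⟩ := hp t (hR ht)
    obtain ⟨z, hz, hyz⟩ := near_car h1 h2 hyt
    have h3 := hsep t ht hts z hz
    have h4 : dist z m ≤ dist y z + dist y m := by
      rw [dist_comm y z]
      exact dist_triangle z y m
    have h5 : dist y z < ρ := hyz.trans_le ((min_le_right _ _).trans (min_le_right _ _))
    linarith
  have hKoff : ∀ z ∈ K, z ∉ un (R.image p) := by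
    intro z hz hzu
    obtain ⟨t', ht', hzt⟩ := mem_un.1 hzu
    obtain ⟨t, ht, rfl⟩ := Finset.mem_image.1 ht'
    obtain ⟨h1, h2⟩ := hp t (hR ht)
    obtain ⟨y, hy, hzy⟩ := near_car h1 h2 hzt
    have h3 := hdist z hz y (mem_un.2 ⟨t, ht, hy⟩)
    exact absurd (hzy.trans_le (min_le_left _ _)) (not_lt.2 h3)
  have hface : w₀ ∈ face (R.image p) x := face_of_path _ hKc hxK hwK hKoff
  have hfeq : face (R.image p) x = connectedComponentIn (un (R.image p))ᶜ w₀ :=
    connectedComponentIn_eq hface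
  obtain ⟨hp1, hp2⟩ := hp s (hR hs)
  obtain ⟨y', hy', hy's⟩ := hcross (p s)
    (hp1.trans_le ((min_le_right _ _).trans (min_le_left _ _)))
    (hp2.trans_le ((min_le_right _ _).trans (min_le_left _ _)))
  obtain ⟨y, hyseg, hyF, hycl⟩ := first_point (isClosed_un (R.image p)) (hKoff w₀ hwK)
    ⟨y', hy', mem_un.2 ⟨p s, Finset.mem_image_of_mem p hs, hy's⟩⟩
  have hyd : dist y m < ρ := by
    have hconv : segment ℝ w₀ (2 * m - w₀) ⊆ Metric.ball m ρ := by
      refine (convex_ball m ρ).segment_subset ?_ ?_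
      · exact hwd
      · rw [Metric.mem_ball, dist_eq_norm]
        have : 2 * m - w₀ - m = -(w₀ - m) := by ring
        rw [this, norm_neg, ← dist_eq_norm]
        exact hwd
    exact hconv hyseg
  obtain ⟨t', ht', hyt⟩ := mem_un.1 hyF
  obtain ⟨t, ht, rfl⟩ := Finset.mem_image.1 ht'
  have hts := hnear t ht y hyd hyt
  subst hts
  refine ⟨y, hyd.trans_le hρr, hyt, ?_, ?_⟩
  · rintro (⟨a', ha', ha⟩ | ⟨a', ha', b', hb', hab, hya, hyb⟩)
    · obtain ⟨a, haR, rfl⟩ := Finset.mem_image.1 ha'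
      have hya : y ∈ car (p a) := by
        rcases ha with h | h
        · rw [h]; exact left_mem_segment ℝ _ _
        · rw [h]; exact right_mem_segment ℝ _ _
      have has := hnear a haR y hyd hya
      subst has
      rcases ha with h | h
      · have h3 : dist y a.1 < ρ := by
          rw [h]
          exact hp1.trans_le ((min_le_right _ _).trans (min_le_right _ _))
        have h4 : dist m a.1 ≤ dist y m + dist y a.1 := by
          rw [dist_comm y m]
          exact dist_triangle m y a.1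
        linarith
      · have h3 : dist y a.2 < ρ := by
          rw [h]
          exact hp2.trans_le ((min_le_right _ _).trans (min_le_right _ _))
        have h4 : dist m a.2 ≤ dist y m + dist y a.2 := by
          rw [dist_comm y m]
          exact dist_triangle m y a.2
        linarith
    · obtain ⟨a, haR, rfl⟩ := Finset.mem_image.1 ha'
      obtain ⟨b, hbR, rfl⟩ := Finset.mem_image.1 hb'
      exact hab (by rw [hnear a haR y hyd hya, hnear b hbR y hyd hyb])
  · rw [hfeq]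
    exact hycl

open PertVisAux in
/-- `x` stays off the segments -/
theorem pert_off {S : Finset Sg} {x : ℂ} (hx : x ∉ un S) : Ev S (fun p => x ∉ un (S.image p)) := by
  classical
  obtain ⟨K, -, -, hxK, -, κ, hκ, hd⟩ := exists_path_dist S hx
    (mem_connectedComponentIn (show x ∈ (un S)ᶜ from hx))
  refine (Ev.displ S hκ).mono fun p hp hxu => ?_
  obtain ⟨t', ht', hxt⟩ := mem_un.1 hxu
  obtain ⟨t, ht, rfl⟩ := Finset.mem_image.1 ht'
  obtain ⟨h1, h2⟩ := hp t ht
  obtain ⟨y, hy, hxy⟩ := near_car h1 h2 hxt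
  exact absurd hxy (not_lt.2 (hd x hxK y (mem_un.2 ⟨t, ht, hy⟩)))

end P7b
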