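import Pool.Agent.Lib.P7b.MapBasic
import Pool.Agent.Lib.P7b.Orb

/-! MP_7b5a71: the basic rules for the pocket of `u`, `v = nxt^m u` (two darts of the same side with `pos u < pos v`).

Write `P d = In u m c d` (`c (lft d) + [d ∈ A] = 1`, `A = arc u m`), everything mod 2.
* `in_arc`: for `lft d = lft u` we have `c (lft d) = 0`.
* `in_nxt0`: `P (nxt d) ↔ P d` if `d ≠ u` and `nxt d ≠ v` (`lft_nxt`, `arc_nxt`).
* `in_rev0`: `P (rev d) ↔ P d` unless `Btw u v d` or `Btw u v (rev d)`, where it flips (`cc`).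
* `in_u`, `in_v`: `¬ P u`, `¬ P v`.
* `in_own`: for `d` on the side of `u`, `P d ↔ pos u < pos d < pos v`.  Proof: let `e` be on this side, not a tip.  `nxt e` and
  `rev (nxt e)` are on another segment, so `P (rev (nxt e)) ↔ P (nxt e)`; `P (str e) ↔ P (rev (nxt e))` unless `str e = v`;
  `P (nxt e) ↔ P e` unless `e = u`.  So `P` is constant along the side (`chain`) except that it flips between `u` and `str u`, and
  between the dart before `v` and `v` (both happen if `str u = v`); `¬ P u`, `¬ P v`.  Go forward from `v`, forward from `u` to `v`, and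
  backward from `u`.
* `in_opp`: for `d` on the opposite side `¬ P d`: `P d ↔ P (rev d)` flips iff `Btw u v (rev d)`, and `P (rev d)` iff `Btw` by `in_own`.
* `in_rev`, `in_nxt`: for `seg d ≠ seg u` (and `seg (nxt d) ≠ seg u`) no exception occurs.
* `in_front`: `P (nxt e) ↔ pos u ≤ pos e < pos v` for `e` on the side of `u`, not a tip: if `e = u` then `nxt u ∈ A` (`m > 1` because
  `seg (nxt u) ≠ seg u`; `u` is not a tip since `pos u < pos v`); otherwise `P (nxt e) ↔ P e` and `in_own`.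
* `in_back`: `S' = nxt (rev (str e))`, `rev (str e)` is on the opposite side, not in `P`, not `u`, and `S' ≠ v` (other segment). -/

namespace P7b

namespace PreMap

variable {M : PreMap}

namespace PocketAux

/-- the value deciding membership in the pocket -/
noncomputable def f (u : M.D) (m : ℕ) (c : M.R → ZMod 2) (d : M.D) : ZMod 2 :=
  c (M.lft d) + ind (d ∈ M.arc u m)

theorem z2 (x : ZMod 2) : x + x = 0 := CharTwo.add_self_eq_zero x

theorem f_ne (x : ZMod 2) : ¬ x = 1 ↔ x = 0 := by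
  revert x; decide

theorem f_u {u : M.D} {m : ℕ} {c} (hc : M.Col u m c) : f u m c u = 0 := by
  unfold f
  rw [hc.c0, ind_false (not_mem_arc_left u hc.m_lt), add_zero]

theorem f_v (h : M.Ax) {u : M.D} {m : ℕ} {c} (hc : M.Col u m c) :
    f u m c ((M.nxt^[m]) u) = 0 := by
  unfold f
  rw [h.lft_iter, hc.c0, ind_false (not_mem_arc_right u hc.m_lt), add_zero]

theorem f_nxt (h : M.Ax) {u : M.D} {m : ℕ} {c} (hc : M.Col u m c) (d : M.D) (h1 : d ≠ u)
    (h2 : M.nxt d ≠ (M.nxt^[m]) u) : f u m c (M.nxt d) = f u m c d := by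
  unfold f
  rw [h.lft_nxt, ind_congr (arc_nxt u hc.m_lt d h1 h2)]

theorem f_rev (h : M.Ax) {u : M.D} {m : ℕ} {c} (hc : M.Col u m c) (d : M.D) :
    f u m c (M.rev d) = f u m c d +
      ind (M.Btw u ((M.nxt^[m]) u) d ∨ M.Btw u ((M.nxt^[m]) u) (M.rev d)) := by
  have h1 := hc.cc d
  unfold f
  have h2 : c (M.lft (M.rev d)) = c (M.lft d) + (ind (d ∈ M.arc u m) + ind (M.rev d ∈ M.arc u m)
    + ind (M.Btw u ((M.nxt^[m]) u) d ∨ M.Btw u ((M.nxt^[m]) u) (M.rev d))) := by
    rw [← h1, ← add_assoc, z2, zero_add]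
  rw [h2]
  have h3 := z2 (ind (M.rev d ∈ M.arc u m))
  linear_combination h3

theorem f_rev_ne (h : M.Ax) {u : M.D} {m : ℕ} {c} (hc : M.Col u m c) (d : M.D)
    (hs : M.seg d ≠ M.seg u) : f u m c (M.rev d) = f u m c d := by
  rw [f_rev h hc, ind_false, add_zero]
  rintro (h1 | h1)
  · exact hs h1.1
  · exact hs ((h.seg_rev d).symm.trans h1.1)

theorem one_lt_m (h : M.Ax) {u : M.D} {m : ℕ} {c} (hc : M.Col u m c) : 1 < m := by
  have hnt : ¬ M.tip u := h.not_tip_of_lt u _ hc.seg_eq.symm hc.dir_eq.symm hc.pos_lt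
  have h1 := h.nxt_seg u hnt
  have h2 := hc.m_pos
  rcases Nat.lt_or_ge 1 m with h3 | h3
  · exact h3
  · exfalso
    have h4 : m = 1 := by omega
    apply h1
    have h5 := hc.seg_eq
    rw [h4] at h5
    exact h5

theorem f_nxt_u (h : M.Ax) {u : M.D} {m : ℕ} {c} (hc : M.Col u m c) :
    f u m c (M.nxt u) = 1 := by
  unfold f
  rw [h.lft_nxt, hc.c0, ind_true (nxt_mem_arc u (one_lt_m h hc)), zero_add]

/-- one step along the side, up to the other segment -/
theorem f_front (h : M.Ax) {u : M.D} {m : ℕ} {c} (hc : M.Col u m c) (e : M.D)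
    (hs : M.seg e = M.seg u) (ht : ¬ M.tip e) (hu : e ≠ u) :
    f u m c (M.nxt e) = f u m c e := by
  apply f_nxt h hc e hu
  intro h1
  apply h.nxt_seg e ht
  rw [h1, hc.seg_eq, hs]

theorem f_str' (h : M.Ax) {u : M.D} {m : ℕ} {c} (hc : M.Col u m c) (e : M.D)
    (hs : M.seg e = M.seg u) (ht : ¬ M.tip e) (hv : M.str e ≠ (M.nxt^[m]) u) :
    f u m c (M.str e) = f u m c (M.nxt e) := by
  have hN : M.seg (M.nxt e) ≠ M.seg u := fun h1 => h.nxt_seg e ht (h1.trans hs.symm)
  have h1 : M.rev (M.nxt e) ≠ u := by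
    intro h2
    apply hN
    rw [← h.seg_rev, h2]
  have h2 := f_nxt h hc (M.rev (M.nxt e)) h1 hv
  change f u m c (M.nxt (M.rev (M.nxt e))) = _
  rw [h2, f_rev_ne h hc _ hN]

theorem f_str (h : M.Ax) {u : M.D} {m : ℕ} {c} (hc : M.Col u m c) (e : M.D)
    (hs : M.seg e = M.seg u) (ht : ¬ M.tip e) (hu : e ≠ u) (hv : M.str e ≠ (M.nxt^[m]) u) :
    f u m c (M.str e) = f u m c e := by
  rw [f_str' h hc e hs ht hv, f_front h hc e hs ht hu]

theorem iter_str (h : M.Ax) (d : M.D) (k : ℕ) (hk : ∀ i < k, ¬ M.tip (M.str^[i] d)) :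
    M.seg (M.str^[k] d) = M.seg d ∧ M.dir (M.str^[k] d) = M.dir d ∧
      M.pos (M.str^[k] d) = M.pos d + k := by
  induction k with
  | zero => exact ⟨rfl, rfl, rfl⟩
  | succ k ih =>
    obtain ⟨h1, h2, h3⟩ := ih (fun i hi => hk i (by omega))
    have ht := hk k (by omega)
    rw [Function.iterate_succ_apply']
    refine ⟨(h.str_seg _ ht).trans h1, (h.str_dir _ ht).trans h2, ?_⟩
    rw [h.str_pos _ ht, h3]
    omega

/-- constancy along a piece of the side without exceptional darts -/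
theorem f_iter (h : M.Ax) {u : M.D} {m : ℕ} {c} (hc : M.Col u m c) (d : M.D)
    (hs : M.seg d = M.seg u) (k : ℕ) (hk : ∀ i < k, ¬ M.tip (M.str^[i] d))
    (hu : ∀ i < k, M.pos d + i ≠ M.pos u)
    (hv : ∀ i < k, M.pos d + i + 1 ≠ M.pos ((M.nxt^[m]) u)) :
    f u m c (M.str^[k] d) = f u m c d := by
  induction k with
  | zero => rfl
  | succ k ih =>
    rw [Function.iterate_succ_apply', ← ih (fun i hi => hk i (by omega))
      (fun i hi => hu i (by omega)) (fun i hi => hv i (by omega))]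
    obtain ⟨h1, -, h3⟩ := iter_str h d k (fun i hi => hk i (by omega))
    have ht := hk k (by omega)
    apply f_str h hc _ (h1.trans hs) ht
    · intro h4
      apply hu k (by omega)
      rw [← h3, h4]
    · intro h4
      apply hv k (by omega)
      rw [← h3, ← h.str_pos _ ht, h4]

theorem f_own (h : M.Ax) {u : M.D} {m : ℕ} {c} (hc : M.Col u m c) (d : M.D)
    (hs : M.seg d = M.seg u) (hd : M.dir d = M.dir u) :
    (f u m c d = 1 ↔ M.pos u < M.pos d ∧ M.pos d < M.pos ((M.nxt^[m]) u)) := by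
  have huv := hc.pos_lt
  have hnu : ¬ M.tip u := h.not_tip_of_lt u _ hc.seg_eq.symm hc.dir_eq.symm hc.pos_lt
  rcases Nat.lt_or_ge (M.pos u) (M.pos d) with h1 | h1
  · rcases Nat.lt_or_ge (M.pos d) (M.pos ((M.nxt^[m]) u)) with h2 | h2
    · -- between
      refine ⟨fun _ => ⟨h1, h2⟩, fun _ => ?_⟩
      have hpu := h.str_pos u hnu
      have hv : M.str u ≠ (M.nxt^[m]) u := by
        intro h3
        rw [h3] at hpu
        omega
      have h4 : f u m c (M.str u) = 1 := by
        rw [f_str' h hc u rfl hnu hv, f_nxt_u h hc]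
      have hss := h.str_seg u hnu
      have hsd := h.str_dir u hnu
      obtain ⟨hk, he⟩ := h.chain (M.str u) d (hss.trans hs.symm) (hsd.trans hd.symm) (by omega)
      have h5 := f_iter h hc (M.str u) hss (M.pos d - M.pos (M.str u)) hk
        (fun i hi => by omega) (fun i hi => by omega)
      rw [he] at h5
      rw [h5, h4]
    · -- after v
      constructor
      · intro h3
        exfalso
        obtain ⟨hk, he⟩ := h.chain ((M.nxt^[m]) u) d (hc.seg_eq.trans hs.symm)
          (hc.dir_eq.trans hd.symm) h2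
        have h5 := f_iter h hc ((M.nxt^[m]) u) hc.seg_eq (M.pos d - M.pos ((M.nxt^[m]) u)) hk
          (fun i hi => by omega) (fun i hi => by omega)
        rw [he, f_v h hc] at h5
        rw [h5] at h3
        exact zero_ne_one h3
      · rintro ⟨-, h3⟩
        omega
  · -- before u
    constructor
    · intro h3
      exfalso
      obtain ⟨hk, he⟩ := h.chain d u hs hd h1
      have h5 := f_iter h hc d hs (M.pos u - M.pos d) hk
        (fun i hi => by omega) (fun i hi => by omega)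
      rw [he, f_u hc] at h5
      rw [← h5] at h3
      exact zero_ne_one h3
    · rintro ⟨h3, -⟩
      omega

end PocketAux

open PocketAux

theorem Ax.in_arc (h : M.Ax) {u : M.D} {m : ℕ} {c} (hc : M.Col u m c) (d : M.D)
    (hd : M.lft d = M.lft u) : (M.In u m c d ↔ d ∈ M.arc u m) := by
  unfold In
  rw [hd, hc.c0, zero_add]
  by_cases h1 : d ∈ M.arc u m
  · rw [ind_true h1]
    exact ⟨fun _ => h1, fun _ => rfl⟩
  · rw [ind_false h1]
    exact ⟨fun h2 => absurd h2 zero_ne_one, fun h2 => absurd h2 h1⟩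

theorem Ax.in_own (h : M.Ax) {u : M.D} {m : ℕ} {c} (hc : M.Col u m c) (d : M.D)
    (hs : M.seg d = M.seg u) (hd : M.dir d = M.dir u) :
    (M.In u m c d ↔ M.pos u < M.pos d ∧ M.pos d < M.pos ((M.nxt^[m]) u)) :=
  f_own h hc d hs hd

theorem Ax.in_opp (h : M.Ax) {u : M.D} {m : ℕ} {c} (hc : M.Col u m c) (d : M.D)
    (hs : M.seg d = M.seg u) (hd : M.dir d ≠ M.dir u) : ¬ M.In u m c d := by
  change ¬ f u m c d = 1
  rw [f_ne]
  have hdr : M.dir (M.rev d) = M.dir u := by
    rw [h.dir_rev]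
    revert hd
    cases M.dir d <;> cases M.dir u <;> simp
  have hsr : M.seg (M.rev d) = M.seg u := (h.seg_rev d).trans hs
  have h1 := f_own h hc (M.rev d) hsr hdr
  have h2 := f_rev h hc (M.rev d)
  rw [h.rev_rev] at h2
  have h3 : (M.Btw u ((M.nxt^[m]) u) (M.rev d) ∨ M.Btw u ((M.nxt^[m]) u) d) ↔
      (M.pos u < M.pos (M.rev d) ∧ M.pos (M.rev d) < M.pos ((M.nxt^[m]) u)) := by
    constructor
    · rintro (h4 | h4)
      · exact ⟨h4.2.2.1, h4.2.2.2⟩
      · exact absurd h4.2.1 hd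
    · intro h4
      exact Or.inl ⟨hsr, hdr, h4.1, h4.2⟩
  rw [ind_congr h3] at h2
  by_cases h4 : M.pos u < M.pos (M.rev d) ∧ M.pos (M.rev d) < M.pos ((M.nxt^[m]) u)
  · rw [ind_true h4, h1.2 h4] at h2
    rw [h2]
    exact z2 1
  · rw [ind_false h4, add_zero] at h2
    rw [h2]
    exact (f_ne _).1 (fun h5 => h4 (h1.1 h5))

theorem Ax.in_rev (h : M.Ax) {u : M.D} {m : ℕ} {c} (hc : M.Col u m c) (d : M.D)
    (hs : M.seg d ≠ M.seg u) : (M.In u m c (M.rev d) ↔ M.In u m c d) := by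
  change f u m c (M.rev d) = 1 ↔ f u m c d = 1
  rw [f_rev_ne h hc d hs]

theorem Ax.in_nxt (h : M.Ax) {u : M.D} {m : ℕ} {c} (hc : M.Col u m c) (d : M.D)
    (hs : M.seg d ≠ M.seg u) (hn : M.seg (M.nxt d) ≠ M.seg u) :
    (M.In u m c (M.nxt d) ↔ M.In u m c d) := by
  change f u m c (M.nxt d) = 1 ↔ f u m c d = 1
  rw [f_nxt h hc d (fun h1 => hs (by rw [h1])) (fun h1 => hn (by rw [h1, hc.seg_eq]))]

theorem Ax.in_front (h : M.Ax) {u : M.D} {m : ℕ} {c} (hc : M.Col u m c) (e : M.D)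
    (hs : M.seg e = M.seg u) (hd : M.dir e = M.dir u) (ht : ¬ M.tip e) :
    (M.In u m c (M.nxt e) ↔ M.pos u ≤ M.pos e ∧ M.pos e < M.pos ((M.nxt^[m]) u)) := by
  change f u m c (M.nxt e) = 1 ↔ _
  by_cases he : e = u
  · rw [he]
    exact ⟨fun _ => ⟨le_rfl, hc.pos_lt⟩, fun _ => f_nxt_u h hc⟩
  · rw [f_front h hc e hs ht he, f_own h hc e hs hd]
    constructor
    · rintro ⟨h1, h2⟩
      exact ⟨h1.le, h2⟩
    · rintro ⟨h1, h2⟩
      refine ⟨lt_of_le_of_ne h1 ?_, h2⟩
      intro h3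
      exact he (h.pos_inj e u hs hd h3.symm)

theorem Ax.in_back (h : M.Ax) {u : M.D} {m : ℕ} {c} (hc : M.Col u m c) (e : M.D)
    (hs : M.seg e = M.seg u) (hd : M.dir e = M.dir u) (ht : ¬ M.tip e) :
    ¬ M.In u m c (M.nxt (M.rev (M.str e))) := by
  have hs2 : M.seg (M.rev (M.str e)) = M.seg u := by
    rw [h.seg_rev, h.str_seg e ht, hs]
  have hd2 : M.dir (M.rev (M.str e)) ≠ M.dir u := by
    rw [h.dir_rev, h.str_dir e ht, hd]
    cases M.dir u <;> simp
  have h1 := h.in_opp hc (M.rev (M.str e)) hs2 hd2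
  change ¬ f u m c (M.nxt (M.rev (M.str e))) = 1
  rw [f_nxt h hc (M.rev (M.str e)) (fun h2 => hd2 (by rw [h2])) ?_]
  · exact h1
  · intro h2
    have h3 := h.seg_right e ht
    rw [h2, hc.seg_eq] at h3
    exact h.nxt_seg e ht (h3.symm.trans hs.symm)

end PreMap

end P7b
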