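import Pool.Agent.Lib.P7b.GAx
import Pool.Agent.Lib.P7b.GFace
import Pool.Agent.Lib.P7b.MapMain

/-! MP_7b5a71: Theorem A, the deterministic bound for the complexity of a face.

`face_bound` for `gm h` and `f = face R x`, `faceEdges_le`, `cr_card`; `Fintype.card {s // s ∈ R} = R.card`; `lightSeg` corresponds to the segments with
`1 ≤ cross R s ≤ w`; `Nat.clog 2 (8 r) + 1 ≤ 5 + log r / log 2 ≤ 5 + 2 log r`; `r / (w + 1) ≤ r / w`; `log (2 w) ≤ 1 + log w`. -/

namespace P7b

open Classical in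
/-- the segments of `R` meeting at least one and at most `w` other segments -/
noncomputable def lightCount (R : Finset Sg) (w : ℕ) : ℕ :=
  (R.filter (fun s => 1 ≤ cross R s ∧ cross R s ≤ w)).card

namespace ThmAAux

theorem clog_le {r : ℕ} (hr : 1 ≤ r) : ((Nat.clog 2 (8 * r) : ℕ) : ℝ) + 1 ≤ 5 + 2 * Real.log r := by
  have hr0 : (0 : ℝ) < r := by exact_mod_cast hr
  have h1 : (Nat.clog 2 (8 * r) : ℝ) < Real.logb 2 ((8 * r : ℕ) : ℝ) + 1 := by
    rw [← Real.natCeil_logb_natCast 2 (8 * r)]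
    refine Nat.ceil_lt_add_one (Real.logb_nonneg (by norm_num) ?_)
    have : (1 : ℕ) ≤ 8 * r := by omega
    exact_mod_cast this
  have h2 : Real.logb 2 ((8 * r : ℕ) : ℝ) = 3 + Real.logb 2 r := by
    push_cast
    rw [Real.logb_mul (by norm_num) hr0.ne']
    congr 1
    rw [show (8 : ℝ) = 2 ^ (3 : ℕ) by norm_num, Real.logb_pow]
    simp
  have h3 : Real.logb 2 r ≤ 2 * Real.log r := by
    have hl : 0 ≤ Real.log r := Real.log_nonneg (by exact_mod_cast hr)
    have hl2 : (0.6931471803 : ℝ) < Real.log 2 := Real.log_two_gt_d9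
    unfold Real.logb
    rw [div_le_iff₀ (by linarith)]
    nlinarith
  linarith

end ThmAAux

open ThmAAux

theorem thmA {R : Finset Sg} (h : GP R) {x : ℂ} (hx : x ∉ un R) (w : ℕ) (hw : 1 ≤ w) :
    (faceEdges R x).Finite ∧ (faceSize R x : ℝ) ≤ 2240 * (R.card : ℝ)
      + 640 * ((R.card : ℝ) / w * Real.log R.card)
      + 320 * (1 + Real.log w) * lightCount R w := by
  classical
  obtain ⟨hfin, hle⟩ := faceEdges_le h hx
  refine ⟨hfin, ?_⟩
  have hb := (gm_ax h).face_bound (face R x) w hw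
  have hcard : Fintype.card (gm h).S = R.card := by
    rw [← Nat.card_eq_fintype_card]
    change Nat.card {s : Sg // s ∈ R} = R.card
    rw [Nat.card_eq_fintype_card, Fintype.card_coe]
  have hlight : ((gm h).lightSeg w).card ≤ lightCount R w := by
    unfold PreMap.lightSeg lightCount
    refine Finset.card_le_card_of_injOn (fun s : {s : Sg // s ∈ R} => s.1) ?_ ?_
    · intro s hs
      have hs' := (Finset.mem_filter.1 (Finset.mem_coe.1 hs)).2
      have hc := cr_card h s.2
      rw [Finset.mem_coe, Finset.mem_filter]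
      refine ⟨s.2, ?_⟩
      rw [← hc]
      exact hs'
    · intro s _ t _ hst
      exact Subtype.ext hst
  rw [hcard] at hb
  set r := R.card with hrdef
  have hw0 : (1 : ℝ) ≤ w := by exact_mod_cast hw
  have hlw : 0 ≤ Real.log w := Real.log_nonneg hw0
  have h1 : (faceSize R x : ℝ) ≤ (((gm h).fd (face R x)).card : ℝ) := by exact_mod_cast hle
  have h2 : 64 * (3 + 2 * Real.log (2 * w)) * (((gm h).lightSeg w).card : ℝ) ≤
      320 * (1 + Real.log w) * (lightCount R w : ℝ) := by
    have h3 : Real.log (2 * w) = Real.log 2 + Real.log w :=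
      Real.log_mul (by norm_num) (by linarith)
    have h4 : Real.log 2 < 0.6931471808 := Real.log_two_lt_d9
    have h5 : 64 * (3 + 2 * Real.log (2 * w)) ≤ 320 * (1 + Real.log w) := by
      rw [h3]
      linarith
    have h6 : (((gm h).lightSeg w).card : ℝ) ≤ (lightCount R w : ℝ) := by exact_mod_cast hlight
    exact mul_le_mul h5 h6 (by positivity) (by positivity)
  have h7 : 640 * (r : ℝ) + 320 * ((r : ℝ) / (w + 1 : ℝ)) * ((Nat.clog 2 (8 * r) : ℕ) + 1 : ℝ) ≤
      2240 * (r : ℝ) + 640 * ((r : ℝ) / w * Real.log r) := by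
    rcases Nat.eq_zero_or_pos r with h0 | h0
    · rw [h0]
      simp
    · have h8 := clog_le h0
      have hr0 : (1 : ℝ) ≤ r := by exact_mod_cast h0
      have hlr : 0 ≤ Real.log r := Real.log_nonneg hr0
      have h9 : (r : ℝ) / (w + 1 : ℝ) ≤ (r : ℝ) / w :=
        div_le_div_of_nonneg_left (by linarith) (by linarith) (by linarith)
      have h10 : (r : ℝ) / (w + 1 : ℝ) ≤ r := div_le_self (by linarith) (by linarith)
      have h11 : 0 ≤ (r : ℝ) / (w + 1 : ℝ) := by positivity
      calc 640 * (r : ℝ) + 320 * ((r : ℝ) / (w + 1 : ℝ)) * ((Nat.clog 2 (8 * r) : ℕ) + 1 : ℝ)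
          ≤ 640 * (r : ℝ) + 320 * ((r : ℝ) / (w + 1 : ℝ)) * (5 + 2 * Real.log r) := by
            gcongr
        _ = 640 * (r : ℝ) + 1600 * ((r : ℝ) / (w + 1 : ℝ))
            + 640 * ((r : ℝ) / (w + 1 : ℝ) * Real.log r) := by ring
        _ ≤ 640 * (r : ℝ) + 1600 * r + 640 * ((r : ℝ) / w * Real.log r) := by
            gcongr
        _ = 2240 * (r : ℝ) + 640 * ((r : ℝ) / w * Real.log r) := by ring
  linarith

end P7b
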