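import Pool.Agent.Lib.P7b.SumSet
import Pool.Agent.Lib.P7b.ThmA

/-! MP_7b5a71: the expected number of lightly crossed segments in random samples.

`Σ_k (1/k²) (1/C(n,k)) Σ_{|R| = k} lightCount R w = Σ_{s ∈ S} Σ_{R ⊆ S, s ∈ R, 1 ≤ cross R s ≤ w} 1 / (|R|² C(n, |R|))`.  Fix `s`, `Y = S \ {s}`, `X = {t ∈ Y | t meets s}`.
`R = insert s R'` with `R' ⊆ Y`, `m = |R'|`, `cross R s = |R' ∩ X|`, so `m ≥ 1`; `C(n, m+1) = n / (m+1) C(n-1, m)`, hence
`1 / ((m+1)² C(n, m+1)) = 1 / (n (m+1) C(n-1, m)) ≤ (1/n) / (m C(n-1, m))`.  `sum_light` for `Y`, `X` bounds the inner sum by `(1 + log w) / n`; sum over the `n`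
segments `s`. -/

namespace P7b

namespace SumCrossAux

open Classical in
/-- the segments of `Y` meeting `s` -/
noncomputable def meet (Y : Finset Sg) (s : Sg) : Finset Sg :=
  Y.filter (fun t => (car s ∩ car t).Nonempty)

open Classical in
theorem cross_insert {Y R : Finset Sg} {s : Sg} (hs : s ∉ Y) (hR : R ⊆ Y) :
    cross (insert s R) s = (R ∩ meet Y s).card := by
  unfold cross meet
  congr 1
  ext t
  simp only [Finset.mem_filter, Finset.mem_insert, Finset.mem_inter]
  constructor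
  · rintro ⟨h1 | h1, h2, h3⟩
    · exact absurd h1 h2
    · exact ⟨h1, hR h1, h3⟩
  · rintro ⟨h1, h2, h3⟩
    exact ⟨Or.inr h1, fun h => hs (h ▸ h2), h3⟩

/-- the weight of a sample -/
noncomputable def g (n : ℕ) (R : Finset Sg) : ℝ := 1 / ((R.card : ℝ) ^ 2 * (n.choose R.card : ℝ))

theorem g_nonneg (n : ℕ) (R : Finset Sg) : 0 ≤ g n R := by
  unfold g
  positivity

theorem g_insert {Y R : Finset Sg} {s : Sg} (hs : s ∉ Y) (hR : R ⊆ Y) (h1 : 1 ≤ R.card) :
    g (Y.card + 1) (insert s R)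
      ≤ (1 / ((Y.card : ℝ) + 1)) * (1 / ((R.card : ℝ) * (Y.card.choose R.card : ℝ))) := by
  unfold g
  have hsR : s ∉ R := fun h => hs (hR h)
  rw [Finset.card_insert_of_notMem hsR]
  have hle : R.card ≤ Y.card := Finset.card_le_card hR
  have hc : 0 < Y.card.choose R.card := Nat.choose_pos hle
  have hr : (0 : ℝ) < R.card := by exact_mod_cast h1
  have hc' : (0 : ℝ) < (Y.card.choose R.card : ℝ) := by exact_mod_cast hc
  have hid : (((Y.card + 1).choose (R.card + 1) : ℕ) : ℝ) * ((R.card : ℝ) + 1)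
      = ((Y.card : ℝ) + 1) * (Y.card.choose R.card : ℝ) := by
    have := Nat.add_one_mul_choose_eq Y.card R.card
    have h2 : (((Y.card + 1) * Y.card.choose R.card : ℕ) : ℝ)
        = (((Y.card + 1).choose (R.card + 1) * (R.card + 1) : ℕ) : ℝ) := by
      exact_mod_cast this
    push_cast at h2
    linarith
  have hn : (0 : ℝ) < (Y.card : ℝ) + 1 := by positivity
  rw [one_div_mul_one_div]
  apply one_div_le_one_div_of_le
  · positivity
  · have e : (((R.card + 1 : ℕ) : ℝ)) ^ 2 * (((Y.card + 1).choose (R.card + 1) : ℕ) : ℝ)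
        = ((R.card : ℝ) + 1) * (((Y.card : ℝ) + 1) * (Y.card.choose R.card : ℝ)) := by
      rw [← hid]
      push_cast
      ring
    rw [e]
    have : 0 < ((Y.card : ℝ) + 1) * (Y.card.choose R.card : ℝ) := by positivity
    nlinarith

open Classical in
/-- the indicator -/
noncomputable def indq (w : ℕ) (R : Finset Sg) (s : Sg) : ℝ :=
  if s ∈ R ∧ 1 ≤ cross R s ∧ cross R s ≤ w then 1 else 0

open Classical in
theorem one_seg (S : Finset Sg) (w : ℕ) (hw : 1 ≤ w) (s : Sg) (hs : s ∈ S) :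
    ∑ R ∈ S.powerset, g S.card R * indq w R s ≤ (1 / (S.card : ℝ)) * (1 + Real.log w) := by
  set Y := S.erase s with hY
  have hsY : s ∉ Y := Finset.notMem_erase s S
  have hS : S = insert s Y := (Finset.insert_erase hs).symm
  have hcard : S.card = Y.card + 1 := by
    rw [hS, Finset.card_insert_of_notMem hsY]
  rw [hcard]
  conv_lhs => rw [hS]
  rw [Finset.sum_powerset_insert hsY]
  have h0 : ∑ R ∈ Y.powerset, g (Y.card + 1) R * indq w R s = 0 := by
    refine Finset.sum_eq_zero fun R hR => ?_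
    rw [Finset.mem_powerset] at hR
    have : s ∉ R := fun h => hsY (hR h)
    unfold indq
    rw [if_neg (fun h => this h.1), mul_zero]
  rw [h0, zero_add]
  have hX : meet Y s ⊆ Y := Finset.filter_subset _ _
  have hlight := sum_light Y (meet Y s) hX w hw
  have hstep : ∑ R ∈ Y.powerset, g (Y.card + 1) (insert s R) * indq w (insert s R) s
      ≤ ∑ R ∈ Y.powerset.filter
          (fun R => 1 ≤ (R ∩ meet Y s).card ∧ (R ∩ meet Y s).card ≤ w),
        (1 / ((Y.card : ℝ) + 1)) * (1 / ((R.card : ℝ) * (Y.card.choose R.card : ℝ))) := by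
    rw [Finset.sum_filter]
    refine Finset.sum_le_sum fun R hR => ?_
    rw [Finset.mem_powerset] at hR
    unfold indq
    rw [cross_insert hsY hR]
    by_cases hc : 1 ≤ (R ∩ meet Y s).card ∧ (R ∩ meet Y s).card ≤ w
    · rw [if_pos ⟨Finset.mem_insert_self _ _, hc⟩, if_pos hc, mul_one]
      refine g_insert hsY hR (hc.1.trans (Finset.card_le_card Finset.inter_subset_left))
    · rw [if_neg (fun h => hc h.2), if_neg hc, mul_zero]
  refine hstep.trans ?_
  rw [← Finset.mul_sum]
  have hn : (0 : ℝ) ≤ 1 / ((Y.card : ℝ) + 1) :=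
    div_nonneg zero_le_one (add_nonneg (Nat.cast_nonneg _) zero_le_one)
  have he : (1 / ((Y.card + 1 : ℕ) : ℝ)) = 1 / ((Y.card : ℝ) + 1) := by
    rw [Nat.cast_add, Nat.cast_one]
  rw [he]
  exact mul_le_mul_of_nonneg_left hlight hn

end SumCrossAux

open SumCrossAux

theorem sum_lightCount (S : Finset Sg) (w : ℕ) (hw : 1 ≤ w) :
    ∑ k ∈ Finset.Icc 1 S.card, (1 / (k : ℝ) ^ 2) *
      ((∑ R ∈ S.powersetCard k, (lightCount R w : ℝ)) / (S.card.choose k : ℝ)) ≤ 1 + Real.log w := by
  classical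
  have hlog : 0 ≤ Real.log w := Real.log_nonneg (by exact_mod_cast hw)
  have h1 : ∀ k ∈ Finset.Icc 1 S.card, (1 / (k : ℝ) ^ 2) *
      ((∑ R ∈ S.powersetCard k, (lightCount R w : ℝ)) / (S.card.choose k : ℝ))
      = ∑ R ∈ S.powersetCard k, g S.card R * (lightCount R w : ℝ) := by
    intro k _
    rw [Finset.sum_div, Finset.mul_sum]
    refine Finset.sum_congr rfl fun R hR => ?_
    rw [Finset.mem_powersetCard] at hR
    unfold g
    rw [hR.2]
    simp only [mul_inv, div_eq_mul_inv]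
    ring
  rw [Finset.sum_congr rfl h1]
  have hnn : ∀ R, 0 ≤ g S.card R * (lightCount R w : ℝ) := fun R =>
    mul_nonneg (g_nonneg _ _) (by positivity)
  have h2 : ∑ k ∈ Finset.Icc 1 S.card, ∑ R ∈ S.powersetCard k, g S.card R * (lightCount R w : ℝ)
      ≤ ∑ R ∈ S.powerset, g S.card R * (lightCount R w : ℝ) := by
    rw [Finset.sum_powerset]
    refine Finset.sum_le_sum_of_subset_of_nonneg ?_ fun k _ _ => Finset.sum_nonneg fun R _ => hnn R
    intro k hk
    rw [Finset.mem_Icc] at hk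
    rw [Finset.mem_range]
    omega
  refine h2.trans ?_
  have h3 : ∀ R ∈ S.powerset, g S.card R * (lightCount R w : ℝ)
      = ∑ s ∈ S, g S.card R * indq w R s := by
    intro R hR
    rw [Finset.mem_powerset] at hR
    rw [← Finset.mul_sum]
    congr 1
    unfold lightCount indq
    rw [Finset.card_filter]
    push_cast
    rw [← Finset.sum_subset hR]
    · refine Finset.sum_congr rfl fun s hs => ?_
      by_cases hc : 1 ≤ cross R s ∧ cross R s ≤ w
      · rw [if_pos hc, if_pos ⟨hs, hc⟩]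
      · rw [if_neg hc, if_neg (fun h => hc h.2)]
    · intro s _ hs
      rw [if_neg (fun h => hs h.1)]
  rw [Finset.sum_congr rfl h3, Finset.sum_comm]
  rcases S.eq_empty_or_nonempty with he | hne
  · subst he
    simp only [Finset.sum_empty]
    linarith
  have h4 : ∑ s ∈ S, ∑ R ∈ S.powerset, g S.card R * indq w R s
      ≤ ∑ _s ∈ S, (1 / (S.card : ℝ)) * (1 + Real.log w) :=
    Finset.sum_le_sum fun s hs => one_seg S w hw s hs
  refine h4.trans ?_
  have hc : (0 : ℝ) < S.card := by exact_mod_cast hne.card_pos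
  rw [Finset.sum_const, nsmul_eq_mul, ← mul_assoc, mul_one_div_cancel hc.ne', one_mul]

end P7b
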