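import Mathlib

/-! MP_7b5a71: a sampling identity. -/

namespace P7b

namespace SumSetAux

/-- the weight -/
noncomputable def W (n k : ℕ) : ℝ := 1 / ((k : ℝ) * (n.choose k : ℝ))

theorem W_rec (n k : ℕ) (hk : 1 ≤ k) (hkn : k ≤ n) : W n k = W (n + 1) k + W (n + 1) (k + 1) := by
  obtain ⟨j, rfl⟩ : ∃ j, k = j + 1 := ⟨k - 1, by omega⟩
  obtain ⟨m, rfl⟩ : ∃ m, n = j + 1 + m := ⟨n - (j + 1), by omega⟩
  have h1 : ((j + 1 + m).choose (j + 1) : ℝ)
      = ((j + 1 + m).factorial : ℝ) / ((j + 1).factorial * m.factorial) := by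
    rw [Nat.cast_choose ℝ (by omega)]
    congr 3
    congr 1
    omega
  have h2 : ((j + 1 + m + 1).choose (j + 1) : ℝ)
      = ((j + 1 + m + 1).factorial : ℝ) / ((j + 1).factorial * (m + 1).factorial) := by
    rw [Nat.cast_choose ℝ (by omega)]
    congr 3
    congr 1
    omega
  have h3 : ((j + 1 + m + 1).choose (j + 1 + 1) : ℝ)
      = ((j + 1 + m + 1).factorial : ℝ) / ((j + 1 + 1).factorial * m.factorial) := by
    rw [Nat.cast_choose ℝ (by omega)]
    congr 3
    congr 1
    omega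
  unfold W
  rw [h1, h2, h3]
  have f1 : ((j + 1 + m).factorial : ℝ) ≠ 0 := by positivity
  have f2 : ((j + 1).factorial : ℝ) ≠ 0 := by positivity
  have f3 : (m.factorial : ℝ) ≠ 0 := by positivity
  have f4 : ((j : ℝ) + 1) ≠ 0 := by positivity
  have f5 : ((j : ℝ) + 1 + 1) ≠ 0 := by positivity
  have f6 : ((j : ℝ) + 1 + m + 1) ≠ 0 := by positivity
  have e1 : ((j + 1 + m + 1).factorial : ℝ) = ((j : ℝ) + 1 + m + 1) * (j + 1 + m).factorial := by
    rw [Nat.factorial_succ (j + 1 + m)]
    push_cast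
    ring
  have e2 : ((m + 1).factorial : ℝ) = ((m : ℝ) + 1) * m.factorial := by
    rw [Nat.factorial_succ m]
    push_cast
    ring
  have e3 : ((j + 1 + 1).factorial : ℝ) = ((j : ℝ) + 1 + 1) * (j + 1).factorial := by
    rw [Nat.factorial_succ (j + 1)]
    push_cast
    ring
  rw [e1, e2, e3]
  push_cast
  field_simp
  ring

/-- the sum -/
noncomputable def F {β : Type*} [DecidableEq β] (X : Finset β) (w : ℕ) (Y : Finset β) : ℝ :=
  ∑ R ∈ Y.powerset, if 1 ≤ (R ∩ X).card ∧ (R ∩ X).card ≤ w then W Y.card R.card else 0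

theorem F_insert {β : Type*} [DecidableEq β] (X Y : Finset β) (w : ℕ) (y : β) (hy : y ∉ Y)
    (hX : X ⊆ Y) : F X w (insert y Y) = F X w Y := by
  unfold F
  rw [Finset.sum_powerset_insert hy, ← Finset.sum_add_distrib]
  refine Finset.sum_congr rfl fun R hR => ?_
  rw [Finset.mem_powerset] at hR
  have h1 : y ∉ R := fun h => hy (hR h)
  have h2 : insert y R ∩ X = R ∩ X := by
    rw [Finset.insert_inter_of_notMem (fun h => hy (hX h))]
  rw [Finset.card_insert_of_notMem hy]
  have h3 : (insert y R).card = R.card + 1 := Finset.card_insert_of_notMem h1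
  simp only [h2, h3]
  split_ifs with hc
  · rw [W_rec Y.card R.card ?_ (Finset.card_le_card hR)]
    refine hc.1.trans (Finset.card_le_card ?_)
    exact Finset.inter_subset_left
  · simp

theorem F_eq {β : Type*} [DecidableEq β] (X : Finset β) (w : ℕ) (Y : Finset β) (hX : X ⊆ Y) :
    F X w Y = F X w X := by
  have : ∀ Z : Finset β, Disjoint X Z → F X w (X ∪ Z) = F X w X := by
    intro Z
    induction Z using Finset.induction_on with
    | empty => simp
    | insert z Z hz ih =>
      intro hd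
      rw [Finset.disjoint_insert_right] at hd
      rw [Finset.union_insert, F_insert X (X ∪ Z) w z ?_ Finset.subset_union_left, ih hd.2]
      rw [Finset.mem_union]
      push Not
      exact ⟨hd.1, hz⟩
  have h2 := this (Y \ X) Finset.disjoint_sdiff
  rwa [Finset.union_sdiff_of_subset hX] at h2

theorem F_le {β : Type*} [DecidableEq β] (X : Finset β) (w : ℕ) (hw : 1 ≤ w) :
    F X w X ≤ 1 + Real.log w := by
  have h1 : F X w X = ∑ R ∈ X.powerset,
      (fun k : ℕ => if 1 ≤ k ∧ k ≤ w then W X.card k else 0) R.card := by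
    unfold F
    refine Finset.sum_congr rfl fun R hR => ?_
    rw [Finset.mem_powerset] at hR
    have : R ∩ X = R := by
      rw [Finset.inter_eq_left]
      exact hR
    simp only [this]
  rw [h1, Finset.sum_powerset_apply_card (fun k : ℕ => if 1 ≤ k ∧ k ≤ w then W X.card k else 0)]
  have h2 : ∀ k ∈ Finset.range (X.card + 1),
      (X.card.choose k) • (if 1 ≤ k ∧ k ≤ w then W X.card k else 0)
        = if 1 ≤ k ∧ k ≤ w then ((k : ℝ))⁻¹ else 0 := by
    intro k hk
    rw [Finset.mem_range] at hk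
    split_ifs with hc
    · unfold W
      have h3 : ((X.card.choose k : ℕ) : ℝ) ≠ 0 := by
        have := Nat.choose_pos (n := X.card) (k := k) (by omega)
        positivity
      have h4 : (k : ℝ) ≠ 0 := by
        have : 0 < k := hc.1
        positivity
      rw [nsmul_eq_mul]
      field_simp
    · simp
  rw [Finset.sum_congr rfl h2, ← Finset.sum_filter]
  have h3 : (Finset.range (X.card + 1)).filter (fun k => 1 ≤ k ∧ k ≤ w)
      ⊆ Finset.Icc 1 w := by
    intro k hk
    rw [Finset.mem_filter] at hk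
    rw [Finset.mem_Icc]
    exact hk.2
  have h4 : ∑ k ∈ (Finset.range (X.card + 1)).filter (fun k => 1 ≤ k ∧ k ≤ w), ((k : ℝ))⁻¹
      ≤ ∑ k ∈ Finset.Icc 1 w, ((k : ℝ))⁻¹ :=
    Finset.sum_le_sum_of_subset_of_nonneg h3 fun k _ _ => by positivity
  have h5 : ∑ k ∈ Finset.Icc 1 w, ((k : ℝ))⁻¹ = (harmonic w : ℝ) := by
    rw [harmonic_eq_sum_Icc]
    push_cast
    rfl
  rw [h5] at h4
  exact h4.trans (harmonic_le_one_add_log w)

end SumSetAux

open SumSetAux

theorem sum_light {β : Type*} [DecidableEq β] (Y X : Finset β) (hX : X ⊆ Y) (w : ℕ) (hw : 1 ≤ w) :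
    ∑ R ∈ Y.powerset.filter (fun R => 1 ≤ (R ∩ X).card ∧ (R ∩ X).card ≤ w),
      1 / ((R.card : ℝ) * (Y.card.choose R.card : ℝ)) ≤ 1 + Real.log w := by
  have h1 : ∑ R ∈ Y.powerset.filter (fun R => 1 ≤ (R ∩ X).card ∧ (R ∩ X).card ≤ w),
      1 / ((R.card : ℝ) * (Y.card.choose R.card : ℝ)) = F X w Y := by
    unfold F
    rw [Finset.sum_filter]
    refine Finset.sum_congr rfl fun R _ => ?_
    rfl
  rw [h1, F_eq X w Y hX]
  exact F_le X w hw

end P7b
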