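import Pool.Agent.Lib.P7b.SumCross

/-! MP_7b5a71: Theorem B, the expected cost of the randomised incremental construction.

`n = |S|`.  `n = 0`: empty sum.  `w = Nat.log 2 n + 1`, so `log k ≤ log n ≤ w` for `k ≤ n` and `thmA` gives `faceSize R x ≤ 2880 k + 320 (1 + log w) lightCount R w` for
`|R| = k` (`GP.mono`, `un R ⊆ un S`).  Averages: `Σ_k (1/k²) 2880 k ≤ 2880 (1 + log n)`, and `sum_lightCount` gives `320 (1 + log w)²`.
`1 + log w ≤ 2 √w` and `w ≤ 1 + 1.4427 log n ≤ 1.5 (1 + log n)`, so this is `≤ 1920 (1 + log n)`. -/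

namespace P7b

namespace ThmBAux

theorem un_mono {R S : Finset Sg} (h : R ⊆ S) : un R ⊆ un S := by
  unfold un
  exact Set.biUnion_subset_biUnion_left (fun s hs => h hs)

theorem harm_le (n : ℕ) (hn : 1 ≤ n) : ∑ k ∈ Finset.Icc 1 n, (1 / (k : ℝ)) ≤ 1 + Real.log n := by
  have h := harmonic_le_one_add_log n
  have h2 : ((harmonic n : ℚ) : ℝ) = ∑ k ∈ Finset.Icc 1 n, (1 / (k : ℝ)) := by
    rw [harmonic_eq_sum_Icc]
    push_cast
    exact Finset.sum_congr rfl (fun k _ => by rw [one_div])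
  rw [← h2]
  exact h

theorem sq_log_le {w : ℝ} (hw : 1 ≤ w) : (1 + Real.log w) ^ 2 ≤ 4 * w := by
  have hs : 0 < Real.sqrt w := Real.sqrt_pos.mpr (by linarith)
  have h1 : Real.log w = 2 * Real.log (Real.sqrt w) := by
    rw [Real.log_sqrt (by linarith)]
    ring
  have h2 : Real.log (Real.sqrt w) ≤ Real.sqrt w - 1 := Real.log_le_sub_one_of_pos hs
  have h3 : 0 ≤ Real.log w := Real.log_nonneg hw
  have h4 : 1 + Real.log w ≤ 2 * Real.sqrt w := by linarith
  have h5 : Real.sqrt w * Real.sqrt w = w := Real.mul_self_sqrt (by linarith)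
  nlinarith

end ThmBAux

open ThmBAux

theorem thmB {S : Finset Sg} (h : GP S) {x : ℂ} (hx : x ∉ un S) :
    ∑ k ∈ Finset.Icc 1 S.card, (1 / (k : ℝ) ^ 2) *
      ((∑ R ∈ S.powersetCard k, (faceSize R x : ℝ)) / (S.card.choose k : ℝ))
        ≤ 4800 * (1 + Real.log S.card) := by
  classical
  rcases Nat.eq_zero_or_pos S.card with h0 | hn
  · rw [h0]
    simp
  obtain ⟨n, hn_def⟩ : ∃ n, n = S.card := ⟨_, rfl⟩
  rw [← hn_def] at hn ⊢
  obtain ⟨w, hw⟩ : ∃ w, w = Nat.log 2 n + 1 := ⟨_, rfl⟩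
  have hw1 : 1 ≤ w := by omega
  have hw1R : (1 : ℝ) ≤ w := by exact_mod_cast hw1
  have hn1 : (1 : ℝ) ≤ n := by exact_mod_cast hn
  have hlogn : 0 ≤ Real.log n := Real.log_nonneg hn1
  have hlt : (n : ℝ) < 2 ^ w := by
    rw [hw]
    exact_mod_cast Nat.lt_pow_succ_log_self (by norm_num) n
  have hlogw : Real.log n ≤ w := by
    have h1 : Real.log n ≤ Real.log ((2 : ℝ) ^ w) := Real.log_le_log (by linarith) hlt.le
    rw [Real.log_pow] at h1
    nlinarith [Real.log_two_lt_d9]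
  have hwn : (w : ℝ) ≤ 1 + 3 / 2 * Real.log n := by
    have h1 : (2 : ℝ) ^ (Nat.log 2 n) ≤ n := by
      exact_mod_cast Nat.pow_log_le_self 2 (by omega : n ≠ 0)
    have h2 : Real.log ((2 : ℝ) ^ (Nat.log 2 n)) ≤ Real.log n :=
      Real.log_le_log (by positivity) h1
    rw [Real.log_pow] at h2
    have h3 : (w : ℝ) = (Nat.log 2 n : ℝ) + 1 := by
      rw [hw]
      push_cast
      ring
    have h4 : (0 : ℝ) ≤ (Nat.log 2 n : ℝ) := Nat.cast_nonneg _
    rw [h3]
    nlinarith [Real.log_two_gt_d9]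
  have hlogw0 : 0 ≤ Real.log w := Real.log_nonneg hw1R
  -- pointwise bound
  have hpt : ∀ k ∈ Finset.Icc 1 n, ∀ R ∈ S.powersetCard k,
      (faceSize R x : ℝ) ≤ 2880 * (k : ℝ) + 320 * (1 + Real.log w) * (lightCount R w : ℝ) := by
    intro k hk R hR
    rw [Finset.mem_Icc] at hk
    rw [Finset.mem_powersetCard] at hR
    have hA := (thmA (h.mono hR.1) (fun hc => hx (un_mono hR.1 hc)) w hw1).2
    rw [hR.2] at hA
    have hk1 : (1 : ℝ) ≤ k := by exact_mod_cast hk.1
    have hkn : (k : ℝ) ≤ n := by exact_mod_cast hk.2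
    have hlk : Real.log k ≤ w := (Real.log_le_log (by linarith) hkn).trans hlogw
    have hlk0 : 0 ≤ Real.log k := Real.log_nonneg hk1
    have hdiv : (k : ℝ) / w * Real.log k ≤ k := by
      rw [div_mul_eq_mul_div, div_le_iff₀ (by linarith)]
      exact mul_le_mul_of_nonneg_left hlk (by linarith)
    linarith
  have hterm : ∀ k ∈ Finset.Icc 1 n, (1 / (k : ℝ) ^ 2) *
      ((∑ R ∈ S.powersetCard k, (faceSize R x : ℝ)) / (n.choose k : ℝ)) ≤
      2880 * (1 / (k : ℝ)) + 320 * (1 + Real.log w) * ((1 / (k : ℝ) ^ 2) *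
        ((∑ R ∈ S.powersetCard k, (lightCount R w : ℝ)) / (n.choose k : ℝ))) := by
    intro k hk
    have hk' := hk
    rw [Finset.mem_Icc] at hk'
    have hk1 : (1 : ℝ) ≤ k := by exact_mod_cast hk'.1
    have hc : (0 : ℝ) < (n.choose k : ℝ) := by
      exact_mod_cast Nat.choose_pos hk'.2
    have hsum : ∑ R ∈ S.powersetCard k, (faceSize R x : ℝ) ≤
        (n.choose k : ℝ) * (2880 * (k : ℝ)) + 320 * (1 + Real.log w) *
          ∑ R ∈ S.powersetCard k, (lightCount R w : ℝ) := by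
      refine (Finset.sum_le_sum (hpt k hk)).trans (le_of_eq ?_)
      rw [Finset.sum_add_distrib, Finset.sum_const, Finset.card_powersetCard, ← hn_def,
        nsmul_eq_mul, Finset.mul_sum]
    have hdiv : (∑ R ∈ S.powersetCard k, (faceSize R x : ℝ)) / (n.choose k : ℝ) ≤
        2880 * (k : ℝ) + 320 * (1 + Real.log w) *
          ((∑ R ∈ S.powersetCard k, (lightCount R w : ℝ)) / (n.choose k : ℝ)) := by
      rw [div_le_iff₀ hc]
      refine hsum.trans (le_of_eq ?_)
      field_simp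
    have hk2 : 0 ≤ 1 / (k : ℝ) ^ 2 := by positivity
    refine (mul_le_mul_of_nonneg_left hdiv hk2).trans (le_of_eq ?_)
    have hkne : (k : ℝ) ≠ 0 := by linarith
    field_simp
  refine (Finset.sum_le_sum hterm).trans ?_
  rw [Finset.sum_add_distrib, ← Finset.mul_sum, ← Finset.mul_sum]
  have hS := sum_lightCount S w hw1
  rw [← hn_def] at hS
  have hH := harm_le n hn
  have hsq := sq_log_le hw1R
  have h320 : 320 * (1 + Real.log w) * ∑ k ∈ Finset.Icc 1 n, (1 / (k : ℝ) ^ 2) *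
      ((∑ R ∈ S.powersetCard k, (lightCount R w : ℝ)) / (n.choose k : ℝ)) ≤
      320 * (1 + Real.log w) * (1 + Real.log w) :=
    mul_le_mul_of_nonneg_left hS (by linarith)
  nlinarith

end P7b
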