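import Pool.Agent.Lib.P7b.Pert
import Pool.Agent.Lib.P7b.ThmB

/-! MP_7b5a71: Theorems A and B for families any two segments of which share at most one point.

`X s = {t ∈ S | t ≠ s ∧ (car (p s) ∩ car (p t)).Nonempty}` with `p` from `pert`; `cross (R.image p) (p s) = (R ∩ X s).card` for `s ∈ R ⊆ S` by injectivity, and `lightCount (R.image p) w` is the number of
`s ∈ R` with `1 ≤ |R ∩ X s| ≤ w`.  `thmA` for `R.image p` (`GP.mono`, `un` monotone, `card_image`).  `thmB_lp`: `thmB` for `S.image p` and the bijection `R ↦ R.image p` between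
the `k`-subsets. -/

namespace P7b

namespace ThmLPAux

theorem un_mono {R S : Finset Sg} (h : R ⊆ S) : un R ⊆ un S := by
  unfold un
  exact Set.biUnion_subset_biUnion_left (fun s hs => h hs)

open Classical in
theorem cross_image {S R : Finset Sg} {p : Sg → Sg} (hp : Set.InjOn p S) (hR : R ⊆ S) {s : Sg}
    (hs : s ∈ R) : cross (R.image p) (p s) =
      (R ∩ S.filter (fun t => t ≠ s ∧ (car (p s) ∩ car (p t)).Nonempty)).card := by
  have h1 : (R.image p).filter (fun t => t ≠ p s ∧ (car (p s) ∩ car t).Nonempty) =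
      (R ∩ S.filter (fun t => t ≠ s ∧ (car (p s) ∩ car (p t)).Nonempty)).image p := by
    ext t
    simp only [Finset.mem_filter, Finset.mem_image, Finset.mem_inter]
    constructor
    · rintro ⟨⟨u, hu, rfl⟩, h2, h3⟩
      exact ⟨u, ⟨hu, hR hu, fun h => h2 (by rw [h]), h3⟩, rfl⟩
    · rintro ⟨u, ⟨hu, hu2, h2, h3⟩, rfl⟩
      exact ⟨⟨u, hu, rfl⟩, fun h => h2 (hp (Finset.mem_coe.2 hu2) (Finset.mem_coe.2 (hR hs)) h), h3⟩
  unfold cross
  rw [h1, Finset.card_image_of_injOn]
  intro a ha b hb hab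
  have ha' := (Finset.mem_inter.1 (Finset.mem_coe.1 ha)).1
  have hb' := (Finset.mem_inter.1 (Finset.mem_coe.1 hb)).1
  exact hp (Finset.mem_coe.2 (hR ha')) (Finset.mem_coe.2 (hR hb')) hab

open Classical in
theorem light_image {S R : Finset Sg} {p : Sg → Sg} (hp : Set.InjOn p S) (hR : R ⊆ S) (w : ℕ) :
    lightCount (R.image p) w ≤ (R.filter (fun s =>
      1 ≤ (R ∩ S.filter (fun t => t ≠ s ∧ (car (p s) ∩ car (p t)).Nonempty)).card ∧
      (R ∩ S.filter (fun t => t ≠ s ∧ (car (p s) ∩ car (p t)).Nonempty)).card ≤ w)).card := by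
  unfold lightCount
  refine (Finset.card_le_card ?_).trans (Finset.card_image_le (f := p))
  intro t ht
  rw [Finset.mem_filter, Finset.mem_image] at ht
  obtain ⟨⟨s, hs, rfl⟩, h⟩ := ht
  rw [cross_image hp hR hs] at h
  exact Finset.mem_image_of_mem p (Finset.mem_filter.2 ⟨hs, h⟩)

end ThmLPAux

open ThmLPAux

open Classical in
theorem thmA_lp {S : Finset Sg} (hS : LP S) {x : ℂ} (hx : x ∉ un S) :
    ∃ X : Sg → Finset Sg, (∀ s ∈ S, X s ⊆ S ∧ s ∉ X s) ∧ ∀ R ⊆ S, ∀ w : ℕ, 1 ≤ w →
      (faceSize R x : ℝ) ≤ 2240 * (R.card : ℝ) + 640 * ((R.card : ℝ) / w * Real.log R.card)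
        + 320 * (1 + Real.log w) *
          (R.filter (fun s => 1 ≤ (R ∩ X s).card ∧ (R ∩ X s).card ≤ w)).card := by
  obtain ⟨p, hinj, hgp, hoff, hF⟩ := pert hS hx
  refine ⟨fun s => S.filter (fun t => t ≠ s ∧ (car (p s) ∩ car (p t)).Nonempty), ?_, ?_⟩
  · intro s _
    refine ⟨Finset.filter_subset _ _, fun h => ?_⟩
    exact (Finset.mem_filter.1 h).2.1 rfl
  · intro R hR w hw
    have hsub : R.image p ⊆ S.image p := Finset.image_subset_image hR
    have hc : (R.image p).card = R.card :=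
      Finset.card_image_of_injOn (hinj.mono (Finset.coe_subset.2 hR))
    have hA := (thmA (hgp.mono hsub) (fun h => hoff (un_mono hsub h)) w hw).2
    rw [hc] at hA
    have hle : (faceSize R x : ℝ) ≤ (faceSize (R.image p) x : ℝ) := by
      have h1 := (hF R hR).2
      exact_mod_cast h1
    have hl : ((lightCount (R.image p) w : ℕ) : ℝ) ≤ ((R.filter (fun s =>
      1 ≤ (R ∩ S.filter (fun t => t ≠ s ∧ (car (p s) ∩ car (p t)).Nonempty)).card ∧
      (R ∩ S.filter (fun t => t ≠ s ∧ (car (p s) ∩ car (p t)).Nonempty)).card ≤ w)).card : ℝ) := by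
      exact_mod_cast light_image hinj hR w
    have hw1 : (1 : ℝ) ≤ w := by exact_mod_cast hw
    have hlw : 0 ≤ Real.log w := Real.log_nonneg hw1
    have hm := mul_le_mul_of_nonneg_left hl (by positivity : 0 ≤ 320 * (1 + Real.log w))
    exact hle.trans (hA.trans (by linarith))

theorem thmB_lp {S : Finset Sg} (hS : LP S) {x : ℂ} (hx : x ∉ un S) :
    ∑ k ∈ Finset.Icc 1 S.card, (1 / (k : ℝ) ^ 2) *
      ((∑ R ∈ S.powersetCard k, (faceSize R x : ℝ)) / (S.card.choose k : ℝ))
        ≤ 4800 * (1 + Real.log S.card) := by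
  classical
  obtain ⟨p, hinj, hgp, hoff, hF⟩ := pert hS hx
  have hc : (S.image p).card = S.card := Finset.card_image_of_injOn hinj
  have hB := thmB hgp hoff
  rw [hc] at hB
  refine le_trans (Finset.sum_le_sum fun k _ => ?_) hB
  refine mul_le_mul_of_nonneg_left ?_ (by positivity)
  refine div_le_div_of_nonneg_right ?_ (Nat.cast_nonneg _)
  have himg : ∑ R ∈ S.powersetCard k, (faceSize (R.image p) x : ℝ) =
      ∑ R' ∈ (S.powersetCard k).image (fun R => R.image p), (faceSize R' x : ℝ) := by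
    rw [Finset.sum_image]
    intro R hR T hT hRT
    have hR' := (Finset.mem_powersetCard.1 (Finset.mem_coe.1 hR)).1
    have hT' := (Finset.mem_powersetCard.1 (Finset.mem_coe.1 hT)).1
    have hRT' : R.image p = T.image p := hRT
    ext s
    constructor
    · intro hs
      have h1 : p s ∈ T.image p := by
        rw [← hRT']
        exact Finset.mem_image_of_mem p hs
      obtain ⟨t, ht, hts⟩ := Finset.mem_image.1 h1
      have h2 := hinj (Finset.mem_coe.2 (hT' ht)) (Finset.mem_coe.2 (hR' hs)) hts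
      rw [← h2]
      exact ht
    · intro hs
      have h1 : p s ∈ R.image p := by
        rw [hRT']
        exact Finset.mem_image_of_mem p hs
      obtain ⟨t, ht, hts⟩ := Finset.mem_image.1 h1
      have h2 := hinj (Finset.mem_coe.2 (hR' ht)) (Finset.mem_coe.2 (hT' hs)) hts
      rw [← h2]
      exact ht
  calc ∑ R ∈ S.powersetCard k, (faceSize R x : ℝ)
      ≤ ∑ R ∈ S.powersetCard k, (faceSize (R.image p) x : ℝ) := by
        refine Finset.sum_le_sum fun R hR => ?_
        have h1 := (hF R (Finset.mem_powersetCard.1 hR).1).2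
        exact_mod_cast h1
    _ = ∑ R' ∈ (S.powersetCard k).image (fun R => R.image p), (faceSize R' x : ℝ) := himg
    _ ≤ ∑ R' ∈ (S.image p).powersetCard k, (faceSize R' x : ℝ) := by
        refine Finset.sum_le_sum_of_subset_of_nonneg ?_ fun _ _ _ => Nat.cast_nonneg _
        intro R' hR'
        obtain ⟨R, hR, rfl⟩ := Finset.mem_image.1 hR'
        have hR2 := Finset.mem_powersetCard.1 hR
        refine Finset.mem_powersetCard.2 ⟨Finset.image_subset_image hR2.1, ?_⟩
        rw [Finset.card_image_of_injOn (hinj.mono (Finset.coe_subset.2 hR2.1)), hR2.2]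

end P7b
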