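import Pool.Agent.Lib.P7b.Idx
import Pool.Agent.Lib.P7b.Disj

/-! MP_7b5a71: the tips in the pockets of an interval of indices.

`Tp d₀ i j` = the set of (segment, direction) such that the tip of this segment in this direction is in the pocket of two indices `p < q` in
`[i, j)` with the same symbol.  Disjointness for disjoint intervals, or for different components of the same face, is `Ax.disj` (the arcs
are disjoint: `mem_arc`, `iter_inj` resp. different orbits; the two darts `t, t'` with the same segment and direction that are tips are equal by `tip_last` and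
`pos_inj`). -/

namespace P7b

namespace PreMap

variable {M : PreMap}

/-- the tips in the pockets of the index interval `[i, j)` -/
noncomputable def Tp (M : PreMap) (d₀ : M.D) (i j : ℕ) : Finset (M.S × Bool) := by
  classical
  exact (Finset.univ : Finset (M.S × Bool)).filter (fun A => ∃ p q : ℕ, i ≤ p ∧ p < q ∧ q < j ∧
    q < M.per d₀ ∧ M.sym d₀ p = M.sym d₀ q ∧ ∃ t, M.seg t = A.1 ∧ M.dir t = A.2 ∧ M.tip t ∧
      ∃ c, M.Col (M.O d₀ p) (q - p) c ∧ M.In (M.O d₀ p) (q - p) c t)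

theorem mem_Tp {d₀ : M.D} {i j : ℕ} {A : M.S × Bool} :
    A ∈ M.Tp d₀ i j ↔ ∃ p q : ℕ, i ≤ p ∧ p < q ∧ q < j ∧
    q < M.per d₀ ∧ M.sym d₀ p = M.sym d₀ q ∧ ∃ t, M.seg t = A.1 ∧ M.dir t = A.2 ∧ M.tip t ∧
      ∃ c, M.Col (M.O d₀ p) (q - p) c ∧ M.In (M.O d₀ p) (q - p) c t := by
  unfold Tp
  simp only [Finset.mem_filter, Finset.mem_univ, true_and]

theorem Tp_mono (d₀ : M.D) (i j i' j' : ℕ) (hi : i' ≤ i) (hj : j ≤ j') :
    M.Tp d₀ i j ⊆ M.Tp d₀ i' j' := by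
  intro A hA
  rw [mem_Tp] at hA ⊢
  obtain ⟨p, q, h1, h2, h3, h4⟩ := hA
  exact ⟨p, q, le_trans hi h1, h2, lt_of_lt_of_le h3 hj, h4⟩

theorem Tp_single (d₀ : M.D) (i : ℕ) : M.Tp d₀ i (i + 1) = ∅ := by
  rw [Finset.eq_empty_iff_forall_notMem]
  intro A hA
  rw [mem_Tp] at hA
  obtain ⟨p, q, h1, h2, h3, h4⟩ := hA
  omega

/-- two tips of the same segment and direction are equal -/
private theorem tip_uniq (h : M.Ax) {t t' : M.D} (hs : M.seg t = M.seg t')
    (hd : M.dir t = M.dir t') (ht : M.tip t) (ht' : M.tip t') : t = t' := by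
  refine h.pos_inj t t' hs hd (le_antisymm ?_ ?_)
  · exact h.tip_last t' t ht' hs hd
  · exact h.tip_last t t' ht hs.symm hd.symm

/-- the elements of the arc of an interval of indices -/
private theorem arc_elem (d₀ : M.D) {p q : ℕ} (hpq : p < q) {d : M.D}
    (hd : d ∈ M.arc (M.O d₀ p) (q - p)) : ∃ k, p < k ∧ k < q ∧ d = M.O d₀ k := by
  rw [mem_arc] at hd
  obtain ⟨i, h1, h2, h3⟩ := hd
  exact ⟨i + p, by omega, by omega, by rw [h3, IdxAux.O_add]⟩

theorem Ax.Tp_disj (h : M.Ax) (d₀ : M.D) (i j i' j' : ℕ) (hj : j ≤ i') :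
    Disjoint (M.Tp d₀ i j) (M.Tp d₀ i' j') := by
  rw [Finset.disjoint_left]
  intro A hA hA'
  rw [mem_Tp] at hA hA'
  obtain ⟨p, q, h1, h2, h3, h4, -, t, hts, htd, htt, c, hc, hin⟩ := hA
  obtain ⟨p', q', h1', h2', h3', h4', -, t', hts', htd', htt', c', hc', hin'⟩ := hA'
  have htt2 : t = t' := tip_uniq h (hts.trans hts'.symm) (htd.trans htd'.symm) htt htt'
  subst htt2
  refine h.disj hc hc' ?_ ?_ t ⟨hin, hin'⟩
  · rw [IdxAux.lft_O h, IdxAux.lft_O h]
  · rw [Finset.disjoint_left]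
    intro d hd hd'
    obtain ⟨k, k1, k2, k3⟩ := arc_elem d₀ h2 hd
    obtain ⟨k', k1', k2', k3'⟩ := arc_elem d₀ h2' hd'
    have := IdxAux.O_inj d₀ (i := k) (j := k') (by omega) (by omega) (k3.symm.trans k3')
    omega

/-- two orbits with a common element -/
private theorem orb_meet (d₀ d₁ : M.D) {a b : ℕ} (he : M.O d₀ a = M.O d₁ b) :
    ∃ k, (M.nxt^[k]) d₀ = d₁ := by
  refine ⟨(M.per d₁ * (b + 1) - b) + a, ?_⟩
  have h1 := IdxAux.O_add d₀ a (M.per d₁ * (b + 1) - b)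
  have hp := per_pos d₁
  have h2 : b ≤ M.per d₁ * (b + 1) := by nlinarith
  have h3 : (M.nxt^[M.per d₁ * (b + 1) - b + a]) d₀ = M.O d₀ (M.per d₁ * (b + 1) - b + a) := rfl
  rw [h3, h1, he, ← IdxAux.O_add d₁ b, Nat.sub_add_cancel h2]
  unfold O
  have h4 : Function.IsPeriodicPt M.nxt (M.per d₁) d₁ := iter_per d₁
  exact h4.mul_const (b + 1)

theorem Ax.Tp_disj_orb (h : M.Ax) (d₀ d₁ : M.D) (hl : M.lft d₀ = M.lft d₁)
    (ho : ∀ k, (M.nxt^[k]) d₀ ≠ d₁) (i j i' j' : ℕ) :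
    Disjoint (M.Tp d₀ i j) (M.Tp d₁ i' j') := by
  rw [Finset.disjoint_left]
  intro A hA hA'
  rw [mem_Tp] at hA hA'
  obtain ⟨p, q, h1, h2, h3, h4, -, t, hts, htd, htt, c, hc, hin⟩ := hA
  obtain ⟨p', q', h1', h2', h3', h4', -, t', hts', htd', htt', c', hc', hin'⟩ := hA'
  have htt2 : t = t' := tip_uniq h (hts.trans hts'.symm) (htd.trans htd'.symm) htt htt'
  subst htt2
  refine h.disj hc hc' ?_ ?_ t ⟨hin, hin'⟩
  · rw [IdxAux.lft_O h, IdxAux.lft_O h, hl]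
  · rw [Finset.disjoint_left]
    intro d hd hd'
    obtain ⟨k, k1, k2, k3⟩ := arc_elem d₀ h2 hd
    obtain ⟨k', k1', k2', k3'⟩ := arc_elem d₁ h2' hd'
    obtain ⟨m, hm⟩ := orb_meet d₀ d₁ (k3.symm.trans k3')
    exact ho m hm

end PreMap

end P7b
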