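import Pool.Agent.Lib.P7b.DSBlock
import Pool.Agent.Lib.P7b.DSHS
import Pool.Agent.Lib.P7b.Greedy

/-! MP_7b5a71: the length of one boundary word.

Proof.  `l = []` trivial.  `greedy_cut` with `N = l.length` gives cuts `c`.  Let `L` be the list of the blocks
`sub l (c t) (c (t+1))`, `t < m`; `L.flatten = l`.  `X = (Tp 0 N).card`, `n = l.toFinset.card`.
* If `m = 1` then `Σ_t |letters| = n`.  If `m ≥ 2` then `m - 1 ≥ m / 2`, so `m (w + 1) ≤ 4 X` and `hart_sharir` gives
  `Σ_t |letters| ≤ 4 n + m (clog₂ m + 1) ≤ 4 n + (4 X / (w + 1)) (clog₂ (4 X) + 1)`.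
* Each block is `NoRep` and `Free5`: `block_bound` gives `|block| ≤ 40 |letters| + 16 dsB (both block).card`, and
  `(both block).card =: b_t ≤ 2 w` (by `hTc` and lightness), so `dsB b_t ≤ b_t (3 + 2 log (2 w))`.
* `Σ_t b_t ≤ T.card` by `hT`, `hTd`.
Sum: `l.length ≤ 160 n + 160 X / (w + 1) (clog₂ (4 X) + 1) + 16 (3 + 2 log (2 w)) T.card`. -/

namespace P7b

open List

variable {α : Type*} [DecidableEq α]

/-- the subword `[i, j)` -/
def sub (l : List α) (i j : ℕ) : List α := (l.drop i).take (j - i)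

namespace WordBoundAux

omit [DecidableEq α] in
theorem flatten_sub (l : List α) (c : ℕ → ℕ) (h0 : c 0 = 0) (k : ℕ)
    (hc : ∀ t < k, c t ≤ c (t + 1)) :
    ((List.range k).map (fun t => sub l (c t) (c (t + 1)))).flatten = l.take (c k) := by
  induction k with
  | zero => simp [h0]
  | succ k ih =>
    rw [List.range_succ, List.map_append, List.flatten_append, ih fun t ht => hc t (by omega)]
    have h1 := hc k (by omega)
    have h2 : c (k + 1) = c k + (c (k + 1) - c k) := by omega
    conv_rhs => rw [h2, List.take_add]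
    simp [sub]

omit [DecidableEq α] in
theorem sub_sublist (l : List α) (i j : ℕ) : (sub l i j).Sublist l :=
  (List.take_sublist _ _).trans (List.drop_sublist _ _)

omit [DecidableEq α] in
theorem sub_chain {R : α → α → Prop} {l : List α} (h : l.IsChain R) (i j : ℕ) :
    (sub l i j).IsChain R := (h.drop _).take _

theorem sum_range_list (f : ℕ → ℕ) (m : ℕ) :
    ((List.range m).map f).sum = ∑ t ∈ Finset.range m, f t := by
  induction m with
  | zero => rfl
  | succ m ih =>
    rw [List.range_succ, List.map_append, List.sum_append, ih, Finset.sum_range_succ]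
    simp

theorem mono_le {c : ℕ → ℕ} {m : ℕ} (hc : ∀ t < m, c t < c (t + 1)) {s t : ℕ} (hst : s ≤ t)
    (ht : t ≤ m) : c s ≤ c t := by
  induction t, hst using Nat.le_induction with
  | base => exact le_rfl
  | succ t hst ih => exact (ih (by omega)).trans (hc t (by omega)).le

theorem dsB_le {n w : ℕ} (hw : 1 ≤ w) (h : n ≤ 2 * w) :
    dsB n ≤ (3 + 2 * Real.log (2 * w)) * n := by
  unfold dsB
  rcases Nat.eq_zero_or_pos n with h0 | h0
  · simp [h0]
  · have h1 : Real.log n ≤ Real.log (2 * w) := by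
      refine Real.log_le_log (by exact_mod_cast h0) ?_
      exact_mod_cast h
    rw [mul_comm]
    refine mul_le_mul_of_nonneg_right ?_ (Nat.cast_nonneg n)
    linarith

end WordBoundAux

/-- The bound for one boundary component.  `Tp i j` are the tips in the pockets of the subword
`[i, j)`, `T` a set containing the both-active letters of all light subwords. -/
theorem word_bound {τ : Type*} [DecidableEq τ] (l : List α) (Tp : ℕ → ℕ → Finset τ) (w : ℕ)
    (hw : 1 ≤ w) (T : Finset α) (hr : NoRep l) (h5 : Free5 l)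
    (hmono : ∀ i j i' j', i' ≤ i → j ≤ j' → Tp i j ⊆ Tp i' j')
    (hdisj : ∀ i j i' j', j ≤ i' → Disjoint (Tp i j) (Tp i' j'))
    (h1 : ∀ i, Tp i (i + 1) = ∅)
    (hT : ∀ i j, i < j → j ≤ l.length → (Tp i j).card ≤ w → both (sub l i j) ⊆ T)
    (hTd : ∀ i j i' j', i < j → j ≤ i' → i' < j' → j' ≤ l.length →
      Disjoint (both (sub l i j)) (both (sub l i' j')))
    (hTc : ∀ i j, i < j → j ≤ l.length → (both (sub l i j)).card ≤ 2 * (Tp i j).card) :
    (l.length : ℝ) ≤ 160 * l.toFinset.card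
      + 160 * ((Tp 0 l.length).card / (w + 1 : ℝ)) * (Nat.clog 2 (4 * (Tp 0 l.length).card) + 1)
      + 16 * (3 + 2 * Real.log (2 * w)) * T.card := by
  have hw1 : (1 : ℝ) ≤ w := by exact_mod_cast hw
  have hlog : 0 ≤ Real.log (2 * w) := Real.log_nonneg (by linarith)
  rcases Nat.eq_zero_or_pos l.length with hN | hN
  · rw [hN]
    have k1 : (0 : ℝ) ≤ (l.toFinset.card : ℝ) := Nat.cast_nonneg _
    have k2 : (0 : ℝ) ≤ ((Tp 0 0).card : ℝ) := Nat.cast_nonneg _
    have k3 : (0 : ℝ) ≤ (Nat.clog 2 (4 * (Tp 0 0).card) : ℝ) := Nat.cast_nonneg _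
    have k4 : (0 : ℝ) ≤ (T.card : ℝ) := Nat.cast_nonneg _
    have h2 : (0 : ℝ) ≤ 160 * ((Tp 0 0).card / (w + 1 : ℝ)) *
        (Nat.clog 2 (4 * (Tp 0 0).card) + 1) :=
      mul_nonneg (mul_nonneg (by norm_num) (div_nonneg k2 (by linarith))) (by linarith)
    have h3 : 0 ≤ 16 * (3 + 2 * Real.log (2 * w)) * (T.card : ℝ) :=
      mul_nonneg (by linarith) k4
    rw [Nat.cast_zero]
    linarith
  obtain ⟨m, c, hm, hc0, hcm, hc, hTw, hmX⟩ := greedy_cut Tp l.length w hN hmono hdisj h1
  obtain ⟨X, hX⟩ : ∃ X, X = (Tp 0 l.length).card := ⟨_, rfl⟩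
  rw [← hX] at hmX ⊢
  have hX0 : (0 : ℝ) ≤ (X : ℝ) := Nat.cast_nonneg _
  have hXw : (0 : ℝ) ≤ X / (w + 1 : ℝ) := div_nonneg hX0 (by linarith)
  have hcl : (0 : ℝ) ≤ (Nat.clog 2 (4 * X) : ℝ) := Nat.cast_nonneg _
  set L : List (List α) := (List.range m).map (fun t => sub l (c t) (c (t + 1))) with hL
  have hLl : L.length = m := by rw [hL, List.length_map, List.length_range]
  have hflat : L.flatten = l := by
    rw [hL, WordBoundAux.flatten_sub l c hc0 m (fun t ht => (hc t ht).le), hcm,
      List.take_length]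
  have hcN : ∀ t ≤ m, c t ≤ l.length := fun t ht => by
    rw [← hcm]
    exact WordBoundAux.mono_le hc ht le_rfl
  -- letters
  have hsumlet : (L.map (fun l => l.toFinset.card)).sum =
      ∑ t ∈ Finset.range m, (sub l (c t) (c (t + 1))).toFinset.card := by
    rw [hL, List.map_map, WordBoundAux.sum_range_list]
    rfl
  have hlet : (((∑ t ∈ Finset.range m, (sub l (c t) (c (t + 1))).toFinset.card : ℕ) : ℕ) : ℝ) ≤
      4 * l.toFinset.card + 4 * (X / (w + 1 : ℝ)) * (Nat.clog 2 (4 * X) + 1) := by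
    rcases Nat.lt_or_ge m 2 with hm2 | hm2
    · have hm1 : m = 1 := by omega
      have h2 : ∑ t ∈ Finset.range m, (sub l (c t) (c (t + 1))).toFinset.card =
          l.toFinset.card := by
        rw [← hsumlet]
        have h3 : L = [sub l (c 0) (c 1)] := by
          rw [hL, hm1]
          rfl
        rw [h3] at hflat ⊢
        rw [List.flatten_singleton] at hflat
        rw [List.map_singleton, List.sum_singleton, hflat]
      rw [h2]
      have h3 : (0 : ℝ) ≤ l.toFinset.card := Nat.cast_nonneg _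
      have h4 : (0 : ℝ) ≤ 4 * (X / (w + 1 : ℝ)) * (Nat.clog 2 (4 * X) + 1) :=
        mul_nonneg (by linarith) (by linarith)
      linarith
    · have h2 := hart_sharir L (by rw [hflat]; exact h5)
      rw [hsumlet, hflat, hLl] at h2
      have h3 : m * (w + 1) ≤ 4 * X := by
        have h4 : m ≤ 2 * (m - 1) := by omega
        calc m * (w + 1) ≤ 2 * (m - 1) * (w + 1) := Nat.mul_le_mul_right _ h4
          _ = 2 * ((m - 1) * (w + 1)) := by ring
          _ ≤ 2 * (2 * X) := Nat.mul_le_mul_left _ hmX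
          _ = 4 * X := by ring
      have h4 : m ≤ 4 * X := (Nat.le_mul_of_pos_right m (by omega)).trans h3
      have h5' : (m : ℝ) ≤ 4 * (X / (w + 1 : ℝ)) := by
        rw [← mul_div_assoc, le_div_iff₀ (by linarith)]
        exact_mod_cast h3
      have h6 : Nat.clog 2 m ≤ Nat.clog 2 (4 * X) := Nat.clog_mono_right 2 h4
      have h7 : ((∑ t ∈ Finset.range m, (sub l (c t) (c (t + 1))).toFinset.card : ℕ) : ℝ) ≤
          4 * l.toFinset.card + m * (Nat.clog 2 m + 1) := by exact_mod_cast h2
      refine h7.trans ?_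
      have h8 : (m : ℝ) * (Nat.clog 2 m + 1) ≤
          4 * (X / (w + 1 : ℝ)) * (Nat.clog 2 (4 * X) + 1) := by
        have h9 : (0 : ℝ) ≤ (Nat.clog 2 m : ℝ) := Nat.cast_nonneg _
        refine mul_le_mul h5' ?_ (by linarith) (by linarith)
        have : (Nat.clog 2 m : ℝ) ≤ Nat.clog 2 (4 * X) := by exact_mod_cast h6
        linarith
      linarith
  -- both-active letters
  have hboth : (∑ t ∈ Finset.range m, (both (sub l (c t) (c (t + 1)))).card : ℕ) ≤ T.card := by
    rw [← Finset.card_biUnion]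
    · refine Finset.card_le_card ?_
      intro a ha
      obtain ⟨t, ht, ha⟩ := Finset.mem_biUnion.1 ha
      have ht' := Finset.mem_range.1 ht
      exact hT _ _ (hc t ht') (hcN (t + 1) (by omega)) (hTw t ht') ha
    · intro s hs t ht hst
      have hs' := Finset.mem_range.1 hs
      have ht' := Finset.mem_range.1 ht
      rcases lt_or_gt_of_ne hst with h | h
      · exact hTd _ _ _ _ (hc s hs') (WordBoundAux.mono_le hc (show s + 1 ≤ t by omega)
          (by omega)) (hc t ht') (hcN (t + 1) (by omega))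
      · exact (hTd _ _ _ _ (hc t ht') (WordBoundAux.mono_le hc (show t + 1 ≤ s by omega)
          (by omega)) (hc s hs') (hcN (s + 1) (by omega))).symm
  -- blocks
  have hblock : ∀ t ∈ Finset.range m, ((sub l (c t) (c (t + 1))).length : ℝ) ≤
      40 * (sub l (c t) (c (t + 1))).toFinset.card +
        16 * ((3 + 2 * Real.log (2 * w)) * (both (sub l (c t) (c (t + 1)))).card) := by
    intro t ht
    have ht' := Finset.mem_range.1 ht
    have h2 := block_bound (sub l (c t) (c (t + 1))) (WordBoundAux.sub_chain hr _ _)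
      (h5.mono (WordBoundAux.sub_sublist _ _ _))
    have h3 := hTc _ _ (hc t ht') (hcN (t + 1) (by omega))
    have h4 := WordBoundAux.dsB_le hw (h3.trans (Nat.mul_le_mul_left 2 (hTw t ht')))
    linarith
  have hlen : (l.length : ℝ) = ∑ t ∈ Finset.range m, ((sub l (c t) (c (t + 1))).length : ℝ) := by
    have h2 : l.length = ∑ t ∈ Finset.range m, (sub l (c t) (c (t + 1))).length := by
      conv_lhs => rw [← hflat]
      rw [List.length_flatten, hL, List.map_map, WordBoundAux.sum_range_list]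
      rfl
    rw [h2]
    push_cast
    rfl
  rw [hlen]
  refine (Finset.sum_le_sum hblock).trans ?_
  rw [Finset.sum_add_distrib, ← Finset.mul_sum, ← Finset.mul_sum, ← Finset.mul_sum]
  have h2 : (∑ t ∈ Finset.range m, ((both (sub l (c t) (c (t + 1)))).card : ℝ)) ≤ T.card := by
    exact_mod_cast hboth
  have h3 : (3 + 2 * Real.log (2 * w)) * (∑ t ∈ Finset.range m,
      ((both (sub l (c t) (c (t + 1)))).card : ℝ)) ≤ (3 + 2 * Real.log (2 * w)) * T.card :=
    mul_le_mul_of_nonneg_left h2 (by linarith)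
  push_cast at hlet
  have h4 : 40 * (∑ t ∈ Finset.range m, ((sub l (c t) (c (t + 1))).toFinset.card : ℝ)) ≤
      40 * (4 * l.toFinset.card + 4 * (X / (w + 1 : ℝ)) * (Nat.clog 2 (4 * X) + 1)) :=
    mul_le_mul_of_nonneg_left hlet (by norm_num)
  calc _ ≤ 40 * (4 * (l.toFinset.card : ℝ) + 4 * (X / (w + 1 : ℝ)) *
        (Nat.clog 2 (4 * X) + 1)) + 16 * ((3 + 2 * Real.log (2 * w)) * T.card) := by
          linarith
    _ = _ := by ring

end P7b
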